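import Pool.Agent.Lib.MP_5185df_an.Stmts

/-!
# Assembly of the main theorem from the module statements
-/

open Filter Topology
open scoped InnerProductSpace ComplexConjugate

namespace GVN

theorem kazhdan_pair {G : Type} [Group G] (h : Kazhdan G) :
    ∃ (S : Finset G) (c : ℝ), Subgroup.closure (S : Set G) = ⊤ ∧ KPair S c := by
  obtain ⟨S, hS, c, hc, h⟩ := h
  exact ⟨S, c, hS, hc, h⟩

theorem not_elemEquiv (h1 : FromUStmt) (h2 : NoIrrStmt) {G : Type} [Group G] (hI : ICC G)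
    (hT : Kazhdan G) : ¬ ElemEquiv G (FreeGroup (Fin 2)) := by
  rintro ⟨U, V, hU, hV, ⟨Φ⟩⟩
  obtain ⟨S, c, hS, hc⟩ := kazhdan_pair hT
  obtain ⟨a, ha, hirr⟩ := h1 G hI S c hS hc U V hU hV Φ
  exact h2 G S c hc V hV a ha hirr

end GVN
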