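import Pool.Agent.Lib.MP_5185df_an.Defs

/-!
# Basic API for `ℓ²(G)`, the algebra `Conv G`, the trace and the 2-norm
-/

open Filter Topology
open scoped InnerProductSpace ComplexConjugate

namespace GVN

section l2
variable {G : Type}

@[simp] theorem del_same (i : G) : del i i = 1 := by
  classical
  exact lp.single_apply_self (E := fun _ : G => ℂ) 2 i (1 : ℂ)

theorem del_ne {i j : G} (h : j ≠ i) : del i j = 0 := by
  classical
  exact lp.single_apply_ne (E := fun _ : G => ℂ) 2 i (1 : ℂ) h

@[simp] theorem norm_del (i : G) : ‖del i‖ = 1 := by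
  classical
  unfold del
  rw [lp.norm_single (by norm_num)]
  simp

theorem inner_del (i : G) (f : E2 G) : ⟪del i, f⟫_ℂ = f i := by
  classical
  unfold del
  have := lp.inner_single_left (𝕜 := ℂ) i (1 : ℂ) f
  rw [show (lp.single 2 i (1 : ℂ) : E2 G) = lp.single 2 i (1 : ℂ) from rfl] at this
  convert this using 1
  simp

theorem hasSum_del (f : E2 G) : HasSum (fun i => f i • del i) f := by
  classical
  have := lp.hasSum_single (p := 2) (by norm_num) f
  convert this using 1
  funext i
  ext j
  by_cases h : j = i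
  · subst h
    rw [lp.coeFn_smul, Pi.smul_apply, del_same, lp.single_apply_self]; simp
  · rw [lp.coeFn_smul, Pi.smul_apply, del_ne h, lp.single_apply_ne _ _ _ h]; simp

theorem E2_ext {f g : E2 G} (h : ∀ i, f i = g i) : f = g := by
  ext i; exact h i

theorem E2_sub_apply (f g : E2 G) (i : G) : (f - g) i = f i - g i := rfl
theorem E2_add_apply (f g : E2 G) (i : G) : (f + g) i = f i + g i := rfl
theorem E2_smul_apply (c : ℂ) (f : E2 G) (i : G) : (c • f) i = c * f i := rfl

theorem dense_span_del : Dense (Submodule.span ℂ (Set.range (del : G → E2 G)) : Set (E2 G)) := by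
  intro f
  refine mem_closure_of_tendsto (hasSum_del f) (Eventually.of_forall fun s => ?_)
  exact Submodule.sum_mem _ fun i _ => Submodule.smul_mem _ _ (Submodule.subset_span ⟨i, rfl⟩)

/-- Two bounded operators which agree on all `δ_g` are equal. -/
theorem op_ext {A B : Op G} (h : ∀ g, A (del g) = B (del g)) : A = B := by
  apply ContinuousLinearMap.ext_on (s := Set.range (del : G → E2 G)) dense_span_del
  rintro _ ⟨g, rfl⟩
  exact h g

theorem summable_sq (f : E2 G) : Summable fun i => ‖f i‖ ^ 2 := by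
  have := (lp.memℓp f).summable (by norm_num)
  simpa using this

theorem norm_sq_eq_tsum (f : E2 G) : ‖f‖ ^ 2 = ∑' i, ‖f i‖ ^ 2 := by
  have := lp.norm_rpow_eq_tsum (p := 2) (by norm_num) f
  simpa using this

theorem perm_apply (σ : Equiv.Perm G) (f : E2 G) (x : G) : perm σ f x = f (σ.symm x) := rfl

@[simp] theorem perm_del (σ : Equiv.Perm G) (g : G) : perm σ (del g) = del (σ g) := by
  apply E2_ext
  intro x
  rw [perm_apply]
  by_cases h : x = σ g
  · subst h; simp
  · rw [del_ne h, del_ne]
    intro h2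
    apply h
    rw [← h2, Equiv.apply_symm_apply]

theorem perm_mul (σ τ : Equiv.Perm G) : perm (σ * τ) = perm σ * perm τ := by
  apply op_ext
  intro g
  change perm (σ * τ) (del g) = perm σ (perm τ (del g))
  simp

theorem perm_one : perm (1 : Equiv.Perm G) = 1 := by
  apply op_ext
  intro g
  change perm (1 : Equiv.Perm G) (del g) = del g
  simp

theorem norm_perm_apply (σ : Equiv.Perm G) (f : E2 G) : ‖perm σ f‖ = ‖f‖ := by
  rw [lp.norm_eq_tsum_rpow (by norm_num), lp.norm_eq_tsum_rpow (by norm_num)]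
  congr 1
  exact σ.symm.tsum_eq (fun x => ‖f x‖ ^ (2 : ENNReal).toReal)

theorem star_perm (σ : Equiv.Perm G) : star (perm σ) = perm σ⁻¹ := by
  have h2 := (ContinuousLinearMap.norm_map_iff_adjoint_comp_self (perm σ)).1 (norm_perm_apply σ)
  have h3 : star (perm σ) * perm σ = 1 := h2
  calc star (perm σ) = star (perm σ) * (perm σ * perm σ⁻¹) := by
        rw [← perm_mul, mul_inv_cancel, perm_one, mul_one]
    _ = perm σ⁻¹ := by rw [← mul_assoc, h3, one_mul]

end l2

section grp
variable {G : Type} [Group G]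

theorem lam_apply (g : G) (f : E2 G) (x : G) : lam g f x = f (g⁻¹ * x) := rfl

@[simp] theorem lam_del (g h : G) : lam g (del h) = del (g * h) := by
  simp [lam]

theorem lam_mul (g h : G) : lam (g * h) = lam g * lam h := by
  apply op_ext
  intro x
  change lam (g * h) (del x) = lam g (lam h (del x))
  simp [mul_assoc]

@[simp] theorem lam_one : lam (1 : G) = 1 := by
  apply op_ext
  intro x
  change lam (1 : G) (del x) = del x
  simp

theorem norm_lam_apply (g : G) (f : E2 G) : ‖lam g f‖ = ‖f‖ := norm_perm_apply _ f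

theorem star_lam (g : G) : star (lam g) = lam g⁻¹ := by
  have h2 := (ContinuousLinearMap.norm_map_iff_adjoint_comp_self (lam g)).1 (norm_lam_apply g)
  have h3 : star (lam g) * lam g = 1 := h2
  calc star (lam g) = star (lam g) * (lam g * lam g⁻¹) := by
        rw [← lam_mul, mul_inv_cancel, lam_one, mul_one]
    _ = lam g⁻¹ := by rw [← mul_assoc, h3, one_mul]

/-- The right regular unitary `δ_h ↦ δ_{h g⁻¹}`. -/
noncomputable def rt (g : G) : Op G := perm (Equiv.mulRight g⁻¹)

@[simp] theorem rt_del (g h : G) : rt g (del h) = del (h * g⁻¹) := by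
  simp [rt]

theorem rt_apply (g : G) (f : E2 G) (x : G) : rt g f x = f (x * g) := by
  change f ((Equiv.mulRight g⁻¹).symm x) = _
  simp

theorem rt_mul (g h : G) : rt (g * h) = rt g * rt h := by
  apply op_ext
  intro x
  change rt (g * h) (del x) = rt g (rt h (del x))
  simp [mul_assoc]

@[simp] theorem rt_one : rt (1 : G) = 1 := by
  apply op_ext
  intro x
  change rt (1 : G) (del x) = del x
  simp

theorem norm_rt_apply (g : G) (f : E2 G) : ‖rt g f‖ = ‖f‖ := norm_perm_apply _ f

theorem star_rt (g : G) : star (rt g) = rt g⁻¹ := by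
  have h2 := (ContinuousLinearMap.norm_map_iff_adjoint_comp_self (rt g)).1 (norm_rt_apply g)
  have h3 : star (rt g) * rt g = 1 := h2
  calc star (rt g) = star (rt g) * (rt g * rt g⁻¹) := by
        rw [← rt_mul, mul_inv_cancel, rt_one, mul_one]
    _ = rt g⁻¹ := by rw [← mul_assoc, h3, one_mul]

theorem lam_rt_comm (g h : G) : lam g * rt h = rt h * lam g := by
  apply op_ext
  intro x
  change lam g (rt h (del x)) = rt h (lam g (del x))
  simp [mul_assoc]

/-- The right convolution algebra: all operators commuting with the right translations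
(by the commutation theorem this is `L(G)`; we only need `L(G) ⊆ Conv G`). -/
noncomputable def Conv (G : Type) [Group G] : StarSubalgebra ℂ (Op G) :=
  StarSubalgebra.centralizer ℂ (Set.range (rt : G → Op G))

theorem mem_Conv {T : Op G} : T ∈ Conv G ↔ ∀ g, rt g * T = T * rt g := by
  unfold Conv
  rw [StarSubalgebra.mem_centralizer_iff]
  constructor
  · intro h g
    exact (h (rt g) ⟨g, rfl⟩).1
  · rintro h _ ⟨g, rfl⟩
    refine ⟨h g, ?_⟩
    rw [star_rt]
    exact h _

theorem Conv_rt {T : Op G} (hT : T ∈ Conv G) (g : G) (f : E2 G) : T (rt g f) = rt g (T f) := by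
  have := DFunLike.congr_fun (mem_Conv.1 hT g) f
  exact this.symm

theorem Conv_del {T : Op G} (hT : T ∈ Conv G) (g : G) : T (del g) = rt g⁻¹ (T (del 1)) := by
  rw [← Conv_rt hT]; simp

theorem Conv_del_apply {T : Op G} (hT : T ∈ Conv G) (g x : G) :
    T (del g) x = T (del 1) (x * g⁻¹) := by
  rw [Conv_del hT, rt_apply]

theorem lam_mem_Conv (g : G) : lam g ∈ Conv G := by
  rw [mem_Conv]; intro h; exact (lam_rt_comm g h).symm

theorem Conv_ext {A B : Op G} (hA : A ∈ Conv G) (hB : B ∈ Conv G) (h : A (del 1) = B (del 1)) :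
    A = B := by
  apply op_ext
  intro g
  rw [Conv_del hA, Conv_del hB, h]

/-- The 2-norm. -/
noncomputable def n2 (T : Op G) : ℝ := ‖T (del 1)‖

/-- The trace. -/
noncomputable def tr (T : Op G) : ℂ := T (del 1) 1

theorem tr_eq_inner (T : Op G) : tr T = ⟪del 1, T (del 1)⟫_ℂ := (inner_del _ _).symm

theorem n2_nonneg (T : Op G) : 0 ≤ n2 T := norm_nonneg _

@[simp] theorem n2_zero : n2 (0 : Op G) = 0 := by simp [n2]

@[simp] theorem n2_one : n2 (1 : Op G) = 1 := by
  change ‖del (1 : G)‖ = 1
  simp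

@[simp] theorem tr_one : tr (1 : Op G) = 1 := by
  change del (1 : G) 1 = 1
  simp

@[simp] theorem tr_zero : tr (0 : Op G) = 0 := rfl

theorem tr_add (S T : Op G) : tr (S + T) = tr S + tr T := rfl
theorem tr_sub (S T : Op G) : tr (S - T) = tr S - tr T := rfl
theorem tr_smul (c : ℂ) (T : Op G) : tr (c • T) = c * tr T := rfl
theorem tr_neg (T : Op G) : tr (-T) = - tr T := rfl

theorem tr_lam_ne {g : G} (h : g ≠ 1) : tr (lam g) = 0 := by
  change (lam g (del 1)) 1 = 0
  rw [lam_del, mul_one]
  exact del_ne (Ne.symm h)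

theorem n2_add_le (S T : Op G) : n2 (S + T) ≤ n2 S + n2 T := norm_add_le _ _

theorem n2_sub_le (S T : Op G) : n2 (S - T) ≤ n2 S + n2 T := norm_sub_le _ _

theorem n2_neg (T : Op G) : n2 (-T) = n2 T := norm_neg _

theorem n2_sub_comm (S T : Op G) : n2 (S - T) = n2 (T - S) := norm_sub_rev _ _

theorem n2_smul (c : ℂ) (T : Op G) : n2 (c • T) = ‖c‖ * n2 T :=
  norm_smul c (T (del 1))

theorem n2_triangle (R S T : Op G) : n2 (R - T) ≤ n2 (R - S) + n2 (S - T) :=
  norm_sub_le_norm_sub_add_norm_sub (R (del 1)) (S (del 1)) (T (del 1))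

theorem n2_le_norm (T : Op G) : n2 T ≤ ‖T‖ := by
  have := T.le_opNorm (del (1 : G))
  rwa [norm_del, mul_one] at this

theorem n2_mul_le (S T : Op G) : n2 (S * T) ≤ ‖S‖ * n2 T := S.le_opNorm _

theorem norm_tr_le (T : Op G) : ‖tr T‖ ≤ n2 T := by
  rw [tr_eq_inner]
  calc ‖⟪del (1 : G), T (del 1)⟫_ℂ‖ ≤ ‖del (1 : G)‖ * ‖T (del 1)‖ := norm_inner_le_norm _ _
    _ = n2 T := by rw [norm_del, one_mul]; rfl

theorem star_apply {T : Op G} (hT : T ∈ Conv G) (g : G) :
    (star T) (del 1) g = conj (T (del 1) g⁻¹) := by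
  rw [← inner_del g ((star T) (del 1))]
  change ⟪del g, (ContinuousLinearMap.adjoint T) (del 1)⟫_ℂ = _
  rw [ContinuousLinearMap.adjoint_inner_right, Conv_del hT, ← inner_conj_symm, inner_del, rt_apply,
    one_mul]

theorem n2_star {T : Op G} (hT : T ∈ Conv G) : n2 (star T) = n2 T := by
  have h1 : n2 (star T) ^ 2 = n2 T ^ 2 := by
    unfold n2
    rw [norm_sq_eq_tsum, norm_sq_eq_tsum]
    rw [← (Equiv.inv G).tsum_eq (fun i => ‖T (del 1) i‖ ^ 2)]
    congr 1
    funext i
    rw [star_apply hT]
    simp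
  have h2 := n2_nonneg (star T)
  have h3 := n2_nonneg T
  nlinarith [sq_nonneg (n2 (star T) - n2 T), sq_nonneg (n2 (star T) + n2 T)]

theorem norm_star_op (T : Op G) : ‖star T‖ = ‖T‖ := ContinuousLinearMap.adjoint.norm_map T

theorem n2_mul_le' {S T : Op G} (hS : S ∈ Conv G) (hT : T ∈ Conv G) :
    n2 (S * T) ≤ n2 S * ‖T‖ := by
  rw [← n2_star (mul_mem hS hT), star_mul]
  calc n2 (star T * star S) ≤ ‖star T‖ * n2 (star S) := n2_mul_le _ _
    _ = n2 S * ‖T‖ := by rw [norm_star_op, n2_star hS, mul_comm]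

theorem tr_star_mul (S T : Op G) : tr (star S * T) = ⟪S (del 1), T (del 1)⟫_ℂ := by
  rw [tr_eq_inner]
  change ⟪del 1, (ContinuousLinearMap.adjoint S) (T (del 1))⟫_ℂ = _
  rw [ContinuousLinearMap.adjoint_inner_right]

theorem tr_star_mul_self (T : Op G) : tr (star T * T) = ((n2 T ^ 2 : ℝ) : ℂ) := by
  rw [tr_star_mul, inner_self_eq_norm_sq_to_K]
  unfold n2
  push_cast
  rfl

theorem tr_star {T : Op G} (hT : T ∈ Conv G) : tr (star T) = conj (tr T) := by
  change (star T) (del 1) 1 = _
  rw [star_apply hT, inv_one]; rfl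

theorem tr_mul_comm {S T : Op G} (hS : S ∈ Conv G) (hT : T ∈ Conv G) :
    tr (S * T) = tr (T * S) := by
  have h1 : tr (S * T) = ⟪(star S) (del 1), T (del 1)⟫_ℂ := by
    rw [← tr_star_mul, star_star]
  have h2 : tr (T * S) = ⟪(star T) (del 1), S (del 1)⟫_ℂ := by
    rw [← tr_star_mul, star_star]
  rw [h1, h2]
  have e1 : HasSum (fun i => ⟪(star S) (del 1) i, T (del 1) i⟫_ℂ)
    ⟪(star S) (del 1), T (del 1)⟫_ℂ := lp.hasSum_inner _ _
  have e2 : HasSum (fun i => ⟪(star T) (del 1) i, S (del 1) i⟫_ℂ)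
    ⟪(star T) (del 1), S (del 1)⟫_ℂ := lp.hasSum_inner _ _
  rw [← (Equiv.inv G).hasSum_iff] at e2
  refine e1.unique ?_
  convert e2 using 1
  funext i
  simp only [Function.comp, Equiv.inv_apply]
  rw [star_apply hS, star_apply hT, inv_inv]
  simp only [RCLike.inner_apply, starRingEnd_self_apply]
  ring

theorem n2_sub_tr_sq {T : Op G} : n2 (T - tr T • (1 : Op G)) ^ 2 = n2 T ^ 2 - ‖tr T‖ ^ 2 := by
  unfold n2
  change ‖T (del 1) - tr T • del (1 : G)‖ ^ 2 = _
  rw [norm_sub_sq (𝕜 := ℂ), inner_smul_right, norm_smul, norm_del, mul_one]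
  have : ⟪T (del 1), del (1 : G)⟫_ℂ = conj (tr T) := by
    rw [← inner_conj_symm, ← tr_eq_inner]
  rw [this, Complex.mul_conj]
  simp only [RCLike.re_to_complex, Complex.ofReal_re]
  rw [Complex.normSq_eq_norm_sq]
  ring

/-- The trace is the best scalar approximation. -/
theorem n2_sub_tr_le (T : Op G) (c : ℂ) : n2 (T - tr T • (1 : Op G)) ≤ n2 (T - c • (1 : Op G)) := by
  have h1 := n2_sub_tr_sq (T := T - c • (1 : Op G))
  have h2 : T - c • (1 : Op G) - tr (T - c • (1 : Op G)) • (1 : Op G) = T - tr T • (1 : Op G) := by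
    rw [tr_sub, tr_smul, tr_one, mul_one, sub_smul]; abel
  rw [h2] at h1
  have h3 := n2_nonneg (T - tr T • (1 : Op G))
  have h4 := n2_nonneg (T - c • (1 : Op G))
  have h5 : 0 ≤ ‖tr (T - c • (1 : Op G))‖ ^ 2 := by positivity
  nlinarith

/-! ### The group algebra -/

/-- The left regular representation as a monoid homomorphism. -/
noncomputable def lamHom (G : Type) [Group G] : G →* Op G where
  toFun := lam
  map_one' := lam_one
  map_mul' := lam_mul

/-- The left regular representation of the group algebra. -/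
noncomputable def Lr {G : Type} [Group G] : MonoidAlgebra ℂ G →ₐ[ℂ] Op G :=
  MonoidAlgebra.lift ℂ (Op G) G (lamHom G)

theorem Lr_single (g : G) (c : ℂ) : Lr (MonoidAlgebra.single g c) = c • lam g := by
  unfold Lr
  rw [MonoidAlgebra.lift_single]
  rfl

theorem Lr_mem_Conv (p : MonoidAlgebra ℂ G) : Lr p ∈ Conv G := by
  unfold Lr
  rw [MonoidAlgebra.lift_apply]
  exact sum_mem fun g _ => (Conv G).smul_mem (lam_mem_Conv g) _

theorem Lr_del (p : MonoidAlgebra ℂ G) (x : G) : Lr p (del 1) x = p.coeff x := by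
  classical
  unfold Lr
  rw [MonoidAlgebra.lift_apply, Finsupp.sum, sum_apply]
  have : ∀ g, (p.coeff g • (lamHom G) g) (del 1) = p.coeff g • del g := by
    intro g
    change p.coeff g • (lam g (del 1)) = _
    rw [lam_del, mul_one]
  simp only [this]
  rw [← inner_del x, inner_sum]
  simp only [inner_smul_right, inner_del]
  by_cases hx : x ∈ p.coeff.support
  · rw [Finset.sum_eq_single x]
    · simp
    · intro b _ hb
      rw [del_ne (Ne.symm hb), mul_zero]
    · intro h; exact absurd hx h
  · rw [Finset.sum_eq_zero]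
    · simpa using (Finsupp.notMem_support_iff.1 hx).symm
    · intro b hb
      rw [del_ne, mul_zero]
      rintro rfl
      exact hx hb

theorem norm_perm_le {G : Type} (σ : Equiv.Perm G) : ‖perm σ‖ ≤ 1 := by
  refine ContinuousLinearMap.opNorm_le_bound _ zero_le_one fun f => ?_
  rw [norm_perm_apply, one_mul]

theorem norm_lam_le (g : G) : ‖lam g‖ ≤ 1 := norm_perm_le _

theorem norm_rt_le (g : G) : ‖rt g‖ ≤ 1 := norm_perm_le _

/-- The adjoint on the group algebra. -/
noncomputable def adj (p : MonoidAlgebra ℂ G) : MonoidAlgebra ℂ G :=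
  p.coeff.sum fun g c => MonoidAlgebra.single g⁻¹ (conj c)

theorem Lr_adj (p : MonoidAlgebra ℂ G) : Lr (adj p) = star (Lr p) := by
  unfold adj
  rw [Finsupp.sum, map_sum]
  conv_rhs => rw [Lr, MonoidAlgebra.lift_apply, Finsupp.sum, star_sum]
  refine Finset.sum_congr rfl fun g _ => ?_
  rw [Lr_single, star_smul]
  change _ = _ • star (lam g)
  rw [star_lam]
  rfl

theorem Lr_injective : Function.Injective (Lr : MonoidAlgebra ℂ G → Op G) := by
  intro p q h
  ext x
  rw [← Lr_del, ← Lr_del, h]

/-! ### Relative commutants -/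

/-- The commutant of a set of operators (and their adjoints). -/
noncomputable def Cen {G : Type} (X : Set (Op G)) : StarSubalgebra ℂ (Op G) :=
  StarSubalgebra.centralizer ℂ X

theorem Conv_eq_Cen : Conv G = Cen (Set.range (rt : G → Op G)) := rfl

theorem Cen_le_Conv {X : Set (Op G)} (hX : Set.range (rt : G → Op G) ⊆ X) {T : Op G}
    (hT : T ∈ Cen X) : T ∈ Conv G := by
  unfold Cen at hT
  unfold Conv
  rw [StarSubalgebra.mem_centralizer_iff] at hT ⊢
  exact fun x hx => hT x (hX hx)

/-! ### Conjugation representation -/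

/-- The conjugation representation of `G` on `ℓ²(G)`. -/
noncomputable def cj (G : Type) [Group G] : G →* Op G where
  toFun g := lam g * rt g
  map_one' := by rw [lam_one, rt_one, one_mul]
  map_mul' g h := by
    rw [lam_mul, rt_mul]
    calc lam g * lam h * (rt g * rt h) = lam g * (lam h * rt g) * rt h := by noncomm_ring
      _ = lam g * (rt g * lam h) * rt h := by rw [lam_rt_comm]
      _ = _ := by noncomm_ring

theorem cj_del (g h : G) : cj G g (del h) = del (g * h * g⁻¹) := by
  change lam g (rt g (del h)) = _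
  rw [rt_del, lam_del, mul_assoc]

theorem cj_apply (g : G) (f : E2 G) (x : G) : cj G g f x = f (g⁻¹ * x * g) := by
  change lam g (rt g f) x = _
  rw [lam_apply, rt_apply]

theorem norm_cj_apply (g : G) (f : E2 G) : ‖cj G g f‖ = ‖f‖ := by
  change ‖lam g (rt g f)‖ = _
  rw [norm_lam_apply, norm_rt_apply]

/-- A function in `ℓ²` which is constant on an infinite set vanishes there. -/
theorem const_zero (f : E2 G) (S : Set G) (hS : S.Infinite) (c : ℂ) (h : ∀ i ∈ S, f i = c) :
    c = 0 := by
  by_contra hc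
  have hpos : 0 < ‖c‖ ^ 2 := by
    have : 0 < ‖c‖ := norm_pos_iff.2 hc
    positivity
  have ht := (summable_sq f).tendsto_cofinite_zero
  have hev := ht.eventually (gt_mem_nhds hpos)
  rw [Filter.eventually_cofinite] at hev
  apply hS
  apply hev.subset
  intro i hi
  change ¬ (‖f i‖ ^ 2 < ‖c‖ ^ 2)
  rw [h i hi]
  exact lt_irrefl _

/-- In an icc group the invariant vectors of the conjugation representation are the multiples
of `δ_1`. -/
theorem cj_invariant (hG : ICC G) (w : E2 G) (hw : ∀ g, cj G g w = w) : w = w 1 • del 1 := by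
  apply E2_ext
  intro x
  rw [E2_smul_apply]
  by_cases hx : x = 1
  · subst hx; simp
  · rw [del_ne hx, mul_zero]
    apply const_zero w _ (hG x hx)
    rintro _ ⟨h, rfl⟩
    have := congrArg (fun f : E2 G => f (h * x * h⁻¹)) (hw h)
    simp only [cj_apply] at this
    rw [← this]
    congr 1
    group

/-- `T ↦ T δ_1` intertwines conjugation. -/
theorem cj_conv {T : Op G} (hT : T ∈ Conv G) (g : G) :
    cj G g (T (del 1)) = (lam g * T * lam g⁻¹) (del 1) := by
  change lam g (rt g (T (del 1))) = lam g (T (lam g⁻¹ (del 1)))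
  rw [← Conv_rt hT, rt_del, lam_del, one_mul, mul_one]

end grp

end GVN
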