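import Pool.Agent.Lib.MP_5185df_an.Stmts

/-!
# M1: the contraction `cut T = 2 T (1 + T* T)⁻¹` (problem MP_5185df_an)
-/

open Filter Topology
open scoped InnerProductSpace ComplexConjugate

namespace GVN

namespace CutAux

variable {G : Type}

theorem isUnit_one_add (T : Op G) : IsUnit (1 + star T * T) := by
  have h1 : (0 : Op G) ≤ star T * T := star_mul_self_nonneg T
  have h2 : (1 : Op G) ≤ 1 + star T * T := le_add_of_nonneg_right h1
  exact CStarAlgebra.isUnit_of_le 1 h2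

theorem key (T : Op G) (w : E2 G) :
    ‖(1 + star T * T) w‖ ^ 2 = ‖w‖ ^ 2 + 2 * ‖T w‖ ^ 2 + ‖(star T * T) w‖ ^ 2 := by
  have h1 : (1 + star T * T) w = w + (star T * T) w := rfl
  have h2 : ⟪w, (star T * T) w⟫_ℂ = ((‖T w‖ ^ 2 : ℝ) : ℂ) := by
    change ⟪w, (ContinuousLinearMap.adjoint T) (T w)⟫_ℂ = _
    rw [ContinuousLinearMap.adjoint_inner_right, inner_self_eq_norm_sq_to_K]
    push_cast
    rfl
  rw [h1, @norm_add_sq ℂ, h2]
  have h3 : RCLike.re (((‖T w‖ ^ 2 : ℝ) : ℂ)) = ‖T w‖ ^ 2 := Complex.ofReal_re _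
  rw [h3]

theorem key2 (T : Op G) (w : E2 G) : ‖T w‖ ^ 2 ≤ ‖(star T * T) w‖ * ‖w‖ := by
  have h2 : ⟪w, (star T * T) w⟫_ℂ = ((‖T w‖ ^ 2 : ℝ) : ℂ) := by
    change ⟪w, (ContinuousLinearMap.adjoint T) (T w)⟫_ℂ = _
    rw [ContinuousLinearMap.adjoint_inner_right, inner_self_eq_norm_sq_to_K]
    push_cast
    rfl
  have h3 := norm_inner_le_norm (𝕜 := ℂ) w ((star T * T) w)
  rw [h2, Complex.norm_real, Real.norm_of_nonneg (by positivity)] at h3
  linarith [mul_comm ‖w‖ ‖(star T * T) w‖]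

/-- The resolvent. -/
noncomputable def R (T : Op G) : Op G := Ring.inverse (1 + star T * T)

theorem mul_R (T : Op G) : (1 + star T * T) * R T = 1 :=
  Ring.mul_inverse_cancel _ (isUnit_one_add T)

theorem R_mul (T : Op G) : R T * (1 + star T * T) = 1 :=
  Ring.inverse_mul_cancel _ (isUnit_one_add T)

theorem apply_R (T : Op G) (v : E2 G) : (1 + star T * T) (R T v) = v := by
  have := DFunLike.congr_fun (mul_R T) v
  exact this

theorem norm_R_le (T : Op G) : ‖R T‖ ≤ 1 := by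
  refine ContinuousLinearMap.opNorm_le_bound _ zero_le_one fun v => ?_
  rw [one_mul]
  have h1 := key T (R T v)
  rw [apply_R] at h1
  have h2 : ‖R T v‖ ^ 2 ≤ ‖v‖ ^ 2 := by nlinarith [sq_nonneg ‖T (R T v)‖, sq_nonneg ‖(star T * T) (R T v)‖]
  exact abs_le_of_sq_le_sq' h2 (norm_nonneg _) |>.2

theorem norm_TR_le (T : Op G) : ‖(2 : ℂ) • (T * R T)‖ ≤ 1 := by
  refine ContinuousLinearMap.opNorm_le_bound _ zero_le_one fun v => ?_
  rw [one_mul]
  have h0 : ((2 : ℂ) • (T * R T)) v = (2 : ℂ) • T (R T v) := rfl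
  rw [h0, norm_smul]
  have h1 := key T (R T v)
  rw [apply_R] at h1
  have h2 := key2 T (R T v)
  have h3 : ‖(2 : ℂ)‖ = 2 := by norm_num
  rw [h3]
  have h4 : (2 * ‖T (R T v)‖) ^ 2 ≤ ‖v‖ ^ 2 := by
    nlinarith [sq_nonneg (‖(star T * T) (R T v)‖ - ‖R T v‖)]
  exact abs_le_of_sq_le_sq' h4 (norm_nonneg _) |>.2

theorem commute_R {T x : Op G} (h : Commute x (1 + star T * T)) : Commute x (R T) := by
  have h1 : x * R T = R T * x := by
    calc x * R T = (R T * (1 + star T * T)) * (x * R T) := by rw [R_mul, one_mul]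
      _ = R T * ((1 + star T * T) * x) * R T := by simp only [mul_assoc]
      _ = R T * (x * (1 + star T * T)) * R T := by rw [h.eq]
      _ = R T * x * ((1 + star T * T) * R T) := by simp only [mul_assoc]
      _ = R T * x := by rw [mul_R, mul_one]
  exact h1

theorem mem_Cen {X : Set (Op G)} {T : Op G} :
    T ∈ Cen X ↔ ∀ x ∈ X, x * T = T * x ∧ star x * T = T * star x := by
  unfold Cen
  exact StarSubalgebra.mem_centralizer_iff ℂ

end CutAux

open CutAux

theorem cutStmt : CutStmt := by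
  intro G _ T
  have hcut : cut T = (2 : ℂ) • (T * R T) := rfl
  refine ⟨norm_TR_le T, fun X hT => ?_, ?_⟩
  · rw [hcut]
    have hR : R T ∈ Cen X := by
      have h1 : (1 + star T * T) ∈ Cen X :=
        add_mem (one_mem _) (mul_mem (star_mem hT) hT)
      rw [mem_Cen] at h1 ⊢
      intro x hx
      exact ⟨(commute_R (h1 x hx).1).eq, (commute_R (h1 x hx).2).eq⟩
    exact (Cen X).smul_mem (mul_mem hT hR) _
  · have h1 : cut T - T = (T * R T) * (1 - star T * T) := by
      have h2 : T = T * (R T * (1 + star T * T)) := by rw [R_mul, mul_one]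
      rw [hcut]
      conv_lhs => rw [show (T : Op G) = T * (R T * (1 + star T * T)) from h2]
      have h3 : (T * (R T * (1 + star T * T))) = T := h2.symm
      rw [h3]
      have h4 : (T * R T) * (1 - star T * T) =
          (2 : ℂ) • (T * R T) - T * (R T * (1 + star T * T)) := by
        rw [two_smul, mul_sub, mul_add, mul_add]
        simp only [mul_one, mul_assoc]
        abel
      rw [h4, h3]
    rw [h1]
    refine (n2_mul_le _ _).trans (mul_le_mul_of_nonneg_right ?_ (n2_nonneg _))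
    calc ‖T * R T‖ ≤ ‖T‖ * ‖R T‖ := norm_mul_le _ _
      _ ≤ ‖T‖ * 1 := mul_le_mul_of_nonneg_left (norm_R_le T) (norm_nonneg _)
      _ = ‖T‖ := mul_one _

end GVN
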