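import Mathlib

/-!
# Group von Neumann algebras, tracial ultrapowers (problem MP_5185df_an)

Statement-level definitions: `E2`, `Op`, `del`, `perm`, `lam`, `LG`, `BSeq`, `Eqv`, `UIso`,
`ElemEquiv`, `ICC`, `InnerAmenable`, `Kazhdan`.
-/

open Filter Topology
open scoped InnerProductSpace

namespace GVN

/-- The complex Hilbert space `ℓ²(G)`. -/
abbrev E2 (G : Type) : Type := lp (fun _ : G => ℂ) 2

/-- The bounded operators on `ℓ²(G)`. -/
abbrev Op (G : Type) : Type := E2 G →L[ℂ] E2 G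

open Classical in
/-- The unit vector `δ_g`. -/
noncomputable def del {G : Type} (g : G) : E2 G := lp.single 2 g (1 : ℂ)

theorem memlp_comp {G : Type} (σ : Equiv.Perm G) (f : E2 G) :
    Memℓp (fun x => f (σ x)) 2 := by
  rw [memℓp_gen_iff (by norm_num)]
  have h := (memℓp_gen_iff (by norm_num : 0 < (2 : ENNReal).toReal)).1 (lp.memℓp f)
  exact (σ.summable_iff (f := fun x => ‖f x‖ ^ (2 : ENNReal).toReal)).2 h

/-- The unitary operator `(perm σ f) x = f (σ⁻¹ x)` given by a permutation `σ` of `G`. -/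
noncomputable def perm {G : Type} (σ : Equiv.Perm G) : Op G :=
  LinearMap.mkContinuous
    { toFun := fun f => ⟨fun x => f (σ.symm x), memlp_comp σ.symm f⟩
      map_add' := fun _ _ => rfl
      map_smul' := fun _ _ => rfl } 1 (by
    intro f
    rw [one_mul]
    refine le_of_eq ?_
    rw [lp.norm_eq_tsum_rpow (by norm_num), lp.norm_eq_tsum_rpow (by norm_num)]
    congr 1
    exact σ.symm.tsum_eq (fun x => ‖f x‖ ^ (2 : ENNReal).toReal))

/-- The left regular unitary `λ_g`: `(lam g f) x = f (g⁻¹ x)`. -/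
noncomputable def lam {G : Type} [Group G] (g : G) : Op G := perm (Equiv.mulLeft g)

/-- The group von Neumann algebra `L(G)`: the closure of the span of the left regular unitaries
in the weak operator topology. -/
def LG (G : Type) [Group G] : Set (Op G) :=
  {T | ∀ (F : Finset (E2 G × E2 G)) (ε : ℝ), 0 < ε →
    ∃ S ∈ Submodule.span ℂ (Set.range (lam : G → Op G)),
      ∀ p ∈ F, ‖⟪p.1, (T - S) p.2⟫_ℂ‖ < ε}

/-- Norm bounded sequences in `L(G)`. -/
def BSeq (G : Type) [Group G] : Set (ℕ → Op G) :=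
  {x | (∀ n, x n ∈ LG G) ∧ ∃ C : ℝ, ∀ n, ‖x n‖ ≤ C}

/-- Two sequences are equal in the tracial ultrapower: `lim_U ‖x_n - y_n‖₂ = 0`, where
`‖x‖₂ = τ(x* x)^{1/2} = ‖x δ_1‖`. -/
def Eqv {G : Type} [Group G] (U : Ultrafilter ℕ) (x y : ℕ → Op G) : Prop :=
  Tendsto (fun n => ‖(x n - y n) (del 1)‖) U (𝓝 0)

/-- A `*`-isomorphism from the tracial ultrapower `L(G)^U` onto `L(K)^V`, given on
representatives. -/
structure UIso (G K : Type) [Group G] [Group K] (U V : Ultrafilter ℕ) where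
  toFun : (ℕ → Op G) → (ℕ → Op K)
  mem : ∀ x ∈ BSeq G, toFun x ∈ BSeq K
  inj : ∀ x ∈ BSeq G, ∀ y ∈ BSeq G, Eqv V (toFun x) (toFun y) ↔ Eqv U x y
  surj : ∀ y ∈ BSeq K, ∃ x ∈ BSeq G, Eqv V (toFun x) y
  add : ∀ x ∈ BSeq G, ∀ y ∈ BSeq G, Eqv V (toFun (x + y)) (toFun x + toFun y)
  smul : ∀ (c : ℂ), ∀ x ∈ BSeq G, Eqv V (toFun (c • x)) (c • toFun x)
  mul : ∀ x ∈ BSeq G, ∀ y ∈ BSeq G, Eqv V (toFun (x * y)) (toFun x * toFun y)
  star : ∀ x ∈ BSeq G, Eqv V (toFun (star x)) (star (toFun x))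

/-- `L(G)` and `L(K)` are elementarily equivalent: some tracial ultrapowers with respect to
non-principal ultrafilters on `ℕ` are isomorphic. -/
def ElemEquiv (G K : Type) [Group G] [Group K] : Prop :=
  ∃ U V : Ultrafilter ℕ, (U : Filter ℕ) ≤ cofinite ∧ (V : Filter ℕ) ≤ cofinite ∧
    Nonempty (UIso G K U V)

/-- `G` is icc: every non-trivial conjugacy class is infinite. -/
def ICC (G : Type) [Group G] : Prop :=
  ∀ g : G, g ≠ 1 → {x : G | ∃ h : G, x = h * g * h⁻¹}.Infinite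

/-- `G` is inner amenable: there is a finitely additive probability measure on `G \ {1}`
invariant under conjugation (written as a measure on `G` with `m {1} = 0`). -/
def InnerAmenable (G : Type) [Group G] : Prop :=
  ∃ m : Set G → ℝ, (∀ A, 0 ≤ m A) ∧ m Set.univ = 1 ∧ m {1} = 0 ∧
    (∀ A B, Disjoint A B → m (A ∪ B) = m A + m B) ∧
    ∀ (g : G) (A : Set G), m ((fun x => g * x * g⁻¹) '' A) = m A

/-- Kazhdan's property (T): for some finite generating set `S` and some `c > 0`, in every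
unitary representation on a Hilbert space every vector `v` is moved by some `s ∈ S` by at least
`c` times its distance to the invariant vectors. -/
def Kazhdan (G : Type) [Group G] : Prop :=
  ∃ S : Finset G, Subgroup.closure (S : Set G) = ⊤ ∧ ∃ c : ℝ, 0 < c ∧
    ∀ (K : Type) [NormedAddCommGroup K] [InnerProductSpace ℂ K] [CompleteSpace K]
      (σ : G →* (K →L[ℂ] K)), (∀ g v, ‖σ g v‖ = ‖v‖) →
      ∀ v : K, ∃ w : K, (∀ g, σ g w = w) ∧ ∃ s ∈ S, c * ‖v - w‖ ≤ ‖σ s v - v‖

end GVN
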