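import Pool.Agent.Lib.MP_5185df_an.Stmts

/-!
# M11: diagonal sequences (problem MP_5185df_an)
-/

open Filter Topology

namespace GVN

theorem diagStmt : DiagStmt := by
  classical
  intro V hV P hmono hP
  set k : ℕ → ℕ := fun n => Nat.findGreatest (fun k => P n (1 / ((k : ℝ) + 1))) n with hk
  have hge : ∀ m : ℕ, ∀ᶠ n in (V : Filter ℕ), m ≤ n := by
    intro m
    have h1 : ∀ᶠ n in (cofinite : Filter ℕ), m ≤ n := by
      rw [Nat.cofinite_eq_atTop]
      exact eventually_ge_atTop m
    exact hV h1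
  have hkm : ∀ m : ℕ, ∀ᶠ n in (V : Filter ℕ), m ≤ k n := by
    intro m
    filter_upwards [hge m, hP (1 / ((m : ℝ) + 1)) (by positivity)] with n h1 h2
    exact Nat.le_findGreatest h1 h2
  refine ⟨fun n => 1 / ((k n : ℝ) + 1), fun n => by positivity, ?_, ?_⟩
  · rw [Metric.tendsto_nhds]
    intro ε hε
    obtain ⟨m, hm⟩ := exists_nat_one_div_lt hε
    filter_upwards [hkm m] with n hn
    rw [Real.dist_eq, sub_zero, abs_of_pos (by positivity)]
    refine lt_of_le_of_lt ?_ hm
    apply one_div_le_one_div_of_le (by positivity)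
    have : (m : ℝ) ≤ (k n : ℝ) := by exact_mod_cast hn
    linarith
  · filter_upwards [hP (1 / (((0 : ℕ) : ℝ) + 1)) (by positivity)] with n h0
    exact Nat.findGreatest_spec (P := fun k => P n (1 / ((k : ℝ) + 1))) (Nat.zero_le n) h0

end GVN
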