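import Pool.Agent.Lib.MP_5185df_an.Stmts

/-!
# M17: expansion of the conjugation action of an icc Kazhdan group
-/

open Filter Topology
open scoped InnerProductSpace ComplexConjugate

namespace GVN

namespace ExpAux

variable {G : Type} [Group G]

/-- indicator vector of a finite set -/
noncomputable def ind (A : Finset G) : E2 G := ∑ a ∈ A, del a

open Classical in
theorem ind_apply (A : Finset G) (i : G) : ind A i = if i ∈ A then 1 else 0 := by
  rw [← inner_del i (ind A)]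
  unfold ind
  rw [inner_sum]
  simp only [inner_del]
  by_cases h : i ∈ A
  · rw [if_pos h, Finset.sum_eq_single i]
    · simp
    · intro b _ hb
      exact del_ne (Ne.symm hb)
    · intro h2; exact absurd h h2
  · rw [if_neg h]
    refine Finset.sum_eq_zero fun b hb => del_ne ?_
    rintro rfl
    exact h hb

theorem dist_inv (A : Finset G) (hA : (1 : G) ∉ A) (z : ℂ) :
    (A.card : ℝ) ≤ ‖ind A - z • del 1‖ ^ 2 := by
  classical
  have hd : ∀ i : G, (ind A - z • del 1 : E2 G) i = (if i ∈ A then 1 else 0) - z * del 1 i := by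
    intro i
    rw [← ind_apply]
    rfl
  generalize (ind A - z • del 1 : E2 G) = d at hd ⊢
  rw [norm_sq_eq_tsum]
  have h1 : ∑ i ∈ A, ‖d i‖ ^ 2 ≤ ∑' i, ‖d i‖ ^ 2 :=
    (summable_sq d).sum_le_tsum A fun i _ => by positivity
  refine le_trans (le_of_eq ?_) h1
  rw [Finset.card_eq_sum_ones]
  push_cast
  refine Finset.sum_congr rfl fun i hi => ?_
  have hi1 : i ≠ 1 := by
    rintro rfl
    exact hA hi
  rw [hd, if_pos hi, del_ne hi1]
  simp

open Classical in
theorem dist_ind (A B : Finset G) (h : A.card = B.card) :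
    ‖ind B - ind A‖ ^ 2 = 2 * ((B \ A).card : ℝ) := by
  have hd : ∀ i : G, (ind B - ind A : E2 G) i = (if i ∈ B then 1 else 0) - if i ∈ A then 1 else 0 := by
    intro i
    rw [← ind_apply, ← ind_apply]
    rfl
  generalize (ind B - ind A : E2 G) = d at hd ⊢
  rw [norm_sq_eq_tsum, tsum_eq_sum (s := (B \ A) ∪ (A \ B))]
  · rw [Finset.sum_union]
    · have e1 : ∑ i ∈ B \ A, ‖d i‖ ^ 2 = ((B \ A).card : ℝ) := by
        rw [Finset.card_eq_sum_ones]
        push_cast
        refine Finset.sum_congr rfl fun i hi => ?_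
        rw [Finset.mem_sdiff] at hi
        rw [hd, if_pos hi.1, if_neg hi.2]
        simp
      have e2 : ∑ i ∈ A \ B, ‖d i‖ ^ 2 = ((A \ B).card : ℝ) := by
        rw [Finset.card_eq_sum_ones]
        push_cast
        refine Finset.sum_congr rfl fun i hi => ?_
        rw [Finset.mem_sdiff] at hi
        rw [hd, if_pos hi.1, if_neg hi.2]
        simp
      rw [e1, e2, Finset.card_sdiff_comm h]
      ring
    · rw [Finset.disjoint_left]
      intro x hx hx'
      rw [Finset.mem_sdiff] at hx hx'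
      exact hx.2 hx'.1
  · intro i hi
    rw [Finset.mem_union, Finset.mem_sdiff, Finset.mem_sdiff, not_or] at hi
    rw [hd]
    by_cases h1 : i ∈ A <;> by_cases h2 : i ∈ B
    · simp [h1, h2]
    · exact absurd ⟨h1, h2⟩ hi.2
    · exact absurd ⟨h2, h1⟩ hi.1
    · simp [h1, h2]

open Classical in
/-- conjugates -/
noncomputable def cf (T A : Finset G) : Finset G :=
  (T ×ˢ A).image (fun p => p.1 * p.2 * p.1⁻¹)

theorem mem_cf {T A : Finset G} {x : G} : x ∈ cf T A ↔ ∃ t ∈ T, ∃ a ∈ A, x = t * a * t⁻¹ := by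
  classical
  unfold cf
  rw [Finset.mem_image]
  constructor
  · rintro ⟨⟨t, a⟩, h, rfl⟩
    rw [Finset.mem_product] at h
    exact ⟨t, h.1, a, h.2, rfl⟩
  · rintro ⟨t, ht, a, ha, rfl⟩
    exact ⟨(t, a), Finset.mem_product.2 ⟨ht, ha⟩, rfl⟩

theorem one_notMem_cf {T A : Finset G} (h : (1 : G) ∉ A) : (1 : G) ∉ cf T A := by
  intro h1
  obtain ⟨t, -, a, ha, h2⟩ := mem_cf.1 h1
  have h3 : a = 1 := by
    have : t * a * t⁻¹ = 1 := h2.symm
    calc a = t⁻¹ * (t * a * t⁻¹) * t := by group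
      _ = 1 := by rw [this]; group
  rw [h3] at ha
  exact h ha

open Classical in
theorem step (hG : ICC G) {S : Finset G} {c : ℝ} (hc : 0 < c)
    (hK : ∀ (K : Type) [NormedAddCommGroup K] [InnerProductSpace ℂ K] [CompleteSpace K]
      (σ : G →* (K →L[ℂ] K)), (∀ g v, ‖σ g v‖ = ‖v‖) →
      ∀ v : K, ∃ w : K, (∀ g, σ g w = w) ∧ ∃ s ∈ S, c * ‖v - w‖ ≤ ‖σ s v - v‖)
    (A : Finset G) (hA : (1 : G) ∉ A) :
    (1 + c ^ 2 / 2) * (A.card : ℝ) ≤ ((cf (insert 1 S) A).card : ℝ) := by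
  obtain ⟨w, hw, s, hs, h⟩ := hK (E2 G) (cj G) norm_cj_apply (ind A)
  have hw' := cj_invariant hG w hw
  set B : Finset G := cf {s} A with hB
  have hinj : B.card = A.card := by
    rw [hB]
    unfold cf
    rw [Finset.card_image_of_injOn]
    · simp
    · rintro ⟨t, a⟩ h1 ⟨t', a'⟩ h2 h3
      simp only [Finset.coe_product, Finset.coe_singleton, Set.mem_prod, Set.mem_singleton_iff] at h1 h2
      obtain ⟨rfl, -⟩ := h1
      obtain ⟨rfl, -⟩ := h2
      simp only [mul_left_inj, mul_right_inj] at h3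
      rw [h3]
  have hcj : cj G s (ind A) = ind B := by
    apply E2_ext
    intro x
    rw [cj_apply, ind_apply, ind_apply]
    have : s⁻¹ * x * s ∈ A ↔ x ∈ B := by
      rw [hB, mem_cf]
      constructor
      · intro h1
        exact ⟨s, Finset.mem_singleton_self s, _, h1, by group⟩
      · rintro ⟨t, ht, a, ha, rfl⟩
        rw [Finset.mem_singleton] at ht
        subst ht
        have : t⁻¹ * (t * a * t⁻¹) * t = a := by group
        rw [this]
        exact ha
    by_cases h1 : x ∈ B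
    · rw [if_pos h1, if_pos (this.2 h1)]
    · rw [if_neg h1, if_neg (fun h2 => h1 (this.1 h2))]
  rw [hcj] at h
  have h1 := dist_inv A hA (w 1)
  rw [← hw'] at h1
  have h2 := dist_ind A B hinj.symm
  have h3 : c ^ 2 * (A.card : ℝ) ≤ 2 * ((B \ A).card : ℝ) := by
    rw [← h2]
    calc c ^ 2 * (A.card : ℝ) ≤ c ^ 2 * ‖ind A - w‖ ^ 2 :=
          mul_le_mul_of_nonneg_left h1 (by positivity)
      _ = (c * ‖ind A - w‖) ^ 2 := by ring
      _ ≤ ‖ind B - ind A‖ ^ 2 := pow_le_pow_left₀ (by positivity) h 2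
  have h4 : (A ∪ B) ⊆ cf (insert 1 S) A := by
    intro x hx
    rw [mem_cf]
    rcases Finset.mem_union.1 hx with h5 | h5
    · exact ⟨1, Finset.mem_insert_self _ _, x, h5, by group⟩
    · obtain ⟨t, ht, a, ha, rfl⟩ := mem_cf.1 h5
      rw [Finset.mem_singleton] at ht
      subst ht
      exact ⟨t, Finset.mem_insert_of_mem hs, a, ha, rfl⟩
  have h5 : (A.card : ℝ) + ((B \ A).card : ℝ) ≤ ((cf (insert 1 S) A).card : ℝ) := by
    have h6 := Finset.card_le_card h4
    have h7 : (A ∪ B).card = A.card + (B \ A).card := by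
      rw [← Finset.union_sdiff_self_eq_union, Finset.card_union_of_disjoint Finset.disjoint_sdiff]
    rw [h7] at h6
    exact_mod_cast h6
  linarith

theorem iter (hG : ICC G) {S : Finset G} {c : ℝ} (hc : 0 < c)
    (hK : ∀ (K : Type) [NormedAddCommGroup K] [InnerProductSpace ℂ K] [CompleteSpace K]
      (σ : G →* (K →L[ℂ] K)), (∀ g v, ‖σ g v‖ = ‖v‖) →
      ∀ v : K, ∃ w : K, (∀ g, σ g w = w) ∧ ∃ s ∈ S, c * ‖v - w‖ ≤ ‖σ s v - v‖) (k : ℕ) :
    ∃ T : Finset G, ∀ A : Finset G, (1 : G) ∉ A →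
      (1 + c ^ 2 / 2) ^ k * (A.card : ℝ) ≤ ((cf T A).card : ℝ) := by
  classical
  induction k with
  | zero =>
    refine ⟨{1}, fun A _ => ?_⟩
    rw [pow_zero, one_mul]
    have : A ⊆ cf {1} A := fun x hx => mem_cf.2 ⟨1, Finset.mem_singleton_self _, x, hx, by group⟩
    exact_mod_cast Finset.card_le_card this
  | succ k ih =>
    obtain ⟨T, hT⟩ := ih
    refine ⟨((insert 1 S) ×ˢ T).image (fun p => p.1 * p.2), fun A hA => ?_⟩
    have h1 := hT A hA
    have h2 := step hG hc hK (cf T A) (one_notMem_cf hA)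
    have h3 : cf (insert 1 S) (cf T A) ⊆ cf (((insert 1 S) ×ˢ T).image (fun p => p.1 * p.2)) A := by
      intro x hx
      obtain ⟨s, hs, y, hy, rfl⟩ := mem_cf.1 hx
      obtain ⟨t, ht, a, ha, rfl⟩ := mem_cf.1 hy
      refine mem_cf.2 ⟨s * t, Finset.mem_image.2 ⟨(s, t), Finset.mem_product.2 ⟨hs, ht⟩, rfl⟩, a,
        ha, by group⟩
    have h4 : ((cf (insert 1 S) (cf T A)).card : ℝ) ≤
        ((cf (((insert 1 S) ×ˢ T).image (fun p => p.1 * p.2)) A).card : ℝ) := by
      exact_mod_cast Finset.card_le_card h3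
    have h5 : (1 + c ^ 2 / 2) ^ (k + 1) * (A.card : ℝ) =
        (1 + c ^ 2 / 2) * ((1 + c ^ 2 / 2) ^ k * (A.card : ℝ)) := by ring
    rw [h5]
    have h6 := mul_le_mul_of_nonneg_left h1 (by positivity : 0 ≤ 1 + c ^ 2 / 2)
    linarith

end ExpAux

open ExpAux in
theorem expStmt : ExpStmt := by
  rintro G _ hG ⟨S, -, c, hc, hK⟩
  obtain ⟨k, hk⟩ := pow_unbounded_of_one_lt (2 : ℝ) (show 1 < 1 + c ^ 2 / 2 by
    have : 0 < c ^ 2 := by positivity
    linarith)
  obtain ⟨T, hT⟩ := iter hG hc hK k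
  refine ⟨T, fun A hA => ⟨cf T A, fun x => mem_cf, ?_⟩⟩
  have h1 := hT A hA
  have h2 : (2 : ℝ) * (A.card : ℝ) ≤ ((cf T A).card : ℝ) := by
    have h3 : (0 : ℝ) ≤ A.card := Nat.cast_nonneg _
    nlinarith
  exact_mod_cast h2

end GVN
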