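import Pool.Agent.Lib.MP_5185df_an.Stmts

/-!
# `F3` is residually `F2` relative to `F2`
-/

namespace GVN

namespace FR

/-- sign -/
def sg (e : Bool) : ℤ := if e then 1 else -1

/-- A run of `b`s. -/
def brun (n : ℤ) : List (Fin 2 × Bool) := List.replicate n.natAbs (1, decide (0 < n))

theorem mk_replicate_true {α : Type} (x : α) (n : ℕ) :
    FreeGroup.mk (List.replicate n (x, true)) = FreeGroup.of x ^ n := by
  induction n with
  | zero => rfl
  | succ n ih =>
    rw [List.replicate_succ, pow_succ', ← ih]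
    rfl

theorem mk_replicate_false {α : Type} (x : α) (n : ℕ) :
    FreeGroup.mk (List.replicate n (x, false)) = (FreeGroup.of x ^ n)⁻¹ := by
  induction n with
  | zero => rfl
  | succ n ih =>
    rw [List.replicate_succ, pow_succ, mul_inv_rev, ← ih]
    rfl

theorem mk_brun (n : ℤ) : FreeGroup.mk (brun n) = (FreeGroup.of (1 : Fin 2)) ^ n := by
  unfold brun
  rcases lt_or_ge 0 n with h | h
  · rw [decide_eq_true h, mk_replicate_true]
    obtain ⟨m, rfl⟩ := Int.eq_ofNat_of_zero_le h.le
    simp
  · have h' : ¬ 0 < n := not_lt.2 h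
    rw [decide_eq_false h', mk_replicate_false]
    obtain ⟨m, hm⟩ := Int.eq_ofNat_of_zero_le (neg_nonneg.2 h)
    have : n = -(m : ℤ) := by omega
    subst this
    simp

theorem red_brun_append (n : ℤ) (L : List (Fin 2 × Bool)) (hL : FreeGroup.IsReduced L)
    (hh : ∀ x ∈ L.head?, x.1 = (0 : Fin 2)) : FreeGroup.IsReduced (brun n ++ L) := by
  unfold FreeGroup.IsReduced brun
  rw [List.isChain_append]
  refine ⟨List.isChain_replicate_of_rel _ (fun _ => rfl), hL, ?_⟩
  intro x hx y hy h
  exfalso
  have h1 : x = (1, decide (0 < n)) := by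
    have := List.mem_of_getLast? hx
    exact List.eq_of_mem_replicate this
  have h2 := hh y hy
  rw [h1, h2] at h
  simp at h

theorem red_cons_brun (n : ℤ) (e : Bool) : FreeGroup.IsReduced (((0 : Fin 2), e) :: brun n) := by
  unfold FreeGroup.IsReduced
  have h := red_brun_append n [] FreeGroup.IsReduced.nil (by simp)
  rw [List.append_nil] at h
  rw [List.isChain_cons]
  refine ⟨?_, h⟩
  intro y hy h'
  exfalso
  have h1 : y = (1, decide (0 < n)) := by
    have := List.mem_of_mem_head? hy
    exact List.eq_of_mem_replicate this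
  rw [h1] at h'
  simp at h'

/-- `g = b^n a^e ...` reduced. -/
def St (n : ℤ) (e : Bool) (g : F2) : Prop :=
  ∃ L, FreeGroup.IsReduced (((0 : Fin 2), e) :: L) ∧
    g = FreeGroup.of 1 ^ n * FreeGroup.mk ((0, e) :: L)

theorem St.bmul {n : ℤ} {e : Bool} {g : F2} (h : St n e g) (m : ℤ) :
    St (m + n) e (FreeGroup.of 1 ^ m * g) := by
  obtain ⟨L, hL, rfl⟩ := h
  exact ⟨L, hL, by rw [zpow_add, mul_assoc]⟩

theorem of_zpow_sg {α : Type} (x : α) (e : Bool) : FreeGroup.of x ^ sg e = FreeGroup.mk [(x, e)] := by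
  cases e
  · simp [sg, FreeGroup.of, FreeGroup.invRev]
  · simp [sg, FreeGroup.of]

theorem St.amul {n : ℤ} {e : Bool} {g : F2} (h : St n e g) (e' : Bool) (hn : n ≠ 0 ∨ e' = e) :
    St 0 e' (FreeGroup.of 0 ^ sg e' * g) := by
  obtain ⟨L, hL, rfl⟩ := h
  refine ⟨brun n ++ (0, e) :: L, ?_, ?_⟩
  · unfold FreeGroup.IsReduced
    rw [List.isChain_cons]
    refine ⟨?_, red_brun_append n _ hL (by simp)⟩
    intro y hy h'
    by_cases hn0 : n = 0
    · subst hn0
      have : y = (0, e) := by simpa [brun, eq_comm] using hy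
      rw [this]
      rcases hn with h | h
      · exact absurd rfl h
      · exact h
    · exfalso
      have h1 : y = (1, decide (0 < n)) := by
        unfold brun at hy
        obtain ⟨k, hk⟩ : ∃ k, n.natAbs = k + 1 := ⟨n.natAbs - 1, by omega⟩
        rw [hk, List.replicate_succ] at hy
        simpa [eq_comm] using hy
      rw [h1] at h'
      simp at h'
  · rw [zpow_zero, one_mul, of_zpow_sg, ← mk_brun, FreeGroup.mul_mk, FreeGroup.mul_mk]
    rfl

theorem St.ne_one {n : ℤ} {e : Bool} {g : F2} (h : St n e g) : g ≠ 1 := by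
  obtain ⟨L, hL, rfl⟩ := h
  rw [← mk_brun, FreeGroup.mul_mk]
  intro h1
  have hred := red_brun_append n _ hL (by simp)
  have h2 := congrArg FreeGroup.toWord h1
  rw [FreeGroup.toWord_mk, hred.reduce_eq, FreeGroup.toWord_one] at h2
  simp at h2

theorem amul_bpow (e' : Bool) (j : ℤ) :
    St 0 e' (FreeGroup.of 0 ^ sg e' * FreeGroup.of 1 ^ j) := by
  refine ⟨brun j, red_cons_brun j e', ?_⟩
  rw [zpow_zero, one_mul, of_zpow_sg, ← mk_brun, FreeGroup.mul_mk]
  rfl

/-- The substitution. -/
def th (M : ℕ) : F3 →* F2 :=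
  FreeGroup.lift fun o => o.elim (FreeGroup.of 1 ^ (M : ℤ) * FreeGroup.of 0 * FreeGroup.of 1 ^ (M : ℤ))
    FreeGroup.of

theorem th_incl (M : ℕ) (g : F2) : th M (incl g) = g := by
  have : (th M).comp incl = MonoidHom.id F2 := by
    apply FreeGroup.ext_hom
    intro i
    simp [th, incl]
  exact DFunLike.congr_fun this g

/-- The position of the first letter. -/
def Hd (j : ℤ) (x : Option (Fin 2) × Bool) (w : List (Option (Fin 2) × Bool)) : Prop :=
  (j = 0 ∧ w.head? = some x) ∨ (0 < j ∧ w.head? = some (some 1, true)) ∨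
    (j < 0 ∧ w.head? = some (some 1, false))

/-- The invariant. -/
def Inv (M : ℕ) (w : List (Option (Fin 2) × Bool)) : Prop :=
  (∃ j : ℤ, j.natAbs = w.length ∧ th M (FreeGroup.mk w) = FreeGroup.of 1 ^ j ∧
    ((j = 0 ∧ w = []) ∨ (0 < j ∧ w.head? = some (some 1, true)) ∨
      (j < 0 ∧ w.head? = some (some 1, false)))) ∨
  (∃ (j : ℤ) (e : Bool), j.natAbs ≤ w.length ∧ Hd j (some 0, e) w ∧
    St j e (th M (FreeGroup.mk w))) ∨
  (∃ (j : ℤ) (e : Bool), j.natAbs ≤ w.length ∧ Hd j (none, e) w ∧
    St (j + sg e * M) e (th M (FreeGroup.mk w)))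

theorem mk_cons (x : Option (Fin 2)) (e : Bool) (w : List (Option (Fin 2) × Bool)) :
    (FreeGroup.mk ((x, e) :: w) : F3) = FreeGroup.of x ^ sg e * FreeGroup.mk w := by
  rw [of_zpow_sg, FreeGroup.mul_mk]; rfl

theorem th_cons (M : ℕ) (x : Option (Fin 2)) (e : Bool) (w : List (Option (Fin 2) × Bool)) :
    th M (FreeGroup.mk ((x, e) :: w)) = th M (FreeGroup.of x) ^ sg e * th M (FreeGroup.mk w) := by
  rw [mk_cons, map_mul, map_zpow]

theorem th_some (M : ℕ) (i : Fin 2) : th M (FreeGroup.of (some i)) = FreeGroup.of i := by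
  simp [th]

theorem th_none (M : ℕ) (e : Bool) : th M (FreeGroup.of none) ^ sg e =
    FreeGroup.of 1 ^ (sg e * M) * (FreeGroup.of 0 ^ sg e * FreeGroup.of 1 ^ (sg e * M)) := by
  have : th M (FreeGroup.of none) =
    FreeGroup.of 1 ^ (M : ℤ) * FreeGroup.of 0 * FreeGroup.of 1 ^ (M : ℤ) := by simp [th]
  rw [this]
  cases e
  · simp [sg, mul_assoc]
  · simp [sg, mul_assoc]

theorem inv_all (M : ℕ) (w : List (Option (Fin 2) × Bool)) (hw : FreeGroup.IsReduced w)
    (hM : w.length < M) : Inv M w := by
  induction w with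
  | nil =>
    left
    exact ⟨0, rfl, by simp [← FreeGroup.one_eq_mk], Or.inl ⟨rfl, rfl⟩⟩
  | cons x w ih =>
    obtain ⟨x, e'⟩ := x
    have hred : FreeGroup.IsReduced w := (List.isChain_cons.1 hw).2
    have hM' : w.length < M := by simp at hM; omega
    have hadj : ∀ y, w.head? = some y → x = y.1 → e' = y.2 := by
      unfold FreeGroup.IsReduced at hw
      rw [List.isChain_cons] at hw
      intro y hy
      exact hw.1 y hy
    have hsg : sg e' = 1 ∧ e' = true ∨ sg e' = -1 ∧ e' = false := by
      cases e'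
      · right; exact ⟨rfl, rfl⟩
      · left; exact ⟨rfl, rfl⟩
    specialize ih hred hM'
    have hlen : ((x, e') :: w).length = w.length + 1 := rfl
    match x, hadj with
    | some 0, hadj =>
      right; left
      refine ⟨0, e', by simp, Or.inl ⟨rfl, rfl⟩, ?_⟩
      rw [th_cons, th_some]
      rcases ih with ⟨j, hj, h1, -⟩ | ⟨j, e, hj, hh, h1⟩ | ⟨j, e, hj, hh, h1⟩
      · rw [h1]; exact amul_bpow e' j
      · apply h1.amul
        rcases hh with ⟨hj0, hh⟩ | ⟨hj0, hh⟩ | ⟨hj0, hh⟩
        · right; exact hadj _ hh rfl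
        · left; omega
        · left; omega
      · apply h1.amul
        left
        cases e <;> simp only [sg] <;> simp <;> omega
    | some 1, hadj =>
      have key : ∀ j : ℤ, ((0 < j ∧ w.head? = some (some 1, true)) ∨
          (j < 0 ∧ w.head? = some (some 1, false))) →
          ((0 < sg e' + j ∧ e' = true) ∨ (sg e' + j < 0 ∧ e' = false)) ∧
            (sg e' + j).natAbs = j.natAbs + 1 := by
        intro j hj
        rcases hj with ⟨hj, hh⟩ | ⟨hj, hh⟩
        · have := hadj _ hh rfl
          simp only at this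
          rw [this]
          simp only [sg, if_true]
          refine ⟨Or.inl ⟨by omega, trivial⟩, by omega⟩
        · have := hadj _ hh rfl
          simp only at this
          rw [this]
          simp only [sg]
          refine ⟨Or.inr ⟨by simp; omega, by simp⟩, by simp; omega⟩
      have key0 : ((0 < sg e' + 0 ∧ e' = true) ∨ (sg e' + 0 < 0 ∧ e' = false)) ∧
            (sg e' + 0).natAbs = 1 := by
        rcases hsg with ⟨h, h'⟩ | ⟨h, h'⟩
        · rw [h, h']; simp
        · rw [h, h']; simp
      have hhd : ∀ j : ℤ, ((0 < sg e' + j ∧ e' = true) ∨ (sg e' + j < 0 ∧ e' = false)) →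
          (0 < sg e' + j ∧ ((some 1, e') :: w).head? = some (some (1 : Fin 2), true)) ∨
          (sg e' + j < 0 ∧ ((some 1, e') :: w).head? = some (some (1 : Fin 2), false)) := by
        intro j hj
        rcases hj with ⟨h, h'⟩ | ⟨h, h'⟩
        · left; exact ⟨h, by rw [h']; rfl⟩
        · right; exact ⟨h, by rw [h']; rfl⟩
      rcases ih with ⟨j, hj, h1, h2⟩ | ⟨j, e, hj, hh, h1⟩ | ⟨j, e, hj, hh, h1⟩
      · left
        have hk : ((0 < sg e' + j ∧ e' = true) ∨ (sg e' + j < 0 ∧ e' = false)) ∧
            (sg e' + j).natAbs = j.natAbs + 1 := by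
          rcases h2 with ⟨h, -⟩ | h
          · rw [h]; simpa using key0
          · exact key j h
        refine ⟨sg e' + j, by rw [hk.2, hj, hlen], ?_, Or.inr (hhd j hk.1)⟩
        rw [th_cons, th_some, h1, zpow_add]
      · right; left
        have hk : ((0 < sg e' + j ∧ e' = true) ∨ (sg e' + j < 0 ∧ e' = false)) ∧
            (sg e' + j).natAbs = j.natAbs + 1 := by
          rcases hh with ⟨h, -⟩ | h
          · rw [h]; simpa using key0
          · exact key j h
        refine ⟨sg e' + j, e, by rw [hk.2, hlen]; omega, Or.inr (hhd j hk.1), ?_⟩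
        rw [th_cons, th_some]
        exact h1.bmul _
      · right; right
        have hk : ((0 < sg e' + j ∧ e' = true) ∨ (sg e' + j < 0 ∧ e' = false)) ∧
            (sg e' + j).natAbs = j.natAbs + 1 := by
          rcases hh with ⟨h, -⟩ | h
          · rw [h]; simpa using key0
          · exact key j h
        refine ⟨sg e' + j, e, by rw [hk.2, hlen]; omega, Or.inr (hhd j hk.1), ?_⟩
        rw [th_cons, th_some, add_assoc]
        exact h1.bmul _
    | none, hadj =>
      right; right
      refine ⟨0, e', by simp, Or.inl ⟨rfl, rfl⟩, ?_⟩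
      rw [th_cons, th_none, zero_add, mul_assoc, mul_assoc]
      have fin : ∀ g, St 0 e' g → St (sg e' * M) e' (FreeGroup.of 1 ^ (sg e' * M) * g) := by
        intro g hg
        have := hg.bmul (sg e' * M)
        rwa [add_zero] at this
      apply fin
      rcases ih with ⟨j, hj, h1, -⟩ | ⟨j, e, hj, hh, h1⟩ | ⟨j, e, hj, hh, h1⟩
      · rw [h1, ← zpow_add]; exact amul_bpow e' _
      · apply (h1.bmul _).amul
        left
        rcases hsg with ⟨h, -⟩ | ⟨h, -⟩ <;> rw [h] <;> omega
      · apply (h1.bmul _).amul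
        left
        rcases hsg with ⟨h, h'⟩ | ⟨h, h'⟩
        · rw [h]
          cases e
          · simp only [sg]
            intro h0
            have hj0 : j = 0 := by simp at h0; omega
            rcases hh with ⟨-, hh⟩ | ⟨hh, -⟩ | ⟨hh, -⟩
            · have := hadj _ hh rfl
              simp only at this
              rw [h'] at this
              exact absurd this (by simp)
            · omega
            · omega
          · simp only [sg, if_true]; omega
        · rw [h]
          cases e
          · simp only [sg]; simp; omega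
          · simp only [sg, if_true]
            intro h0
            have hj0 : j = 0 := by omega
            rcases hh with ⟨-, hh⟩ | ⟨hh, -⟩ | ⟨hh, -⟩
            · have := hadj _ hh rfl
              simp only at this
              rw [h'] at this
              exact absurd this (by simp)
            · omega
            · omega

theorem th_ne_one (M : ℕ) (g : F3) (hg : g ≠ 1) (hM : g.toWord.length < M) : th M g ≠ 1 := by
  have h := inv_all M g.toWord FreeGroup.isReduced_toWord hM
  rw [Inv, FreeGroup.mk_toWord] at h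
  rcases h with ⟨j, hj, h1, -⟩ | ⟨j, e, -, -, h1⟩ | ⟨j, e, -, -, h1⟩
  · rw [h1]
    intro h0
    have hlen : g.toWord.length ≠ 0 := by
      intro h
      apply hg
      rw [List.length_eq_zero_iff, FreeGroup.toWord_eq_nil_iff] at h
      exact h
    have hj0 : j ≠ 0 := by omega
    rw [← mk_brun] at h0
    have hred := red_brun_append j [] FreeGroup.IsReduced.nil (by simp)
    rw [List.append_nil] at hred
    have h2 := congrArg FreeGroup.toWord h0
    rw [FreeGroup.toWord_mk, hred.reduce_eq, FreeGroup.toWord_one] at h2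
    unfold brun at h2
    rw [List.replicate_eq_nil_iff] at h2
    omega
  · exact h1.ne_one
  · exact h1.ne_one

end FR

/-- M5. -/
theorem freeResStmt : FreeResStmt := by
  intro E
  obtain ⟨M, hM⟩ : ∃ M : ℕ, ∀ g ∈ E, ∀ h ∈ E, (g⁻¹ * h).toWord.length < M := by
    refine ⟨(E ×ˢ E).sup (fun p => (p.1⁻¹ * p.2).toWord.length) + 1, ?_⟩
    intro g hg h hh
    have := Finset.le_sup (f := fun p : F3 × F3 => (p.1⁻¹ * p.2).toWord.length)
      (Finset.mk_mem_product hg hh)
    exact Nat.lt_succ_of_le this
  refine ⟨FR.th M, FR.th_incl M, ?_⟩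
  intro g hg h hh hgh
  by_contra hne
  have h1 : g⁻¹ * h ≠ 1 := by
    intro h1
    exact hne (inv_mul_eq_one.1 h1)
  apply FR.th_ne_one M _ h1 (hM g hg h hh)
  rw [map_mul, map_inv, hgh, inv_mul_cancel]

end GVN
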