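import Pool.Agent.Lib.MP_5185df_an.Stmts

/-!
# M16: an isomorphism of ultrapowers gives an irreducible asymptotic representation
-/

open Filter Topology
open scoped InnerProductSpace ComplexConjugate

namespace GVN
namespace FromU

variable {G : Type} [Group G] {U : Ultrafilter ℕ}

theorem eqv_iff {x y : ℕ → Op G} :
    Eqv U x y ↔ Tendsto (fun n => n2 (x n - y n)) U (𝓝 0) := Iff.rfl

theorem eqv_refl (U : Ultrafilter ℕ) (x : ℕ → Op G) : Eqv U x x := by
  rw [eqv_iff]
  simp only [sub_self, n2_zero]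
  exact tendsto_const_nhds

theorem eqv_symm {x y : ℕ → Op G} (h : Eqv U x y) : Eqv U y x := by
  rw [eqv_iff] at *
  refine h.congr fun n => ?_
  exact n2_sub_comm _ _

theorem eqv_trans {x y z : ℕ → Op G} (h : Eqv U x y) (h' : Eqv U y z) : Eqv U x z := by
  rw [eqv_iff] at *
  refine squeeze_zero (fun n => n2_nonneg _) (fun n => n2_triangle (x n) (y n) (z n)) ?_
  simpa using h.add h'

theorem eqv_mul_left {x y z : ℕ → Op G} {C : ℝ} (hz : ∀ n, ‖z n‖ ≤ C) (h : Eqv U x y) :
    Eqv U (z * x) (z * y) := by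
  rw [eqv_iff] at *
  refine squeeze_zero (g := fun n => C * n2 (x n - y n)) (fun n => n2_nonneg _) (fun n => ?_)
    (by simpa using h.const_mul C)
  change n2 (z n * x n - z n * y n) ≤ _
  rw [← mul_sub]
  exact (n2_mul_le _ _).trans (mul_le_mul_of_nonneg_right (hz n) (n2_nonneg _))

theorem eqv_mul_right {x y z : ℕ → Op G} {C : ℝ} (hz : ∀ n, ‖z n‖ ≤ C)
    (hx : ∀ n, x n ∈ Conv G) (hy : ∀ n, y n ∈ Conv G) (hzc : ∀ n, z n ∈ Conv G)
    (h : Eqv U x y) : Eqv U (x * z) (y * z) := by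
  rw [eqv_iff] at *
  refine squeeze_zero (g := fun n => n2 (x n - y n) * C) (fun n => n2_nonneg _) (fun n => ?_)
    (by simpa using h.mul_const C)
  change n2 (x n * z n - y n * z n) ≤ _
  rw [← sub_mul]
  exact (n2_mul_le' (sub_mem (hx n) (hy n)) (hzc n)).trans
    (mul_le_mul_of_nonneg_left (hz n) (n2_nonneg _))

theorem eqv_star {x y : ℕ → Op G} (hx : ∀ n, x n ∈ Conv G) (hy : ∀ n, y n ∈ Conv G)
    (h : Eqv U x y) : Eqv U (star x) (star y) := by
  rw [eqv_iff] at *
  refine h.congr fun n => ?_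
  change n2 (x n - y n) = n2 (star (x n) - star (y n))
  rw [← star_sub, n2_star (sub_mem (hx n) (hy n))]

theorem eqv_smul {x y : ℕ → Op G} (c : ℂ) (h : Eqv U x y) : Eqv U (c • x) (c • y) := by
  rw [eqv_iff] at *
  have h' : Tendsto (fun n => ‖c‖ * n2 (x n - y n)) U (𝓝 0) := by simpa using h.const_mul ‖c‖
  refine h'.congr fun n => ?_
  change ‖c‖ * n2 (x n - y n) = n2 (c • x n - c • y n)
  rw [← smul_sub, n2_smul]

theorem lim_inv (hU : (U : Filter ℕ) ≤ cofinite) (C : ℝ) :
    Tendsto (fun n : ℕ => C * (1 / ((n : ℝ) + 1))) U (𝓝 0) := by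
  have h := (tendsto_one_div_add_atTop_nhds_zero_nat (𝕜 := ℝ)).const_mul C
  rw [mul_zero] at h
  exact h.mono_left (hU.trans Nat.cofinite_eq_atTop.le)

/-! ### The algebra `LG` -/

theorem span_Conv {T : Op G} (h : T ∈ Submodule.span ℂ (Set.range (lam : G → Op G))) :
    T ∈ Conv G := by
  induction h using Submodule.span_induction with
  | mem x hx =>
    obtain ⟨g, rfl⟩ := hx
    exact lam_mem_Conv g
  | zero => exact zero_mem _
  | add x y _ _ hx hy => exact add_mem hx hy
  | smul c x _ hx => exact (Conv G).smul_mem hx c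

theorem span_lam_mul {T : Op G} (g : G)
    (h : T ∈ Submodule.span ℂ (Set.range (lam : G → Op G))) :
    lam g * T ∈ Submodule.span ℂ (Set.range (lam : G → Op G)) := by
  induction h using Submodule.span_induction with
  | mem x hx =>
    obtain ⟨h, rfl⟩ := hx
    exact Submodule.subset_span ⟨g * h, lam_mul g h⟩
  | zero => rw [mul_zero]; exact Submodule.zero_mem _
  | add x y _ _ hx hy => rw [mul_add]; exact Submodule.add_mem _ hx hy
  | smul c x _ hx => rw [mul_smul_comm]; exact Submodule.smul_mem _ c hx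

theorem span_mul_lam {T : Op G} (g : G)
    (h : T ∈ Submodule.span ℂ (Set.range (lam : G → Op G))) :
    T * lam g ∈ Submodule.span ℂ (Set.range (lam : G → Op G)) := by
  induction h using Submodule.span_induction with
  | mem x hx =>
    obtain ⟨h, rfl⟩ := hx
    exact Submodule.subset_span ⟨h * g, lam_mul h g⟩
  | zero => rw [zero_mul]; exact Submodule.zero_mem _
  | add x y _ _ hx hy => rw [add_mul]; exact Submodule.add_mem _ hx hy
  | smul c x _ hx => rw [smul_mul_assoc]; exact Submodule.smul_mem _ c hx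

theorem LG_of_span {T : Op G} (h : T ∈ Submodule.span ℂ (Set.range (lam : G → Op G))) :
    T ∈ LG G := by
  intro F ε hε
  refine ⟨T, h, fun p _ => ?_⟩
  rw [sub_self]
  change ‖⟪p.1, (0 : E2 G)⟫_ℂ‖ < ε
  rw [inner_zero_right, norm_zero]
  exact hε

theorem inner_star (A : Op G) (u v : E2 G) : ⟪u, A v⟫_ℂ = ⟪(star A) u, v⟫_ℂ := by
  change _ = ⟪(ContinuousLinearMap.adjoint A) u, v⟫_ℂ
  rw [ContinuousLinearMap.adjoint_inner_left]

theorem LG_Conv {T : Op G} (h : T ∈ LG G) : T ∈ Conv G := by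
  classical
  rw [mem_Conv]
  intro g
  apply ContinuousLinearMap.ext
  intro v
  change rt g (T v) = T (rt g v)
  rw [← sub_eq_zero]
  set u : E2 G := rt g (T v) - T (rt g v) with hu
  have key : ∀ ε : ℝ, 0 < ε → ‖u‖ ^ 2 ≤ 0 + ε := by
    intro ε hε
    obtain ⟨S, hS, hF⟩ := h {((star (rt g)) u, v), (u, rt g v)} (ε / 2) (by positivity)
    have f1 := hF ((star (rt g)) u, v) (by simp)
    have f2 := hF (u, rt g v) (by simp)
    simp only at f1 f2
    have e0 : rt g (S v) = S (rt g v) := (Conv_rt (span_Conv hS) g v).symm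
    have e1 : u = rt g ((T - S) v) - (T - S) (rt g v) := by
      change u = rt g (T v - S v) - (T (rt g v) - S (rt g v))
      rw [map_sub, e0, hu]
      abel
    have e2 : ⟪u, u⟫_ℂ = ⟪(star (rt g)) u, (T - S) v⟫_ℂ - ⟪u, (T - S) (rt g v)⟫_ℂ := by
      conv_lhs => rw [e1]
      rw [← e1, ← inner_star]
      conv_lhs => rhs; rw [e1]
      rw [inner_sub_right]
    have e3 : ‖⟪u, u⟫_ℂ‖ = ‖u‖ ^ 2 := by
      rw [inner_self_eq_norm_sq_to_K]
      simp
    rw [← e3, e2]
    refine (norm_sub_le _ _).trans ?_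
    linarith
  have h0 : ‖u‖ ^ 2 ≤ 0 := le_of_forall_pos_le_add key
  have h1 : ‖u‖ = 0 := by nlinarith [norm_nonneg u]
  exact norm_eq_zero.1 h1

theorem LG_lam_mul {T : Op G} (g : G) (h : T ∈ LG G) : lam g * T ∈ LG G := by
  classical
  intro F ε hε
  obtain ⟨S, hS, hF⟩ := h (F.image fun p => ((star (lam g)) p.1, p.2)) ε hε
  refine ⟨lam g * S, span_lam_mul g hS, fun p hp => ?_⟩
  have h1 := hF _ (Finset.mem_image_of_mem _ hp)
  rw [← mul_sub]
  change ‖⟪p.1, lam g ((T - S) p.2)⟫_ℂ‖ < ε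
  rw [inner_star]
  exact h1

theorem LG_mul_lam {T : Op G} (g : G) (h : T ∈ LG G) : T * lam g ∈ LG G := by
  classical
  intro F ε hε
  obtain ⟨S, hS, hF⟩ := h (F.image fun p => (p.1, lam g p.2)) ε hε
  refine ⟨S * lam g, span_mul_lam g hS, fun p hp => ?_⟩
  have h1 := hF _ (Finset.mem_image_of_mem _ hp)
  rw [← sub_mul]
  exact h1

theorem Lr_span (p : MonoidAlgebra ℂ G) :
    Lr p ∈ Submodule.span ℂ (Set.range (lam : G → Op G)) := by
  unfold Lr
  rw [MonoidAlgebra.lift_apply, Finsupp.sum]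
  exact Submodule.sum_mem _ fun g _ => Submodule.smul_mem _ _ (Submodule.subset_span ⟨g, rfl⟩)

theorem lam_BSeq (g : G) : (fun _ : ℕ => lam g) ∈ BSeq G :=
  ⟨fun _ => LG_of_span (Submodule.subset_span ⟨g, rfl⟩), 1, fun _ => norm_lam_le g⟩

theorem one_BSeq : (1 : ℕ → Op G) ∈ BSeq G := by
  have h := lam_BSeq (1 : G)
  rw [lam_one] at h
  exact h

theorem smul_one_BSeq (t : ℂ) : (t • (1 : ℕ → Op G)) ∈ BSeq G := by
  refine ⟨fun n => LG_of_span ?_, ‖t‖, fun n => ?_⟩
  · change t • (1 : Op G) ∈ _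
    rw [← lam_one]
    exact Submodule.smul_mem _ _ (Submodule.subset_span ⟨1, rfl⟩)
  · change ‖t • (1 : Op G)‖ ≤ ‖t‖
    rw [norm_smul]
    exact mul_le_of_le_one_right (norm_nonneg _) (by rw [← lam_one]; exact norm_lam_le 1)

end FromU

open FromU in
/-- M16. -/
theorem fromUStmt (h1 : CutStmt) (h2 : KapStmt) (h3 : GapStmt) : FromUStmt := by
  intro G _ hG S c _ hK U V hU hV Φ
  classical
  set b : G → ℕ → Op F2 := fun g => Φ.toFun (fun _ => lam g) with hbdef
  have hb : ∀ g, b g ∈ BSeq F2 := fun g => Φ.mem _ (lam_BSeq g)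
  have hbC : ∀ g n, b g n ∈ Conv F2 := fun g n => LG_Conv ((hb g).1 n)
  choose B hB using fun g => (hb g).2
  have hmul : ∀ g h, Eqv V (b g * b h) (b (g * h)) := by
    intro g h
    have h0 := Φ.mul _ (lam_BSeq g) _ (lam_BSeq h)
    have e : ((fun _ => lam g) * (fun _ => lam h) : ℕ → Op G) = fun _ => lam (g * h) := by
      funext n
      exact (lam_mul g h).symm
    rw [e] at h0
    exact eqv_symm h0
  have hstar : ∀ g, Eqv V (star (b g)) (b g⁻¹) := by
    intro g
    have h0 := Φ.star _ (lam_BSeq g)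
    have e : (star (fun _ => lam g) : ℕ → Op G) = fun _ => lam g⁻¹ := by
      funext n
      exact star_lam g
    rw [e] at h0
    exact eqv_symm h0
  have hone : Eqv V (b 1) 1 := by
    obtain ⟨x, hx, hx'⟩ := Φ.surj 1 one_BSeq
    have h0 := Φ.mul _ (lam_BSeq 1) x hx
    have e : ((fun _ => lam (1 : G)) * x : ℕ → Op G) = x := by
      funext n
      change lam 1 * x n = x n
      rw [lam_one, one_mul]
    rw [e] at h0
    have h4 : Eqv V (b 1 * Φ.toFun x) (b 1 * 1) := eqv_mul_left (hB 1) hx'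
    rw [mul_one] at h4
    exact eqv_trans (eqv_symm h4) (eqv_trans (eqv_symm h0) hx')
  have hcutC : ∀ g n, cut (b g n) ∈ Conv F2 := fun g n => (h1 F2 (b g n)).2.1 _ (hbC g n)
  have hcut : ∀ g, Eqv V (fun n => cut (b g n)) (b g) := by
    intro g
    have h0 : Eqv V (star (b g) * b g) 1 := by
      refine eqv_trans (eqv_mul_right (hB g) (fun n => star_mem (hbC g n)) (fun n => hbC g⁻¹ n)
        (fun n => hbC g n) (hstar g)) ?_
      have h5 := hmul g⁻¹ g
      rw [inv_mul_cancel] at h5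
      exact eqv_trans h5 hone
    have h5 := eqv_symm h0
    rw [eqv_iff] at h5 ⊢
    refine squeeze_zero (g := fun n => B g * n2 (1 - star (b g n) * b g n))
      (fun n => n2_nonneg _) (fun n => ?_) ?_
    · exact ((h1 F2 (b g n)).2.2).trans (mul_le_mul_of_nonneg_right (hB g n) (n2_nonneg _))
    · have h6 := h5.const_mul (B g)
      rw [mul_zero] at h6
      exact h6
  choose a ha1 ha2 using fun (n : ℕ) (g : G) => h2 F2 (cut (b g n)) (hcutC g n) (h1 F2 (b g n)).1
    (1 / ((n : ℝ) + 1)) (by positivity)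
  have hab : ∀ g, Eqv V (fun n => Lr (a n g)) (b g) := by
    intro g
    refine eqv_trans ?_ (hcut g)
    refine eqv_symm ?_
    rw [eqv_iff]
    refine squeeze_zero (fun n => n2_nonneg _) (fun n => ?_) (lim_inv hV 1)
    rw [one_mul]
    exact ha2 n g
  have haC : ∀ g n, Lr (a n g) ∈ Conv F2 := fun g n => Lr_mem_Conv _
  refine ⟨a, ⟨fun n g => Lr_mem_Conv _, ha1, ?_, ?_, ?_⟩, ?_⟩
  · exact eqv_trans (hab 1) hone
  · intro g h
    have e1 : Eqv V ((fun n => Lr (a n g)) * fun n => Lr (a n h)) (b (g * h)) := by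
      refine eqv_trans (eqv_mul_right (fun n => ha1 n h) (haC g) (hbC g) (haC h) (hab g)) ?_
      exact eqv_trans (eqv_mul_left (hB g) (hab h)) (hmul g h)
    exact eqv_trans e1 (eqv_symm (hab (g * h)))
  · intro g
    have e1 : Eqv V (star fun n => Lr (a n g)) (b g⁻¹) :=
      eqv_trans (eqv_star (haC g) (hbC g) (hab g)) (hstar g)
    exact eqv_trans e1 (eqv_symm (hab g⁻¹))
  · rintro y hy ⟨C, hC⟩ hcomm
    set C' : ℝ := max C 1 with hC'
    have hC'pos : 0 < C' := lt_of_lt_of_le one_pos (le_max_right _ _)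
    have hyC' : ∀ n, ‖((C'⁻¹ : ℝ) : ℂ) • y n‖ ≤ 1 := by
      intro n
      rw [norm_smul, Complex.norm_real, Real.norm_of_nonneg (by positivity), inv_mul_le_iff₀ hC'pos,
        mul_one]
      exact (hC n).trans (le_max_left _ _)
    choose p hp1 hp2 using fun n : ℕ => h2 F2 (((C'⁻¹ : ℝ) : ℂ) • y n)
      ((Conv F2).smul_mem (hy n) _) (hyC' n) (1 / ((n : ℝ) + 1)) (by positivity)
    set Y : ℕ → Op F2 := fun n => ((C' : ℝ) : ℂ) • Lr (p n) with hY
    have hCC : ((C' : ℝ) : ℂ) * ((C'⁻¹ : ℝ) : ℂ) = 1 := by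
      rw [← Complex.ofReal_mul, mul_inv_cancel₀ hC'pos.ne', Complex.ofReal_one]
    have hyY : Eqv V y Y := by
      rw [eqv_iff]
      refine squeeze_zero (fun n => n2_nonneg _) (fun n => ?_) (lim_inv hV C')
      have e : y n - Y n = ((C' : ℝ) : ℂ) • (((C'⁻¹ : ℝ) : ℂ) • y n - Lr (p n)) := by
        rw [smul_sub, smul_smul, hCC, one_smul]
      rw [e, n2_smul, Complex.norm_real, Real.norm_of_nonneg hC'pos.le]
      exact mul_le_mul_of_nonneg_left (hp2 n) hC'pos.le
    have hYB : Y ∈ BSeq F2 := by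
      refine ⟨fun n => LG_of_span (Submodule.smul_mem _ _ (Lr_span _)), C' * 3, fun n => ?_⟩
      change ‖((C' : ℝ) : ℂ) • Lr (p n)‖ ≤ _
      rw [norm_smul, Complex.norm_real, Real.norm_of_nonneg hC'pos.le]
      exact mul_le_mul_of_nonneg_left (hp1 n) hC'pos.le
    obtain ⟨x, hx, hxY⟩ := Φ.surj Y hYB
    have hxy : Eqv V (Φ.toFun x) y := eqv_trans hxY (eqv_symm hyY)
    have hΦxC : ∀ n, Φ.toFun x n ∈ Conv F2 := fun n => LG_Conv ((Φ.mem x hx).1 n)
    obtain ⟨D, hD⟩ := hx.2
    -- commutation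
    have hxs : ∀ s ∈ S, Eqv U ((fun _ => lam s) * x) (x * fun _ => lam s) := by
      intro s hs
      have m1 : ((fun _ => lam s) * x : ℕ → Op G) ∈ BSeq G := by
        refine ⟨fun n => LG_lam_mul s (hx.1 n), D, fun n => ?_⟩
        change ‖lam s * x n‖ ≤ D
        refine (norm_mul_le _ _).trans ?_
        refine (mul_le_of_le_one_left (norm_nonneg _) (norm_lam_le s)).trans (hD n)
      have m2 : (x * fun _ => lam s : ℕ → Op G) ∈ BSeq G := by
        refine ⟨fun n => LG_mul_lam s (hx.1 n), D, fun n => ?_⟩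
        change ‖x n * lam s‖ ≤ D
        refine (norm_mul_le _ _).trans ?_
        refine (mul_le_of_le_one_right (norm_nonneg _) (norm_lam_le s)).trans (hD n)
      rw [← Φ.inj _ m1 _ m2]
      have k1 : Eqv V (Φ.toFun ((fun _ => lam s) * x)) (b s * Φ.toFun x) :=
        Φ.mul _ (lam_BSeq s) x hx
      have k2 : Eqv V (Φ.toFun (x * fun _ => lam s)) (Φ.toFun x * b s) :=
        Φ.mul x hx _ (lam_BSeq s)
      have k3 : Eqv V (b s * Φ.toFun x) (b s * y) := eqv_mul_left (hB s) hxy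
      have k4 : Eqv V (b s * y) ((fun n => Lr (a n s)) * y) :=
        eqv_symm (eqv_mul_right hC (haC s) (hbC s) hy (hab s))
      have k5 : Eqv V (y * fun n => Lr (a n s)) ((fun n => Lr (a n s)) * y) := hcomm s hs
      have k6 : Eqv V (y * fun n => Lr (a n s)) (y * b s) := eqv_mul_left hC (hab s)
      have k7 : Eqv V (Φ.toFun x * b s) (y * b s) :=
        eqv_mul_right (hB s) hΦxC hy (hbC s) hxy
      exact eqv_trans k1 (eqv_trans k3 (eqv_trans k4 (eqv_trans (eqv_symm k5)
        (eqv_trans k6 (eqv_trans (eqv_symm k7) (eqv_symm k2))))))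
    have hxt : Tendsto (fun n => n2 (x n - tr (x n) • (1 : Op G))) U (𝓝 0) := by
      have hc := hK.1
      have hsum : Tendsto (fun n => c⁻¹ * ∑ s ∈ S, n2 (lam s * x n - x n * lam s)) U (𝓝 0) := by
        have h5 : Tendsto (fun n => ∑ s ∈ S, n2 (lam s * x n - x n * lam s)) U
            (𝓝 (∑ s ∈ S, (0 : ℝ))) := tendsto_finsetSum _ fun s hs => hxs s hs
        rw [Finset.sum_const_zero] at h5
        have h6 := h5.const_mul c⁻¹
        rw [mul_zero] at h6
        exact h6
      refine squeeze_zero (fun n => n2_nonneg _) (fun n => ?_) hsum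
      obtain ⟨s, hs, h7⟩ := h3 G hG S c hK (x n) (LG_Conv (hx.1 n))
      rw [← div_eq_inv_mul, le_div_iff₀ hc, mul_comm]
      refine h7.trans ?_
      exact Finset.single_le_sum (f := fun s => n2 (lam s * x n - x n * lam s))
        (fun s _ => n2_nonneg _) hs
    obtain ⟨t, ht⟩ : ∃ t : ℂ, Tendsto (fun n => tr (x n)) U (𝓝 t) := by
      have hcpt : IsCompact (Metric.closedBall (0 : ℂ) D) := isCompact_closedBall _ _
      have hmem : ∀ n, tr (x n) ∈ Metric.closedBall (0 : ℂ) D := by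
        intro n
        rw [mem_closedBall_zero_iff]
        exact (norm_tr_le _).trans ((n2_le_norm _).trans (hD n))
      have hle : ((U.map fun n => tr (x n)) : Filter ℂ) ≤ 𝓟 (Metric.closedBall (0 : ℂ) D) := by
        rw [le_principal_iff]
        change (fun n => tr (x n)) ⁻¹' (Metric.closedBall (0 : ℂ) D) ∈ U
        exact Filter.Eventually.of_forall hmem
      obtain ⟨t, _, ht⟩ := hcpt.ultrafilter_le_nhds _ hle
      exact ⟨t, ht⟩
    have hxt' : Eqv U x (t • 1) := by
      rw [eqv_iff]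
      have h5 : Tendsto (fun n => n2 (x n - tr (x n) • (1 : Op G)) + ‖tr (x n) - t‖) U (𝓝 0) := by
        have h6 : Tendsto (fun n => ‖tr (x n) - t‖) U (𝓝 0) := by
          have h7 := (ht.sub_const t).norm
          rw [sub_self, norm_zero] at h7
          exact h7
        simpa using hxt.add h6
      refine squeeze_zero (fun n => n2_nonneg _) (fun n => ?_) h5
      change n2 (x n - t • (1 : Op G)) ≤ _
      refine (n2_triangle _ (tr (x n) • (1 : Op G)) _).trans ?_
      rw [← sub_smul, n2_smul, n2_one, mul_one]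
    have hfin : Eqv V y (t • 1) := by
      have l1 : Eqv V (Φ.toFun x) (Φ.toFun (t • 1)) :=
        (Φ.inj x hx _ (smul_one_BSeq t)).2 hxt'
      have l2 : Eqv V (Φ.toFun (t • 1)) (t • Φ.toFun 1) := Φ.smul t 1 one_BSeq
      have e : (1 : ℕ → Op G) = fun _ => lam (1 : G) := by
        funext n
        exact lam_one.symm
      have l3 : Eqv V (t • Φ.toFun 1) (t • 1) := by
        apply eqv_smul
        rw [e]
        exact hone
      exact eqv_trans (eqv_symm hxy) (eqv_trans l1 (eqv_trans l2 l3))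
    rw [eqv_iff] at hfin
    exact squeeze_zero (fun n => n2_nonneg _) (fun n => n2_sub_tr_le (y n) t) hfin

end GVN
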