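import Pool.Agent.Lib.MP_5185df_an.Stmts

/-!
# Spectral gap of the conjugation representation
-/

open Filter Topology
open scoped InnerProductSpace ComplexConjugate

namespace GVN

/-- M15. -/
theorem gapStmt : GapStmt := by
  intro G _ hG S c hc T hT
  obtain ⟨w, hw, s, hs, h⟩ := hc.2 (E2 G) (cj G) norm_cj_apply (T (del 1))
  refine ⟨s, hs, ?_⟩
  have h1 : w = w 1 • del 1 := cj_invariant hG w hw
  have h2 : n2 (T - tr T • (1 : Op G)) ≤ ‖T (del 1) - w‖ := by
    refine (n2_sub_tr_le T (w 1)).trans (le_of_eq ?_)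
    conv_rhs => rw [h1]
    rfl
  have h3 : ‖cj G s (T (del 1)) - T (del 1)‖ ≤ n2 (lam s * T - T * lam s) := by
    rw [cj_conv hT]
    have h4 : n2 ((lam s * T - T * lam s) * lam s⁻¹) ≤ n2 (lam s * T - T * lam s) * ‖lam s⁻¹‖ :=
      n2_mul_le' (sub_mem (mul_mem (lam_mem_Conv s) hT) (mul_mem hT (lam_mem_Conv s)))
        (lam_mem_Conv _)
    have h5 : (lam s * T - T * lam s) * lam s⁻¹ = lam s * T * lam s⁻¹ - T := by
      rw [sub_mul, mul_assoc T, ← lam_mul, mul_inv_cancel, lam_one, mul_one]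
    rw [h5] at h4
    refine le_trans (le_of_eq ?_) (h4.trans ?_)
    · rfl
    · exact mul_le_of_le_one_right (n2_nonneg _) (norm_lam_le _)
  calc c * n2 (T - tr T • (1 : Op G)) ≤ c * ‖T (del 1) - w‖ :=
        mul_le_mul_of_nonneg_left h2 hc.1.le
    _ ≤ _ := h.trans h3

end GVN
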