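import Pool.Agent.Lib.MP_5185df_an.Stmts

/-!
# M9: an almost action on a semi-inner product space gives a unitary representation
-/

open Filter Topology
open scoped InnerProductSpace ComplexConjugate

namespace GVN

namespace HilbAux

open UniformSpace

variable {E : Type} [SeminormedAddCommGroup E] [InnerProductSpace ℂ E]

/-- the continuous version -/
noncomputable def Tc (T : E →ₗ[ℂ] E) (h : ∀ x, ‖T x‖ = ‖x‖) : E →L[ℂ] E :=
  T.mkContinuous 1 (fun x => by rw [h x, one_mul])

/-- the extension to the completion -/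
noncomputable def Te (T : E →ₗ[ℂ] E) (h : ∀ x, ‖T x‖ = ‖x‖) :
    Completion E →L[ℂ] Completion E :=
  ((Completion.toComplL (𝕜 := ℂ) (E := E)).comp (Tc T h)).extend
    (Completion.toComplL (𝕜 := ℂ) (E := E))

theorem Te_coe (T : E →ₗ[ℂ] E) (h : ∀ x, ‖T x‖ = ‖x‖) (x : E) :
    Te T h (x : Completion E) = ((T x : E) : Completion E) := by
  have h1 := ContinuousLinearMap.extend_eq
    ((Completion.toComplL (𝕜 := ℂ) (E := E)).comp (Tc T h))
    (e := Completion.toComplL (𝕜 := ℂ) (E := E)) Completion.denseRange_coe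
    (Completion.isUniformInducing_coe E) x
  exact h1

theorem norm_Te (T : E →ₗ[ℂ] E) (h : ∀ x, ‖T x‖ = ‖x‖) (v : Completion E) :
    ‖Te T h v‖ = ‖v‖ := by
  induction v using Completion.induction_on with
  | hp => exact isClosed_eq (by fun_prop) (by fun_prop)
  | ih a => rw [Te_coe, Completion.norm_coe, Completion.norm_coe, h]

omit [InnerProductSpace ℂ E] in
theorem coe_eq_of {x y : E} (h : ‖x - y‖ = 0) : (x : Completion E) = (y : Completion E) := by
  rw [← sub_eq_zero, ← Completion.coe_sub, ← norm_eq_zero, Completion.norm_coe, h]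

theorem main (Γ : Type) [Group Γ] (T : Γ → E →ₗ[ℂ] E) (h1 : ∀ g x, ‖T g x‖ = ‖x‖)
    (h2 : ∀ g h x, ‖T g (T h x) - T (g * h) x‖ = 0) (h3 : ∀ x, ‖T 1 x - x‖ = 0) :
    ∃ (H : Type) (_ : NormedAddCommGroup H) (_ : InnerProductSpace ℂ H) (_ : CompleteSpace H)
      (ι : E →ₗ[ℂ] H) (σ : Γ →* (H →L[ℂ] H)),
      (∀ x, ‖ι x‖ = ‖x‖) ∧ (∀ g v, ‖σ g v‖ = ‖v‖) ∧ ∀ g x, σ g (ι x) = ι (T g x) := by
  refine ⟨Completion E, inferInstance, inferInstance, inferInstance,
    (Completion.toComplₗᵢ (𝕜 := ℂ) (E := E)).toLinearMap,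
    { toFun := fun g => Te (T g) (h1 g)
      map_one' := ?_
      map_mul' := ?_ }, ?_, ?_, ?_⟩
  · ext v
    induction v using Completion.induction_on with
    | hp => exact isClosed_eq (by fun_prop) (by fun_prop)
    | ih a =>
      rw [Te_coe]
      exact coe_eq_of (h3 a)
  · intro g h
    ext v
    induction v using Completion.induction_on with
    | hp => exact isClosed_eq (by fun_prop) (by fun_prop)
    | ih a =>
      show Te (T (g * h)) (h1 (g * h)) a = Te (T g) (h1 g) (Te (T h) (h1 h) a)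
      rw [Te_coe, Te_coe, Te_coe]
      exact (coe_eq_of (h2 g h a)).symm
  · intro x
    exact Completion.norm_coe x
  · intro g v
    exact norm_Te (T g) (h1 g) v
  · intro g x
    exact Te_coe (T g) (h1 g) x

end HilbAux

theorem hilbStmt : HilbStmt := by
  intro E _ _ core Γ _ T h1 h2 h3
  letI i1 : SeminormedAddCommGroup E :=
    @InnerProductSpace.Core.toSeminormedAddCommGroup ℂ E _ _ _ core
  letI i2 : InnerProductSpace ℂ E := InnerProductSpace.ofCore core
  have hn : ∀ x : E, ‖x‖ = √((core.inner x x).re) := fun x => rfl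
  obtain ⟨H, j1, j2, j3, ι, σ, e1, e2, e3⟩ := HilbAux.main (E := E) Γ T
    (fun g x => by rw [hn, hn, h1]) (fun g h x => by rw [hn, h2, Real.sqrt_zero])
    (fun x => by rw [hn, h3, Real.sqrt_zero])
  refine ⟨H, j1, j2, j3, ι, σ, fun x => ?_, e2, e3⟩
  rw [e1 x, hn, Real.sq_sqrt]
  exact core.re_inner_nonneg x

end GVN
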