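import Pool.Agent.Lib.MP_5185df_an.Stmts

/-!
# M8: averaging almost invariant vectors (problem MP_5185df_an)
-/

open Filter Topology

namespace GVN

namespace HullAux

variable {Γ : Type} [Group Γ] {H : Type} [NormedAddCommGroup H] [InnerProductSpace ℂ H]

/-- The combination `∑ t_g σ_g v`. -/
noncomputable def cmb (σ : Γ →* (H →L[ℂ] H)) (v : H) (t : Γ →₀ ℝ) : H :=
  t.sum fun g r => (r : ℂ) • σ g v

theorem cmb_add (σ : Γ →* (H →L[ℂ] H)) (v : H) (t t' : Γ →₀ ℝ) :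
    cmb σ v (t + t') = cmb σ v t + cmb σ v t' := by
  classical
  unfold cmb
  rw [Finsupp.sum_add_index']
  · intro g; simp
  · intro g r r'
    push_cast
    rw [add_smul]

theorem cmb_smul (σ : Γ →* (H →L[ℂ] H)) (v : H) (c : ℝ) (t : Γ →₀ ℝ) :
    cmb σ v (c • t) = (c : ℂ) • cmb σ v t := by
  classical
  unfold cmb
  rw [Finsupp.sum_smul_index' (fun g => by simp), Finsupp.smul_sum]
  refine Finsupp.sum_congr fun g _ => ?_
  rw [smul_smul, smul_eq_mul]
  push_cast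
  rfl

/-- Probability weights. -/
def Pr (t : Γ →₀ ℝ) : Prop := (∀ g, 0 ≤ t g) ∧ (t.sum fun _ r => r) = 1

theorem cmb_shift (σ : Γ →* (H →L[ℂ] H)) (v : H) (s : Γ) (t : Γ →₀ ℝ) :
    σ s (cmb σ v t) = cmb σ v (t.mapDomain fun g => s * g) := by
  classical
  unfold cmb
  rw [Finsupp.sum_mapDomain_index (fun g => by simp)
    (fun g r r' => by push_cast; rw [add_smul])]
  rw [Finsupp.sum, Finsupp.sum, map_sum]
  refine Finset.sum_congr rfl fun g _ => ?_
  rw [map_smul, map_mul]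
  rfl

theorem Pr_shift {t : Γ →₀ ℝ} (ht : Pr t) (s : Γ) : Pr (t.mapDomain fun g => s * g) := by
  classical
  constructor
  · intro g
    have h1 : g = s * (s⁻¹ * g) := by group
    rw [h1, Finsupp.mapDomain_apply (mul_right_injective s)]
    exact ht.1 _
  · rw [Finsupp.sum_mapDomain_index (fun g => rfl) (fun g r r' => rfl)]
    exact ht.2

omit [Group Γ] in
theorem Pr_mid {t t' : Γ →₀ ℝ} (ht : Pr t) (ht' : Pr t') : Pr ((1 / 2 : ℝ) • (t + t')) := by
  classical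
  constructor
  · intro g
    rw [Finsupp.smul_apply, Finsupp.add_apply, smul_eq_mul]
    have := ht.1 g
    have := ht'.1 g
    positivity
  · rw [Finsupp.sum_smul_index' (fun g => rfl)]
    have h1 : ((t + t').sum fun _ c => (1 / 2 : ℝ) • c) =
        (1 / 2 : ℝ) * ((t + t').sum fun _ c => c) := by
      rw [Finsupp.mul_sum]
      rfl
    rw [h1, Finsupp.sum_add_index' (fun g => rfl) (fun g r r' => rfl), ht.2, ht'.2]
    norm_num

theorem norm_cmb_sub_le (σ : Γ →* (H →L[ℂ] H)) (hσ : ∀ g v, ‖σ g v‖ = ‖v‖) (v w : H)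
    (hw : ∀ g, σ g w = w) {t : Γ →₀ ℝ} (ht : Pr t) : ‖cmb σ v t - w‖ ≤ ‖v - w‖ := by
  classical
  have h1 : cmb σ v t - w = t.sum fun g r => (r : ℂ) • (σ g (v - w)) := by
    have h2 : w = t.sum fun g r => (r : ℂ) • w := by
      have h3 : (t.sum fun g r => (r : ℂ) • w) = (((t.sum fun _ r => r : ℝ)) : ℂ) • w := by
        unfold Finsupp.sum
        rw [← Finset.sum_smul]
        push_cast
        rfl
      rw [h3, ht.2]
      simp
    unfold cmb
    conv_lhs => rw [h2]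
    unfold Finsupp.sum
    rw [← Finset.sum_sub_distrib]
    refine Finset.sum_congr rfl fun g _ => ?_
    show (t g : ℂ) • σ g v - (t g : ℂ) • w = (t g : ℂ) • σ g (v - w)
    rw [map_sub, hw, smul_sub]
  rw [h1]
  unfold Finsupp.sum
  calc ‖∑ g ∈ t.support, ((t g : ℝ) : ℂ) • (σ g (v - w))‖
      ≤ ∑ g ∈ t.support, ‖((t g : ℝ) : ℂ) • (σ g (v - w))‖ := norm_sum_le _ _
    _ = ∑ g ∈ t.support, t g * ‖v - w‖ := by
        refine Finset.sum_congr rfl fun g _ => ?_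
        rw [norm_smul, hσ, Complex.norm_real, Real.norm_of_nonneg (ht.1 g)]
    _ = (t.sum fun _ r => r) * ‖v - w‖ := by
        unfold Finsupp.sum
        rw [Finset.sum_mul]
    _ = ‖v - w‖ := by rw [ht.2, one_mul]

end HullAux

open HullAux

theorem hullStmt : HullStmt := by
  classical
  intro Γ _ S c hK H _ _ _ σ hσ v δ hδ ε hε
  obtain ⟨hc, hK⟩ := hK
  obtain ⟨w1, hw1, s1, hs1, hs2⟩ := hK H σ hσ v
  have hvw : ‖v - w1‖ ≤ δ / c := by
    rw [le_div_iff₀ hc, mul_comm]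
    exact hs2.trans (hδ s1 hs1)
  -- the infimum of the norms
  set N : Set ℝ := {r | ∃ t : Γ →₀ ℝ, Pr t ∧ r = ‖cmb σ v t‖ ^ 2} with hN
  have hne : N.Nonempty := by
    refine ⟨_, Finsupp.single 1 1, ⟨fun g => ?_, ?_⟩, rfl⟩
    · rw [Finsupp.single_apply]
      split_ifs <;> norm_num
    · rw [Finsupp.sum_single_index rfl]
  have hbd : BddBelow N := ⟨0, by rintro _ ⟨t, _, rfl⟩; positivity⟩
  set m : ℝ := sInf N with hm
  obtain ⟨r, ⟨t, ht, rfl⟩, hr⟩ := exists_lt_of_csInf_lt hne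
    (show sInf N < m + ε ^ 2 / 4 by rw [← hm]; linarith [pow_pos hε 2])
  refine ⟨t.support, t, ht.1, ht.2, ?_, ?_⟩
  · have h1 := norm_cmb_sub_le σ hσ v w1 hw1 ht
    have h2 : ‖cmb σ v t - v‖ ≤ 2 * δ / c := by
      calc ‖cmb σ v t - v‖ = ‖(cmb σ v t - w1) - (v - w1)‖ := by congr 1; abel
        _ ≤ ‖cmb σ v t - w1‖ + ‖v - w1‖ := norm_sub_le _ _
        _ ≤ δ / c + δ / c := add_le_add (h1.trans hvw) hvw
        _ = 2 * δ / c := by ring
    calc ‖(∑ g ∈ t.support, ((t g : ℝ) : ℂ) • σ g v) - v‖ = ‖cmb σ v t - v‖ := rfl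
      _ ≤ 2 * δ / c := h2
      _ ≤ _ := by linarith
  · intro s _
    show ‖σ s (cmb σ v t) - cmb σ v t‖ ≤ ε
    set x := cmb σ v t with hx
    have h1 : m ≤ ‖(1 / 2 : ℂ) • (σ s x + x)‖ ^ 2 := by
      refine csInf_le hbd ⟨(1 / 2 : ℝ) • (t.mapDomain (fun g => s * g) + t),
        Pr_mid (Pr_shift ht s) ht, ?_⟩
      rw [cmb_smul, cmb_add, ← cmb_shift]
      norm_num
      rfl
    have h2 : ‖(1 / 2 : ℂ) • (σ s x + x)‖ ^ 2 = ‖σ s x + x‖ ^ 2 / 4 := by
      rw [norm_smul, mul_pow]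
      norm_num
      ring
    have h3 := parallelogram_law_with_norm ℂ (σ s x) x
    have h4 : ‖σ s x‖ = ‖x‖ := hσ s x
    rw [h4] at h3
    rw [h2] at h1
    have h5 : ‖x‖ ^ 2 < m + ε ^ 2 / 4 := hr
    have h6 : ‖σ s x - x‖ ^ 2 ≤ ε ^ 2 := by nlinarith
    exact abs_le_of_sq_le_sq' h6 hε.le |>.2

end GVN
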