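import Pool.Agent.Lib.MP_5185df_an.Stmts

/-!
# M7b: irreducibility passes from `L(F_2)^V` to `L(F_3)^V`
-/

open Filter Topology
open scoped InnerProductSpace ComplexConjugate

namespace GVN

namespace IrrHatAux

theorem star_half : star (1 / 2 : ℂ) = 1 / 2 := by
  have h : (1 / 2 : ℂ) = ((1 / 2 : ℝ) : ℂ) := by norm_num
  rw [h, Complex.star_def, Complex.conj_ofReal]

theorem star_half_I : star (Complex.I / 2 : ℂ) = -(Complex.I / 2) := by
  have h : (Complex.I / 2 : ℂ) = ((1 / 2 : ℝ) : ℂ) * Complex.I := by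
    push_cast; ring
  rw [h, Complex.star_def, map_mul, Complex.conj_ofReal, Complex.conj_I, mul_neg]

theorem mem_star {G : Type} [Group G] {T : Op G} (h : T ∈ Conv G) : star T ∈ Conv G := star_mem h

theorem n2_mul_three {G : Type} [Group G] (A B C : Op G) (hB : B ∈ Conv G) (hC : C ∈ Conv G)
    (a c : ℝ) (ha : ‖A‖ ≤ a) (hc : ‖C‖ ≤ c) : n2 (A * B * C) ≤ a * c * n2 B := by
  have h0 : 0 ≤ a := (norm_nonneg _).trans ha
  calc n2 (A * B * C) = n2 (A * (B * C)) := by rw [mul_assoc]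
    _ ≤ ‖A‖ * n2 (B * C) := n2_mul_le _ _
    _ ≤ a * (n2 B * c) := mul_le_mul ha
        ((n2_mul_le' hB hC).trans (mul_le_mul_of_nonneg_left hc (n2_nonneg _)))
        (n2_nonneg _) h0
    _ = a * c * n2 B := by ring

/-- `L L* → 1` and `L* L → 1` for an asymptotic representation. -/
theorem app_unit {Γ K : Type} [Group Γ] [Group K] {V : Ultrafilter ℕ} {a : ℕ → Γ → Op K}
    (hA : IsApp V a) (s : Γ) :
    Tendsto (fun n => n2 (a n s * star (a n s) - 1)) V (𝓝 0) ∧
      Tendsto (fun n => n2 (star (a n s) * a n s - 1)) V (𝓝 0) := by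
  constructor
  · have h1 := hA.mul s s⁻¹
    rw [mul_inv_cancel] at h1
    have h2 := ((hA.adj s).const_mul 3).add (h1.add hA.one)
    simp only [mul_zero, add_zero] at h2
    refine squeeze_zero (fun n => n2_nonneg _) (fun n => ?_) h2
    calc n2 (a n s * star (a n s) - 1)
        = n2 (a n s * (star (a n s) - a n s⁻¹)
            + ((a n s * a n s⁻¹ - a n 1) + (a n 1 - 1))) := by
          congr 1; noncomm_ring
      _ ≤ n2 (a n s * (star (a n s) - a n s⁻¹)) + n2 ((a n s * a n s⁻¹ - a n 1) + (a n 1 - 1)) :=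
          n2_add_le _ _
      _ ≤ 3 * n2 (star (a n s) - a n s⁻¹) + (n2 (a n s * a n s⁻¹ - a n 1) + n2 (a n 1 - 1)) := by
          refine add_le_add ((n2_mul_le _ _).trans ?_) (n2_add_le _ _)
          exact mul_le_mul_of_nonneg_right (hA.bdd n s) (n2_nonneg _)
  · have h1 := hA.mul s⁻¹ s
    rw [inv_mul_cancel] at h1
    have h2 := ((hA.adj s).const_mul 3).add (h1.add hA.one)
    simp only [mul_zero, add_zero] at h2
    refine squeeze_zero (fun n => n2_nonneg _) (fun n => ?_) h2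
    calc n2 (star (a n s) * a n s - 1)
        = n2 ((star (a n s) - a n s⁻¹) * a n s
            + ((a n s⁻¹ * a n s - a n 1) + (a n 1 - 1))) := by
          congr 1; noncomm_ring
      _ ≤ n2 ((star (a n s) - a n s⁻¹) * a n s) + n2 ((a n s⁻¹ * a n s - a n 1) + (a n 1 - 1)) :=
          n2_add_le _ _
      _ ≤ 3 * n2 (star (a n s) - a n s⁻¹) + (n2 (a n s⁻¹ * a n s - a n 1) + n2 (a n 1 - 1)) := by
          refine add_le_add ((n2_mul_le' (sub_mem (mem_star (hA.mem n s)) (hA.mem n s⁻¹))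
            (hA.mem n s)).trans ?_) (n2_add_le _ _)
          rw [mul_comm]
          exact mul_le_mul_of_nonneg_right (hA.bdd n s) (n2_nonneg _)

theorem hat_unit (h0 : MomStmt) {Γ : Type} [Group Γ] {V : Ultrafilter ℕ}
    {a : ℕ → Γ → MonoidAlgebra ℂ F2} (hA : IsApp V (fun n g => Lr (a n g))) (s : Γ) :
    Tendsto (fun n => n2 (iT.ext (a n s) * star (iT.ext (a n s)) - 1)) V (𝓝 0) ∧
      Tendsto (fun n => n2 (star (iT.ext (a n s)) * iT.ext (a n s) - 1)) V (𝓝 0) := by
  have h := app_unit hA s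
  have e1 : ∀ n, n2 (iT.ext (a n s) * star (iT.ext (a n s)) - 1)
      = n2 (Lr (a n s) * star (Lr (a n s)) - 1) := by
    intro n
    have e : iT.ext (a n s) * star (iT.ext (a n s)) - 1 = iT.ext (a n s * adj (a n s) - 1) := by
      rw [map_sub, map_mul, map_one, (h0 _ _ iT (a n s)).2.1]
    rw [e, (h0 _ _ iT _).2.2.1, map_sub, map_mul, map_one, Lr_adj]
  have e2 : ∀ n, n2 (star (iT.ext (a n s)) * iT.ext (a n s) - 1)
      = n2 (star (Lr (a n s)) * Lr (a n s) - 1) := by
    intro n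
    have e : star (iT.ext (a n s)) * iT.ext (a n s) - 1 = iT.ext (adj (a n s) * a n s - 1) := by
      rw [map_sub, map_mul, map_one, (h0 _ _ iT (a n s)).2.1]
    rw [e, (h0 _ _ iT _).2.2.1, map_sub, map_mul, map_one, Lr_adj]
  constructor
  · simp only [e1]; exact h.1
  · simp only [e2]; exact h.2

/-- The commutant is closed under adjoints. -/
theorem star_comm {K : Type} [Group K] {V : Ultrafilter ℕ} (A y : ℕ → Op K)
    (hA : ∀ n, A n ∈ Conv K) (hy : ∀ n, y n ∈ Conv K) (hA3 : ∀ n, ‖A n‖ ≤ 3) (C : ℝ)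
    (hC : ∀ n, ‖y n‖ ≤ C)
    (h1 : Tendsto (fun n => n2 (A n * star (A n) - 1)) V (𝓝 0))
    (h2 : Tendsto (fun n => n2 (star (A n) * A n - 1)) V (𝓝 0))
    (h3 : Tendsto (fun n => n2 (y n * A n - A n * y n)) V (𝓝 0)) :
    Tendsto (fun n => n2 (star (y n) * A n - A n * star (y n))) V (𝓝 0) := by
  have h4 := ((h1.const_mul (3 * C)).add (h3.const_mul (3 * 3))).add (h2.const_mul (C * 3))
  simp only [mul_zero, add_zero] at h4
  refine squeeze_zero (fun n => n2_nonneg _) (fun n => ?_) h4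
  have hC0 : 0 ≤ C := (norm_nonneg _).trans (hC n)
  have hsA : ‖star (A n)‖ ≤ 3 := by rw [norm_star_op]; exact hA3 n
  have e1 : star (y n) * A n - A n * star (y n)
      = star (star (A n) * y n - y n * star (A n)) := by
    rw [star_sub, star_mul, star_mul, star_star]
  have m1 : star (A n) * y n - y n * star (A n) ∈ Conv K :=
    sub_mem (mul_mem (mem_star (hA n)) (hy n)) (mul_mem (hy n) (mem_star (hA n)))
  rw [e1, n2_star m1]
  have e2 : star (A n) * y n - y n * star (A n)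
      = -(star (A n) * y n * (A n * star (A n) - 1))
        + star (A n) * (y n * A n - A n * y n) * star (A n)
        + (star (A n) * A n - 1) * (y n * star (A n)) := by
    noncomm_ring
  rw [e2]
  have b1 : n2 (-(star (A n) * y n * (A n * star (A n) - 1)))
      ≤ 3 * C * n2 (A n * star (A n) - 1) := by
    rw [n2_neg]
    refine (n2_mul_le _ _).trans (mul_le_mul_of_nonneg_right ?_ (n2_nonneg _))
    exact (norm_mul_le _ _).trans (mul_le_mul hsA (hC n) (norm_nonneg _) (by norm_num))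
  have b2 : n2 (star (A n) * (y n * A n - A n * y n) * star (A n))
      ≤ 3 * 3 * n2 (y n * A n - A n * y n) :=
    n2_mul_three _ _ _ (sub_mem (mul_mem (hy n) (hA n)) (mul_mem (hA n) (hy n)))
      (mem_star (hA n)) 3 3 hsA hsA
  have b3 : n2 ((star (A n) * A n - 1) * (y n * star (A n)))
      ≤ C * 3 * n2 (star (A n) * A n - 1) := by
    refine (n2_mul_le' (sub_mem (mul_mem (mem_star (hA n)) (hA n)) (one_mem _))
      (mul_mem (hy n) (mem_star (hA n)))).trans ?_
    rw [mul_comm]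
    refine mul_le_mul_of_nonneg_right ?_ (n2_nonneg _)
    exact (norm_mul_le _ _).trans (mul_le_mul (hC n) hsA (norm_nonneg _) hC0)
  calc _ ≤ n2 (-(star (A n) * y n * (A n * star (A n) - 1))
        + star (A n) * (y n * A n - A n * y n) * star (A n))
        + n2 ((star (A n) * A n - 1) * (y n * star (A n))) := n2_add_le _ _
    _ ≤ (n2 (-(star (A n) * y n * (A n * star (A n) - 1)))
        + n2 (star (A n) * (y n * A n - A n * y n) * star (A n)))
        + n2 ((star (A n) * A n - 1) * (y n * star (A n))) :=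
        add_le_add (n2_add_le _ _) le_rfl
    _ ≤ _ := add_le_add (add_le_add b1 b2) b3

theorem one_div_tendsto {V : Ultrafilter ℕ} (hV : (V : Filter ℕ) ≤ cofinite) :
    Tendsto (fun n : ℕ => (1 : ℝ) / ((n : ℝ) + 1)) V (𝓝 0) := by
  have h : Tendsto (fun n : ℕ => (1 : ℝ) / ((n : ℝ) + 1)) atTop (𝓝 0) :=
    tendsto_one_div_add_atTop_nhds_zero_nat
  rw [← Nat.cofinite_eq_atTop] at h
  exact h.mono_left hV

/-- The approximation step: self-adjoint `z` is close to a self-adjoint `Lr q`. -/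
theorem kap_sa (h3 : KapStmt) {G : Type} [Group G] (z : Op G) (hz : z ∈ Conv G) (hn : ‖z‖ ≤ 1)
    (hs : star z = z) (ε : ℝ) (hε : 0 < ε) :
    ∃ q : MonoidAlgebra ℂ G, ‖Lr q‖ ≤ 3 ∧ n2 (z - Lr q) ≤ ε ∧ star (Lr q) = Lr q := by
  obtain ⟨p, hp3, hpe⟩ := h3 G z hz hn ε hε
  have e1 : Lr ((1 / 2 : ℂ) • (p + adj p)) = (1 / 2 : ℂ) • (Lr p + star (Lr p)) := by
    rw [map_smul, map_add, Lr_adj]
  have hhalf : ‖(1 / 2 : ℂ)‖ = 1 / 2 := by norm_num
  refine ⟨(1 / 2 : ℂ) • (p + adj p), ?_, ?_, ?_⟩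
  · rw [e1, norm_smul, hhalf]
    have := norm_add_le (Lr p) (star (Lr p))
    rw [norm_star_op] at this
    linarith
  · rw [e1]
    have e2 : z - (1 / 2 : ℂ) • (Lr p + star (Lr p))
        = (1 / 2 : ℂ) • ((z - Lr p) + star (z - Lr p)) := by
      rw [star_sub, hs]
      module
    rw [e2, n2_smul, hhalf]
    have h5 := n2_add_le (z - Lr p) (star (z - Lr p))
    rw [n2_star (sub_mem hz (Lr_mem_Conv p))] at h5
    linarith
  · rw [e1, star_smul, star_add, star_star]
    rw [star_half, add_comm]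

/-- The main step, for self-adjoint sequences. -/
theorem main_sa (h1 : CutStmt) (h2 : ResolvStmt) (h3 : KapStmt) (h4 : TransStmt)
    {Γ : Type} [Group Γ] {V : Ultrafilter ℕ} (hV : (V : Filter ℕ) ≤ cofinite) (S : Finset Γ)
    (a : ℕ → Γ → MonoidAlgebra ℂ F2)
    (hA3 : ∀ n s, ‖iT.ext (a n s)‖ ≤ 3) (hAm : ∀ n s, iT.ext (a n s) ∈ Conv F3)
    (hIrr : IrrS V S (fun n g => Lr (a n g)))
    (y : ℕ → Op F3) (hy : ∀ n, y n ∈ Conv F3) (C : ℝ) (hC : ∀ n, ‖y n‖ ≤ C)
    (hs : ∀ n, star (y n) = y n)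
    (hc : ∀ s ∈ S, Tendsto (fun n => n2 (y n * iT.ext (a n s) - iT.ext (a n s) * y n)) V (𝓝 0)) :
    Tendsto (fun n => n2 (y n - tr (y n) • (1 : Op F3))) V (𝓝 0) := by
  classical
  have hC0 : 0 ≤ C := (norm_nonneg _).trans (hC 0)
  obtain ⟨D, hDdef⟩ : ∃ D : ℝ, D = C + 1 := ⟨_, rfl⟩
  have hD : 0 < D := by rw [hDdef]; linarith
  have hD' : (D : ℂ) ≠ 0 := by exact_mod_cast hD.ne'
  have hnD : ‖((D : ℂ))⁻¹‖ = D⁻¹ := by
    rw [norm_inv, Complex.norm_real, Real.norm_of_nonneg hD.le]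
  obtain ⟨z, hz⟩ : ∃ z : ℕ → Op F3, ∀ n, z n = ((D : ℂ))⁻¹ • y n := ⟨_, fun n => rfl⟩
  have hzm : ∀ n, z n ∈ Conv F3 := fun n => by
    rw [hz]; exact (Conv F3).smul_mem (hy n) _
  have hzn : ∀ n, ‖z n‖ ≤ 1 := fun n => by
    rw [hz, norm_smul, hnD]
    have := hC n
    rw [inv_mul_le_iff₀ hD]
    linarith
  have hzs : ∀ n, star (z n) = z n := fun n => by
    rw [hz, star_smul, hs]
    congr 1
    rw [Complex.star_def, map_inv₀, Complex.conj_ofReal]
  have hpos : ∀ n : ℕ, (0 : ℝ) < 1 / ((n : ℝ) + 1) := fun n => by positivity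
  choose q hq3 hqe hqs using fun n => kap_sa h3 (z n) (hzm n) (hzn n) (hzs n) _ (hpos n)
  choose p' hp2 hpt hpsq hpsub hpsa hpc using fun n => h4 (q n) (S.image (a n))
  obtain ⟨v, hv⟩ : ∃ v : ℕ → Op F2, ∀ n, v n = Lr (p' n) := ⟨_, fun n => rfl⟩
  have hvm : ∀ n, v n ∈ Conv F2 := fun n => by rw [hv]; exact Lr_mem_Conv _
  have hvs : ∀ n, star (v n) = v n := fun n => by rw [hv]; exact hpsa n (hqs n)
  have hv9 : ∀ n, n2 (v n * v n) ≤ 9 := fun n => by
    rw [hv, hpsq]
    calc n2 (Lr (q n) * Lr (q n)) ≤ ‖Lr (q n)‖ * n2 (Lr (q n)) := n2_mul_le _ _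
      _ ≤ 3 * 3 := mul_le_mul (hq3 n) ((n2_le_norm _).trans (hq3 n)) (n2_nonneg _) (by norm_num)
      _ = 9 := by norm_num
  -- asymptotic commutation
  have hvc : ∀ s ∈ S, Tendsto (fun n => n2 (v n * Lr (a n s) - Lr (a n s) * v n)) V (𝓝 0) := by
    intro s hsS
    have t1 := (((one_div_tendsto hV).const_mul 3).add ((hc s hsS).const_mul D⁻¹)).add
      ((one_div_tendsto hV).const_mul 3)
    simp only [mul_zero, add_zero] at t1
    refine squeeze_zero (fun n => n2_nonneg _) (fun n => ?_) t1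
    have e1 := hpc n (a n s) (Finset.mem_image_of_mem _ hsS)
    rw [hv, e1]
    have e2 : Lr (q n) * iT.ext (a n s) - iT.ext (a n s) * Lr (q n)
        = (Lr (q n) - z n) * iT.ext (a n s)
          + ((D : ℂ))⁻¹ • (y n * iT.ext (a n s) - iT.ext (a n s) * y n)
          + iT.ext (a n s) * (z n - Lr (q n)) := by
      have e3 : ((D : ℂ))⁻¹ • (y n * iT.ext (a n s) - iT.ext (a n s) * y n)
          = z n * iT.ext (a n s) - iT.ext (a n s) * z n := by
        rw [hz, smul_sub, smul_mul_assoc, mul_smul_comm]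
      rw [e3]
      noncomm_ring
    rw [e2]
    have b1 : n2 ((Lr (q n) - z n) * iT.ext (a n s)) ≤ 3 * (1 / ((n : ℝ) + 1)) := by
      refine (n2_mul_le' (sub_mem (Lr_mem_Conv _) (hzm n)) (hAm n s)).trans ?_
      rw [mul_comm, n2_sub_comm]
      exact mul_le_mul (hA3 n s) (hqe n) (n2_nonneg _) (by norm_num)
    have b2 : n2 (((D : ℂ))⁻¹ • (y n * iT.ext (a n s) - iT.ext (a n s) * y n))
        = D⁻¹ * n2 (y n * iT.ext (a n s) - iT.ext (a n s) * y n) := by
      rw [n2_smul, hnD]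
    have b3 : n2 (iT.ext (a n s) * (z n - Lr (q n))) ≤ 3 * (1 / ((n : ℝ) + 1)) :=
      (n2_mul_le _ _).trans (mul_le_mul (hA3 n s) (hqe n) (n2_nonneg _) (by norm_num))
    calc _ ≤ n2 ((Lr (q n) - z n) * iT.ext (a n s)
          + ((D : ℂ))⁻¹ • (y n * iT.ext (a n s) - iT.ext (a n s) * y n))
          + n2 (iT.ext (a n s) * (z n - Lr (q n))) := n2_add_le _ _
      _ ≤ (n2 ((Lr (q n) - z n) * iT.ext (a n s))
          + n2 (((D : ℂ))⁻¹ • (y n * iT.ext (a n s) - iT.ext (a n s) * y n)))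
          + n2 (iT.ext (a n s) * (z n - Lr (q n))) := add_le_add (n2_add_le _ _) le_rfl
      _ ≤ _ := add_le_add (add_le_add b1 b2.le) b3
  -- `v - tr v → 0`
  have hv0 : Tendsto (fun n => n2 (v n - tr (v n) • (1 : Op F2))) V (𝓝 0) := by
    rw [Metric.tendsto_nhds]
    intro ε hε
    obtain ⟨l, hl⟩ : ∃ l : ℝ, l = ε / 9 := ⟨_, rfl⟩
    have hl0 : 0 < l := by rw [hl]; positivity
    have hf : Tendsto (fun n => n2 (cut ((l : ℂ) • v n)
        - tr (cut ((l : ℂ) • v n)) • (1 : Op F2))) V (𝓝 0) := by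
      refine hIrr (fun n => cut ((l : ℂ) • v n)) (fun n => ?_) ⟨1, fun n => ?_⟩ ?_
      · exact (h1 F2 ((l : ℂ) • v n)).2.1 (Set.range rt) ((Conv F2).smul_mem (hvm n) _)
      · exact (h1 F2 ((l : ℂ) • v n)).1
      · intro s hsS
        have t1 := (hvc s hsS).const_mul (5 * l)
        rw [mul_zero] at t1
        refine squeeze_zero (fun n => n2_nonneg _) (fun n => ?_) t1
        exact h2.2.1 F2 (v n) (Lr (a n s)) (hvm n) (Lr_mem_Conv _) (hvs n) l hl0
    have t2 := hf.const_mul (1 / (2 * l))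
    rw [mul_zero, Metric.tendsto_nhds] at t2
    filter_upwards [t2 (ε / 2) (by positivity)] with n hn
    rw [Real.dist_eq, sub_zero, abs_of_nonneg (n2_nonneg _)]
    have hx0 : 0 ≤ 1 / (2 * l) * n2 (cut ((l : ℂ) • v n)
        - tr (cut ((l : ℂ) • v n)) • (1 : Op F2)) :=
      mul_nonneg (by positivity) (n2_nonneg _)
    rw [Real.dist_eq, sub_zero, abs_of_nonneg hx0] at hn
    have b1 := h2.2.2 F2 (v n) (hvm n) (hvs n) l hl0
    have hcn : ‖((1 / (2 * l) : ℝ) : ℂ)‖ = 1 / (2 * l) := by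
      rw [Complex.norm_real, Real.norm_of_nonneg (by positivity)]
    calc n2 (v n - tr (v n) • (1 : Op F2))
        ≤ n2 (v n - (((1 / (2 * l) : ℝ) : ℂ) * tr (cut ((l : ℂ) • v n))) • (1 : Op F2)) :=
          n2_sub_tr_le _ _
      _ = n2 ((v n - ((1 / (2 * l) : ℝ) : ℂ) • cut ((l : ℂ) • v n))
          + ((1 / (2 * l) : ℝ) : ℂ) • (cut ((l : ℂ) • v n)
            - tr (cut ((l : ℂ) • v n)) • (1 : Op F2))) := by
          congr 1
          rw [smul_sub, smul_smul]
          abel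
      _ ≤ n2 (v n - ((1 / (2 * l) : ℝ) : ℂ) • cut ((l : ℂ) • v n))
          + n2 (((1 / (2 * l) : ℝ) : ℂ) • (cut ((l : ℂ) • v n)
            - tr (cut ((l : ℂ) • v n)) • (1 : Op F2))) := n2_add_le _ _
      _ < ε := by
          rw [n2_smul, hcn]
          have b2 : l / 2 * n2 (v n * v n) ≤ ε / 2 := by
            calc l / 2 * n2 (v n * v n) ≤ l / 2 * 9 :=
                  mul_le_mul_of_nonneg_left (hv9 n) (by positivity)
              _ = ε / 2 := by rw [hl]; ring
          linarith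
  -- back to `y`
  have t3 := ((one_div_tendsto hV).add hv0).const_mul D
  simp only [add_zero, mul_zero] at t3
  refine squeeze_zero (fun n => n2_nonneg _) (fun n => ?_) t3
  have e1 : y n - (D * tr (Lr (q n))) • (1 : Op F3)
      = (D : ℂ) • (z n - tr (Lr (q n)) • (1 : Op F3)) := by
    rw [hz, smul_sub, smul_smul, mul_inv_cancel₀ hD', one_smul, smul_smul]
  calc n2 (y n - tr (y n) • (1 : Op F3))
      ≤ n2 (y n - (D * tr (Lr (q n))) • (1 : Op F3)) := n2_sub_tr_le _ _
    _ = D * n2 (z n - tr (Lr (q n)) • (1 : Op F3)) := by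
        rw [e1, n2_smul, Complex.norm_real, Real.norm_of_nonneg hD.le]
    _ ≤ D * (n2 (z n - Lr (q n)) + n2 (Lr (q n) - tr (Lr (q n)) • (1 : Op F3))) :=
        mul_le_mul_of_nonneg_left (n2_triangle _ _ _) hD.le
    _ ≤ D * (1 / ((n : ℝ) + 1) + n2 (v n - tr (v n) • (1 : Op F2))) := by
        refine mul_le_mul_of_nonneg_left (add_le_add (hqe n) ?_) hD.le
        rw [hv, hpsub]

end IrrHatAux

open IrrHatAux in
/-- M7b. -/
theorem irrHatStmt (h0 : MomStmt) (h1 : CutStmt) (h2 : ResolvStmt) (h3 : KapStmt)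
    (h4 : TransStmt) : IrrHatStmt := by
  intro Γ _ V hV S a hApp hIrr y hy hC hc
  obtain ⟨C, hC⟩ := hC
  have hAm : ∀ n s, iT.ext (a n s) ∈ Conv F3 := fun n s => (h0 _ _ iT (a n s)).1
  have hA3 : ∀ n s, ‖iT.ext (a n s)‖ ≤ 3 := fun n s =>
    (h0 _ _ iT (a n s)).2.2.2.trans (hApp.bdd n s)
  have hC0 : 0 ≤ C := (norm_nonneg _).trans (hC 0)
  have hsc : ∀ s ∈ S, Tendsto
      (fun n => n2 (star (y n) * iT.ext (a n s) - iT.ext (a n s) * star (y n))) V (𝓝 0) := by
    intro s hs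
    have hu := hat_unit h0 hApp s
    exact star_comm (fun n => iT.ext (a n s)) y (fun n => hAm n s) hy (fun n => hA3 n s) C hC
      hu.1 hu.2 (hc s hs)
  have hhalf : ‖(1 / 2 : ℂ)‖ = 1 / 2 := by norm_num
  -- real part
  have hre : Tendsto (fun n => n2 ((1 / 2 : ℂ) • (y n + star (y n))
      - tr ((1 / 2 : ℂ) • (y n + star (y n))) • (1 : Op F3))) V (𝓝 0) := by
    refine main_sa h1 h2 h3 h4 hV S a hA3 hAm hIrr (fun n => (1 / 2 : ℂ) • (y n + star (y n)))
      (fun n => (Conv F3).smul_mem (add_mem (hy n) (star_mem (hy n))) _) C (fun n => ?_)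
      (fun n => ?_) ?_
    · rw [norm_smul, hhalf]
      have := norm_add_le (y n) (star (y n))
      rw [norm_star_op] at this
      have := hC n
      linarith
    · rw [star_smul, star_add, star_star]
      rw [star_half, add_comm]
    · intro s hs
      have t := ((hc s hs).add (hsc s hs)).const_mul (1 / 2)
      simp only [add_zero, mul_zero] at t
      refine squeeze_zero (fun n => n2_nonneg _) (fun n => ?_) t
      have e : (1 / 2 : ℂ) • (y n + star (y n)) * iT.ext (a n s)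
          - iT.ext (a n s) * (1 / 2 : ℂ) • (y n + star (y n))
          = (1 / 2 : ℂ) • ((y n * iT.ext (a n s) - iT.ext (a n s) * y n)
            + (star (y n) * iT.ext (a n s) - iT.ext (a n s) * star (y n))) := by
        rw [smul_mul_assoc, mul_smul_comm, ← smul_sub]
        congr 1
        noncomm_ring
      rw [e, n2_smul, hhalf]
      exact mul_le_mul_of_nonneg_left (n2_add_le _ _) (by norm_num)
  -- imaginary part
  have hnI : ‖(Complex.I / 2 : ℂ)‖ = 1 / 2 := by
    rw [norm_div, Complex.norm_I]; norm_num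
  have him : Tendsto (fun n => n2 ((Complex.I / 2 : ℂ) • (y n - star (y n))
      - tr ((Complex.I / 2 : ℂ) • (y n - star (y n))) • (1 : Op F3))) V (𝓝 0) := by
    refine main_sa h1 h2 h3 h4 hV S a hA3 hAm hIrr
      (fun n => (Complex.I / 2 : ℂ) • (y n - star (y n)))
      (fun n => (Conv F3).smul_mem (sub_mem (hy n) (star_mem (hy n))) _) C (fun n => ?_)
      (fun n => ?_) ?_
    · rw [norm_smul, hnI]
      have := norm_sub_le (y n) (star (y n))
      rw [norm_star_op] at this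
      have := hC n
      linarith
    · rw [star_smul, star_sub, star_star]
      rw [star_half_I, neg_smul, ← smul_neg, neg_sub]
    · intro s hs
      have t := ((hc s hs).add (hsc s hs)).const_mul (1 / 2)
      simp only [add_zero, mul_zero] at t
      refine squeeze_zero (fun n => n2_nonneg _) (fun n => ?_) t
      have e : (Complex.I / 2 : ℂ) • (y n - star (y n)) * iT.ext (a n s)
          - iT.ext (a n s) * (Complex.I / 2 : ℂ) • (y n - star (y n))
          = (Complex.I / 2 : ℂ) • ((y n * iT.ext (a n s) - iT.ext (a n s) * y n)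
            - (star (y n) * iT.ext (a n s) - iT.ext (a n s) * star (y n))) := by
        rw [smul_mul_assoc, mul_smul_comm, ← smul_sub]
        congr 1
        noncomm_ring
      rw [e, n2_smul, hnI]
      exact mul_le_mul_of_nonneg_left (n2_sub_le _ _) (by norm_num)
  have t := hre.add him
  rw [add_zero] at t
  refine squeeze_zero (fun n => n2_nonneg _) (fun n => ?_) t
  have e1 : y n = (1 / 2 : ℂ) • (y n + star (y n))
      + (-Complex.I) • ((Complex.I / 2 : ℂ) • (y n - star (y n))) := by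
    rw [smul_smul]
    have : -Complex.I * (Complex.I / 2) = 1 / 2 := by
      have := Complex.I_mul_I
      linear_combination (-1 / 2 : ℂ) * this
    rw [this]
    module
  obtain ⟨R, hR⟩ : ∃ R, R = (1 / 2 : ℂ) • (y n + star (y n)) := ⟨_, rfl⟩
  obtain ⟨J, hJ⟩ : ∃ J, J = (Complex.I / 2 : ℂ) • (y n - star (y n)) := ⟨_, rfl⟩
  rw [← hR, ← hJ] at e1 ⊢
  have e2 : y n - tr (y n) • (1 : Op F3)
      = (R - tr R • (1 : Op F3)) + (-Complex.I) • (J - tr J • (1 : Op F3)) := by
    rw [e1, tr_add, tr_smul, add_smul, mul_smul, smul_sub]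
    abel
  rw [e2]
  refine (n2_add_le _ _).trans (add_le_add le_rfl ?_)
  rw [n2_smul, norm_neg, Complex.norm_I, one_mul]

end GVN
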