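import Pool.Agent.Lib.MP_5185df_an.Stmts

/-!
M20: iteration.
-/

open Filter Topology
open scoped InnerProductSpace ComplexConjugate

namespace GVN

theorem iterStmt : IterStmt := by
  intro κ₀ hκ₀
  -- wlog `κ ≤ 1`
  set κ : ℝ := min κ₀ 1 with hκdef
  have hκ : 0 < κ := lt_min hκ₀ one_pos
  have hκ1 : κ ≤ 1 := min_le_right _ _
  set r : ℝ := Real.sqrt (1 - κ / 3) with hr
  have hq0 : 0 ≤ 1 - κ / 3 := by linarith
  have hq1 : 1 - κ / 3 < 1 := by linarith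
  have hr0 : 0 ≤ r := Real.sqrt_nonneg _
  have hr1 : r < 1 := by
    rw [hr, Real.sqrt_lt' one_pos]
    linarith
  have hr2 : r ^ 2 = 1 - κ / 3 := Real.sq_sqrt hq0
  refine ⟨1 / (3 * (1 - r) ^ 2), ?_, ?_⟩
  · have : 0 < 1 - r := by linarith
    positivity
  intro H _ _ _ B hsymm hup hlow₀ v
  have hE0 : ∀ u : H, 0 ≤ (⟪B u, u⟫_ℂ).re := by
    intro u
    have := hup u
    nlinarith [sq_nonneg ‖B u‖]
  have hlow : ∀ u : H, κ * (⟪B u, u⟫_ℂ).re ≤ ‖B u‖ ^ 2 := by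
    intro u
    refine le_trans ?_ (hlow₀ u)
    exact mul_le_mul_of_nonneg_right (min_le_left _ _) (hE0 u)
  have hnorm : ∀ u : H, ‖B u‖ ≤ 3 * ‖u‖ := by
    intro u
    have h1 := hup u
    have h2 : (⟪B u, u⟫_ℂ).re ≤ ‖B u‖ * ‖u‖ :=
      (Complex.re_le_norm _).trans (norm_inner_le_norm _ _)
    by_contra hcon
    push Not at hcon
    have h3 : 0 < ‖B u‖ := lt_of_le_of_lt (by positivity) hcon
    nlinarith
  have hE3 : ∀ u : H, (⟪B u, u⟫_ℂ).re ≤ 3 * ‖u‖ ^ 2 := by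
    intro u
    have h2 : (⟪B u, u⟫_ℂ).re ≤ ‖B u‖ * ‖u‖ :=
      (Complex.re_le_norm _).trans (norm_inner_le_norm _ _)
    have h3 := mul_le_mul_of_nonneg_right (hnorm u) (norm_nonneg u)
    nlinarith
  -- one step
  set N : H → H := fun u => u - (3 : ℂ)⁻¹ • B u with hN
  have hstep : ∀ u : H, (⟪B (N u), N u⟫_ℂ).re ≤ (1 - κ / 3) * (⟪B u, u⟫_ℂ).re := by
    intro u
    have e1 : (⟪B (N u), N u⟫_ℂ).re = (⟪B u, u⟫_ℂ).re - 2 / 3 * ‖B u‖ ^ 2 +
        1 / 9 * (⟪B (B u), B u⟫_ℂ).re := by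
      have e2 : ⟪B (N u), N u⟫_ℂ = ⟪B u, u⟫_ℂ - (3 : ℂ)⁻¹ * ⟪B u, B u⟫_ℂ -
          ((3 : ℂ)⁻¹ * ⟪B (B u), u⟫_ℂ - (3 : ℂ)⁻¹ * ((3 : ℂ)⁻¹ * ⟪B (B u), B u⟫_ℂ)) := by
        simp only [hN]
        rw [map_sub, map_smul, inner_sub_left, inner_sub_right, inner_sub_right, inner_smul_left,
          inner_smul_right, inner_smul_left, inner_smul_right]
        have h3 : (starRingEnd ℂ) (3 : ℂ)⁻¹ = (3 : ℂ)⁻¹ := by
          rw [map_inv₀]
          congr 1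
          exact Complex.conj_ofReal 3
        rw [h3]
      have e3 : ⟪B (B u), u⟫_ℂ = ⟪B u, B u⟫_ℂ := hsymm (B u) u
      have e4 : ⟪B u, B u⟫_ℂ = ((‖B u‖ ^ 2 : ℝ) : ℂ) := by
        rw [inner_self_eq_norm_sq_to_K]
        norm_cast
      rw [e2, e3, e4]
      have h3 : ((3 : ℂ)⁻¹) = (((3 : ℝ)⁻¹ : ℝ) : ℂ) := by push_cast; rfl
      rw [h3]
      simp only [Complex.sub_re, Complex.re_ofReal_mul, Complex.ofReal_re]
      ring
    have e5 := hE3 (B u)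
    have e6 := hlow u
    rw [e1]
    nlinarith
  set s : ℕ → H := fun k => N^[k] v with hs
  have hs1 : ∀ k, s (k + 1) = N (s k) := fun k => by
    simp only [hs, Function.iterate_succ_apply']
  have hdec : ∀ k, (⟪B (s k), s k⟫_ℂ).re ≤ (1 - κ / 3) ^ k * (⟪B v, v⟫_ℂ).re := by
    intro k
    induction k with
    | zero => simp [hs]
    | succ k ih =>
      rw [hs1, pow_succ]
      calc (⟪B (N (s k)), N (s k)⟫_ℂ).re ≤ (1 - κ / 3) * (⟪B (s k), s k⟫_ℂ).re := hstep _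
        _ ≤ (1 - κ / 3) * ((1 - κ / 3) ^ k * (⟪B v, v⟫_ℂ).re) :=
            mul_le_mul_of_nonneg_left ih hq0
        _ = _ := by ring
  set E : ℝ := (⟪B v, v⟫_ℂ).re with hE
  have hEv : 0 ≤ E := hE0 v
  have hdist : ∀ k, dist (s k) (s (k + 1)) ≤ Real.sqrt (E / 3) * r ^ k := by
    intro k
    rw [hs1, dist_eq_norm]
    have e1 : s k - N (s k) = (3 : ℂ)⁻¹ • B (s k) := by simp only [hN]; abel
    rw [e1, norm_smul]
    have e2 : ‖(3 : ℂ)⁻¹‖ = 1 / 3 := by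
      rw [norm_inv]
      norm_num
    rw [e2]
    have hrhs : 0 ≤ Real.sqrt (E / 3) * r ^ k := by positivity
    apply le_of_sq_le_sq _ hrhs
    rw [mul_pow, mul_pow, Real.sq_sqrt (by positivity), ← pow_mul, mul_comm k 2, pow_mul, hr2]
    have h1 := hup (s k)
    have h2 := hdec k
    have : (1 / 3 : ℝ) ^ 2 * ‖B (s k)‖ ^ 2 ≤ 1 / 3 * ((1 - κ / 3) ^ k * E) := by nlinarith
    linarith
  have hcau : CauchySeq s := cauchySeq_of_le_geometric r _ hr1 hdist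
  obtain ⟨w, hw⟩ := cauchySeq_tendsto_of_complete hcau
  refine ⟨w, ?_, ?_⟩
  · have h1 : Tendsto (fun k => B (s k)) atTop (𝓝 (B w)) := (B.continuous.tendsto w).comp hw
    have h2 : Tendsto (fun k => B (s k)) atTop (𝓝 0) := by
      rw [tendsto_zero_iff_norm_tendsto_zero]
      have h3 : Tendsto (fun k : ℕ => Real.sqrt (3 * ((1 - κ / 3) ^ k * E))) atTop (𝓝 0) := by
        have h4 : Tendsto (fun k : ℕ => 3 * ((1 - κ / 3) ^ k * E)) atTop (𝓝 (3 * (0 * E))) :=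
          ((tendsto_pow_atTop_nhds_zero_of_lt_one hq0 hq1).mul_const E).const_mul 3
        rw [zero_mul, mul_zero] at h4
        have h5 := (Real.continuous_sqrt.tendsto 0).comp h4
        rw [Real.sqrt_zero] at h5
        exact h5
      apply squeeze_zero (fun _ => norm_nonneg _) _ h3
      intro k
      apply Real.le_sqrt_of_sq_le
      have h4 := hup (s k)
      have h5 := hdec k
      linarith
    exact tendsto_nhds_unique h1 h2
  · have h1 := dist_le_of_le_geometric_of_tendsto₀ r _ hr1 hdist hw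
    have h2 : s 0 = v := rfl
    rw [h2, dist_eq_norm] at h1
    have h3 : 0 < 1 - r := by linarith
    have h4 : ‖v - w‖ ^ 2 ≤ (Real.sqrt (E / 3) / (1 - r)) ^ 2 :=
      pow_le_pow_left₀ (norm_nonneg _) h1 2
    rw [div_pow, Real.sq_sqrt (by positivity)] at h4
    refine h4.trans (le_of_eq ?_)
    field_simp

end GVN
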