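import Pool.Agent.Lib.MP_5185df_an.Stmts

/-!
# Module M10b: averaging for asymptotic representations
-/

open Filter Topology
open scoped InnerProductSpace ComplexConjugate

namespace GVN

namespace KSeqAux

section basic

variable {Γ K : Type} [Group Γ] [Group K] {V : Ultrafilter ℕ}

theorem bound2 {f g : ℕ → Op K} (hf : ∀ n, f n ∈ Conv K) (hg : ∀ n, g n ∈ Conv K) {C : ℝ}
    (hC : ∀ n, ‖g n‖ ≤ C) (h : Tendsto (fun n => n2 (f n)) V (𝓝 0)) :
    Tendsto (fun n => n2 (f n * g n)) V (𝓝 0) := by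
  refine squeeze_zero (fun n => n2_nonneg _) (fun n => ?_) (by simpa using h.mul_const C)
  exact (n2_mul_le' (hf n) (hg n)).trans (mul_le_mul_of_nonneg_left (hC n) (n2_nonneg _))

theorem bound1 {f g : ℕ → Op K} {C : ℝ} (hC : ∀ n, ‖g n‖ ≤ C)
    (h : Tendsto (fun n => n2 (f n)) V (𝓝 0)) :
    Tendsto (fun n => n2 (g n * f n)) V (𝓝 0) := by
  refine squeeze_zero (fun n => n2_nonneg _) (fun n => ?_) (by simpa using h.const_mul C)
  exact (n2_mul_le _ _).trans (mul_le_mul_of_nonneg_right (hC n) (n2_nonneg _))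

theorem tadd {f g : ℕ → Op K} (h : Tendsto (fun n => n2 (f n)) V (𝓝 0))
    (h' : Tendsto (fun n => n2 (g n)) V (𝓝 0)) :
    Tendsto (fun n => n2 (f n + g n)) V (𝓝 0) := by
  refine squeeze_zero (fun n => n2_nonneg _) (fun n => n2_add_le _ _) (by simpa using h.add h')

theorem tstar {f : ℕ → Op K} (hf : ∀ n, f n ∈ Conv K) (h : Tendsto (fun n => n2 (f n)) V (𝓝 0)) :
    Tendsto (fun n => n2 (star (f n))) V (𝓝 0) := by
  refine h.congr fun n => ?_
  exact (n2_star (hf n)).symm

/-- `b* b ~ 1` -/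
theorem star_mul_self_tendsto {b : ℕ → Γ → Op K} (hb : IsApp V b) (g : Γ) :
    Tendsto (fun n => n2 (star (b n g) * b n g - 1)) V (𝓝 0) := by
  have h1 : Tendsto (fun n => n2 ((star (b n g) - b n g⁻¹) * b n g)) V (𝓝 0) :=
    bound2 (fun n => sub_mem (star_mem (hb.mem n g)) (hb.mem n _)) (fun n => hb.mem n g)
      (fun n => hb.bdd n g) (hb.adj g)
  have h2 := hb.mul g⁻¹ g
  rw [inv_mul_cancel] at h2
  refine (tadd (tadd h1 h2) hb.one).congr fun n => ?_
  congr 1
  noncomm_ring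

variable (K) in
theorem norm_mul3 {x y z : Op K} {C : ℝ} (hx : ‖x‖ ≤ 3) (hy : ‖y‖ ≤ C) (hz : ‖z‖ ≤ 3) :
    ‖x * y * z‖ ≤ 9 * C := by
  have h0 : 0 ≤ C := (norm_nonneg _).trans hy
  calc ‖x * y * z‖ ≤ ‖x‖ * ‖y‖ * ‖z‖ := (norm_mul_le _ _).trans
        (mul_le_mul_of_nonneg_right (norm_mul_le _ _) (norm_nonneg _))
    _ ≤ 3 * C * 3 := by
        apply mul_le_mul _ hz (norm_nonneg _) (by positivity)
        exact mul_le_mul hx hy (norm_nonneg _) (by norm_num)
    _ = 9 * C := by ring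

/-- the almost action -/
noncomputable def act (a b : ℕ → Γ → Op K) (ha : IsApp V a) (hb : IsApp V b) (g : Γ) :
    BC K →ₗ[ℂ] BC K where
  toFun x := ⟨fun n => b n g * x.1 n * star (a n g),
    fun n => mul_mem (mul_mem (hb.mem n g) (x.2.1 n)) (star_mem (ha.mem n g)), by
      obtain ⟨C, hC⟩ := x.2.2
      refine ⟨9 * C, fun n => norm_mul3 K (hb.bdd n g) (hC n) ?_⟩
      rw [norm_star_op]
      exact ha.bdd n g⟩
  map_add' x y := by
    apply Subtype.ext
    funext n
    change b n g * (x.1 n + y.1 n) * star (a n g) =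
      b n g * x.1 n * star (a n g) + b n g * y.1 n * star (a n g)
    noncomm_ring
  map_smul' c x := by
    apply Subtype.ext
    funext n
    change b n g * (c • x.1 n) * star (a n g) = c • (b n g * x.1 n * star (a n g))
    rw [mul_smul_comm, smul_mul_assoc]

theorem act_apply (a b : ℕ → Γ → Op K) (ha : IsApp V a) (hb : IsApp V b) (g : Γ) (x : BC K)
    (n : ℕ) : (act a b ha hb g x).1 n = b n g * x.1 n * star (a n g) := rfl

/-- the action is isometric in the limit -/
theorem isom {a b : ℕ → Γ → Op K} (ha : IsApp V a) (hb : IsApp V b) (g : Γ) (x : BC K) :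
    Tendsto (fun n => n2 (b n g * x.1 n * star (a n g)) ^ 2 - n2 (x.1 n) ^ 2) V (𝓝 0) := by
  obtain ⟨C, hC⟩ := x.2.2
  have hxm := x.2.1
  -- the defect
  have h1 : Tendsto (fun n => n2 (star (a n g) * a n g * star (x.1 n) *
      ((star (b n g) * b n g - 1) * x.1 n))) V (𝓝 0) := by
    refine bound1 (C := 9 * C) (fun n => ?_) (bound2 (fun n => sub_mem (mul_mem
      (star_mem (hb.mem n g)) (hb.mem n g)) (one_mem _)) hxm hC (star_mul_self_tendsto hb g))
    have h0 : 0 ≤ C := (norm_nonneg _).trans (hC n)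
    calc ‖star (a n g) * a n g * star (x.1 n)‖ ≤ ‖star (a n g)‖ * ‖a n g‖ * ‖star (x.1 n)‖ :=
          (norm_mul_le _ _).trans
            (mul_le_mul_of_nonneg_right (norm_mul_le _ _) (norm_nonneg _))
      _ ≤ 3 * 3 * C := by
          rw [norm_star_op, norm_star_op]
          apply mul_le_mul _ (hC n) (norm_nonneg _) (by norm_num)
          exact mul_le_mul (ha.bdd n g) (ha.bdd n g) (norm_nonneg _) (by norm_num)
      _ = 9 * C := by ring
  have h2 : Tendsto (fun n => n2 ((star (a n g) * a n g - 1) * (star (x.1 n) * x.1 n)))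
      V (𝓝 0) := by
    refine bound2 (C := C * C) (fun n => sub_mem (mul_mem (star_mem (ha.mem n g)) (ha.mem n g))
      (one_mem _)) (fun n => mul_mem (star_mem (hxm n)) (hxm n)) (fun n => ?_)
      (star_mul_self_tendsto ha g)
    have h0 : 0 ≤ C := (norm_nonneg _).trans (hC n)
    refine (norm_mul_le _ _).trans ?_
    rw [norm_star_op]
    exact mul_le_mul (hC n) (hC n) (norm_nonneg _) h0
  have h3 := tadd h1 h2
  refine squeeze_zero_norm (fun n => ?_) h3
  have e1 : (((n2 (b n g * x.1 n * star (a n g)) ^ 2 - n2 (x.1 n) ^ 2 : ℝ)) : ℂ) =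
      tr (star (a n g) * a n g * star (x.1 n) * ((star (b n g) * b n g - 1) * x.1 n) +
        (star (a n g) * a n g - 1) * (star (x.1 n) * x.1 n)) := by
    rw [Complex.ofReal_sub, ← tr_star_mul_self, ← tr_star_mul_self]
    have e2 : star (b n g * x.1 n * star (a n g)) * (b n g * x.1 n * star (a n g)) =
        (a n g * star (x.1 n) * star (b n g) * b n g * x.1 n) * star (a n g) := by
      rw [star_mul, star_mul, star_star]
      noncomm_ring
    have m1 : a n g * star (x.1 n) * star (b n g) * b n g * x.1 n ∈ Conv K :=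
      mul_mem (mul_mem (mul_mem (mul_mem (ha.mem n g) (star_mem (hxm n)))
        (star_mem (hb.mem n g))) (hb.mem n g)) (hxm n)
    rw [e2, tr_mul_comm m1 (star_mem (ha.mem n g)), ← tr_sub]
    congr 1
    noncomm_ring
  rw [← Complex.norm_real, e1]
  exact norm_tr_le _

theorem mult {a b : ℕ → Γ → Op K} (ha : IsApp V a) (hb : IsApp V b) (g h : Γ) (x : BC K) :
    Tendsto (fun n => n2 (b n g * (b n h * x.1 n * star (a n h)) * star (a n g) -
      b n (g * h) * x.1 n * star (a n (g * h)))) V (𝓝 0) := by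
  obtain ⟨C, hC⟩ := x.2.2
  have hxm := x.2.1
  have h1 : Tendsto (fun n => n2 ((b n g * b n h - b n (g * h)) *
      (x.1 n * (star (a n h) * star (a n g))))) V (𝓝 0) := by
    refine bound2 (C := C * 9) (fun n => sub_mem (mul_mem (hb.mem n g) (hb.mem n h))
      (hb.mem n _)) (fun n => mul_mem (hxm n) (mul_mem (star_mem (ha.mem n h))
        (star_mem (ha.mem n g)))) (fun n => ?_) (hb.mul g h)
    have h0 : 0 ≤ C := (norm_nonneg _).trans (hC n)
    calc ‖x.1 n * (star (a n h) * star (a n g))‖ ≤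
          ‖x.1 n‖ * (‖star (a n h)‖ * ‖star (a n g)‖) := (norm_mul_le _ _).trans
            (mul_le_mul_of_nonneg_left (norm_mul_le _ _) (norm_nonneg _))
      _ ≤ C * 9 := by
          rw [norm_star_op, norm_star_op]
          apply mul_le_mul (hC n) _ (by positivity) h0
          have h1 := ha.bdd n h
          have h2 := ha.bdd n g
          nlinarith [norm_nonneg (a n h), norm_nonneg (a n g)]
  have h2 : Tendsto (fun n => n2 ((b n (g * h) * x.1 n) *
      star (a n g * a n h - a n (g * h)))) V (𝓝 0) := by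
    refine bound1 (C := 3 * C) (fun n => ?_) (tstar (fun n => sub_mem (mul_mem (ha.mem n g)
      (ha.mem n h)) (ha.mem n _)) (ha.mul g h))
    have h0 : 0 ≤ C := (norm_nonneg _).trans (hC n)
    refine (norm_mul_le _ _).trans ?_
    exact mul_le_mul (hb.bdd n _) (hC n) (norm_nonneg _) (by norm_num)
  refine (tadd h1 h2).congr fun n => ?_
  congr 1
  rw [star_sub, star_mul]
  noncomm_ring

theorem unit {a b : ℕ → Γ → Op K} (ha : IsApp V a) (hb : IsApp V b) (x : BC K) :
    Tendsto (fun n => n2 (b n 1 * x.1 n * star (a n 1) - x.1 n)) V (𝓝 0) := by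
  obtain ⟨C, hC⟩ := x.2.2
  have hxm := x.2.1
  have h1 : Tendsto (fun n => n2 ((b n 1 - 1) * (x.1 n * star (a n 1)))) V (𝓝 0) := by
    refine bound2 (C := C * 3) (fun n => sub_mem (hb.mem n 1) (one_mem _))
      (fun n => mul_mem (hxm n) (star_mem (ha.mem n 1))) (fun n => ?_) hb.one
    have h0 : 0 ≤ C := (norm_nonneg _).trans (hC n)
    refine (norm_mul_le _ _).trans ?_
    rw [norm_star_op]
    exact mul_le_mul (hC n) (ha.bdd n 1) (norm_nonneg _) h0
  have h2 : Tendsto (fun n => n2 (x.1 n * star (a n 1 - 1))) V (𝓝 0) :=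
    bound1 hC (tstar (fun n => sub_mem (ha.mem n 1) (one_mem _)) ha.one)
  refine (tadd h1 h2).congr fun n => ?_
  congr 1
  rw [star_sub, star_one]
  noncomm_ring

end basic

end KSeqAux

open KSeqAux in
/-- M10b. -/
theorem kSeqStmt (h1 : UCoreStmt) (h2 : HilbStmt) (h3 : HullStmt) : KSeqStmt := by
  intro Γ K _ _ S c hKP V a b ha hb x hxm hx1 δ hδ ε hε
  obtain ⟨core, hcore⟩ := h1 K V
  have uniq : ∀ (y : BC K) (l : ℝ), Tendsto (fun n => n2 (y.1 n) ^ 2) V (𝓝 l) →
      (core.inner y y).re = l := fun y l h => tendsto_nhds_unique (hcore y) h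
  have nul : ∀ (y : BC K), Tendsto (fun n => n2 (y.1 n)) V (𝓝 0) →
      (core.inner y y).re = 0 := by
    intro y h
    apply uniq
    have := h.pow 2
    simpa using this
  obtain ⟨H, i1, i2, i3, ι, σ, hι, hσn, hσι⟩ := h2 (BC K) core Γ (act a b ha hb)
    (by
      intro g y
      apply uniq
      have h4 := (isom ha hb g y).add (hcore y)
      rw [zero_add] at h4
      refine h4.congr fun n => ?_
      rw [act_apply]
      ring)
    (by
      intro g h y
      exact nul _ (mult ha hb g h y))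
    (by
      intro y
      exact nul _ (unit ha hb y))
  have hlim : ∀ y : BC K, Tendsto (fun n => n2 (y.1 n) ^ 2) V (𝓝 (‖ι y‖ ^ 2)) := by
    intro y
    rw [hι]
    exact hcore y
  -- upper bounds in `H`
  have hup : ∀ (y : BC K) (B : ℝ), (∀ᶠ n in V, n2 (y.1 n) ≤ B) → ‖ι y‖ ≤ B := by
    intro y B hB
    have hB0 : 0 ≤ B := by
      obtain ⟨n, hn⟩ := hB.exists
      exact (n2_nonneg _).trans hn
    have h4 : ‖ι y‖ ^ 2 ≤ B ^ 2 := by
      refine le_of_tendsto (hlim y) ?_
      filter_upwards [hB] with n hn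
      exact pow_le_pow_left₀ (n2_nonneg _) hn 2
    exact (pow_le_pow_iff_left₀ (norm_nonneg _) hB0 two_ne_zero).1 h4
  have hdn : ∀ (y : BC K) (A B : ℝ), ‖ι y‖ ≤ A → A < B → ∀ᶠ n in V, n2 (y.1 n) ≤ B := by
    intro y A B hA hAB
    have h4 : ‖ι y‖ ^ 2 < B ^ 2 :=
      pow_lt_pow_left₀ (hA.trans_lt hAB) (norm_nonneg _) two_ne_zero
    filter_upwards [(hlim y).eventually (gt_mem_nhds h4)] with n hn
    have hB0 : 0 ≤ B := (norm_nonneg _).trans (hA.trans hAB.le)
    exact (pow_le_pow_iff_left₀ (n2_nonneg _) hB0 two_ne_zero).1 hn.le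
  set X : BC K := ⟨x, hxm, 1, hx1⟩ with hX
  have hδ' : ∀ s ∈ S, ‖σ s (ι X) - ι X‖ ≤ δ := by
    intro s hs
    rw [hσι, ← map_sub]
    exact hup _ _ (hδ s hs)
  obtain ⟨T, t, ht0, ht1, hT1, hT2⟩ := h3 Γ S c hKP H σ hσn (ι X) δ hδ' (ε / 2) (by linarith)
  refine ⟨T, t, ht0, ht1, ?_, ?_⟩
  · have e1 : (∑ g ∈ T, (t g : ℂ) • σ g (ι X)) - ι X =
        ι ((∑ g ∈ T, (t g : ℂ) • act a b ha hb g X) - X) := by
      rw [map_sub, map_sum]
      congr 1
      exact Finset.sum_congr rfl fun g _ => by rw [hσι, map_smul]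
    rw [e1] at hT1
    have h5 := hdn _ _ (2 * δ / c + ε) hT1 (by linarith)
    filter_upwards [h5] with n hn
    have e2 : ((∑ g ∈ T, (t g : ℂ) • act a b ha hb g X) - X).1 n =
        (∑ g ∈ T, (t g : ℂ) • (b n g * x n * star (a n g))) - x n := by
      change (((∑ g ∈ T, (t g : ℂ) • act a b ha hb g X : BC K) : ℕ → Op K) - X.1) n = _
      rw [Submodule.coe_sum, Pi.sub_apply, Finset.sum_apply]
      rfl
    rw [e2] at hn
    exact hn
  · intro s hs
    have e1 : σ s (∑ g ∈ T, (t g : ℂ) • σ g (ι X)) - ∑ g ∈ T, (t g : ℂ) • σ g (ι X) =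
        ι (act a b ha hb s (∑ g ∈ T, (t g : ℂ) • act a b ha hb g X) -
          ∑ g ∈ T, (t g : ℂ) • act a b ha hb g X) := by
      have e0 : ∑ g ∈ T, (t g : ℂ) • σ g (ι X) = ι (∑ g ∈ T, (t g : ℂ) • act a b ha hb g X) := by
        rw [map_sum]
        exact Finset.sum_congr rfl fun g _ => by rw [hσι, map_smul]
      rw [e0, hσι, map_sub]
    have h4 := hT2 s hs
    rw [e1] at h4
    have h5 := hdn _ _ ε h4 (by linarith)
    filter_upwards [h5] with n hn
    have e3 : (∑ g ∈ T, (t g : ℂ) • act a b ha hb g X : BC K).1 n =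
        ∑ g ∈ T, (t g : ℂ) • (b n g * x n * star (a n g)) := by
      change ((∑ g ∈ T, (t g : ℂ) • act a b ha hb g X : BC K) : ℕ → Op K) n = _
      rw [Submodule.coe_sum, Finset.sum_apply]
      rfl
    have e2 : (act a b ha hb s (∑ g ∈ T, (t g : ℂ) • act a b ha hb g X) -
          ∑ g ∈ T, (t g : ℂ) • act a b ha hb g X).1 n =
        b n s * (∑ g ∈ T, (t g : ℂ) • (b n g * x n * star (a n g))) * star (a n s)
          - ∑ g ∈ T, (t g : ℂ) • (b n g * x n * star (a n g)) := by
      change b n s * (∑ g ∈ T, (t g : ℂ) • act a b ha hb g X : BC K).1 n * star (a n s) -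
        (∑ g ∈ T, (t g : ℂ) • act a b ha hb g X : BC K).1 n = _
      rw [e3]
    rw [e2] at hn
    exact hn

end GVN
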