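import Pool.Agent.Lib.MP_5185df_an.Stmts

/-!
# Weak Kaplansky density for group algebras (problem MP_5185df_an)
-/

open Filter Topology
open scoped InnerProductSpace ComplexConjugate

namespace GVN

namespace KapAux

/-! ### Closed subalgebras -/

theorem inverse_mem {A : Type*} [CStarAlgebra A] (S : StarSubalgebra ℂ A)
    (hS : IsClosed (S : Set A)) {U : A} (hU : U ∈ S) (h : IsUnit U) : Ring.inverse U ∈ S := by
  have h1 : IsUnit (⟨U, hU⟩ : S) := (StarSubalgebra.coe_isUnit (hS := hS) S).1 h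
  obtain ⟨v, hv⟩ := h1
  have h2 : U * ((↑v⁻¹ : S) : A) = 1 := by
    have h3 : (⟨U, hU⟩ : S) * (↑v⁻¹ : S) = 1 := by rw [← hv]; exact v.mul_inv
    exact congrArg Subtype.val h3
  have h4 : Ring.inverse U = ((↑v⁻¹ : S) : A) := by
    calc Ring.inverse U = Ring.inverse U * (U * ((↑v⁻¹ : S) : A)) := by rw [h2, mul_one]
      _ = ((↑v⁻¹ : S) : A) := by rw [← mul_assoc, Ring.inverse_mul_cancel _ h, one_mul]
  rw [h4]
  exact (↑v⁻¹ : S).2

/-! ### The inverse of `cut` on self-adjoint contractions -/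

/-- the inverse of `s ↦ 2 s / (1 + s ^ 2)` -/
noncomputable def gk (s : ℝ) : ℝ := s / (1 + Real.sqrt (1 - s ^ 2))

theorem gk_cont : Continuous gk := by
  unfold gk
  refine continuous_id.div (by fun_prop) fun s => ?_
  positivity

theorem gk_eq {s : ℝ} (h : |s| ≤ 1) : 2 * gk s = s * (1 + gk s ^ 2) := by
  unfold gk
  have h1 : 0 ≤ 1 - s ^ 2 := by
    have := abs_le.1 h
    nlinarith
  have h2 := Real.sq_sqrt h1
  have h3 := Real.sqrt_nonneg (1 - s ^ 2)
  set c := Real.sqrt (1 - s ^ 2)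
  have h4 : 1 + c ≠ 0 := by positivity
  field_simp
  linear_combination (-s) * h2

section cstar

variable {A : Type*} [CStarAlgebra A]

theorem isUnit_one_add_sq (x : A) (hx : IsSelfAdjoint x) : IsUnit (1 + x * x) := by
  have h1 : 1 + x * x = cfc (fun s : ℝ => 1 + s * s) x := by
    rw [cfc_add x (fun _ : ℝ => (1 : ℝ)) (fun s : ℝ => s * s), cfc_mul (fun s : ℝ => s)
      (fun s : ℝ => s) x, cfc_id' ℝ x, cfc_const_one ℝ x]
  rw [h1, isUnit_cfc_iff (fun s : ℝ => 1 + s * s) x]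
  intro s _
  nlinarith [mul_self_nonneg s]

theorem exists_inv [Nontrivial A] (a : A) (ha : IsSelfAdjoint a) (hn : ‖a‖ ≤ 1) :
    ∃ x : A, IsSelfAdjoint x ∧ (∀ b, Commute a b → Commute x b) ∧ a * (1 + x * x) = x + x := by
  have c1 : ContinuousOn gk (spectrum ℝ a) := gk_cont.continuousOn
  have c2 : ContinuousOn (fun s => gk s * gk s) (spectrum ℝ a) := c1.mul c1
  have c3 : ContinuousOn (fun s => 1 + gk s * gk s) (spectrum ℝ a) :=
    continuousOn_const.add c2
  refine ⟨cfc gk a, cfc_predicate gk a, fun b hb => hb.cfc_real gk, ?_⟩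
  have h2 : a * (1 + cfc gk a * cfc gk a) = cfc (fun s : ℝ => s * (1 + gk s * gk s)) a := by
    rw [cfc_mul (fun s : ℝ => s) (fun s : ℝ => 1 + gk s * gk s) a continuousOn_id c3,
      cfc_add a (fun _ : ℝ => (1 : ℝ)) (fun s : ℝ => gk s * gk s) continuousOn_const c2,
      cfc_mul gk gk a c1 c1, cfc_id' ℝ a, cfc_const_one ℝ a]
  rw [h2, ← cfc_add a gk gk c1 c1]
  apply cfc_congr
  intro s hs'
  have h4 : |s| ≤ 1 := by
    have h5 : ‖s‖ ≤ ‖a‖ := spectrum.norm_le_norm_of_mem hs'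
    exact h5.trans hn
  have h5 := gk_eq h4
  simp only
  linear_combination -h5

end cstar

variable {G : Type} [Group G]

theorem isUnit_one_add (X : Op G) (hX : star X = X) : IsUnit (1 + star X * X) := by
  rw [hX]
  exact isUnit_one_add_sq X hX

theorem nontriv : Nontrivial (Op G) :=
  ⟨⟨1, 0, fun h => by
    have h1 : n2 (1 : Op G) = n2 (0 : Op G) := by rw [h]
    rw [n2_one, n2_zero] at h1
    norm_num at h1⟩⟩

/-- every self-adjoint contraction in `Conv G` is `cut` of a self-adjoint element of `Conv G` -/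
theorem exists_cut (A : Op G) (hA : A ∈ Conv G) (hs : star A = A) (hn : ‖A‖ ≤ 1) :
    ∃ X ∈ Conv G, star X = X ∧ cut X = A := by
  have : Nontrivial (Op G) := nontriv
  obtain ⟨X, hX, hcomm, heq⟩ := exists_inv A hs hn
  have hX' : star X = X := hX
  refine ⟨X, ?_, hX', ?_⟩
  · rw [mem_Conv] at hA ⊢
    intro g
    have h1 : Commute A (rt g) := (hA g).symm
    exact (hcomm _ h1).symm
  · have hU := isUnit_one_add X hX'
    unfold cut
    rw [hX'] at hU ⊢
    rw [← smul_mul_assoc, two_smul, ← heq, mul_assoc, Ring.mul_inverse_cancel _ hU, mul_one]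

/-! ### Approximation by the group algebra -/

theorem exists_q (X : Op G) (hX : X ∈ Conv G) (hs : star X = X) {ε : ℝ} (hε : 0 < ε) :
    ∃ q : MonoidAlgebra ℂ G, star (Lr q) = Lr q ∧ n2 (X - Lr q) ≤ ε := by
  classical
  have h1 := hasSum_del (X (del 1))
  obtain ⟨s, hs1⟩ := ((Metric.tendsto_nhds.1 h1) ε hε).exists
  set q0 : MonoidAlgebra ℂ G := ∑ i ∈ s, MonoidAlgebra.single i (X (del 1) i) with hq0
  have h2 : n2 (X - Lr q0) ≤ ε := by
    have h3 : Lr q0 (del 1) = ∑ i ∈ s, X (del 1) i • del i := by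
      rw [hq0, map_sum, sum_apply]
      refine Finset.sum_congr rfl fun i _ => ?_
      rw [Lr_single]
      change X (del 1) i • lam i (del 1) = _
      rw [lam_del, mul_one]
    unfold n2
    change ‖X (del 1) - Lr q0 (del 1)‖ ≤ ε
    rw [h3, ← dist_eq_norm, dist_comm]
    exact hs1.le
  refine ⟨(2 : ℂ)⁻¹ • (q0 + adj q0), ?_, ?_⟩
  · rw [map_smul, map_add, Lr_adj, star_smul, star_add, star_star, add_comm]
    congr 1
    simp
  · have h4 : X - Lr ((2 : ℂ)⁻¹ • (q0 + adj q0)) =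
        (2 : ℂ)⁻¹ • ((X - Lr q0) + star (X - Lr q0)) := by
      rw [map_smul, map_add, Lr_adj, star_sub, hs]
      have h5 : (2 : ℂ)⁻¹ • ((X - Lr q0) + (X - star (Lr q0))) =
          (2 : ℂ)⁻¹ • (X + X) - (2 : ℂ)⁻¹ • (Lr q0 + star (Lr q0)) := by
        rw [← smul_sub]
        congr 1
        abel
      rw [h5, ← two_smul ℂ X, smul_smul]
      norm_num
    rw [h4, n2_smul]
    have h6 : n2 (star (X - Lr q0)) = n2 (X - Lr q0) :=
      n2_star (sub_mem hX (Lr_mem_Conv q0))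
    have h7 := n2_add_le (X - Lr q0) (star (X - Lr q0))
    have h8 : ‖(2 : ℂ)⁻¹‖ = 2⁻¹ := by simp
    rw [h8]
    linarith

/-- the image of the group algebra -/
noncomputable def S0 (G : Type) [Group G] : StarSubalgebra ℂ (Op G) where
  carrier := Set.range (Lr : MonoidAlgebra ℂ G → Op G)
  mul_mem' := by
    rintro _ _ ⟨p, rfl⟩ ⟨q, rfl⟩
    exact ⟨p * q, map_mul _ _ _⟩
  add_mem' := by
    rintro _ _ ⟨p, rfl⟩ ⟨q, rfl⟩
    exact ⟨p + q, map_add _ _ _⟩
  algebraMap_mem' c := ⟨algebraMap ℂ _ c, AlgHom.commutes _ c⟩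
  star_mem' := by
    rintro _ ⟨p, rfl⟩
    exact ⟨adj p, Lr_adj p⟩

theorem exists_p (q : MonoidAlgebra ℂ G) (hq : star (Lr q) = Lr q) {ε : ℝ} (hε : 0 < ε) :
    ∃ p : MonoidAlgebra ℂ G, ‖cut (Lr q) - Lr p‖ ≤ ε := by
  have h1 : cut (Lr q) ∈ (S0 G).topologicalClosure := by
    have hq1 : Lr q ∈ (S0 G).topologicalClosure :=
      (S0 G).le_topologicalClosure (show Lr q ∈ S0 G from ⟨q, rfl⟩)
    unfold cut
    refine SMulMemClass.smul_mem _ (mul_mem hq1 (inverse_mem _ ?_ ?_ (isUnit_one_add _ hq)))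
    · exact (S0 G).isClosed_topologicalClosure
    · exact add_mem (one_mem _) (mul_mem (star_mem hq1) hq1)
  have h2 : cut (Lr q) ∈ closure (Set.range (Lr : MonoidAlgebra ℂ G → Op G)) := h1
  obtain ⟨_, ⟨p, rfl⟩, hp⟩ := Metric.mem_closure_iff.1 h2 ε hε
  rw [dist_eq_norm] at hp
  exact ⟨p, hp.le⟩

/-- self-adjoint contractions -/
theorem kap_sa (h1 : CutStmt) (h2 : ResolvStmt) (A : Op G) (hA : A ∈ Conv G) (hs : star A = A)
    (hn : ‖A‖ ≤ 1) {ε : ℝ} (hε : 0 < ε) :
    ∃ p : MonoidAlgebra ℂ G, ‖Lr p‖ ≤ 5 / 4 ∧ n2 (A - Lr p) ≤ ε := by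
  obtain ⟨X, hX, hXs, hXc⟩ := exists_cut A hA hs hn
  obtain ⟨q, hq, hq'⟩ := exists_q X hX hXs (ε := ε / 10) (by linarith)
  obtain ⟨p, hp⟩ := exists_p q hq (ε := min (ε / 2) (1 / 4)) (by positivity)
  have h3 := h2.1 G X (Lr q) hX (Lr_mem_Conv q) hXs hq
  rw [hXc] at h3
  have h4 := (h1 G (Lr q)).1
  refine ⟨p, ?_, ?_⟩
  · have h5 : ‖Lr p‖ ≤ ‖cut (Lr q)‖ + ‖cut (Lr q) - Lr p‖ := norm_le_norm_add_norm_sub _ _
    have h6 := hp.trans (min_le_right _ _)
    linarith
  · have h5 := n2_triangle A (cut (Lr q)) (Lr p)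
    have h6 := n2_le_norm (cut (Lr q) - Lr p)
    have h7 := hp.trans (min_le_left _ _)
    linarith

end KapAux

open KapAux

/-- M3. -/
theorem kapStmt (h1 : CutStmt) (h2 : ResolvStmt) : KapStmt := by
  intro G _ T hT hn ε hε
  have hT' : star T ∈ Conv G := star_mem hT
  have hn' : ‖star T‖ ≤ 1 := by rw [norm_star_op]; exact hn
  have h8 : ‖(2 : ℂ)⁻¹‖ = 2⁻¹ := by simp
  set A : Op G := (2 : ℂ)⁻¹ • (T + star T) with hA
  set B : Op G := ((2 : ℂ)⁻¹ * -Complex.I) • (T - star T) with hB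
  have hAm : A ∈ Conv G := (Conv G).smul_mem (add_mem hT hT') _
  have hBm : B ∈ Conv G := (Conv G).smul_mem (sub_mem hT hT') _
  have hAs : star A = A := by
    rw [hA, star_smul, star_add, star_star, add_comm]
    congr 1
    simp
  have hBs : star B = B := by
    rw [hB, star_smul, star_sub, star_star, ← neg_sub T (star T), smul_neg, ← neg_smul]
    congr 1
    simp
  have hAn : ‖A‖ ≤ 1 := by
    rw [hA, norm_smul, h8]
    have := norm_add_le T (star T)
    linarith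
  have hBn : ‖B‖ ≤ 1 := by
    rw [hB, norm_smul, norm_mul, h8, norm_neg, Complex.norm_I, mul_one]
    have := norm_sub_le T (star T)
    linarith
  obtain ⟨p, hp, hp'⟩ := kap_sa h1 h2 A hAm hAs hAn (ε := ε / 2) (by linarith)
  obtain ⟨q, hq, hq'⟩ := kap_sa h1 h2 B hBm hBs hBn (ε := ε / 2) (by linarith)
  have hTAB : T = A + Complex.I • B := by
    rw [hA, hB, smul_smul]
    have : Complex.I * ((2 : ℂ)⁻¹ * -Complex.I) = (2 : ℂ)⁻¹ := by
      linear_combination (-(2 : ℂ)⁻¹) * Complex.I_mul_I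
    rw [this, ← smul_add, show T + star T + (T - star T) = (2 : ℂ) • T by rw [two_smul]; abel,
      smul_smul]
    norm_num
  refine ⟨p + Complex.I • q, ?_, ?_⟩
  · rw [map_add, map_smul]
    refine (norm_add_le _ _).trans ?_
    rw [norm_smul, Complex.norm_I, one_mul]
    linarith
  · have h3 : T - Lr (p + Complex.I • q) = (A - Lr p) + Complex.I • (B - Lr q) := by
      rw [map_add, map_smul, smul_sub]
      conv_lhs => rw [hTAB]
      abel
    rw [h3]
    refine (n2_add_le _ _).trans ?_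
    rw [n2_smul, Complex.norm_I, one_mul]
    linarith

end GVN
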