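import Pool.Agent.Lib.MP_5185df_an.Stmts

/-!
# Module M6a: Möbius transforms of a Haar unitary
-/

open Filter Topology
open scoped InnerProductSpace ComplexConjugate

namespace GVN

namespace MobAux

variable {K : Type} [Group K]

/-- `1 + r c` -/
noncomputable def A (c : K) (r : ℝ) : Op K := 1 - (-(r : ℂ)) • lam c

/-- `(c + r) (1 + r c)⁻¹` -/
noncomputable def B (c : K) (r : ℝ) : Op K :=
  (lam c + (r : ℂ) • (1 : Op K)) * Ring.inverse (A c r)

open Classical in
/-- the Möbius transforms -/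
noncomputable def u (c : K) (r : ℝ) : Op K := if 0 ≤ r ∧ r < 1 then B c r else 1

theorem A_unit (c : K) {r : ℝ} (h0 : 0 ≤ r) (h1 : r < 1) : IsUnit (A c r) := by
  apply isUnit_one_sub_of_norm_lt_one
  rw [norm_smul, norm_neg, Complex.norm_real, Real.norm_of_nonneg h0]
  have := norm_lam_le c
  nlinarith [norm_nonneg (lam c)]

theorem A_comm {c : K} {r : ℝ} {T : Op K} (hT : T * lam c = lam c * T) :
    T * A c r = A c r * T := by
  unfold A
  rw [mul_sub, sub_mul, mul_one, one_mul, mul_smul_comm, smul_mul_assoc, hT]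

theorem inv_comm {X T : Op K} (hX : IsUnit X) (hT : T * X = X * T) :
    T * Ring.inverse X = Ring.inverse X * T := by
  calc T * Ring.inverse X = (Ring.inverse X * X) * T * Ring.inverse X := by
        rw [Ring.inverse_mul_cancel X hX, one_mul]
    _ = Ring.inverse X * (X * T) * Ring.inverse X := by noncomm_ring
    _ = Ring.inverse X * (T * X) * Ring.inverse X := by rw [hT]
    _ = Ring.inverse X * T * (X * Ring.inverse X) := by noncomm_ring
    _ = _ := by rw [Ring.mul_inverse_cancel X hX, mul_one]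

theorem UV (c : K) : lam c * lam c⁻¹ = (1 : Op K) := by
  rw [← lam_mul, mul_inv_cancel, lam_one]

theorem VU (c : K) : lam c⁻¹ * lam c = (1 : Op K) := by
  rw [← lam_mul, inv_mul_cancel, lam_one]

theorem star_A (c : K) (r : ℝ) : star (A c r) = A c⁻¹ r := by
  unfold A
  rw [star_sub, star_one, star_smul, star_lam, star_neg]
  congr 3
  simp

theorem B_comm {c : K} {r : ℝ} (h0 : 0 ≤ r) (h1 : r < 1) {T : Op K}
    (hT : T * lam c = lam c * T) : T * B c r = B c r * T := by
  have h2 := inv_comm (A_unit c h0 h1) (A_comm (r := r) hT)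
  unfold B
  calc T * ((lam c + (r : ℂ) • (1 : Op K)) * Ring.inverse (A c r))
      = (T * (lam c + (r : ℂ) • (1 : Op K))) * Ring.inverse (A c r) := by rw [mul_assoc]
    _ = ((lam c + (r : ℂ) • (1 : Op K)) * T) * Ring.inverse (A c r) := by
        congr 1
        rw [mul_add, add_mul, hT, mul_smul_comm, smul_mul_assoc, mul_one, one_mul]
    _ = (lam c + (r : ℂ) • (1 : Op K)) * (T * Ring.inverse (A c r)) := by rw [mul_assoc]
    _ = _ := by rw [h2, mul_assoc]

theorem prod_eq (c : K) (r : ℝ) :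
    (lam c⁻¹ + (r : ℂ) • (1 : Op K)) * (lam c + (r : ℂ) • (1 : Op K)) = A c⁻¹ r * A c r := by
  unfold A
  have h := VU c
  simp only [mul_add, add_mul, mul_sub, sub_mul, mul_smul_comm, smul_mul_assoc, mul_one, one_mul,
    h, neg_smul, neg_mul, mul_neg]
  module

theorem star_B (c : K) (r : ℝ) :
    star (B c r) = star (Ring.inverse (A c r)) * (lam c⁻¹ + (r : ℂ) • (1 : Op K)) := by
  unfold B
  rw [star_mul, star_add, star_lam, star_smul, star_one]
  congr 3
  simp

theorem star_B_mul {c : K} {r : ℝ} (h0 : 0 ≤ r) (h1 : r < 1) : star (B c r) * B c r = 1 := by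
  rw [star_B]
  unfold B
  have h2 : A c r * Ring.inverse (A c r) = 1 := Ring.mul_inverse_cancel _ (A_unit c h0 h1)
  have h3 : star (Ring.inverse (A c r)) * A c⁻¹ r = 1 := by
    rw [← star_A, ← star_mul, h2, star_one]
  calc star (Ring.inverse (A c r)) * (lam c⁻¹ + (r : ℂ) • (1 : Op K)) *
        ((lam c + (r : ℂ) • (1 : Op K)) * Ring.inverse (A c r))
      = star (Ring.inverse (A c r)) * ((lam c⁻¹ + (r : ℂ) • (1 : Op K)) *
        (lam c + (r : ℂ) • (1 : Op K))) * Ring.inverse (A c r) := by noncomm_ring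
    _ = star (Ring.inverse (A c r)) * (A c⁻¹ r * A c r) * Ring.inverse (A c r) := by
        rw [prod_eq]
    _ = (star (Ring.inverse (A c r)) * A c⁻¹ r) * (A c r * Ring.inverse (A c r)) := by
        noncomm_ring
    _ = 1 := by rw [h2, h3, one_mul]

theorem B_mul_star {c : K} {r : ℝ} (h0 : 0 ≤ r) (h1 : r < 1) : B c r * star (B c r) = 1 := by
  have hV : lam c⁻¹ * lam c = lam c * lam c⁻¹ := by rw [UV, VU]
  -- `B` commutes with `V`, hence `star B` commutes with `U`
  have h2 : lam c⁻¹ * B c r = B c r * lam c⁻¹ := B_comm h0 h1 hV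
  have h3 : star (B c r) * lam c = lam c * star (B c r) := by
    have h4 := congrArg star h2
    rw [star_mul, star_mul, star_lam, inv_inv] at h4
    exact h4
  have h5 := B_comm (r := r) h0 h1 h3
  rw [← h5, star_B_mul h0 h1]

theorem B_eq {c : K} {r : ℝ} (h0 : 0 ≤ r) (h1 : r < 1) :
    B c r = (r : ℂ) • (1 : Op K) + (1 - (r : ℂ) ^ 2) • (lam c * Ring.inverse (A c r)) := by
  have h2 : A c r * Ring.inverse (A c r) = 1 := Ring.mul_inverse_cancel _ (A_unit c h0 h1)
  have h3 : lam c + (r : ℂ) • (1 : Op K) = (r : ℂ) • A c r + (1 - (r : ℂ) ^ 2) • lam c := by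
    unfold A
    module
  unfold B
  rw [h3, add_mul, smul_mul_assoc, smul_mul_assoc, h2]

theorem tr_zero' {c : K} (hc : ∀ k : ℕ, 0 < k → c ^ k ≠ 1) {r : ℝ} (h0 : 0 ≤ r) (h1 : r < 1) :
    tr (lam c * Ring.inverse (A c r)) = 0 := by
  set W := Ring.inverse (A c r) with hW
  have h2 : A c r * W = 1 := Ring.mul_inverse_cancel _ (A_unit c h0 h1)
  have h3 : W = 1 - (r : ℂ) • (lam c * W) := by
    have h4 : A c r * W = W + (r : ℂ) • (lam c * W) := by
      unfold A
      rw [sub_mul, one_mul, smul_mul_assoc, neg_smul, sub_neg_eq_add]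
    rw [h4] at h2
    rw [← h2]
    abel
  have hl : ∀ k : ℕ, lam (c ^ (k + 1)) = lam (c ^ k) * lam c := fun k => by
    rw [pow_succ, lam_mul]
  have h5 : ∀ k : ℕ, tr (lam (c ^ (k + 1)) * W) = (-(r : ℂ)) * tr (lam (c ^ (k + 2)) * W) := by
    intro k
    conv_lhs => rw [h3]
    rw [mul_sub, mul_one, mul_smul_comm, ← mul_assoc, ← lam_mul, ← pow_succ, tr_sub, tr_smul,
      tr_lam_ne (hc (k + 1) (Nat.succ_pos k))]
    ring
  have h6 : ∀ k : ℕ, tr (lam (c ^ 1) * W) = (-(r : ℂ)) ^ k * tr (lam (c ^ (k + 1)) * W) := by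
    intro k
    induction k with
    | zero => simp
    | succ k ih => rw [ih, h5]; ring
  have h7 : ∀ k : ℕ, ‖tr (lam (c ^ (k + 1)) * W)‖ ≤ n2 W := by
    intro k
    refine (norm_tr_le _).trans (le_of_eq ?_)
    change ‖lam (c ^ (k + 1)) (W (del 1))‖ = _
    rw [norm_lam_apply]
    rfl
  have h8 : ∀ k : ℕ, ‖tr (lam (c ^ 1) * W)‖ ≤ r ^ k * n2 W := by
    intro k
    rw [h6 k, norm_mul, norm_pow, norm_neg, Complex.norm_real, Real.norm_of_nonneg h0]
    exact mul_le_mul_of_nonneg_left (h7 k) (pow_nonneg h0 k)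
  have h9 : Tendsto (fun k : ℕ => r ^ k * n2 W) atTop (𝓝 (0 * n2 W)) :=
    (tendsto_pow_atTop_nhds_zero_of_lt_one h0 h1).mul_const _
  rw [zero_mul] at h9
  have h10 := ge_of_tendsto' h9 h8
  rw [pow_one] at h10
  exact norm_eq_zero.1 (le_antisymm h10 (norm_nonneg _))

theorem tr_B {c : K} (hc : ∀ k : ℕ, 0 < k → c ^ k ≠ 1) {r : ℝ} (h0 : 0 ≤ r) (h1 : r < 1) :
    tr (B c r) = (r : ℂ) := by
  rw [B_eq h0 h1, tr_add, tr_smul, tr_smul, tr_one, tr_zero' hc h0 h1]
  ring

theorem nsq {c : K} (hc : ∀ k : ℕ, 0 < k → c ^ k ≠ 1) {r : ℝ} (h0 : 0 ≤ r) (h1 : r ≤ 1) :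
    ‖u c r (del 1) - del 1‖ ^ 2 = 2 - 2 * r := by
  rcases h1.lt_or_eq with h2 | h2
  · have hu : u c r = B c r := by
      unfold u
      rw [if_pos ⟨h0, h2⟩]
    rw [hu, @norm_sub_sq ℂ]
    have e1 : ‖B c r (del 1)‖ ^ 2 = 1 := by
      have h3 := tr_star_mul_self (B c r)
      rw [star_B_mul h0 h2, tr_one] at h3
      exact_mod_cast h3.symm
    have e2 : ⟪B c r (del 1), del (1 : K)⟫_ℂ = (r : ℂ) := by
      rw [← inner_conj_symm, ← tr_eq_inner, tr_B hc h0 h2]
      simp
    rw [e1, e2, norm_del]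
    simp
    ring
  · have hu : u c r = 1 := by
      unfold u
      rw [if_neg]
      rintro ⟨-, h3⟩
      linarith
    rw [hu, h2]
    simp

theorem cont_B (c : K) {r : ℝ} (h0 : 0 ≤ r) (h1 : r < 1) : ContinuousAt (fun s => B c s) r := by
  unfold B
  have hA : Continuous (fun s : ℝ => A c s) := by
    unfold A
    fun_prop
  obtain ⟨x, hx⟩ := A_unit c h0 h1
  have h2 : ContinuousAt Ring.inverse (A c r) := by
    rw [← hx]
    exact NormedRing.inverse_continuousAt x
  have h3 : ContinuousAt (fun s : ℝ => Ring.inverse (A c s)) r :=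
    ContinuousAt.comp (f := fun s : ℝ => A c s) (g := Ring.inverse) h2 hA.continuousAt
  exact ContinuousAt.mul (by fun_prop) h3

end MobAux

open MobAux in
/-- M6a. -/
theorem mobStmt : MobStmt := by
  intro K _ c hc
  have hpos : ∀ {r : ℝ}, 0 ≤ r → r < 1 → u c r = B c r := by
    intro r h0 h1
    unfold u
    rw [if_pos ⟨h0, h1⟩]
  have hneg : ∀ {r : ℝ}, ¬ (0 ≤ r ∧ r < 1) → u c r = 1 := by
    intro r h
    unfold u
    rw [if_neg h]
  refine ⟨u c, ?_, ?_, ?_, ?_, ?_⟩
  · intro r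
    by_cases h : 0 ≤ r ∧ r < 1
    · rw [hpos h.1 h.2]
      exact ⟨star_B_mul h.1 h.2, B_mul_star h.1 h.2⟩
    · rw [hneg h]
      simp
  · exact hneg (by norm_num)
  · rw [hpos le_rfl one_pos]
    unfold B A
    simp
  · intro r T hT _
    by_cases h : 0 ≤ r ∧ r < 1
    · rw [hpos h.1 h.2]
      exact B_comm h.1 h.2 hT
    · rw [hneg h]
      simp
  · rintro r ⟨h0, h1⟩
    rcases h1.lt_or_eq with h2 | h2
    · have h3 : ContinuousAt (fun s => B c s (del 1)) r :=
        ((ContinuousLinearMap.apply ℂ (E2 K) (del (1 : K))).continuous.continuousAt.comp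
          (cont_B c h0 h2))
      refine h3.continuousWithinAt.congr_of_eventuallyEq ?_ ?_
      · have h4 : ∀ᶠ s in 𝓝[Set.Icc 0 1] r, s < 1 :=
          nhdsWithin_le_nhds (gt_mem_nhds h2)
        filter_upwards [h4, self_mem_nhdsWithin] with s hs hs'
        rw [hpos hs'.1 hs]
      · rw [hpos h0 h2]
    · subst h2
      have hu1 : u c 1 = 1 := hneg (by norm_num)
      unfold ContinuousWithinAt
      rw [tendsto_iff_norm_sub_tendsto_zero]
      have h3 : Tendsto (fun s : ℝ => Real.sqrt (2 - 2 * s)) (𝓝[Set.Icc 0 1] 1) (𝓝 0) := by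
        have h4 : Continuous (fun s : ℝ => Real.sqrt (2 - 2 * s)) := by fun_prop
        have h5 := h4.tendsto 1
        norm_num at h5
        exact h5.mono_left nhdsWithin_le_nhds
      refine h3.congr' ?_
      filter_upwards [self_mem_nhdsWithin] with s hs
      rw [hu1]
      change Real.sqrt (2 - 2 * s) = ‖u c s (del 1) - del 1‖
      rw [← nsq hc hs.1 hs.2, Real.sqrt_sq (norm_nonneg _)]

end GVN
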