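import Pool.Agent.Lib.MP_5185df_an.Stmts

/-!
# Module M4: trace preserving representations extend isometrically
-/

open Filter Topology
open scoped InnerProductSpace ComplexConjugate

namespace GVN

namespace MomAux

section gen

variable {F K : Type} [Group F] [Group K]

theorem ext_apply (α : TPH F K) (p : MonoidAlgebra ℂ F) :
    α.ext p = p.coeff.sum fun g c => c • α.u g := by
  unfold TPH.ext
  rw [MonoidAlgebra.lift_apply]

theorem ext_single (α : TPH F K) (g : F) (c : ℂ) :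
    α.ext (MonoidAlgebra.single g c) = c • α.u g := by
  unfold TPH.ext
  rw [MonoidAlgebra.lift_single]

theorem ext_mem (α : TPH F K) (p : MonoidAlgebra ℂ F) : α.ext p ∈ Conv K := by
  rw [ext_apply]
  exact sum_mem fun g _ => (Conv K).smul_mem (α.mem g) _

theorem ext_adj (α : TPH F K) (p : MonoidAlgebra ℂ F) : α.ext (adj p) = star (α.ext p) := by
  unfold adj
  rw [Finsupp.sum, map_sum]
  conv_rhs => rw [ext_apply, Finsupp.sum, star_sum]
  refine Finset.sum_congr rfl fun g _ => ?_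
  rw [ext_single, star_smul, α.adj]
  rfl

theorem tr_ext (α : TPH F K) (p : MonoidAlgebra ℂ F) : tr (α.ext p) = p.coeff 1 := by
  classical
  rw [ext_apply, Finsupp.sum]
  have h : ∀ s : Finset F, tr (∑ g ∈ s, p.coeff g • α.u g) = ∑ g ∈ s, p.coeff g * tr (α.u g) := by
    intro s
    induction s using Finset.induction_on with
    | empty => simp
    | insert a s ha ih => rw [Finset.sum_insert ha, Finset.sum_insert ha, tr_add, tr_smul, ih]
  rw [h]
  by_cases hx : (1 : F) ∈ p.coeff.support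
  · rw [Finset.sum_eq_single 1]
    · rw [show α.u 1 = 1 from map_one α.u, tr_one, mul_one]
    · intro b _ hb
      rw [α.tr0 b hb, mul_zero]
    · intro h; exact absurd hx h
  · rw [Finset.sum_eq_zero]
    · simpa using (Finsupp.notMem_support_iff.1 hx).symm
    · intro b hb
      rw [α.tr0 b, mul_zero]
      rintro rfl
      exact hx hb

theorem tr_Lr (p : MonoidAlgebra ℂ F) : tr (Lr p) = p.coeff 1 := Lr_del p 1

theorem n2_ext (α : TPH F K) (p : MonoidAlgebra ℂ F) : n2 (α.ext p) = n2 (Lr p) := by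
  have h1 := tr_star_mul_self (α.ext p)
  have h2 := tr_star_mul_self (Lr p)
  rw [← ext_adj, ← map_mul, tr_ext] at h1
  rw [← Lr_adj, ← map_mul, tr_Lr] at h2
  rw [h1] at h2
  have h3 : n2 (α.ext p) ^ 2 = n2 (Lr p) ^ 2 := by exact_mod_cast h2
  exact (pow_left_inj₀ (n2_nonneg _) (n2_nonneg _) two_ne_zero).1 h3

theorem n2_pow_le (T : Op K) (m : ℕ) : n2 (T ^ m) ≤ ‖T‖ ^ m := by
  induction m with
  | zero => simp
  | succ m ih =>
    rw [pow_succ', pow_succ']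
    exact (n2_mul_le _ _).trans (mul_le_mul_of_nonneg_left ih (norm_nonneg _))

/-- the vectors of the form `ρ δ_1`, `ρ` in the commutant -/
theorem exists_rho {ξ : E2 K} (hξ : ξ ∈ Submodule.span ℂ (Set.range (del : K → E2 K))) :
    ∃ ρ : Op K, ρ (del 1) = ξ ∧ ∀ T ∈ Conv K, T * ρ = ρ * T := by
  induction hξ using Submodule.span_induction with
  | mem x hx =>
    obtain ⟨g, rfl⟩ := hx
    refine ⟨rt g⁻¹, by simp, fun T hT => (mem_Conv.1 hT g⁻¹).symm⟩
  | zero => exact ⟨0, rfl, fun T _ => by simp⟩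
  | add x y _ _ hx hy =>
    obtain ⟨ρ, h1, h2⟩ := hx
    obtain ⟨ρ', h1', h2'⟩ := hy
    refine ⟨ρ + ρ', ?_, fun T hT => ?_⟩
    · rw [← h1, ← h1']
      rfl
    · rw [mul_add, add_mul, h2 T hT, h2' T hT]
  | smul c x _ hx =>
    obtain ⟨ρ, h1, h2⟩ := hx
    refine ⟨c • ρ, ?_, fun T hT => ?_⟩
    · rw [← h1]
      rfl
    · rw [mul_smul_comm, smul_mul_assoc, h2 T hT]

omit [Group K] in
/-- log-convexity -/
theorem sq_le {H : Op K} (hH : star H = H) (n : ℕ) (ξ : E2 K) :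
    ‖(H ^ (n + 1)) ξ‖ ^ 2 ≤ ‖(H ^ n) ξ‖ * ‖(H ^ (n + 2)) ξ‖ := by
  have h1 : (H ^ (n + 1)) ξ = H ((H ^ n) ξ) := by
    rw [pow_succ']
    rfl
  have h2 : (H ^ (n + 2)) ξ = H ((H ^ (n + 1)) ξ) := by
    rw [pow_succ' H (n + 1)]
    rfl
  have h3 : ⟪(H ^ (n + 1)) ξ, (H ^ (n + 1)) ξ⟫_ℂ = ⟪(H ^ n) ξ, (H ^ (n + 2)) ξ⟫_ℂ := by
    rw [h2]
    conv_lhs => rw [h1]
    have h4 : ContinuousLinearMap.adjoint H = H := hH
    conv_lhs => rw [← ContinuousLinearMap.adjoint_inner_right, h4]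
    rw [← h1]
  have h5 : ((‖(H ^ (n + 1)) ξ‖ ^ 2 : ℝ) : ℂ) = ⟪(H ^ n) ξ, (H ^ (n + 2)) ξ⟫_ℂ := by
    rw [← h3, inner_self_eq_norm_sq_to_K]
    push_cast
    rfl
  have h6 := norm_inner_le_norm (𝕜 := ℂ) ((H ^ n) ξ) ((H ^ (n + 2)) ξ)
  rw [← h5, Complex.norm_real, Real.norm_of_nonneg (by positivity)] at h6
  exact h6

theorem pow_ge {H : Op K} (hH : star H = H) (ξ : E2 K) (n : ℕ) :
    ‖H ξ‖ * ‖(H ^ n) ξ‖ ≤ ‖(H ^ (n + 1)) ξ‖ * ‖ξ‖ := by
  induction n with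
  | zero => simp
  | succ n ih =>
    have h1 := sq_le hH n ξ
    rcases (norm_nonneg ((H ^ n) ξ)).eq_or_lt with h0 | h0
    · have h2 : (H ^ (n + 1)) ξ = 0 := by
        rw [pow_succ']
        change H ((H ^ n) ξ) = 0
        rw [norm_eq_zero.1 h0.symm, map_zero]
      rw [h2, norm_zero, mul_zero]
      positivity
    · have h3 : ‖H ξ‖ * ‖(H ^ (n + 1)) ξ‖ * ‖(H ^ n) ξ‖ ≤
          ‖(H ^ (n + 2)) ξ‖ * ‖ξ‖ * ‖(H ^ n) ξ‖ := by
        have h4 := mul_le_mul_of_nonneg_right ih (norm_nonneg ((H ^ (n + 1)) ξ))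
        have h5 := mul_le_mul_of_nonneg_right h1 (norm_nonneg ξ)
        nlinarith
      exact le_of_mul_le_mul_right h3 h0

/-- the growth of the powers bounds the norm -/
theorem norm_le_of_growth {H : Op K} (hH : star H = H) (ξ : E2 K) {M C : ℝ} (hM : 0 ≤ M)
    (h : ∀ n : ℕ, ‖(H ^ n) ξ‖ ≤ C * M ^ n) : ‖H ξ‖ ≤ M * ‖ξ‖ := by
  by_contra hcon
  push Not at hcon
  have hξ : 0 < ‖ξ‖ := by
    rcases (norm_nonneg ξ).eq_or_lt with h0 | h0
    · rw [norm_eq_zero.1 h0.symm] at hcon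
      simp at hcon
    · exact h0
  set t := ‖H ξ‖ / ‖ξ‖ with ht
  have htM : M < t := by
    rw [ht, lt_div_iff₀ hξ]
    exact hcon
  have ht0 : 0 < t := hM.trans_lt htM
  have h1 : ∀ n : ℕ, t ^ n * ‖ξ‖ ≤ ‖(H ^ n) ξ‖ := by
    intro n
    induction n with
    | zero => simp
    | succ n ih =>
      have h2 := pow_ge hH ξ n
      have h3 : t * ‖(H ^ n) ξ‖ ≤ ‖(H ^ (n + 1)) ξ‖ := by
        rw [ht, div_mul_eq_mul_div, div_le_iff₀ hξ]
        exact h2
      calc t ^ (n + 1) * ‖ξ‖ = t * (t ^ n * ‖ξ‖) := by ring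
        _ ≤ t * ‖(H ^ n) ξ‖ := mul_le_mul_of_nonneg_left ih ht0.le
        _ ≤ _ := h3
  have hC : 0 < C := by
    have h2 := h 0
    simp only [pow_zero, mul_one] at h2
    exact hξ.trans_le h2
  obtain ⟨n, hn⟩ := exists_pow_lt_of_lt_one (show 0 < ‖ξ‖ / C from div_pos hξ hC)
    (show M / t < 1 from (div_lt_one ht0).2 htM)
  have h4 := (h1 n).trans (h n)
  rw [div_pow, div_lt_div_iff₀ (pow_pos ht0 n) hC] at hn
  nlinarith

theorem norm_ext (α : TPH F K) (p : MonoidAlgebra ℂ F) : ‖α.ext p‖ ≤ ‖Lr p‖ := by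
  set h := adj p * p with hh
  have h1 : α.ext h = star (α.ext p) * α.ext p := by rw [hh, map_mul, ext_adj]
  have h2 : Lr h = star (Lr p) * Lr p := by rw [hh, map_mul, Lr_adj]
  have hH : star (α.ext h) = α.ext h := by rw [h1, star_mul, star_star]
  have key : ∀ ξ : E2 K, ‖α.ext h ξ‖ ≤ ‖Lr h‖ * ‖ξ‖ := by
    have hcl : IsClosed {ξ : E2 K | ‖α.ext h ξ‖ ≤ ‖Lr h‖ * ‖ξ‖} :=
      isClosed_le (by fun_prop) (by fun_prop)
    have hsub : (Submodule.span ℂ (Set.range (del : K → E2 K)) : Set (E2 K)) ⊆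
        {ξ : E2 K | ‖α.ext h ξ‖ ≤ ‖Lr h‖ * ‖ξ‖} := by
      intro ξ hξ
      obtain ⟨ρ, hρ1, hρ2⟩ := exists_rho hξ
      refine norm_le_of_growth (C := ‖ρ‖) hH ξ (norm_nonneg _) fun n => ?_
      have h3 : ((α.ext h) ^ n) ξ = ρ (((α.ext h) ^ n) (del 1)) := by
        have h4 := hρ2 _ (pow_mem (ext_mem α h) n)
        have h5 := DFunLike.congr_fun h4 (del 1)
        rw [← hρ1]
        exact h5
      rw [h3]
      refine (ρ.le_opNorm _).trans (mul_le_mul_of_nonneg_left ?_ (norm_nonneg _))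
      calc ‖((α.ext h) ^ n) (del 1)‖ = n2 (α.ext (h ^ n)) := by rw [map_pow]; rfl
        _ = n2 ((Lr h) ^ n) := by rw [n2_ext, map_pow]
        _ ≤ ‖Lr h‖ ^ n := n2_pow_le _ _
    intro ξ
    have := (dense_span_del (G := K)).closure_eq
    have h6 : ξ ∈ closure (Submodule.span ℂ (Set.range (del : K → E2 K)) : Set (E2 K)) := by
      rw [this]
      trivial
    exact closure_minimal hsub hcl h6
  have h7 : ‖α.ext h‖ ≤ ‖Lr h‖ :=
    ContinuousLinearMap.opNorm_le_bound _ (norm_nonneg _) key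
  have h8 : ‖α.ext h‖ = ‖α.ext p‖ * ‖α.ext p‖ := by
    rw [h1]
    exact ContinuousLinearMap.norm_adjoint_comp_self (α.ext p)
  have h9 : ‖(Lr h : Op F)‖ = ‖(Lr p : Op F)‖ * ‖(Lr p : Op F)‖ := by
    rw [h2]
    exact ContinuousLinearMap.norm_adjoint_comp_self (Lr p)
  rw [h8, h9] at h7
  exact abs_le_of_sq_le_sq' (by nlinarith) (norm_nonneg _) |>.2

end gen

end MomAux

/-- M4. -/
theorem momStmt : MomStmt := by
  intro F K _ _ α p
  exact ⟨MomAux.ext_mem α p, MomAux.ext_adj α p, MomAux.n2_ext α p, MomAux.norm_ext α p⟩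

end GVN
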