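import Pool.Agent.Lib.MP_5185df_an.Stmts

/-!
# M14: Kazhdan groups have no irreducible asymptotic representations in `L(F_2)`
-/

open Filter Topology
open scoped InnerProductSpace ComplexConjugate

namespace GVN

namespace NoIrrAux

theorem Ev_le_Conv {T : Op F3} (hT : T ∈ Ev) : T ∈ Conv F3 :=
  Cen_le_Conv (X := XEv) (by intro x hx; exact Set.mem_insert_of_mem _ hx) hT

theorem Ev_Dg {T : Op F3} (hT : T ∈ Ev) : Dg * T = T * Dg := by
  unfold Ev Cen at hT
  rw [StarSubalgebra.mem_centralizer_iff] at hT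
  exact (hT Dg (Set.mem_insert _ _)).1

theorem Dg_del_one : Dg (del (1 : F3)) = del 1 := by
  apply E2_ext
  intro x
  change (((sgn x : ℤˣ) : ℤ) : ℂ) * del (1 : F3) x = del (1 : F3) x
  by_cases hx : x = 1
  · subst hx; simp
  · rw [del_ne hx, mul_zero]

theorem sgn_zz : sgn zz = -1 := by
  unfold sgn zz
  rw [FreeGroup.lift_apply_of]
  rfl

theorem Ev_zz {T : Op F3} (hT : T ∈ Ev) : T (del 1) zz = 0 := by
  have h1 : Dg (T (del 1)) = T (del 1) := by
    have := DFunLike.congr_fun (Ev_Dg hT) (del (1 : F3))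
    change Dg (T (del 1)) = T (Dg (del 1)) at this
    rw [this, Dg_del_one]
  have h2 : Dg (T (del 1)) zz = (((sgn zz : ℤˣ) : ℤ) : ℂ) * T (del 1) zz := rfl
  rw [h1, sgn_zz] at h2
  have h3 : T (del 1) zz = - T (del 1) zz := by
    refine h2.trans ?_
    simp
  have h4 : (2 : ℂ) * T (del 1) zz = 0 := by
    calc (2 : ℂ) * T (del 1) zz = T (del 1) zz + T (del 1) zz := by ring
      _ = T (del 1) zz + - T (del 1) zz := by rw [← h3]
      _ = 0 := by ring
  simpa using h4

theorem tr_star_zz_mul {T : Op F3} (hT : T ∈ Ev) : tr (star (lam zz) * T) = 0 := by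
  rw [star_lam]
  change lam zz⁻¹ (T (del 1)) 1 = 0
  rw [lam_apply, inv_inv, mul_one]
  exact Ev_zz hT

theorem n2_star_zz_mul (T : Op F3) : n2 (star (lam zz) * T) = n2 T := by
  rw [star_lam]
  change ‖lam zz⁻¹ (T (del 1))‖ = _
  rw [norm_lam_apply]; rfl

theorem star_zz_mul_zz : star (lam zz) * lam zz = 1 := by
  rw [star_lam, ← lam_mul, inv_mul_cancel, lam_one]

theorem ext_one_eq (α : ℝ → TPH F2 F3) (h : ∀ g, (α 1).u g = lam (incl g))
    (p : MonoidAlgebra ℂ F2) : (α 1).ext p = iT.ext p := by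
  have : (α 1).u = iT.u := by
    ext1 g
    rw [h]; rfl
  unfold TPH.ext
  rw [this]

theorem ext_zero_eq (α : TPH F2 F3)
    (h : ∀ g, α.u g = lam zz * lam (incl g) * star (lam zz))
    (p : MonoidAlgebra ℂ F2) : α.ext p = lam zz * iT.ext p * star (lam zz) := by
  unfold TPH.ext
  rw [MonoidAlgebra.lift_apply, MonoidAlgebra.lift_apply, Finsupp.sum, Finsupp.sum,
    Finset.mul_sum, Finset.sum_mul]
  refine Finset.sum_congr rfl fun g _ => ?_
  rw [h, mul_smul_comm, smul_mul_assoc]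
  rfl

end NoIrrAux

open NoIrrAux

theorem noIrrStmt (h0 : MomStmt) (h1 : UnifStmt) (h2 : PathStmt') (h3 : DiagStmt)
    (h4 : IrrHatStmt) : NoIrrStmt := by
  intro Γ _ S c hK V hV a hApp hIrr
  have hIrr' := h4 Γ V hV S a hApp hIrr
  have hU := h1 Γ S c hK V hV a hApp hIrr'
  obtain ⟨α, hEv, hα1, hα0, hunif⟩ := h2
  have hc : 0 < c := hK.1
  -- the walk
  have walk : ∀ η0 : ℝ, 0 < η0 → η0 ≤ 1 / 2 → η0 ≤ c / 200 → ∀ n : ℕ,
      (∀ α : TPH F2 F3, (∀ g, α.u g ∈ Ev) → ∀ x ∈ Ev, ‖x‖ ≤ 1 →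
      1 / 2 ≤ n2 x → (∀ s ∈ S, n2 (α.ext (a n s) * x - x * iT.ext (a n s)) ≤ c / 100) →
      ∃ x' ∈ Ev, ‖x'‖ ≤ 1 ∧ 1 - η0 ≤ n2 x' ∧
        ∀ s ∈ S, n2 (α.ext (a n s) * x' - x' * iT.ext (a n s)) ≤ η0) →
      ∃ x ∈ Ev, ‖x‖ ≤ 1 ∧ 1 / 2 ≤ n2 x ∧
        ∀ s ∈ S, n2 ((α 0).ext (a n s) * x - x * iT.ext (a n s)) ≤ c / 200 := by
    classical
    intro η0 hη0 hη1 hη2 n hUn
    obtain ⟨N, hN, hNu⟩ := hunif (S.image (a n)) (c / 200) (by positivity)
    have hNr : (0 : ℝ) < N := by exact_mod_cast hN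
    have key : ∀ k : ℕ, k ≤ N → ∃ x ∈ Ev, ‖x‖ ≤ 1 ∧ 1 / 2 ≤ n2 x ∧
        ∀ s ∈ S, n2 ((α (1 - k / N)).ext (a n s) * x - x * iT.ext (a n s)) ≤ c / 200 := by
      intro k
      induction k with
      | zero =>
        intro _
        refine ⟨1, one_mem _, ?_, ?_, ?_⟩
        · exact ContinuousLinearMap.norm_id_le
        · rw [n2_one]; norm_num
        · intro s _
          have e : (1 - ((0 : ℕ) : ℝ) / N) = 1 := by simp
          rw [e, ext_one_eq α hα1, mul_one, one_mul, sub_self, n2_zero]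
          positivity
      | succ k ih =>
        intro hk
        obtain ⟨x, hx, hx1, hx2, hx3⟩ := ih (by omega)
        have hkN : ((k : ℝ) + 1) ≤ N := by exact_mod_cast hk
        have hr : (1 - (k : ℝ) / N) ∈ Set.Icc (0 : ℝ) 1 := by
          constructor
          · rw [sub_nonneg, div_le_one hNr]; linarith
          · have : 0 ≤ (k : ℝ) / N := by positivity
            linarith
        have hr' : (1 - ((k + 1 : ℕ) : ℝ) / N) ∈ Set.Icc (0 : ℝ) 1 := by
          push_cast
          constructor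
          · rw [sub_nonneg, div_le_one hNr]; linarith
          · have : 0 ≤ ((k : ℝ) + 1) / N := by positivity
            linarith
        have hdist : |(1 - ((k + 1 : ℕ) : ℝ) / N) - (1 - (k : ℝ) / N)| ≤ 1 / N := by
          have : (1 - ((k + 1 : ℕ) : ℝ) / N) - (1 - (k : ℝ) / N) = -(1 / N) := by
            push_cast; ring
          rw [this, abs_neg, abs_of_nonneg (by positivity)]
        obtain ⟨x', hx', hx1', hx2', hx3'⟩ := hUn (α (1 - ((k + 1 : ℕ) : ℝ) / N))
          (hEv _) x hx hx1 hx2 (by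
            intro s hs
            have e1 := hNu _ _ hr' hr hdist (a n s) (Finset.mem_image_of_mem _ hs)
            have e2 := hx3 s hs
            have e3 : (α (1 - ((k + 1 : ℕ) : ℝ) / N)).ext (a n s) * x - x * iT.ext (a n s)
                = ((α (1 - ((k + 1 : ℕ) : ℝ) / N)).ext (a n s) -
                    (α (1 - (k : ℝ) / N)).ext (a n s)) * x
                  + ((α (1 - (k : ℝ) / N)).ext (a n s) * x - x * iT.ext (a n s)) := by
              rw [sub_mul]; abel
            rw [e3]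
            have e4 : n2 (((α (1 - ((k + 1 : ℕ) : ℝ) / N)).ext (a n s) -
                    (α (1 - (k : ℝ) / N)).ext (a n s)) * x) ≤ c / 200 := by
              refine (n2_mul_le' (sub_mem (h0 F2 F3 _ _).1 (h0 F2 F3 _ _).1)
                (Ev_le_Conv hx)).trans ?_
              calc _ ≤ (c / 200) * 1 := by
                    apply mul_le_mul e1 hx1 (norm_nonneg _) (by positivity)
                _ = _ := mul_one _
            calc _ ≤ _ := n2_add_le _ _
              _ ≤ c / 200 + c / 200 := add_le_add e4 e2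
              _ = c / 100 := by ring)
        exact ⟨x', hx', hx1', by linarith, fun s hs => (hx3' s hs).trans hη2⟩
    have h := key N le_rfl
    have e : (1 - (N : ℝ) / N) = 0 := by rw [div_self hNr.ne']; ring
    rw [e] at h
    exact h
  -- the end of the walk
  have hP : ∀ η : ℝ, 0 < η → ∀ᶠ n in V, ∃ x ∈ Ev, ‖x‖ ≤ 1 ∧ 1 / 2 ≤ n2 x ∧
      ∀ s ∈ S, n2 ((α 0).ext (a n s) * x - x * iT.ext (a n s)) ≤ η := by
    intro η hη
    have hη0 : 0 < min (1 / 2) (c / 200) := lt_min (by norm_num) (by positivity)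
    have hη1 : 0 < min η (1 / 2) := lt_min hη (by norm_num)
    filter_upwards [hU _ hη0, hU _ hη1] with n hn0 hn1
    obtain ⟨x, hx, hx1, hx2, hx3⟩ := walk _ hη0 (min_le_left _ _) (min_le_right _ _) n hn0
    obtain ⟨x', hx', hx1', hx2', hx3'⟩ := hn1 (α 0) (hEv 0) x hx hx1 hx2
      (fun s hs => (hx3 s hs).trans (by linarith))
    refine ⟨x', hx', hx1', ?_, fun s hs => (hx3' s hs).trans (min_le_left _ _)⟩
    have := min_le_right η (1 / 2 : ℝ)
    linarith
  obtain ⟨η, hηpos, hηlim, hηP⟩ := h3 V hV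
    (fun n η => ∃ x ∈ Ev, ‖x‖ ≤ 1 ∧ 1 / 2 ≤ n2 x ∧
      ∀ s ∈ S, n2 ((α 0).ext (a n s) * x - x * iT.ext (a n s)) ≤ η)
    (by
      rintro n η η' hle ⟨x, hx, hx1, hx2, hx3⟩
      exact ⟨x, hx, hx1, hx2, fun s hs => (hx3 s hs).trans hle⟩) hP
  classical
  let x : ℕ → Op F3 := fun n =>
    if h : ∃ x ∈ Ev, ‖x‖ ≤ 1 ∧ 1 / 2 ≤ n2 x ∧
      ∀ s ∈ S, n2 ((α 0).ext (a n s) * x - x * iT.ext (a n s)) ≤ η n then h.choose else 0
  have hx : ∀ n, x n ∈ Ev ∧ ‖x n‖ ≤ 1 := by
    intro n
    simp only [x]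
    split_ifs with h
    · exact ⟨h.choose_spec.1, h.choose_spec.2.1⟩
    · exact ⟨zero_mem _, by simp⟩
  have hx' : ∀ᶠ n in V, 1 / 2 ≤ n2 (x n) ∧
      ∀ s ∈ S, n2 ((α 0).ext (a n s) * x n - x n * iT.ext (a n s)) ≤ η n := by
    filter_upwards [hηP] with n hn
    have : x n = hn.choose := by
      simp only [x]
      rw [dif_pos hn]
    rw [this]
    exact hn.choose_spec.2.2
  have hzC : star (lam zz) ∈ Conv F3 := star_mem (lam_mem_Conv zz)
  have hlim := hIrr' (fun n => star (lam zz) * x n)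
    (fun n => mul_mem hzC (Ev_le_Conv (hx n).1))
    ⟨1, fun n => by
      calc ‖star (lam zz) * x n‖ ≤ ‖star (lam (zz))‖ * ‖x n‖ := norm_mul_le _ _
        _ ≤ 1 * 1 := by
          apply mul_le_mul _ (hx n).2 (norm_nonneg _) zero_le_one
          rw [norm_star_op]; exact norm_lam_le _
        _ = 1 := mul_one _⟩
    (by
      intro s hs
      refine squeeze_zero' (Eventually.of_forall fun n => n2_nonneg _) ?_ hηlim
      filter_upwards [hx'] with n hn
      have e0 := hn.2 s hs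
      rw [ext_zero_eq (α 0) hα0] at e0
      have e1 : star (lam zz) * x n * iT.ext (a n s) - iT.ext (a n s) * (star (lam zz) * x n)
          = -(star (lam zz) * (lam zz * iT.ext (a n s) * star (lam zz) * x n
              - x n * iT.ext (a n s))) := by
        rw [mul_sub]
        have : star (lam zz) * (lam zz * iT.ext (a n s) * star (lam zz) * x n)
            = iT.ext (a n s) * (star (lam zz) * x n) := by
          calc _ = (star (lam zz) * lam zz) * iT.ext (a n s) * star (lam zz) * x n := by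
                simp only [mul_assoc]
            _ = _ := by rw [star_zz_mul_zz, one_mul, mul_assoc]
        rw [this, neg_sub]
        simp only [mul_assoc]
      rw [e1, n2_neg, n2_star_zz_mul]
      exact e0)
  have hlim2 : Tendsto (fun n => n2 (x n)) V (𝓝 0) := by
    refine hlim.congr fun n => ?_
    rw [tr_star_zz_mul (hx n).1, zero_smul, sub_zero, n2_star_zz_mul]
  have h5 : ∀ᶠ n in (V : Filter ℕ), n2 (x n) < 1 / 2 := hlim2.eventually (gt_mem_nhds (by norm_num))
  obtain ⟨n, hn1, hn2⟩ := (h5.and hx').exists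
  linarith [hn2.1]

end GVN
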