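import Pool.Agent.Lib.MP_5185df_an.Stmts

/-!
M18: Hall's theorem kills invariant means.
-/

namespace GVN

theorem fin_add {G : Type} {m : Set G → ℝ}
    (hadd : ∀ A B, Disjoint A B → m (A ∪ B) = m A + m B) {ι : Type} (s : Finset ι)
    (A : ι → Set G) (hd : ∀ i ∈ s, ∀ j ∈ s, i ≠ j → Disjoint (A i) (A j)) :
    m (⋃ i ∈ s, A i) = ∑ i ∈ s, m (A i) := by
  classical
  induction s using Finset.induction_on with
  | empty =>
    have h := hadd ∅ ∅ (Set.disjoint_empty _)
    rw [Set.union_empty] at h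
    simp only [Finset.notMem_empty, Set.iUnion_of_empty, Set.iUnion_empty, Finset.sum_empty]
    linarith
  | insert a s ha ih =>
    rw [Finset.set_biUnion_insert, hadd, Finset.sum_insert ha, ih]
    · intro i hi j hj hij
      exact hd i (Finset.mem_insert_of_mem hi) j (Finset.mem_insert_of_mem hj) hij
    · rw [Set.disjoint_iUnion₂_right]
      intro i hi
      exact hd a (Finset.mem_insert_self _ _) i (Finset.mem_insert_of_mem hi)
        (fun h => ha (h ▸ hi))

/-- M18. -/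
theorem notInnerStmt (h : ExpStmt) : NotInnerStmt := by
  classical
  rintro G _ hicc hK ⟨m, h0, h1, h2, h3, h4⟩
  obtain ⟨T, hT⟩ := h G hicc hK
  obtain ⟨f, hf, hft⟩ := (Finset.all_card_le_biUnion_card_iff_exists_injective
    (fun p : {x : G // x ≠ 1} × Bool => T.image (fun t => t * (p.1 : G) * t⁻¹))).1 (by
    intro s
    obtain ⟨B, hB, hcard⟩ := hT (s.image (fun p => (p.1 : G))) (by
      intro h
      obtain ⟨p, -, hp⟩ := Finset.mem_image.1 h
      exact p.1.2 hp)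
    have e : s.biUnion (fun p : {x : G // x ≠ 1} × Bool =>
        T.image (fun t => t * (p.1 : G) * t⁻¹)) = B := by
      ext y
      rw [hB, Finset.mem_biUnion]
      constructor
      · rintro ⟨p, hp, hy⟩
        obtain ⟨t, ht, rfl⟩ := Finset.mem_image.1 hy
        exact ⟨t, ht, p.1, Finset.mem_image_of_mem _ hp, rfl⟩
      · rintro ⟨t, ht, a, ha, rfl⟩
        obtain ⟨p, hp, rfl⟩ := Finset.mem_image.1 ha
        exact ⟨p, hp, Finset.mem_image_of_mem _ ht⟩
    rw [e]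
    refine le_trans ?_ hcard
    refine Finset.card_le_mul_card_image s 2 ?_
    intro a _
    refine le_trans (Finset.card_le_card_of_injOn (t := (Finset.univ : Finset Bool)) Prod.snd
      (fun _ _ => Finset.mem_univ _) ?_) (by simp)
    rintro ⟨p, i⟩ hp ⟨q, j⟩ hq hij
    simp only [Finset.coe_filter, Set.mem_ofPred_eq] at hp hq
    have h5 : p = q := Subtype.ext (hp.2.trans hq.2.symm)
    rw [Prod.mk.injEq]
    exact ⟨h5, hij⟩)
  have hft' : ∀ p, ∃ t ∈ T, t * (p.1 : G) * t⁻¹ = f p := fun p => by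
    obtain ⟨t, ht, he⟩ := Finset.mem_image.1 (hft p)
    exact ⟨t, ht, he⟩
  choose τ hτT hτ using hft'
  set A : Bool × G → Set G := fun p => {x | ∃ h : x ≠ 1, τ (⟨x, h⟩, p.1) = p.2} with hA
  have hX : m {x : G | x ≠ 1} = 1 := by
    have h5 := h3 {1} {x : G | x ≠ 1} (by
      rw [Set.disjoint_left]
      rintro x hx hx'
      exact hx' hx)
    have h6 : ({1} : Set G) ∪ {x : G | x ≠ 1} = Set.univ := by
      ext x
      simp only [Set.mem_union, Set.mem_singleton_iff, Set.mem_ofPred_eq, Set.mem_univ, iff_true]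
      exact em _
    rw [h6, h1, h2] at h5
    linarith
  have hsum : ∀ i : Bool, ∑ t ∈ T, m (A (i, t)) = 1 := by
    intro i
    rw [← hX, ← fin_add h3 T (fun t => A (i, t))]
    · congr 1
      ext x
      simp only [Set.mem_iUnion, exists_prop, hA, Set.mem_ofPred_eq]
      constructor
      · rintro ⟨t, -, hx, -⟩
        exact hx
      · intro hx
        exact ⟨τ (⟨x, hx⟩, i), hτT _, hx, rfl⟩
    · intro s _ t _ hst
      rw [Set.disjoint_left]
      rintro x ⟨hx, hs⟩ ⟨hx', ht⟩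
      exact hst (hs.symm.trans ht)
  have hdis : ∀ p ∈ (Finset.univ : Finset Bool) ×ˢ T, ∀ q ∈ (Finset.univ : Finset Bool) ×ˢ T,
      p ≠ q → Disjoint ((fun x => p.2 * x * p.2⁻¹) '' A p) ((fun x => q.2 * x * q.2⁻¹) '' A q) := by
    rintro ⟨i, s⟩ _ ⟨j, t⟩ _ hpq
    rw [Set.disjoint_left]
    rintro y ⟨x, ⟨hx, hs⟩, rfl⟩ ⟨x', ⟨hx', ht⟩, he⟩
    simp only at hs ht he
    have e1 : f (⟨x, hx⟩, i) = s * x * s⁻¹ := by rw [← hτ, hs]
    have e2 : f (⟨x', hx'⟩, j) = t * x' * t⁻¹ := by rw [← hτ, ht]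
    have e3 := hf (e1.trans (he.symm.trans e2.symm))
    apply hpq
    rw [Prod.mk.injEq] at e3 ⊢
    refine ⟨e3.2, ?_⟩
    rw [← hs, ← ht, e3.1, e3.2]
  have h5 := fin_add h3 ((Finset.univ : Finset Bool) ×ˢ T)
    (fun p => (fun x => p.2 * x * p.2⁻¹) '' A p) hdis
  have h6 : ∑ p ∈ (Finset.univ : Finset Bool) ×ˢ T, m ((fun x => p.2 * x * p.2⁻¹) '' A p) = 2 := by
    rw [Finset.sum_congr rfl fun p _ => h4 p.2 (A p), Finset.sum_product]
    rw [Finset.sum_congr rfl fun i _ => hsum i]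
    simp
  rw [h6] at h5
  have h7 := h3 (⋃ p ∈ (Finset.univ : Finset Bool) ×ˢ T, (fun x => p.2 * x * p.2⁻¹) '' A p)
    (⋃ p ∈ (Finset.univ : Finset Bool) ×ˢ T, (fun x => p.2 * x * p.2⁻¹) '' A p)ᶜ
    disjoint_compl_right
  rw [Set.union_compl_self, h1, h5] at h7
  have h8 := h0 (⋃ p ∈ (Finset.univ : Finset Bool) ×ˢ T, (fun x => p.2 * x * p.2⁻¹) '' A p)ᶜ
  linarith

end GVN
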