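import Pool.Agent.Lib.MP_5185df_an.Stmts

/-!
# M19: the angle between the fixed spaces of two unitaries of order 5 with central commutator
-/

open Filter Topology
open scoped InnerProductSpace ComplexConjugate

namespace GVN

namespace PairAux

section grp

variable {Γ : Type} [Group Γ] {x y : Γ}

theorem conj_pow (hy : Commute (x * y * x⁻¹ * y⁻¹) y) (j : ℕ) :
    x * y ^ j * x⁻¹ = (x * y * x⁻¹ * y⁻¹) ^ j * y ^ j := by
  rw [← hy.mul_pow, ← _root_.conj_pow]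
  congr 1
  group

theorem z_pow (h5 : y ^ 5 = 1) (hy : Commute (x * y * x⁻¹ * y⁻¹) y) :
    (x * y * x⁻¹ * y⁻¹) ^ 5 = 1 := by
  have h := PairAux.conj_pow hy 5
  rw [h5] at h
  simpa using h.symm

theorem comm_pow (hx : Commute (x * y * x⁻¹ * y⁻¹) x) (hy : Commute (x * y * x⁻¹ * y⁻¹) y)
    (i j : ℕ) :
    x ^ i * y ^ j = y ^ j * x ^ i * (x * y * x⁻¹ * y⁻¹) ^ (j * i) := by
  set z := x * y * x⁻¹ * y⁻¹ with hz
  have h1 : x * y ^ j = z ^ j * y ^ j * x := by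
    rw [← PairAux.conj_pow hy j]; group
  have hzx : ∀ k l : ℕ, z ^ k * x ^ l = x ^ l * z ^ k := fun k l => (hx.pow_pow k l).eq
  have hzy : ∀ k l : ℕ, z ^ k * y ^ l = y ^ l * z ^ k := fun k l => (hy.pow_pow k l).eq
  induction i with
  | zero => simp
  | succ i ih =>
    calc x ^ (i + 1) * y ^ j = x * (x ^ i * y ^ j) := by rw [pow_succ']; group
      _ = x * (y ^ j * x ^ i * z ^ (j * i)) := by rw [ih]
      _ = (x * y ^ j) * x ^ i * z ^ (j * i) := by group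
      _ = z ^ j * y ^ j * (x * x ^ i) * z ^ (j * i) := by rw [h1]; group
      _ = z ^ j * (y ^ j * x ^ (i + 1)) * z ^ (j * i) := by rw [← pow_succ']; group
      _ = y ^ j * x ^ (i + 1) * z ^ j * z ^ (j * i) := by
          congr 1
          rw [← mul_assoc, hzy, mul_assoc, hzx, mul_assoc]
      _ = y ^ j * x ^ (i + 1) * z ^ (j * (i + 1)) := by
          rw [mul_assoc, ← pow_add]; congr 2; ring

end grp

variable {H : Type} [NormedAddCommGroup H] [InnerProductSpace ℂ H]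
  {Γ : Type} [Group Γ]

/-- the average over the powers of an element -/
noncomputable def av (σ : Γ →* (H →L[ℂ] H)) (g : Γ) : H →L[ℂ] H :=
  (5 : ℂ)⁻¹ • ∑ k ∈ Finset.range 5, σ (g ^ k)

theorem av_apply (σ : Γ →* (H →L[ℂ] H)) (g : Γ) (v : H) :
    av σ g v = (5 : ℂ)⁻¹ • ∑ k ∈ Finset.range 5, σ (g ^ k) v := by
  unfold av
  rw [ContinuousLinearMap.smul_apply, ContinuousLinearMap.sum_apply]

theorem av_comm {σ : Γ →* (H →L[ℂ] H)} {g h : Γ} (hc : Commute g h) :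
    av σ g * σ h = σ h * av σ g := by
  unfold av
  rw [smul_mul_assoc, mul_smul_comm, Finset.sum_mul, Finset.mul_sum]
  congr 1
  apply Finset.sum_congr rfl
  intro k _
  rw [← map_mul, ← map_mul, (hc.pow_left k).eq]

theorem av_av_comm {σ : Γ →* (H →L[ℂ] H)} {g h : Γ} (hc : Commute g h) :
    av σ g * av σ h = av σ h * av σ g := by
  conv_lhs => rw [av.eq_1 σ h]
  conv_rhs => rw [av.eq_1 σ h]
  rw [smul_mul_assoc, mul_smul_comm, Finset.sum_mul, Finset.mul_sum]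
  congr 1
  apply Finset.sum_congr rfl
  intro k _
  exact av_comm (hc.pow_right k)

theorem mul_av {σ : Γ →* (H →L[ℂ] H)} {g : Γ} (h5 : g ^ 5 = 1) : σ g * av σ g = av σ g := by
  unfold av
  rw [mul_smul_comm, Finset.mul_sum]
  congr 1
  have e : ∀ k ∈ Finset.range 5, σ g * σ (g ^ k) = σ (g ^ (k + 1)) := by
    intro k _
    rw [← map_mul, ← pow_succ']
  rw [Finset.sum_congr rfl e, Finset.sum_range_succ' (fun k => σ (g ^ k)),
    Finset.sum_range_succ (fun k => σ (g ^ (k + 1)))]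
  rw [h5, pow_zero]

theorem av_mul {σ : Γ →* (H →L[ℂ] H)} {g : Γ} (h5 : g ^ 5 = 1) : av σ g * σ g = av σ g := by
  rw [av_comm (Commute.refl g), mul_av h5]

theorem inv_mul_av {σ : Γ →* (H →L[ℂ] H)} {g : Γ} (h5 : g ^ 5 = 1) :
    σ g⁻¹ * av σ g = av σ g := by
  conv_lhs => rw [← mul_av h5]
  rw [← mul_assoc, ← map_mul, inv_mul_cancel, map_one, one_mul]

theorem pow_mul_av {σ : Γ →* (H →L[ℂ] H)} {g : Γ} (h5 : g ^ 5 = 1) (k : ℕ) :
    σ (g ^ k) * av σ g = av σ g := by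
  induction k with
  | zero => rw [pow_zero, map_one, one_mul]
  | succ k ih => rw [pow_succ, map_mul, mul_assoc, mul_av h5, ih]

theorem sum_const5 (A : H →L[ℂ] H) : (5 : ℂ)⁻¹ • ∑ _k ∈ Finset.range 5, A = A := by
  rw [Finset.sum_const, Finset.card_range, ← Nat.cast_smul_eq_nsmul ℂ, smul_smul]
  norm_num

theorem av_idem {σ : Γ →* (H →L[ℂ] H)} {g : Γ} (h5 : g ^ 5 = 1) :
    av σ g * av σ g = av σ g := by
  conv_lhs => rw [av.eq_1 σ g]
  rw [smul_mul_assoc, Finset.sum_mul]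
  have e : ∀ k ∈ Finset.range 5, σ (g ^ k) * ((5 : ℂ)⁻¹ • ∑ k ∈ Finset.range 5, σ (g ^ k)) =
      av σ g := fun k _ => pow_mul_av h5 k
  rw [Finset.sum_congr rfl e, sum_const5]

/-- vectors fixed by `g` are fixed by the average -/
theorem av_of_fix {σ : Γ →* (H →L[ℂ] H)} {g : Γ} {A : H →L[ℂ] H} (h : σ g * A = A) :
    av σ g * A = A := by
  have hk : ∀ k : ℕ, σ (g ^ k) * A = A := by
    intro k
    induction k with
    | zero => rw [pow_zero, map_one, one_mul]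
    | succ k ih => rw [pow_succ, map_mul, mul_assoc, h, ih]
  unfold av
  rw [smul_mul_assoc, Finset.sum_mul, Finset.sum_congr rfl fun k _ => hk k, sum_const5]

theorem inner_map {σ : Γ →* (H →L[ℂ] H)} (hσ : ∀ g v, ‖σ g v‖ = ‖v‖) (g : Γ) (v w : H) :
    ⟪σ g v, σ g w⟫_ℂ = ⟪v, w⟫_ℂ :=
  LinearIsometry.inner_map_map (⟨(σ g).toLinearMap, hσ g⟩ : H →ₗᵢ[ℂ] H) v w

theorem inner_map_left {σ : Γ →* (H →L[ℂ] H)} (hσ : ∀ g v, ‖σ g v‖ = ‖v‖) (g : Γ) (v w : H) :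
    ⟪σ g v, w⟫_ℂ = ⟪v, σ g⁻¹ w⟫_ℂ := by
  have h : σ g (σ g⁻¹ w) = w := by
    rw [← ContinuousLinearMap.mul_apply, ← map_mul, mul_inv_cancel, map_one]
    rfl
  conv_lhs => rw [← h]
  rw [inner_map hσ]

theorem av_symm {σ : Γ →* (H →L[ℂ] H)} (hσ : ∀ g v, ‖σ g v‖ = ‖v‖) {g : Γ} (h5 : g ^ 5 = 1)
    (v w : H) : ⟪av σ g v, w⟫_ℂ = ⟪v, av σ g w⟫_ℂ := by
  rw [av_apply, av_apply, inner_smul_left, inner_smul_right, sum_inner, inner_sum]
  have e1 : conj ((5 : ℂ)⁻¹) = (5 : ℂ)⁻¹ := by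
    rw [map_inv₀, map_ofNat]
  rw [e1]
  congr 1
  have e2 : ∀ k ∈ Finset.range 5, ⟪σ (g ^ k) v, w⟫_ℂ = ⟪v, σ (g ^ (5 - k)) w⟫_ℂ := by
    intro k hk
    rw [inner_map_left hσ]
    congr 3
    rw [inv_eq_iff_mul_eq_one, ← pow_add]
    rw [show k + (5 - k) = 5 by have := Finset.mem_range.1 hk; omega, h5]
  rw [Finset.sum_congr rfl e2]
  have h6 : ∀ f : ℕ → ℂ, f 5 = f 0 →
      ∑ k ∈ Finset.range 5, f (5 - k) = ∑ k ∈ Finset.range 5, f k := by
    intro f hf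
    simp only [Finset.sum_range_succ, Finset.sum_range_zero]
    rw [show f (5 - 0) = f 0 from hf]
    norm_num
    ring
  exact h6 (fun k => ⟪v, σ (g ^ k) w⟫_ℂ) (by rw [h5, pow_zero])

/-- The inequality for a pair of vectors `p`, `p'` with small inner product. -/
theorem real_ineq {V S c ε : ℝ} (hε0 : 0 < ε) (hε1 : ε < 1) (hc : 2 * c ≤ ε * S)
    (h : ∀ t : ℝ, 0 ≤ V - 2 * t * S + t ^ 2 * (S + 2 * c)) :
    0 ≤ 2 * (V - S + c) + ε * (2 * V - S) := by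
  have h1 := h (1 / (1 + ε))
  have hp : 0 < 1 + ε := by linarith
  have h2 : 0 ≤ (1 + ε) ^ 2 * V - 2 * (1 + ε) * S + (S + 2 * c) := by
    have h3 := mul_nonneg (pow_pos hp 2).le h1
    have h4 : (1 + ε) ^ 2 * (V - 2 * (1 / (1 + ε)) * S + (1 / (1 + ε)) ^ 2 * (S + 2 * c)) =
        (1 + ε) ^ 2 * V - 2 * (1 + ε) * S + (S + 2 * c) := by
      field_simp
    rw [h4] at h3
    exact h3
  have h5 : 0 ≤ (1 - ε) * (ε * S - 2 * c) := mul_nonneg (by linarith) (by linarith)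
  have h6 : 0 ≤ (1 + ε) * (2 * (V - S + c) + ε * (2 * V - S)) := by nlinarith
  by_contra hneg
  push Not at hneg
  have := mul_neg_of_pos_of_neg hp hneg
  linarith

variable [CompleteSpace H]

theorem proj_facts (P : H →L[ℂ] H) (hP : P * P = P) (hs : ∀ v w, ⟪P v, w⟫_ℂ = ⟪v, P w⟫_ℂ) (v : H) :
    ⟪P v, v⟫_ℂ = ((‖P v‖ ^ 2 : ℝ) : ℂ) ∧ ⟪v, P v⟫_ℂ = ((‖P v‖ ^ 2 : ℝ) : ℂ) := by
  have h1 : P (P v) = P v := by
    rw [← ContinuousLinearMap.mul_apply, hP]
  constructor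
  · conv_lhs => rw [← h1]
    rw [hs, inner_self_eq_norm_sq_to_K]
    push_cast; rfl
  · conv_lhs => rw [← h1]
    rw [← hs, inner_self_eq_norm_sq_to_K]
    push_cast; rfl

/-- the part of the estimate on the complement -/
theorem ineq_one (P P' : H →L[ℂ] H) (hP : P * P = P) (hs : ∀ v w, ⟪P v, w⟫_ℂ = ⟪v, P w⟫_ℂ)
    (hP' : P' * P' = P') (hs' : ∀ v w, ⟪P' v, w⟫_ℂ = ⟪v, P' w⟫_ℂ) (v : H)
    (hk : P (P' (P v)) = (5 : ℂ)⁻¹ • P v) :
    -(1 / Real.sqrt 5) * (‖v - P v‖ ^ 2 + ‖v - P' v‖ ^ 2) ≤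
      2 * (⟪v - P v, v - P' v⟫_ℂ).re := by
  obtain ⟨a1, a2⟩ := proj_facts P hP hs v
  obtain ⟨b1, b2⟩ := proj_facts P' hP' hs' v
  have e1 : ‖v - P v‖ ^ 2 = ‖v‖ ^ 2 - ‖P v‖ ^ 2 := by
    rw [norm_sub_sq (𝕜 := ℂ), a2]
    simp only [RCLike.re_to_complex, Complex.ofReal_re]
    ring
  have e2 : ‖v - P' v‖ ^ 2 = ‖v‖ ^ 2 - ‖P' v‖ ^ 2 := by
    rw [norm_sub_sq (𝕜 := ℂ), b2]
    simp only [RCLike.re_to_complex, Complex.ofReal_re]
    ring
  have e3 : (⟪v - P v, v - P' v⟫_ℂ).re =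
      ‖v‖ ^ 2 - (‖P v‖ ^ 2 + ‖P' v‖ ^ 2) + (⟪P v, P' v⟫_ℂ).re := by
    rw [inner_sub_left, inner_sub_right, inner_sub_right, a1, b2, inner_self_eq_norm_sq_to_K]
    simp only [Complex.sub_re, Complex.ofReal_re]
    have : (((‖v‖ : ℝ) : ℂ) ^ 2).re = ‖v‖ ^ 2 := by
      rw [← Complex.ofReal_pow, Complex.ofReal_re]
    have h' : ((RCLike.ofReal ‖v‖ : ℂ) ^ 2).re = ‖v‖ ^ 2 := this
    rw [h']
    ring
  -- the angle
  have hn : ‖P' (P v)‖ ^ 2 = (1 / Real.sqrt 5) ^ 2 * ‖P v‖ ^ 2 := by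
    have h1 := (proj_facts P' hP' hs' (P v)).1
    have h2 : ⟪P' (P v), P v⟫_ℂ = ⟪P (P' (P v)), v⟫_ℂ := (hs _ _).symm
    rw [h2, hk, inner_smul_left, a1] at h1
    have h3 := congrArg Complex.re h1
    have e5 : (conj ((5 : ℂ)⁻¹) * ((‖P v‖ ^ 2 : ℝ) : ℂ)).re = (5 : ℝ)⁻¹ * ‖P v‖ ^ 2 := by
      rw [map_inv₀, map_ofNat]
      rw [show ((5 : ℂ)⁻¹) = (((5 : ℝ)⁻¹ : ℝ) : ℂ) by push_cast; ring, ← Complex.ofReal_mul,
        Complex.ofReal_re]
    rw [e5, Complex.ofReal_re] at h3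
    rw [← h3, div_pow, Real.sq_sqrt (by norm_num)]
    norm_num
  have hε0 : 0 < 1 / Real.sqrt 5 := by positivity
  have hε1 : 1 / Real.sqrt 5 < 1 := by
    rw [div_lt_one (by positivity)]
    rw [Real.lt_sqrt (by norm_num)]
    norm_num
  have hn' : ‖P' (P v)‖ = 1 / Real.sqrt 5 * ‖P v‖ := by
    rw [← mul_pow] at hn
    exact (pow_left_inj₀ (norm_nonneg _) (by positivity) (by norm_num)).1 hn
  have hc : 2 * (⟪P v, P' v⟫_ℂ).re ≤ 1 / Real.sqrt 5 * (‖P v‖ ^ 2 + ‖P' v‖ ^ 2) := by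
    have h1 : P' (P' v) = P' v := by
      rw [← ContinuousLinearMap.mul_apply, hP']
    have h2 : ⟪P v, P' v⟫_ℂ = ⟪P' (P v), P' v⟫_ℂ := by
      conv_lhs => rw [← h1]
      rw [← hs']
    have h3 : (⟪P v, P' v⟫_ℂ).re ≤ ‖P' (P v)‖ * ‖P' v‖ := by
      rw [h2]
      exact (Complex.re_le_norm _).trans (norm_inner_le_norm _ _)
    rw [hn'] at h3
    have h4 : 2 * (‖P v‖ * ‖P' v‖) ≤ ‖P v‖ ^ 2 + ‖P' v‖ ^ 2 := by
      nlinarith [sq_nonneg (‖P v‖ - ‖P' v‖)]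
    have h5 := mul_le_mul_of_nonneg_left h4 hε0.le
    nlinarith
  have ht : ∀ t : ℝ, 0 ≤ ‖v‖ ^ 2 - 2 * t * (‖P v‖ ^ 2 + ‖P' v‖ ^ 2) +
      t ^ 2 * ((‖P v‖ ^ 2 + ‖P' v‖ ^ 2) + 2 * (⟪P v, P' v⟫_ℂ).re) := by
    intro t
    have h1 : ‖v - (t : ℂ) • (P v + P' v)‖ ^ 2 = ‖v‖ ^ 2 - 2 * t * (‖P v‖ ^ 2 + ‖P' v‖ ^ 2) +
      t ^ 2 * ((‖P v‖ ^ 2 + ‖P' v‖ ^ 2) + 2 * (⟪P v, P' v⟫_ℂ).re) := by
      rw [norm_sub_sq (𝕜 := ℂ), inner_smul_right, inner_add_right, a2, b2, norm_smul, mul_pow,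
        norm_add_sq (𝕜 := ℂ)]
      rw [← Complex.ofReal_add, ← Complex.ofReal_mul]
      simp only [RCLike.re_to_complex, Complex.ofReal_re, Complex.norm_real, Real.norm_eq_abs,
        sq_abs]
      ring
    rw [← h1]
    positivity
  have hfin := real_ineq hε0 hε1 hc ht
  rw [e1, e2, e3]
  linarith

/-- the part of the estimate for commuting projections -/
theorem ineq_zero (P P' : H →L[ℂ] H) (hP : P * P = P) (hs : ∀ v w, ⟪P v, w⟫_ℂ = ⟪v, P w⟫_ℂ)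
    (hP' : P' * P' = P') (hs' : ∀ v w, ⟪P' v, w⟫_ℂ = ⟪v, P' w⟫_ℂ) (v : H)
    (hk : P (P' v) = P' (P v)) :
    0 ≤ (⟪v - P v, v - P' v⟫_ℂ).re := by
  have hPv : ∀ u, P (P u) = P u := fun u => by
    rw [← ContinuousLinearMap.mul_apply, hP]
  have hPv' : ∀ u, P' (P' u) = P' u := fun u => by
    rw [← ContinuousLinearMap.mul_apply, hP']
  -- `v - P v = r + s` with `r = (1 - P)(1 - P') v`
  have h1 : ⟪v - P v, v - P' v⟫_ℂ = ⟪v - P v - P' v + P (P' v), v - P v - P' v + P (P' v)⟫_ℂ := by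
    have g1 : v - P v - P' v + P (P' v) = (v - P' v) - P (v - P' v) := by
      rw [map_sub]; abel
    have g2 : v - P v - P' v + P (P' v) = (v - P v) - P' (v - P v) := by
      rw [map_sub, hk]; abel
    have g3 : ⟪v - P v, P (v - P' v)⟫_ℂ = 0 := by
      rw [← hs, map_sub, hPv, sub_self, inner_zero_left]
    have g4 : ⟪P' (v - P v), (v - P' v) - P (v - P' v)⟫_ℂ = 0 := by
      rw [hs', ← g1, map_add, map_sub, map_sub, hPv']
      have : P' (P (P' v)) = P' (P v) := by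
        rw [hk, hPv']
      rw [this]
      simp
    have g5 : ⟪v - P v - P' v + P (P' v), v - P v - P' v + P (P' v)⟫_ℂ =
        ⟪(v - P v) - P' (v - P v), (v - P' v) - P (v - P' v)⟫_ℂ := by
      conv_lhs => rw [g1]
      rw [← g1, g2]
    rw [g5, inner_sub_left (v - P v) (P' (v - P v)), g4, sub_zero,
      inner_sub_right (v - P v) (v - P' v), g3, sub_zero]
  rw [h1, inner_self_eq_norm_sq_to_K]
  have : ∀ r : ℝ, (((r : ℝ) : ℂ) ^ 2).re = r ^ 2 := fun r => by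
    rw [← Complex.ofReal_pow, Complex.ofReal_re]
  have h' := this ‖v - P v - P' v + P (P' v)‖
  change 0 ≤ (((‖v - P v - P' v + P (P' v)‖ : ℝ) : ℂ) ^ 2).re
  rw [h']
  positivity

end PairAux

open PairAux

/-- M19. -/
theorem pairStmt : PairStmt := by
  intro H _ _ _ Γ _ σ hσ x y hx5 hy5 hzx hzy v
  set z := x * y * x⁻¹ * y⁻¹ with hz
  have hz5 : z ^ 5 = 1 := z_pow hy5 hzy
  rw [← av_apply, ← av_apply]
  set P := av σ x with hPdef
  set P' := av σ y with hPdef'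
  set E := av σ z with hEdef
  have hP : P * P = P := av_idem hx5
  have hP' : P' * P' = P' := av_idem hy5
  have hE : E * E = E := av_idem hz5
  have sP := av_symm hσ hx5
  have sP' := av_symm hσ hy5
  have sE := av_symm hσ hz5
  have cP : E * P = P * E := av_av_comm hzx
  have cP' : E * P' = P' * E := av_av_comm hzy
  -- the vanishing
  have hfix : ∀ j ∈ Finset.range 5, j ≠ 0 → E * (P * σ (y ^ j) * P) = P * σ (y ^ j) * P := by
    intro j hj hj0
    have h1 : σ (z ^ j) * (P * σ (y ^ j) * P) = P * σ (y ^ j) * P := by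
      calc σ (z ^ j) * (P * σ (y ^ j) * P) = (σ (z ^ j) * P) * σ (y ^ j) * P := by
            simp only [mul_assoc]
        _ = (P * σ (z ^ j)) * σ (y ^ j) * P := by rw [av_comm (hzx.symm.pow_right j)]
        _ = P * σ (z ^ j * y ^ j) * P := by rw [map_mul]; simp only [mul_assoc]
        _ = P * σ (x * y ^ j * x⁻¹) * P := by rw [← PairAux.conj_pow hzy j]
        _ = (P * σ x) * σ (y ^ j) * (σ x⁻¹ * P) := by
            rw [map_mul, map_mul]; simp only [mul_assoc]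
        _ = P * σ (y ^ j) * P := by rw [av_mul hx5, inv_mul_av hx5]
    have h2 : ∀ m : ℕ, σ ((z ^ j) ^ m) * (P * σ (y ^ j) * P) = P * σ (y ^ j) * P := by
      intro m
      induction m with
      | zero => rw [pow_zero, map_one, one_mul]
      | succ m ih => rw [pow_succ, map_mul, mul_assoc, h1, ih]
    have h3 : ∃ m : ℕ, (z ^ j) ^ m = z := by
      have hj' := Finset.mem_range.1 hj
      have hz6 : z ^ 6 = z := by rw [pow_succ, hz5, one_mul]
      have hz16 : z ^ 16 = z := by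
        rw [show 16 = 5 * 3 + 1 by norm_num, pow_succ, pow_mul, hz5, one_pow, one_mul]
      interval_cases j
      · exact absurd rfl hj0
      · exact ⟨1, by rw [pow_one, pow_one]⟩
      · exact ⟨3, by rw [← pow_mul]; exact hz6⟩
      · exact ⟨2, by rw [← pow_mul]; exact hz6⟩
      · exact ⟨4, by rw [← pow_mul]; exact hz16⟩
    obtain ⟨m, hm⟩ := h3
    have h4 := h2 m
    rw [hm] at h4
    exact av_of_fix h4
  -- decomposition
  set v0 := E v with hv0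
  set v1 := v - E v with hv1
  have hv : v = v0 + v1 := by rw [hv0, hv1]; abel
  have hE0 : E v0 = v0 := by
    rw [hv0, ← ContinuousLinearMap.mul_apply, hE]
  have hE1 : E v1 = 0 := by
    rw [hv1, map_sub, ← ContinuousLinearMap.mul_apply, hE, sub_self]
  have hEP : ∀ u, E (P u) = P (E u) := fun u => by
    rw [← ContinuousLinearMap.mul_apply, cP, ContinuousLinearMap.mul_apply]
  have hEP' : ∀ u, E (P' u) = P' (E u) := fun u => by
    rw [← ContinuousLinearMap.mul_apply, cP', ContinuousLinearMap.mul_apply]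
  have orth : ∀ a b, E a = a → E b = 0 → ⟪a, b⟫_ℂ = 0 := by
    intro a b ha hb
    rw [← ha, sE, hb, inner_zero_right]
  -- first part
  have hcomm : P (P' v0) = P' (P v0) := by
    have hzv : ∀ k : ℕ, σ (z ^ k) v0 = v0 := by
      intro k
      rw [hv0, ← ContinuousLinearMap.mul_apply, pow_mul_av hz5]
    have e1 : ∀ i j : ℕ, σ (x ^ i) (σ (y ^ j) v0) = σ (y ^ j) (σ (x ^ i) v0) := by
      intro i j
      rw [← ContinuousLinearMap.mul_apply, ← map_mul, comm_pow hzx hzy, map_mul,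
        ContinuousLinearMap.mul_apply, hzv, map_mul, ContinuousLinearMap.mul_apply]
    rw [hPdef, hPdef']
    simp only [av_apply, map_smul, map_sum, Finset.smul_sum]
    rw [Finset.sum_comm]
    simp only [e1]
  have q0 := ineq_zero P P' hP sP hP' sP' v0 hcomm
  -- second part
  have hk : P (P' (P v1)) = (5 : ℂ)⁻¹ • P v1 := by
    have e1 : P (P' (P v1)) = (5 : ℂ)⁻¹ • ∑ j ∈ Finset.range 5, (P * σ (y ^ j) * P) v1 := by
      conv_lhs => rw [hPdef', av_apply σ y]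
      rw [map_smul, map_sum]
      rfl
    rw [e1, Finset.sum_eq_single 0]
    · rw [pow_zero, map_one, mul_one, hP]
    · intro j hj hj0
      have h1 := DFunLike.congr_fun (hfix j hj hj0) v1
      have hs1 : E * (P * σ (y ^ j) * P) = (P * σ (y ^ j) * P) * E := by
        calc E * (P * σ (y ^ j) * P) = (E * P) * σ (y ^ j) * P := by simp only [mul_assoc]
          _ = P * (E * σ (y ^ j)) * P := by rw [cP]; simp only [mul_assoc]
          _ = P * σ (y ^ j) * (E * P) := by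
              rw [show E * σ (y ^ j) = σ (y ^ j) * E from av_comm (hzy.pow_right j)]
              simp only [mul_assoc]
          _ = (P * σ (y ^ j) * P) * E := by rw [cP]; simp only [mul_assoc]
      rw [hs1, ContinuousLinearMap.mul_apply, hE1, map_zero] at h1
      exact h1.symm
    · intro h
      exact absurd (Finset.mem_range.2 (by norm_num)) h
  have q1 := ineq_one P P' hP sP hP' sP' v1 hk
  -- sum
  have d1 : v - P v = (v0 - P v0) + (v1 - P v1) := by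
    conv_lhs => rw [hv]
    rw [map_add]; abel
  have d2 : v - P' v = (v0 - P' v0) + (v1 - P' v1) := by
    conv_lhs => rw [hv]
    rw [map_add]; abel
  have f0 : E (v0 - P v0) = v0 - P v0 := by rw [map_sub, hEP, hE0]
  have f0' : E (v0 - P' v0) = v0 - P' v0 := by rw [map_sub, hEP', hE0]
  have f1 : E (v1 - P v1) = 0 := by rw [map_sub, hEP, hE1, map_zero, sub_zero]
  have f1' : E (v1 - P' v1) = 0 := by rw [map_sub, hEP', hE1, map_zero, sub_zero]
  have n1 : ‖v - P v‖ ^ 2 = ‖v0 - P v0‖ ^ 2 + ‖v1 - P v1‖ ^ 2 := by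
    rw [d1, norm_add_sq (𝕜 := ℂ), orth _ _ f0 f1]
    simp
  have n2' : ‖v - P' v‖ ^ 2 = ‖v0 - P' v0‖ ^ 2 + ‖v1 - P' v1‖ ^ 2 := by
    rw [d2, norm_add_sq (𝕜 := ℂ), orth _ _ f0' f1']
    simp
  have n3 : (⟪v - P v, v - P' v⟫_ℂ).re =
      (⟪v0 - P v0, v0 - P' v0⟫_ℂ).re + (⟪v1 - P v1, v1 - P' v1⟫_ℂ).re := by
    have o1 := orth _ _ f0 f1'
    have o2 : ⟪v1 - P v1, v0 - P' v0⟫_ℂ = 0 := by
      rw [← inner_conj_symm, orth _ _ f0' f1, map_zero]
    rw [d1, d2, inner_add_left, inner_add_right (v0 - P v0), inner_add_right (v1 - P v1), o1, o2,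
      add_zero, zero_add, Complex.add_re]
  rw [n1, n2', n3]
  have hp : 0 ≤ (1 / Real.sqrt 5) * (‖v0 - P v0‖ ^ 2 + ‖v0 - P' v0‖ ^ 2) := by positivity
  linarith

end GVN
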