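import Pool.Agent.Lib.MP_5185df_an.Stmts

/-!
# M6b: the path of trace preserving representations of `F2` in the even part of `Conv F3`
-/

open Filter Topology
open scoped InnerProductSpace ComplexConjugate

namespace GVN

namespace PathAux

/-! ### Elements of `F3` -/

/-- the generators `a, b` -/
def gg (i : Fin 2) : F3 := FreeGroup.of (some i)

/-- the commutators -/
def cc (i : Fin 2) : F3 := (gg i)⁻¹ * zz * gg i * zz⁻¹

/-- a non-commutative quotient -/
def toS3 : F3 →* Equiv.Perm (Fin 3) :=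
  FreeGroup.lift fun o => o.elim (Equiv.swap 1 2) fun _ => Equiv.swap 0 1

theorem cc_ne (i : Fin 2) : cc i ≠ 1 := by
  intro h
  have h1 := congrArg toS3 h
  simp only [cc, map_mul, map_inv, map_one, gg, zz, toS3, FreeGroup.lift_apply_of,
    Option.elim_some, Option.elim_none] at h1
  exact absurd h1 (by decide)

theorem cc_pow_ne (i : Fin 2) (k : ℕ) (hk : 0 < k) : cc i ^ k ≠ 1 := by
  intro h
  exact cc_ne i ((pow_eq_one_iff_left hk.ne').1 h)

theorem sgn_gg (i : Fin 2) : sgn (gg i) = 1 := by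
  simp [sgn, gg]

theorem sgn_cc (i : Fin 2) : sgn (cc i) = 1 := by
  simp [sgn, cc, gg, zz]

theorem gg_cc (i : Fin 2) : gg i * cc i = zz * gg i * zz⁻¹ := by
  unfold cc
  group

/-- the quotient that kills `z` -/
def qq : F3 →* F2 := FreeGroup.lift fun o => o.elim 1 FreeGroup.of

theorem qq_gg (i : Fin 2) : qq (gg i) = FreeGroup.of i := by
  simp [qq, gg]

theorem qq_cc (i : Fin 2) : qq (cc i) = 1 := by
  simp [qq, cc, gg, zz]

/-! ### Multiplication operators -/

theorem mop_apply {G : Type} (φ : G → ℂ) (hφ : ∀ g, ‖φ g‖ ≤ 1) (f : E2 G) (x : G) :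
    mop φ hφ f x = φ x * f x := rfl

theorem Dg_apply (f : E2 F3) (x : F3) : Dg f x = (((sgn x : ℤˣ) : ℤ) : ℂ) * f x := rfl

theorem Dg_lam {g : F3} (h : sgn g = 1) : Dg * lam g = lam g * Dg := by
  apply op_ext
  intro y
  apply E2_ext
  intro x
  change Dg (lam g (del y)) x = lam g (Dg (del y)) x
  rw [Dg_apply, lam_apply, lam_apply, Dg_apply]
  have : sgn (g⁻¹ * x) = sgn x := by rw [map_mul, map_inv, h]; simp
  rw [this]

theorem Dg_rt (g : F3) : ∀ y : F3, Dg (rt g (del y)) = Dg (rt g (del y)) := fun _ => rfl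

theorem star_Dg : star Dg = Dg := by
  apply op_ext
  intro g
  apply E2_ext
  intro x
  rw [← inner_del x]
  change ⟪del x, (ContinuousLinearMap.adjoint Dg) (del g)⟫_ℂ = _
  rw [ContinuousLinearMap.adjoint_inner_right, ← inner_conj_symm, inner_del, Dg_apply, Dg_apply]
  by_cases hx : x = g
  · subst hx
    simp
  · rw [del_ne hx, del_ne (Ne.symm hx)]
    simp

theorem mem_Ev {T : Op F3} : T ∈ Ev ↔ (Dg * T = T * Dg ∧ ∀ g, rt g * T = T * rt g) := by
  unfold Ev Cen XEv
  rw [StarSubalgebra.mem_centralizer_iff]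
  constructor
  · intro h
    exact ⟨(h Dg (Set.mem_insert _ _)).1, fun g => (h (rt g) (Set.mem_insert_of_mem _ ⟨g, rfl⟩)).1⟩
  · rintro ⟨h1, h2⟩ X hX
    rcases hX with rfl | ⟨g, rfl⟩
    · refine ⟨h1, ?_⟩
      rw [star_Dg]
      exact h1
    · refine ⟨h2 g, ?_⟩
      rw [star_rt]
      exact h2 _

theorem Ev_le_Conv {T : Op F3} (hT : T ∈ Ev) : T ∈ Conv F3 :=
  mem_Conv.2 (mem_Ev.1 hT).2

theorem lam_mem_Ev {g : F3} (h : sgn g = 1) : lam g ∈ Ev :=
  mem_Ev.2 ⟨Dg_lam h, fun k => (lam_rt_comm g k).symm⟩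

/-- the projection onto a fibre of `qq` -/
noncomputable def Pr (v : F2) : Op F3 :=
  open Classical in mop (fun x => if qq x = v then 1 else 0) (by
    intro g
    split_ifs <;> simp)

theorem Pr_apply (v : F2) (f : E2 F3) (x : F3) :
    Pr v f x = open Classical in (if qq x = v then 1 else 0) * f x := rfl

theorem lam_Pr (g : F3) (v : F2) : lam g * Pr v = Pr (qq g * v) * lam g := by
  apply op_ext
  intro y
  apply E2_ext
  intro x
  change lam g (Pr v (del y)) x = Pr (qq g * v) (lam g (del y)) x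
  rw [lam_apply, Pr_apply, Pr_apply, lam_apply]
  congr 1
  have : qq (g⁻¹ * x) = v ↔ qq x = qq g * v := by
    rw [map_mul, map_inv, inv_mul_eq_iff_eq_mul]
  simp only [this]

theorem Pr_del : Pr 1 (del (1 : F3)) = del 1 := by
  apply E2_ext
  intro x
  rw [Pr_apply]
  by_cases hx : x = 1
  · subst hx
    simp
  · rw [del_ne hx, mul_zero]

/-! ### Homomorphisms from `F2` -/

section build

variable (U : Fin 2 → Op F3) (hU1 : ∀ i, star (U i) * U i = 1) (hU2 : ∀ i, U i * star (U i) = 1)

/-- the homomorphism given by two unitaries -/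
noncomputable def rho : F2 →* unitary (Op F3) :=
  FreeGroup.lift fun i => ⟨U i, Unitary.mem_iff.2 ⟨hU1 i, hU2 i⟩⟩

/-- the homomorphism given by two unitaries -/
noncomputable def ru : F2 →* Op F3 := (unitary (Op F3)).subtype.comp (rho U hU1 hU2)

theorem ru_of (i : Fin 2) : ru U hU1 hU2 (FreeGroup.of i) = U i := by
  simp [ru, rho]

theorem ru_unitary (g : F2) : ru U hU1 hU2 g ∈ unitary (Op F3) := (rho U hU1 hU2 g).2

theorem ru_inv (g : F2) : ru U hU1 hU2 g⁻¹ = star (ru U hU1 hU2 g) := by
  change ((rho U hU1 hU2 g⁻¹ : unitary (Op F3)) : Op F3) = _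
  rw [map_inv]
  rfl

theorem ru_mem (S : StarSubalgebra ℂ (Op F3)) (hS : ∀ i, U i ∈ S) (g : F2) :
    ru U hU1 hU2 g ∈ S := by
  induction g using FreeGroup.induction_on with
  | C1 => rw [map_one]; exact one_mem S
  | of i => rw [ru_of]; exact hS i
  | inv_of i ih => rw [ru_inv]; exact star_mem ih
  | mul x y hx hy => rw [map_mul]; exact mul_mem hx hy

theorem ru_norm (g : F2) : ‖ru U hU1 hU2 g‖ ≤ 1 := by
  refine ContinuousLinearMap.opNorm_le_bound _ zero_le_one fun f => ?_
  rw [ContinuousLinearMap.norm_map_of_mem_unitary (ru_unitary U hU1 hU2 g), one_mul]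

theorem ru_Pr (hP : ∀ i v, U i * Pr v = Pr (FreeGroup.of i * v) * U i) (g : F2) :
    ∀ v, ru U hU1 hU2 g * Pr v = Pr (g * v) * ru U hU1 hU2 g := by
  induction g using FreeGroup.induction_on with
  | C1 => intro v; rw [map_one, one_mul, mul_one, one_mul]
  | of i => intro v; rw [ru_of]; exact hP i v
  | inv_of i ih =>
    intro v
    have h1 := ih ((FreeGroup.of i)⁻¹ * v)
    rw [mul_inv_cancel_left] at h1
    rw [ru_inv]
    have hu := ru_unitary U hU1 hU2 (FreeGroup.of i)
    have e1 := Unitary.star_mul_self_of_mem hu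
    have e2 := Unitary.mul_star_self_of_mem hu
    set A := ru U hU1 hU2 (FreeGroup.of i) with hA
    calc star A * Pr v = star A * (Pr v * A) * star A := by
          rw [mul_assoc (star A), mul_assoc (Pr v), e2, mul_one]
      _ = star A * (A * Pr ((FreeGroup.of i)⁻¹ * v)) * star A := by rw [h1]
      _ = Pr ((FreeGroup.of i)⁻¹ * v) * star A := by rw [← mul_assoc (star A), e1, one_mul]
  | mul x y hx hy =>
    intro v
    rw [map_mul, mul_assoc, hy, ← mul_assoc, hx, mul_assoc, mul_assoc]

theorem ru_tr (hP : ∀ i v, U i * Pr v = Pr (FreeGroup.of i * v) * U i) (g : F2) (hg : g ≠ 1) :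
    tr (ru U hU1 hU2 g) = 0 := by
  have h := DFunLike.congr_fun (ru_Pr U hU1 hU2 hP g 1) (del (1 : F3))
  rw [ContinuousLinearMap.mul_apply, Pr_del, mul_one, ContinuousLinearMap.mul_apply] at h
  unfold tr
  rw [h, Pr_apply, map_one, if_neg (Ne.symm hg), zero_mul]

/-- the trace preserving homomorphism given by two unitaries -/
noncomputable def tph (hE : ∀ i, U i ∈ Ev)
    (hP : ∀ i v, U i * Pr v = Pr (FreeGroup.of i * v) * U i) : TPH F2 F3 where
  u := ru U hU1 hU2
  mem g := Ev_le_Conv (ru_mem U hU1 hU2 Ev hE g)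
  adj g := (ru_inv U hU1 hU2 g).symm
  tr0 := ru_tr U hU1 hU2 hP

end build

end PathAux

open PathAux

/-- M6b. -/
theorem pathStmt (h : MobStmt) : PathStmt := by
  have hm := fun i : Fin 2 => h F3 (cc i) (cc_pow_ne i)
  choose u hu h1 h0 hc hcont using hm
  -- the unitaries
  let U : ℝ → Fin 2 → Op F3 := fun r i => lam (gg i) * u i r
  have lam_star : ∀ g : F3, star (lam g) * lam g = 1 := fun g => by
    rw [star_lam, ← lam_mul, inv_mul_cancel, lam_one]
  have lam_star' : ∀ g : F3, lam g * star (lam g) = 1 := fun g => by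
    rw [star_lam, ← lam_mul, mul_inv_cancel, lam_one]
  have hU1 : ∀ r i, star (U r i) * U r i = 1 := fun r i => by
    change star (lam (gg i) * u i r) * (lam (gg i) * u i r) = 1
    rw [star_mul, mul_assoc, ← mul_assoc (star (lam (gg i))), lam_star, one_mul, (hu i r).1]
  have hU2 : ∀ r i, U r i * star (U r i) = 1 := fun r i => by
    change (lam (gg i) * u i r) * star (lam (gg i) * u i r) = 1
    rw [star_mul, mul_assoc, ← mul_assoc (u i r), (hu i r).2, one_mul, lam_star']
  have huE : ∀ r i, u i r ∈ Ev := fun r i => by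
    refine mem_Ev.2 ⟨hc i r Dg (Dg_lam (sgn_cc i)) (Dg_lam ?_), fun g =>
      hc i r (rt g) (lam_rt_comm _ _).symm (lam_rt_comm _ _).symm⟩
    rw [map_inv, sgn_cc, inv_one]
  have hE : ∀ r i, U r i ∈ Ev := fun r i => mul_mem (lam_mem_Ev (sgn_gg i)) (huE r i)
  have hP : ∀ r i v, U r i * Pr v = Pr (FreeGroup.of i * v) * U r i := fun r i v => by
    have e1 : Pr v * u i r = u i r * Pr v := by
      apply hc
      · have := lam_Pr (cc i) v
        rw [qq_cc, one_mul] at this
        exact this.symm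
      · have := lam_Pr (cc i)⁻¹ v
        rw [map_inv, qq_cc, inv_one, one_mul] at this
        exact this.symm
    change lam (gg i) * u i r * Pr v = _ * (lam (gg i) * u i r)
    rw [mul_assoc, ← e1, ← mul_assoc, lam_Pr, qq_gg, mul_assoc]
  refine ⟨fun r => tph (U r) (hU1 r) (hU2 r) (hE r) (hP r), fun r g => ?_, fun g => ?_,
    fun g => ?_, fun g => ?_⟩
  · exact ru_mem (U r) (hU1 r) (hU2 r) Ev (hE r) g
  · have e : ru (U 1) (hU1 1) (hU2 1) = (lamHom F3).comp incl := by
      apply FreeGroup.ext_hom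
      intro i
      rw [ru_of]
      change lam (gg i) * u i 1 = lam (incl (FreeGroup.of i))
      rw [h1, mul_one]
      congr 1
    exact DFunLike.congr_fun e g
  · have e : ru (U 0) (hU1 0) (hU2 0) =
        (lamHom F3).comp ((MulAut.conj zz).toMonoidHom.comp incl) := by
      apply FreeGroup.ext_hom
      intro i
      rw [ru_of]
      change lam (gg i) * u i 0 = lam (zz * incl (FreeGroup.of i) * zz⁻¹)
      rw [h0, ← lam_mul, gg_cc]
      congr 2
    have e2 := DFunLike.congr_fun e g
    change ru (U 0) (hU1 0) (hU2 0) g = _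
    rw [e2]
    change lam (zz * incl g * zz⁻¹) = _
    rw [star_lam, lam_mul, lam_mul]
  · -- continuity
    have key : ∀ g : F2, ∀ r ∈ Set.Icc (0 : ℝ) 1, Tendsto (fun s =>
        n2 (ru (U s) (hU1 s) (hU2 s) g - ru (U r) (hU1 r) (hU2 r) g)) (𝓝[Set.Icc 0 1] r)
        (𝓝 0) := by
      intro g
      induction g using FreeGroup.induction_on with
      | C1 =>
        intro r _
        simp only [map_one, sub_self, n2_zero]
        exact tendsto_const_nhds
      | of i =>
        intro r hr
        have h2 : Tendsto (fun s => u i s (del 1)) (𝓝[Set.Icc 0 1] r) (𝓝 (u i r (del 1))) :=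
          hcont i r hr
        rw [tendsto_iff_norm_sub_tendsto_zero] at h2
        refine squeeze_zero (fun s => n2_nonneg _) (fun s => ?_) h2
        rw [ru_of, ru_of]
        change n2 (lam (gg i) * u i s - lam (gg i) * u i r) ≤ _
        rw [← mul_sub]
        refine (n2_mul_le _ _).trans ?_
        refine (mul_le_of_le_one_left (n2_nonneg _) (norm_lam_le _)).trans ?_
        exact le_of_eq rfl
      | inv_of i ih =>
        intro r hr
        refine (ih r hr).congr fun s => ?_
        rw [ru_inv, ru_inv, ← star_sub, n2_star]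
        exact sub_mem (Ev_le_Conv (ru_mem (U s) (hU1 s) (hU2 s) Ev (hE s) _))
          (Ev_le_Conv (ru_mem (U r) (hU1 r) (hU2 r) Ev (hE r) _))
      | mul x y hx hy =>
        intro r hr
        have h3 := (hy r hr).add (hx r hr)
        rw [add_zero] at h3
        refine squeeze_zero (fun s => n2_nonneg _) (fun s => ?_) h3
        rw [map_mul, map_mul]
        set A := ru (U s) (hU1 s) (hU2 s) x with hA
        set A' := ru (U s) (hU1 s) (hU2 s) y with hA'
        set B := ru (U r) (hU1 r) (hU2 r) x with hB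
        set B' := ru (U r) (hU1 r) (hU2 r) y with hB'
        have e : A * A' - B * B' = A * (A' - B') + (A - B) * B' := by noncomm_ring
        have mA : A ∈ Conv F3 := Ev_le_Conv (ru_mem (U s) (hU1 s) (hU2 s) Ev (hE s) x)
        have mB : B ∈ Conv F3 := Ev_le_Conv (ru_mem (U r) (hU1 r) (hU2 r) Ev (hE r) x)
        have mB' : B' ∈ Conv F3 := Ev_le_Conv (ru_mem (U r) (hU1 r) (hU2 r) Ev (hE r) y)
        rw [e]
        refine (n2_add_le _ _).trans (add_le_add ?_ ?_)
        · exact (n2_mul_le _ _).trans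
            (mul_le_of_le_one_left (n2_nonneg _) (ru_norm (U s) (hU1 s) (hU2 s) x))
        · exact (n2_mul_le' (sub_mem mA mB) mB').trans
            (mul_le_of_le_one_right (n2_nonneg _) (ru_norm (U r) (hU1 r) (hU2 r) y))
    intro r hr
    change Tendsto (fun s => ru (U s) (hU1 s) (hU2 s) g (del 1)) (𝓝[Set.Icc 0 1] r)
      (𝓝 (ru (U r) (hU1 r) (hU2 r) g (del 1)))
    rw [tendsto_iff_norm_sub_tendsto_zero]
    exact key g r hr

end GVN
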