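import Pool.Agent.Lib.MP_5185df_an.Stmts

/-!
# Uniform continuity of the path
-/

open Filter Topology
open scoped InnerProductSpace ComplexConjugate

namespace GVN

/-- M6c. -/
theorem pathStmt' (h : PathStmt) : PathStmt' := by
  obtain ⟨α, h1, h2, h3, h4⟩ := h
  refine ⟨α, h1, h2, h3, ?_⟩
  intro S ε hε
  have hc : ∀ p : MonoidAlgebra ℂ F2,
      ContinuousOn (fun r => (α r).ext p (del 1)) (Set.Icc (0 : ℝ) 1) := by
    intro p
    have : (fun r => (α r).ext p (del 1)) =
        fun r => ∑ g ∈ p.coeff.support, p.coeff g • (α r).u g (del 1) := by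
      funext r
      unfold TPH.ext
      rw [MonoidAlgebra.lift_apply, Finsupp.sum, sum_apply]
      rfl
    rw [this]
    refine continuousOn_finsetSum _ fun g _ => ?_
    intro r hr
    exact (h4 g r hr).const_smul (p.coeff g)
  have hu : ∀ p : MonoidAlgebra ℂ F2, ∃ δ : ℝ, 0 < δ ∧ ∀ r ∈ Set.Icc (0 : ℝ) 1,
      ∀ s ∈ Set.Icc (0 : ℝ) 1, dist r s < δ →
        dist ((α r).ext p (del 1)) ((α s).ext p (del 1)) < ε := by
    intro p
    have := isCompact_Icc.uniformContinuousOn_of_continuous (hc p)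
    rw [Metric.uniformContinuousOn_iff] at this
    obtain ⟨δ, hδ, h⟩ := this ε hε
    exact ⟨δ, hδ, h⟩
  choose δ hδ hδ' using hu
  obtain ⟨d, hd, hd'⟩ : ∃ d : ℝ, 0 < d ∧ ∀ p ∈ S, d ≤ δ p := by
    induction S using Finset.induction_on with
    | empty => exact ⟨1, one_pos, by simp⟩
    | insert p S _ ih =>
      obtain ⟨d, hd, hd'⟩ := ih
      refine ⟨min d (δ p), lt_min hd (hδ p), ?_⟩
      intro q hq
      rcases Finset.mem_insert.1 hq with rfl | hq
      · exact min_le_right _ _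
      · exact (min_le_left _ _).trans (hd' q hq)
  obtain ⟨N, hN⟩ := exists_nat_one_div_lt hd
  refine ⟨N + 1, Nat.succ_pos _, ?_⟩
  intro r s hr hs hrs p hp
  have h5 : dist r s < δ p := by
    rw [Real.dist_eq]
    refine lt_of_le_of_lt hrs (lt_of_lt_of_le ?_ (hd' p hp))
    push_cast
    exact hN
  have h6 := hδ' p r hr s hs h5
  rw [dist_eq_norm] at h6
  exact h6.le

end GVN
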