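import Pool.Agent.Lib.MP_5185df_an.Stmts

/-!
# M12: property (T) repairs intertwiners (sequence form)
-/

open Filter Topology
open scoped InnerProductSpace ComplexConjugate

namespace GVN

namespace RepM12

variable {Γ K : Type} [Group Γ] [Group K] {V : Ultrafilter ℕ}

theorem norm_star_le {T : Op K} {C : ℝ} (h : ‖T‖ ≤ C) : ‖star T‖ ≤ C := by rwa [norm_star_op]

theorem mul_le {S T : Op K} {C D : ℝ} (hS : ‖S‖ ≤ C) (hT : ‖T‖ ≤ D) : ‖S * T‖ ≤ C * D :=
  (norm_mul_le S T).trans (mul_le_mul hS hT (norm_nonneg _) ((norm_nonneg _).trans hS))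

theorem n2_mul_le_of {S T : Op K} {C : ℝ} (hS : ‖S‖ ≤ C) : n2 (S * T) ≤ C * n2 T :=
  (n2_mul_le S T).trans (mul_le_mul_of_nonneg_right hS (n2_nonneg _))

theorem n2_mul_le_of' {S T : Op K} {C : ℝ} (h1 : S ∈ Conv K) (h2 : T ∈ Conv K) (hT : ‖T‖ ≤ C) :
    n2 (S * T) ≤ C * n2 S :=
  (n2_mul_le' h1 h2).trans (by
    rw [mul_comm]
    exact mul_le_mul_of_nonneg_right hT (n2_nonneg _))

theorem star_mul_self {a : ℕ → Γ → Op K} (ha : IsApp V a) (g : Γ) :
    Tendsto (fun n => n2 (1 - star (a n g) * a n g)) V (𝓝 0) := by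
  have h1 := ha.one
  have h2 := ha.mul g⁻¹ g
  have h3 := (ha.adj g).const_mul 3
  rw [inv_mul_cancel] at h2
  have h4 := (h1.add h2).add h3
  simp only [add_zero, mul_zero] at h4
  refine squeeze_zero (fun n => n2_nonneg _) (fun n => ?_) h4
  have e : 1 - star (a n g) * a n g = -((a n 1 - 1) + (a n g⁻¹ * a n g - a n 1) +
      (star (a n g) - a n g⁻¹) * a n g) := by noncomm_ring
  rw [e, n2_neg]
  refine (n2_add_le _ _).trans (add_le_add (n2_add_le _ _) ?_)
  exact n2_mul_le_of' (sub_mem (star_mem (ha.mem n g)) (ha.mem n _)) (ha.mem n g) (ha.bdd n g)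

theorem self_mul_star {a : ℕ → Γ → Op K} (ha : IsApp V a) (g : Γ) :
    Tendsto (fun n => n2 (1 - a n g * star (a n g))) V (𝓝 0) := by
  have h1 := ha.one
  have h2 := ha.mul g g⁻¹
  have h3 := (ha.adj g).const_mul 3
  rw [mul_inv_cancel] at h2
  have h4 := (h1.add h2).add h3
  simp only [add_zero, mul_zero] at h4
  refine squeeze_zero (fun n => n2_nonneg _) (fun n => ?_) h4
  have e : 1 - a n g * star (a n g) = -((a n 1 - 1) + (a n g * a n g⁻¹ - a n 1) +
      a n g * (star (a n g) - a n g⁻¹)) := by noncomm_ring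
  rw [e, n2_neg]
  refine (n2_add_le _ _).trans (add_le_add (n2_add_le _ _) ?_)
  exact n2_mul_le_of (ha.bdd n g)

theorem ev_le {f : ℕ → ℝ} (hf : Tendsto f V (𝓝 0)) {η : ℝ} (hη : 0 < η) : ∀ᶠ n in V, f n ≤ η :=
  (hf.eventually (gt_mem_nhds hη)).mono fun _ h => h.le

/-- almost exact intertwiners, bounded from below -/
theorem exists_w (h2 : KSeqStmt) (S : Finset Γ) {c : ℝ} (hc : KPair S c) {X : Set (Op K)}
    (hX : Set.range rt ⊆ X) {a b : ℕ → Γ → Op K} (ha : IsApp V a) (hb : IsApp V b)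
    (haX : ∀ n g, a n g ∈ Cen X) (hbX : ∀ n g, b n g ∈ Cen X) {x : ℕ → Op K}
    (hxX : ∀ n, x n ∈ Cen X) (hx1 : ∀ n, ‖x n‖ ≤ 1) (hx2 : ∀ n, 1 / 2 ≤ n2 (x n))
    (hx3 : ∀ n, ∀ s ∈ S, n2 (b n s * x n - x n * a n s) ≤ c / 100) {η : ℝ} (hη : 0 < η) :
    ∀ᶠ n in V, ∃ w ∈ Cen X, ‖w‖ ≤ 9 ∧ 2 / 5 ≤ n2 w ∧
      ∀ s ∈ S, n2 (b n s * w - w * a n s) ≤ η := by
  have hc0 : 0 < c := hc.1
  have hxC : ∀ n, x n ∈ Conv K := fun n => Cen_le_Conv hX (hxX n)
  have hstep : ∀ s ∈ S, ∀ᶠ n in V, n2 (b n s * x n * star (a n s) - x n) ≤ 4 * c / 100 := by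
    intro s hs
    filter_upwards [ev_le (self_mul_star ha s) (show 0 < c / 100 by positivity)] with n hn
    have e : b n s * x n * star (a n s) - x n = (b n s * x n - x n * a n s) * star (a n s) +
        -(x n * (1 - a n s * star (a n s))) := by noncomm_ring
    rw [e]
    refine (n2_add_le _ _).trans ?_
    rw [n2_neg]
    have t1 : n2 ((b n s * x n - x n * a n s) * star (a n s)) ≤
        3 * n2 (b n s * x n - x n * a n s) :=
      n2_mul_le_of' (sub_mem (mul_mem (hb.mem n s) (hxC n)) (mul_mem (hxC n) (ha.mem n s)))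
        (star_mem (ha.mem n s)) (norm_star_le (ha.bdd n s))
    have t2 : n2 (x n * (1 - a n s * star (a n s))) ≤ 1 * n2 (1 - a n s * star (a n s)) :=
      n2_mul_le_of (hx1 n)
    have t3 := hx3 n s hs
    linarith
  set ε : ℝ := min (η / 6) (1 / 50) with hε
  have hε0 : 0 < ε := lt_min (by positivity) (by norm_num)
  have hε1 : ε ≤ η / 6 := min_le_left _ _
  have hε2 : ε ≤ 1 / 50 := min_le_right _ _
  obtain ⟨T, t, ht0, ht1, hw1, hw2⟩ := h2 Γ K S c hc V a b ha hb x hxC hx1 (4 * c / 100) hstep ε hε0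
  have hA : ∀ᶠ n in V, ∀ s ∈ S, n2 (b n s * (∑ g ∈ T, (t g : ℂ) • (b n g * x n * star (a n g))) *
      star (a n s) - ∑ g ∈ T, (t g : ℂ) • (b n g * x n * star (a n g))) ≤ ε ∧
      n2 (1 - star (a n s) * a n s) ≤ η / 54 := by
    rw [Filter.eventually_all_finset]
    intro s hs
    exact (hw2 s hs).and (ev_le (star_mul_self ha s) (by positivity))
  filter_upwards [hw1, hA] with n hn1 hn2
  set w : Op K := ∑ g ∈ T, (t g : ℂ) • (b n g * x n * star (a n g)) with hw
  have hwX : w ∈ Cen X := sum_mem fun g _ => (Cen X).smul_mem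
    (mul_mem (mul_mem (hbX n g) (hxX n)) (star_mem (haX n g))) _
  have hw9 : ‖w‖ ≤ 9 := by
    calc ‖w‖ ≤ ∑ g ∈ T, ‖(t g : ℂ) • (b n g * x n * star (a n g))‖ := norm_sum_le _ _
      _ ≤ ∑ g ∈ T, t g * 9 := by
          refine Finset.sum_le_sum fun g _ => ?_
          rw [norm_smul, Complex.norm_real, Real.norm_of_nonneg (ht0 g)]
          refine mul_le_mul_of_nonneg_left ?_ (ht0 g)
          have := mul_le (mul_le (hb.bdd n g) (hx1 n)) (norm_star_le (ha.bdd n g))
          linarith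
      _ = 9 := by rw [← Finset.sum_mul, ht1, one_mul]
  refine ⟨w, hwX, hw9, ?_, fun s hs => ?_⟩
  · have h4 : 2 * (4 * c / 100) / c = 8 / 100 := by field_simp; norm_num
    rw [h4] at hn1
    have h5 : n2 (x n) ≤ n2 (w - x n) + n2 w := by
      have e : x n = w - (w - x n) := by abel
      calc n2 (x n) = n2 (w - (w - x n)) := by rw [← e]
        _ ≤ n2 w + n2 (w - x n) := n2_sub_le _ _
        _ = _ := by ring
    have h6 := hx2 n
    linarith
  · obtain ⟨h4, h5⟩ := hn2 s hs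
    have e : b n s * w - w * a n s = (b n s * w * star (a n s) - w) * a n s +
        b n s * w * (1 - star (a n s) * a n s) := by noncomm_ring
    rw [e]
    refine (n2_add_le _ _).trans ?_
    have hwC : w ∈ Conv K := Cen_le_Conv hX hwX
    have t1 : n2 ((b n s * w * star (a n s) - w) * a n s) ≤
        3 * n2 (b n s * w * star (a n s) - w) :=
      n2_mul_le_of' (sub_mem (mul_mem (mul_mem (hb.mem n s) hwC) (star_mem (ha.mem n s))) hwC)
        (ha.mem n s) (ha.bdd n s)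
    have t2 : n2 (b n s * w * (1 - star (a n s) * a n s)) ≤
        (3 * 9) * n2 (1 - star (a n s) * a n s) := n2_mul_le_of (mul_le (hb.bdd n s) hw9)
    linarith

/-- the absolute value of an asymptotic intertwiner is asymptotically central -/
theorem comm_le {a b w : Op K} (ha : a ∈ Conv K) (hb : b ∈ Conv K) (hw : w ∈ Conv K)
    (ha3 : ‖a‖ ≤ 3) (hb3 : ‖b‖ ≤ 3) (hw9 : ‖w‖ ≤ 9) :
    n2 (star w * w * a - a * (star w * w)) ≤
      90 * n2 (b * w - w * a) + 243 * (n2 (1 - star b * b) + n2 (1 - a * star a)) := by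
  have hws := norm_star_le hw9
  have e1 : star w * w * a - a * (star w * w) = -(star w * (b * w - w * a)) +
      (star w * b - a * star w) * w := by noncomm_ring
  have e2 : star w * b - a * star w = -(a * (star (b * w - w * a)) * b) +
      (-(a * star w * (1 - star b * b)) + (1 - a * star a) * (star w * b)) := by
    rw [star_sub, star_mul, star_mul]
    noncomm_ring
  have hd : b * w - w * a ∈ Conv K := sub_mem (mul_mem hb hw) (mul_mem hw ha)
  have t1 : n2 (star w * (b * w - w * a)) ≤ 9 * n2 (b * w - w * a) := n2_mul_le_of hws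
  have t2 : n2 (a * (star (b * w - w * a)) * b) ≤ 3 * (3 * n2 (b * w - w * a)) := by
    refine (n2_mul_le_of' (mul_mem ha (star_mem hd)) hb hb3).trans ?_
    refine mul_le_mul_of_nonneg_left ?_ (by norm_num)
    refine (n2_mul_le_of ha3).trans (le_of_eq ?_)
    rw [n2_star hd]
  have t3 : n2 (a * star w * (1 - star b * b)) ≤ (3 * 9) * n2 (1 - star b * b) :=
    n2_mul_le_of (mul_le ha3 hws)
  have t4 : n2 ((1 - a * star a) * (star w * b)) ≤ (9 * 3) * n2 (1 - a * star a) :=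
    n2_mul_le_of' (sub_mem (one_mem _) (mul_mem ha (star_mem ha)))
      (mul_mem (star_mem hw) hb) (mul_le hws hb3)
  have t5 : n2 (star w * b - a * star w) ≤ 9 * n2 (b * w - w * a) +
      27 * (n2 (1 - star b * b) + n2 (1 - a * star a)) := by
    rw [e2]
    refine (n2_add_le _ _).trans ?_
    rw [n2_neg]
    have h1 := n2_add_le (-(a * star w * (1 - star b * b))) ((1 - a * star a) * (star w * b))
    rw [n2_neg] at h1
    linarith
  have t6 : n2 ((star w * b - a * star w) * w) ≤ 9 * n2 (star w * b - a * star w) :=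
    n2_mul_le_of' (sub_mem (mul_mem (star_mem hw) hb) (mul_mem ha (star_mem hw))) hw hw9
  rw [e1]
  refine (n2_add_le _ _).trans ?_
  rw [n2_neg]
  linarith

end RepM12

open RepM12 in
/-- M12. -/
theorem repairStmt (h1 : CutStmt) (h2 : KSeqStmt) (h3 : DiagStmt) : RepairStmt := by
  intro Γ K _ _ S c hc V hV X hX a b ha hb haX hbX hirr x hxX hx1 hx2 hx3 η hη
  obtain ⟨e, -, he0, hP⟩ := h3 V hV (fun n η => ∃ w ∈ Cen X, ‖w‖ ≤ 9 ∧ 2 / 5 ≤ n2 w ∧
      ∀ s ∈ S, n2 (b n s * w - w * a n s) ≤ η)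
    (fun n η η' hη ⟨w, hw1, hw2, hw3, hw4⟩ => ⟨w, hw1, hw2, hw3, fun s hs => (hw4 s hs).trans hη⟩)
    (fun η hη => exists_w h2 S hc hX ha hb haX hbX hxX hx1 hx2 hx3 hη)
  -- choose the sequence
  have hch : ∀ n, ∃ w ∈ Cen X, ‖w‖ ≤ 9 ∧ 2 / 5 ≤ n2 w ∧
      ((∃ w ∈ Cen X, ‖w‖ ≤ 9 ∧ 2 / 5 ≤ n2 w ∧ ∀ s ∈ S, n2 (b n s * w - w * a n s) ≤ e n) →
        ∀ s ∈ S, n2 (b n s * w - w * a n s) ≤ e n) := by
    intro n
    by_cases h : ∃ w ∈ Cen X, ‖w‖ ≤ 9 ∧ 2 / 5 ≤ n2 w ∧ ∀ s ∈ S, n2 (b n s * w - w * a n s) ≤ e n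
    · obtain ⟨w, hw1, hw2, hw3, hw4⟩ := h
      exact ⟨w, hw1, hw2, hw3, fun _ => hw4⟩
    · refine ⟨1, one_mem _, ?_, ?_, fun h' => absurd h' h⟩
      · have : ‖(1 : Op K)‖ ≤ 1 := by
          have := norm_lam_le (1 : K)
          rwa [lam_one] at this
        linarith
      · rw [n2_one]; norm_num
  choose w hwX hw9 hw25 hwe using hch
  have hwC : ∀ n, w n ∈ Conv K := fun n => Cen_le_Conv hX (hwX n)
  have hbw : ∀ s ∈ S, Tendsto (fun n => n2 (b n s * w n - w n * a n s)) V (𝓝 0) := by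
    intro s hs
    refine squeeze_zero' (Eventually.of_forall fun n => n2_nonneg _) ?_ he0
    filter_upwards [hP] with n hn
    exact hwe n hn s hs
  -- the absolute value
  have hy := hirr (fun n => star (w n) * w n) (fun n => mul_mem (star_mem (hwC n)) (hwC n))
    ⟨9 * 9, fun n => mul_le (norm_star_le (hw9 n)) (hw9 n)⟩ (fun s hs => by
      have h4 := ((hbw s hs).const_mul 90).add
        (((star_mul_self hb s).add (self_mul_star ha s)).const_mul 243)
      simp only [add_zero, mul_zero] at h4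
      exact squeeze_zero (fun n => n2_nonneg _) (fun n => comm_le (ha.mem n s) (hb.mem n s) (hwC n)
        (ha.bdd n s) (hb.bdd n s) (hw9 n)) h4)
  have hwpos : ∀ n, 0 < n2 (w n) := fun n => by have := hw25 n; linarith
  -- normalisation
  set T : ℕ → Op K := fun n => (((n2 (w n))⁻¹ : ℝ) : ℂ) • w n with hT
  have hTX : ∀ n, T n ∈ Cen X := fun n => (Cen X).smul_mem (hwX n) _
  have hTC : ∀ n, T n ∈ Conv K := fun n => Cen_le_Conv hX (hTX n)
  have hinv : ∀ n, 0 ≤ (n2 (w n))⁻¹ ∧ (n2 (w n))⁻¹ ≤ 5 / 2 := fun n => by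
    refine ⟨(inv_pos.2 (hwpos n)).le, ?_⟩
    rw [inv_le_comm₀ (hwpos n) (by norm_num)]
    norm_num
    exact hw25 n
  have hTn : ∀ n, ‖T n‖ ≤ 45 / 2 := fun n => by
    rw [hT]
    simp only
    rw [norm_smul, Complex.norm_real, Real.norm_of_nonneg (hinv n).1]
    calc (n2 (w n))⁻¹ * ‖w n‖ ≤ 5 / 2 * 9 := mul_le_mul (hinv n).2 (hw9 n) (norm_nonneg _)
          (by norm_num)
      _ = _ := by norm_num
  have hT1 : ∀ n, n2 (T n) = 1 := fun n => by
    rw [hT]
    simp only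
    rw [n2_smul, Complex.norm_real, Real.norm_of_nonneg (hinv n).1, inv_mul_cancel₀ (hwpos n).ne']
  have hTT : Tendsto (fun n => n2 (1 - star (T n) * T n)) V (𝓝 0) := by
    have h4 := hy.const_mul (25 / 4)
    rw [mul_zero] at h4
    refine squeeze_zero (fun n => n2_nonneg _) (fun n => ?_) h4
    have h5 : star (T n) * T n = (((n2 (w n))⁻¹ ^ 2 : ℝ) : ℂ) • (star (w n) * w n) := by
      rw [hT]
      simp only
      rw [star_smul, smul_mul_smul_comm]
      congr 1
      simp only [RCLike.star_def, Complex.conj_ofReal]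
      push_cast
      ring
    have h6 : 1 - star (T n) * T n = -((((n2 (w n))⁻¹ ^ 2 : ℝ) : ℂ) •
        (star (w n) * w n - tr (star (w n) * w n) • (1 : Op K))) := by
      rw [h5, tr_star_mul_self, smul_sub, smul_smul, ← Complex.ofReal_mul]
      have h7 : (n2 (w n))⁻¹ ^ 2 * n2 (w n) ^ 2 = 1 := by
        rw [← mul_pow, inv_mul_cancel₀ (hwpos n).ne', one_pow]
      rw [h7, Complex.ofReal_one, one_smul]
      abel
    rw [h6, n2_neg, n2_smul, Complex.norm_real, Real.norm_of_nonneg (by positivity)]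
    refine mul_le_mul_of_nonneg_right ?_ (n2_nonneg _)
    calc (n2 (w n))⁻¹ ^ 2 ≤ (5 / 2) ^ 2 := pow_le_pow_left₀ (hinv n).1 (hinv n).2 2
      _ = _ := by norm_num
  have hcut : Tendsto (fun n => n2 (cut (T n) - T n)) V (𝓝 0) := by
    have h4 := hTT.const_mul (45 / 2)
    rw [mul_zero] at h4
    refine squeeze_zero (fun n => n2_nonneg _) (fun n => ?_) h4
    exact ((h1 K (T n)).2.2).trans (mul_le_mul_of_nonneg_right (hTn n) (n2_nonneg _))
  have hfin : ∀ᶠ n in V, ∀ s ∈ S, n2 (b n s * w n - w n * a n s) ≤ η / 10 := by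
    rw [Filter.eventually_all_finset]
    intro s hs
    exact ev_le (hbw s hs) (by positivity)
  filter_upwards [ev_le hcut (show 0 < η / 10 by positivity), hfin] with n hn1 hn2
  refine ⟨cut (T n), (h1 K (T n)).2.1 X (hTX n), (h1 K (T n)).1, ?_, fun s hs => ?_⟩
  · have h4 : n2 (T n) ≤ n2 (cut (T n)) + n2 (cut (T n) - T n) := by
      have e1 : T n = cut (T n) - (cut (T n) - T n) := by abel
      calc n2 (T n) = n2 (cut (T n) - (cut (T n) - T n)) := by rw [← e1]
        _ ≤ _ := n2_sub_le _ _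
    rw [hT1 n] at h4
    linarith
  · have hcC : cut (T n) ∈ Conv K := Cen_le_Conv hX ((h1 K (T n)).2.1 X (hTX n))
    have e1 : b n s * cut (T n) - cut (T n) * a n s =
        (((n2 (w n))⁻¹ : ℝ) : ℂ) • (b n s * w n - w n * a n s) +
          (b n s * (cut (T n) - T n) + -((cut (T n) - T n) * a n s)) := by
      have e2 : (((n2 (w n))⁻¹ : ℝ) : ℂ) • (b n s * w n - w n * a n s) =
          b n s * T n - T n * a n s := by
        rw [hT]
        simp only
        rw [smul_sub, mul_smul_comm, smul_mul_assoc]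
      rw [e2]
      noncomm_ring
    rw [e1]
    refine (n2_add_le _ _).trans ?_
    have t1 : n2 ((((n2 (w n))⁻¹ : ℝ) : ℂ) • (b n s * w n - w n * a n s)) ≤
        5 / 2 * n2 (b n s * w n - w n * a n s) := by
      rw [n2_smul, Complex.norm_real, Real.norm_of_nonneg (hinv n).1]
      exact mul_le_mul_of_nonneg_right (hinv n).2 (n2_nonneg _)
    have t2 := n2_add_le (b n s * (cut (T n) - T n)) (-((cut (T n) - T n) * a n s))
    rw [n2_neg] at t2
    have t3 : n2 (b n s * (cut (T n) - T n)) ≤ 3 * n2 (cut (T n) - T n) :=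
      n2_mul_le_of (hb.bdd n s)
    have t4 : n2 ((cut (T n) - T n) * a n s) ≤ 3 * n2 (cut (T n) - T n) :=
      n2_mul_le_of' (sub_mem hcC (hTC n)) (ha.mem n s) (ha.bdd n s)
    have t5 := hn2 s hs
    linarith

end GVN
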