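import Pool.Agent.Lib.MP_5185df_an.Stmts

/-!
# M2: resolvent identities in the 2-norm
-/

open Filter Topology
open scoped InnerProductSpace ComplexConjugate

namespace GVN

namespace ResAux

section inv
variable {G : Type}

theorem isUnit_one_add (X : Op G) : IsUnit (1 + star X * X) := by
  have h : (-1 : ℝ) ∉ spectrum ℝ (star X * X) := by
    intro h
    have := spectrum_star_mul_self_nonneg (b := X) (-1) h
    linarith
  rw [spectrum.mem_iff, not_not] at h
  have h2 := h.neg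
  have e : -((algebraMap ℝ (Op G)) (-1) - star X * X) = 1 + star X * X := by
    rw [map_neg, map_one]; abel
  rwa [e] at h2

/-- `R = (1 + X²)⁻¹` for a self-adjoint `X`. -/
structure Res (X R : Op G) : Prop where
  sa : star X = X
  l : R * (1 + X * X) = 1
  r : (1 + X * X) * R = 1

theorem res_of {X : Op G} (h : star X = X) : Res X (Ring.inverse (1 + star X * X)) := by
  have hu := isUnit_one_add X
  refine ⟨h, ?_, ?_⟩
  · have := Ring.inverse_mul_cancel _ hu
    rwa [h] at this ⊢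
  · have := Ring.mul_inverse_cancel _ hu
    rwa [h] at this ⊢

theorem Res.comm {X R : Op G} (h : Res X R) : R * X = X * R := by
  calc R * X = R * X * ((1 + X * X) * R) := by rw [h.r, mul_one]
    _ = (R * (1 + X * X)) * (X * R) := by noncomm_ring
    _ = X * R := by rw [h.l, one_mul]

theorem Res.comm_of {X R T : Op G} (h : Res X R) (hT : T * (1 + X * X) = (1 + X * X) * T) :
    T * R = R * T := by
  calc T * R = (R * (1 + X * X)) * T * R := by rw [h.l, one_mul]
    _ = R * ((1 + X * X) * T) * R := by noncomm_ring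
    _ = R * (T * (1 + X * X)) * R := by rw [hT]
    _ = R * T * ((1 + X * X) * R) := by noncomm_ring
    _ = R * T := by rw [h.r, mul_one]

theorem inner_sa {X : Op G} (h : star X = X) (v w : E2 G) : ⟪X v, w⟫_ℂ = ⟪v, X w⟫_ℂ := by
  have := ContinuousLinearMap.adjoint_inner_left X w v
  change ⟪(star X) v, w⟫_ℂ = ⟪v, X w⟫_ℂ at this
  rwa [h] at this

/-- the basic identity -/
theorem norm_sq_id {X : Op G} (h : star X = X) (w : E2 G) :
    ‖w + X (X w)‖ ^ 2 = ‖w‖ ^ 2 + 2 * ‖X w‖ ^ 2 + ‖X (X w)‖ ^ 2 := by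
  rw [norm_add_sq (𝕜 := ℂ)]
  have e : ⟪w, X (X w)⟫_ℂ = ((‖X w‖ ^ 2 : ℝ) : ℂ) := by
    rw [← inner_sa h, inner_self_eq_norm_sq_to_K]; push_cast; rfl
  rw [e]
  simp only [RCLike.re_to_complex, Complex.ofReal_re]

theorem le_mid {X : Op G} (h : star X = X) (w : E2 G) :
    2 * ‖X w‖ ^ 2 ≤ ‖w‖ ^ 2 + ‖X (X w)‖ ^ 2 := by
  have e : ⟪w, X (X w)⟫_ℂ = ((‖X w‖ ^ 2 : ℝ) : ℂ) := by
    rw [← inner_sa h, inner_self_eq_norm_sq_to_K]; push_cast; rfl
  have h1 : ‖X w‖ ^ 2 ≤ ‖w‖ * ‖X (X w)‖ := by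
    have h2 := norm_inner_le_norm (𝕜 := ℂ) w (X (X w))
    rw [e, Complex.norm_real, Real.norm_of_nonneg (by positivity)] at h2
    exact h2
  nlinarith [sq_nonneg (‖w‖ - ‖X (X w)‖)]

theorem Res.apply {X R : Op G} (h : Res X R) (v : E2 G) : v = R v + X (X (R v)) := by
  have := DFunLike.congr_fun h.r v
  exact this.symm

theorem Res.norm_R {X R : Op G} (h : Res X R) : ‖R‖ ≤ 1 := by
  refine ContinuousLinearMap.opNorm_le_bound _ zero_le_one fun v => ?_
  have h1 := norm_sq_id h.sa (R v)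
  rw [← h.apply v] at h1
  rw [one_mul]
  refine abs_le_of_sq_le_sq' ?_ (norm_nonneg _) |>.2
  nlinarith [sq_nonneg ‖X (R v)‖, sq_nonneg ‖X (X (R v))‖]

theorem Res.norm_XR {X R : Op G} (h : Res X R) : ‖X * R‖ ≤ 1 / 2 := by
  refine ContinuousLinearMap.opNorm_le_bound _ (by norm_num) fun v => ?_
  have h1 := norm_sq_id h.sa (R v)
  have h2 := le_mid h.sa (R v)
  rw [← h.apply v] at h1
  change ‖X (R v)‖ ≤ _
  refine abs_le_of_sq_le_sq' ?_ (by positivity) |>.2
  nlinarith

theorem Res.norm_XRX {X R : Op G} (h : Res X R) : ‖X * R * X‖ ≤ 1 := by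
  have e : X * R * X = X * X * R := by rw [mul_assoc, h.comm, mul_assoc]
  rw [e]
  refine ContinuousLinearMap.opNorm_le_bound _ zero_le_one fun v => ?_
  have h1 := norm_sq_id h.sa (R v)
  rw [← h.apply v] at h1
  change ‖X (X (R v))‖ ≤ _
  rw [one_mul]
  refine abs_le_of_sq_le_sq' ?_ (norm_nonneg _) |>.2
  nlinarith [sq_nonneg ‖X (R v)‖, sq_nonneg ‖R v‖]

end inv

section conv
variable {G : Type} [Group G]

theorem Res.conv {X R : Op G} (h : Res X R) (hX : X ∈ Conv G) : R ∈ Conv G := by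
  rw [mem_Conv] at hX ⊢
  intro g
  apply h.comm_of
  have := hX g
  calc rt g * (1 + X * X) = rt g + (rt g * X) * X := by noncomm_ring
    _ = rt g + X * rt g * X := by rw [this]
    _ = rt g + X * (rt g * X) := by rw [mul_assoc]
    _ = rt g + X * (X * rt g) := by rw [this]
    _ = (1 + X * X) * rt g := by noncomm_ring

theorem n2_sand {A Z B : Op G} (hZ : Z ∈ Conv G) (hB : B ∈ Conv G) {a b : ℝ} (hA : ‖A‖ ≤ a)
    (hBb : ‖B‖ ≤ b) : n2 (A * Z * B) ≤ a * b * n2 Z := by
  have h1 : n2 (A * Z * B) ≤ ‖A‖ * (n2 Z * ‖B‖) := by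
    rw [mul_assoc]
    exact (n2_mul_le _ _).trans (mul_le_mul_of_nonneg_left (n2_mul_le' hZ hB) (norm_nonneg _))
  have ha : 0 ≤ a := (norm_nonneg _).trans hA
  calc n2 (A * Z * B) ≤ ‖A‖ * (n2 Z * ‖B‖) := h1
    _ ≤ a * (n2 Z * b) := by
      refine mul_le_mul hA (mul_le_mul_of_nonneg_left hBb (n2_nonneg _))
        (mul_nonneg (n2_nonneg _) (norm_nonneg _)) ha
    _ = a * b * n2 Z := by ring

theorem n2_two_smul (T : Op G) : n2 ((2 : ℂ) • T) = 2 * n2 T := by
  rw [n2_smul]; simp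

theorem part1 (X Y : Op G) (hX : X ∈ Conv G) (hY : Y ∈ Conv G) (sX : star X = X) (sY : star Y = Y) :
    n2 (cut X - cut Y) ≤ 5 * n2 (X - Y) := by
  unfold cut
  set R := Ring.inverse (1 + star X * X) with hR
  set S := Ring.inverse (1 + star Y * Y) with hS
  have rX : Res X R := res_of sX
  have rY : Res Y S := res_of sY
  have cX : R ∈ Conv G := rX.conv hX
  have hD : Y - X ∈ Conv G := sub_mem hY hX
  have e1 : R - S = S * (Y * (Y - X) + (Y - X) * X) * R := by
    calc R - S = (S * (1 + Y * Y)) * R - S * ((1 + X * X) * R) := by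
          rw [rY.l, rX.r, one_mul, mul_one]
      _ = _ := by noncomm_ring
  have e2 : X * R - Y * S = -(1 * (Y - X) * R) + ((Y * S * Y) * (Y - X) * R +
      (Y * S) * (Y - X) * (X * R)) := by
    calc X * R - Y * S = (X - Y) * R + Y * (R - S) := by noncomm_ring
      _ = (X - Y) * R + Y * (S * (Y * (Y - X) + (Y - X) * X) * R) := by rw [e1]
      _ = _ := by noncomm_ring
  have hone : ‖(1 : Op G)‖ ≤ 1 := ContinuousLinearMap.norm_id_le
  have b1 : n2 (-(1 * (Y - X) * R)) ≤ 1 * 1 * n2 (Y - X) := by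
    rw [n2_neg]; exact n2_sand hD cX hone rX.norm_R
  have b2 : n2 ((Y * S * Y) * (Y - X) * R) ≤ 1 * 1 * n2 (Y - X) :=
    n2_sand hD cX rY.norm_XRX rX.norm_R
  have b3 : n2 ((Y * S) * (Y - X) * (X * R)) ≤ 1 / 2 * (1 / 2) * n2 (Y - X) :=
    n2_sand hD (mul_mem hX cX) rY.norm_XR rX.norm_XR
  rw [← smul_sub, n2_two_smul, e2, n2_sub_comm X Y]
  have h1 := n2_add_le (-(1 * (Y - X) * R)) ((Y * S * Y) * (Y - X) * R + (Y * S) * (Y - X) * (X * R))
  have h2 := n2_add_le ((Y * S * Y) * (Y - X) * R) ((Y * S) * (Y - X) * (X * R))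
  have h3 := n2_nonneg (Y - X)
  linarith

theorem part2 (v a : Op G) (hv : v ∈ Conv G) (ha : a ∈ Conv G) (sv : star v = v) (l : ℝ)
    (hl : 0 < l) :
    n2 (cut ((l : ℂ) • v) * a - a * cut ((l : ℂ) • v)) ≤ 5 * l * n2 (v * a - a * v) := by
  set W : Op G := (l : ℂ) • v with hW
  have sW : star W = W := by
    rw [hW, star_smul, sv]
    congr 1
    exact Complex.conj_ofReal l
  have cW : W ∈ Conv G := (Conv G).smul_mem hv _
  unfold cut
  set R := Ring.inverse (1 + star W * W) with hR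
  have rW : Res W R := res_of sW
  have cR : R ∈ Conv G := rW.conv cW
  set Z := W * a - a * W with hZ
  have cZ : Z ∈ Conv G := sub_mem (mul_mem cW ha) (mul_mem ha cW)
  have e1 : R * a - a * R = -(R * (W * Z + Z * W) * R) := by
    calc R * a - a * R = R * a * ((1 + W * W) * R) - (R * (1 + W * W)) * (a * R) := by
          rw [rW.l, rW.r, one_mul, mul_one]
      _ = _ := by rw [hZ]; noncomm_ring
  have e2 : (W * R) * a - a * (W * R) = 1 * Z * R + (-((W * R * W) * Z * R) +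
      -((W * R) * Z * (W * R))) := by
    calc (W * R) * a - a * (W * R) = (W * a - a * W) * R + W * (R * a - a * R) := by noncomm_ring
      _ = Z * R + W * (-(R * (W * Z + Z * W) * R)) := by rw [e1]
      _ = _ := by noncomm_ring
  have hone : ‖(1 : Op G)‖ ≤ 1 := ContinuousLinearMap.norm_id_le
  have b1 : n2 (1 * Z * R) ≤ 1 * 1 * n2 Z := n2_sand cZ cR hone rW.norm_R
  have b2 : n2 (-((W * R * W) * Z * R)) ≤ 1 * 1 * n2 Z := by
    rw [n2_neg]; exact n2_sand cZ cR rW.norm_XRX rW.norm_R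
  have b3 : n2 (-((W * R) * Z * (W * R))) ≤ 1 / 2 * (1 / 2) * n2 Z := by
    rw [n2_neg]; exact n2_sand cZ (mul_mem cW cR) rW.norm_XR rW.norm_XR
  have e3 : (2 : ℂ) • (W * R) * a - a * (2 : ℂ) • (W * R) = (2 : ℂ) • ((W * R) * a - a * (W * R)) := by
    rw [smul_sub, smul_mul_assoc, mul_smul_comm]
  rw [e3, n2_two_smul, e2]
  have h1 := n2_add_le (1 * Z * R) (-((W * R * W) * Z * R) + -((W * R) * Z * (W * R)))
  have h2 := n2_add_le (-((W * R * W) * Z * R)) (-((W * R) * Z * (W * R)))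
  have h3 := n2_nonneg (v * a - a * v)
  have e4 : n2 Z = l * n2 (v * a - a * v) := by
    have : Z = (l : ℂ) • (v * a - a * v) := by
      rw [hZ, hW, smul_sub, smul_mul_assoc, mul_smul_comm]
    rw [this, n2_smul, Complex.norm_real, Real.norm_of_nonneg hl.le]
  rw [e4] at b1 b2 b3
  have h5 : 0 ≤ l * n2 (v * a - a * v) := mul_nonneg hl.le h3
  nlinarith

theorem part3 (v : Op G) (sv : star v = v) (l : ℝ) (hl : 0 < l) :
    n2 (v - ((1 / (2 * l) : ℝ) : ℂ) • cut ((l : ℂ) • v)) ≤ l / 2 * n2 (v * v) := by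
  set W : Op G := (l : ℂ) • v with hW
  have sW : star W = W := by
    rw [hW, star_smul, sv]
    congr 1
    exact Complex.conj_ofReal l
  unfold cut
  set R := Ring.inverse (1 + star W * W) with hR
  have rW : Res W R := res_of sW
  have hlc : (l : ℂ) ≠ 0 := by exact_mod_cast hl.ne'
  have e1 : ((1 / (2 * l) : ℝ) : ℂ) • (2 : ℂ) • (W * R) = v * R := by
    rw [hW, smul_mul_assoc, smul_smul, smul_smul]
    have : ((1 / (2 * l) : ℝ) : ℂ) * 2 * (l : ℂ) = 1 := by
      push_cast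
      field_simp
    rw [this, one_smul]
  have e2 : v - v * R = (l : ℂ) • ((W * R) * (v * v)) := by
    have c1 : R * v = v * R := by
      have h1 := rW.comm
      rw [hW, mul_smul_comm, smul_mul_assoc] at h1
      exact smul_right_injective _ hlc h1
    have h2 : v - v * R = v * (W * W) * R := by
      calc v - v * R = v * ((1 + W * W) * R) - v * R := by rw [rW.r, mul_one]
        _ = _ := by noncomm_ring
    have h3 : (W * R) * (v * v) = W * (v * v) * R := by
      rw [mul_assoc, ← mul_assoc R v v, c1, mul_assoc v R v, c1]; noncomm_ring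
    rw [h2, h3, hW]
    simp only [smul_mul_assoc, mul_smul_comm, smul_smul]
  rw [e1, e2, n2_smul, Complex.norm_real, Real.norm_of_nonneg hl.le]
  have h1 : n2 ((W * R) * (v * v)) ≤ 1 / 2 * n2 (v * v) :=
    (n2_mul_le _ _).trans (mul_le_mul_of_nonneg_right rW.norm_XR (n2_nonneg _))
  have h2 := mul_le_mul_of_nonneg_left h1 hl.le
  linarith

end conv

end ResAux

/-- M2. -/
theorem resolvStmt : ResolvStmt :=
  ⟨fun _ _ X Y hX hY sX sY => ResAux.part1 X Y hX hY sX sY,
    fun _ _ v a hv ha sv l hl => ResAux.part2 v a hv ha sv l hl,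
    fun _ _ v _ sv l hl => ResAux.part3 v sv l hl⟩

end GVN
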