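import Pool.Agent.Lib.MP_5185df_an.Assembly

/-!
# Statement-level definitions (problem MP_5185df_an)

Group von Neumann algebras, isomorphisms of tracial ultrapowers, elementary equivalence and
Kazhdan's property (T). They restate the definitions of `Pool.Agent.Lib.MP_5185df_an.Defs` with
short terms.
-/

open Filter Topology
open scoped InnerProductSpace

namespace GVN

namespace St

section ops
variable {G : Type}

/-- The vector `T f`. -/
noncomputable def app (T : Op G) (f : E2 G) : E2 G := T f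

/-- The matrix coefficient `⟨ξ, T η⟩` of `T`. -/
noncomputable def coef (ξ η : E2 G) (T : Op G) : ℂ := ⟪ξ, app T η⟫_ℂ

/-- The basic neighbourhoods of the weak operator topology. -/
def Near (F : Finset (E2 G × E2 G)) (ε : ℝ) (S T : Op G) : Prop :=
  ∀ p ∈ F, ‖coef p.1 p.2 T - coef p.1 p.2 S‖ < ε

/-- `z = x + y`, for sequences of operators. -/
def IsAdd (x y z : ℕ → Op G) : Prop :=
  ∀ (n : ℕ) (f : E2 G) (i : G), app (z n) f i = app (x n) f i + app (y n) f i

/-- `z = c x`, for sequences of operators and a scalar `c`. -/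
def IsSmul (c : ℂ) (x z : ℕ → Op G) : Prop :=
  ∀ (n : ℕ) (f : E2 G) (i : G), app (z n) f i = c * app (x n) f i

/-- `z = x y`, for sequences of operators. -/
def IsMul (x y z : ℕ → Op G) : Prop :=
  ∀ (n : ℕ) (f : E2 G), app (z n) f = app (x n) (app (y n) f)

/-- `z = x*`, for sequences of operators. -/
def IsStar (x z : ℕ → Op G) : Prop :=
  ∀ (n : ℕ) (f g : E2 G), coef f g (z n) = starRingEnd ℂ (coef g f (x n))

end ops

section lg
variable (G : Type) [Group G]

/-- The finite linear combinations `∑ c g • λ_g` of the left regular unitaries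
`(λ_g f) x = f (g⁻¹ x)`. -/
def spanLam : Set (Op G) :=
  {T | ∃ (s : Finset G) (c : G → ℂ), ∀ (f : E2 G) (x : G), app T f x = ∑ g ∈ s, c g * f (g⁻¹ * x)}

/-- The group von Neumann algebra `L(G)`: the closure of the span of the left regular unitaries
in the weak operator topology. -/
def LG : Set (Op G) :=
  {T | ∀ (F : Finset (E2 G × E2 G)) (ε : ℝ), 0 < ε → ∃ S ∈ spanLam G, Near F ε S T}

/-- Norm bounded sequences in `L(G)`. -/
def BSeq : Set (ℕ → Op G) :=
  {x | (∀ n, x n ∈ LG G) ∧ ∃ C : ℝ, ∀ n, ‖x n‖ ≤ C}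

variable {G}

/-- The `2`-norm distance of two operators of `L(G)`: `‖S - T‖₂ = ‖S δ_1 - T δ_1‖`. -/
noncomputable def dist2 (S T : Op G) : ℝ := ‖app S (del 1) - app T (del 1)‖

/-- Two sequences are equal in the tracial ultrapower: `lim_U ‖x_n - y_n‖₂ = 0`. -/
def Eqv (U : Ultrafilter ℕ) (x y : ℕ → Op G) : Prop :=
  Tendsto (fun n => dist2 (x n) (y n)) U (𝓝 0)

end lg

/-- A `*`-isomorphism from the tracial ultrapower `L(G)^U` onto `L(K)^V`, given on
representatives (`Eqv` is equality in the tracial ultrapower). -/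
structure UIso (G K : Type) [Group G] [Group K] (U V : Ultrafilter ℕ) where
  toFun : (ℕ → Op G) → (ℕ → Op K)
  mem : ∀ x ∈ BSeq G, toFun x ∈ BSeq K
  inj : ∀ x ∈ BSeq G, ∀ y ∈ BSeq G, Eqv V (toFun x) (toFun y) ↔ Eqv U x y
  surj : ∀ y ∈ BSeq K, ∃ x ∈ BSeq G, Eqv V (toFun x) y
  add : ∀ x ∈ BSeq G, ∀ y ∈ BSeq G, ∀ z w,
    IsAdd x y z → IsAdd (toFun x) (toFun y) w → Eqv V (toFun z) w
  smul : ∀ (c : ℂ), ∀ x ∈ BSeq G, ∀ z w,
    IsSmul c x z → IsSmul c (toFun x) w → Eqv V (toFun z) w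
  mul : ∀ x ∈ BSeq G, ∀ y ∈ BSeq G, ∀ z w,
    IsMul x y z → IsMul (toFun x) (toFun y) w → Eqv V (toFun z) w
  star : ∀ x ∈ BSeq G, ∀ z w, IsStar x z → IsStar (toFun x) w → Eqv V (toFun z) w

/-- `L(G)` and `L(K)` are elementarily equivalent: some tracial ultrapowers with respect to
non-principal ultrafilters on `ℕ` are isomorphic. -/
def ElemEquiv (G K : Type) [Group G] [Group K] : Prop :=
  ∃ U V : Ultrafilter ℕ, (U : Filter ℕ) ≤ cofinite ∧ (V : Filter ℕ) ≤ cofinite ∧
    Nonempty (UIso G K U V)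

section kaz
variable {G K : Type} [Group G] [NormedAddCommGroup K] [InnerProductSpace ℂ K]

/-- `σ` is a unitary representation. -/
def IsURep (σ : G → K →L[ℂ] K) : Prop :=
  (∀ (g h : G) (v : K), σ (g * h) v = σ g (σ h v)) ∧ ∀ (g : G) (v : K), ‖σ g v‖ = ‖v‖

omit [Group G] in
/-- `w` is an invariant vector of `σ`. -/
def Invt (σ : G → K →L[ℂ] K) (w : K) : Prop := ∀ g, σ g w = w

omit [Group G] in
/-- Some `s ∈ S` moves `v` by at least `c ‖v - w‖`. -/
def Moves (σ : G → K →L[ℂ] K) (S : Finset G) (c : ℝ) (v w : K) : Prop :=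
  ∃ s ∈ S, c * ‖v - w‖ ≤ ‖σ s v - v‖

end kaz

/-- Kazhdan's property (T): for some finite generating set `S` and some `c > 0`, in every
unitary representation on a Hilbert space every vector `v` is moved by some `s ∈ S` by at least
`c` times its distance to the invariant vectors. -/
def Kazhdan (G : Type) [Group G] : Prop :=
  ∃ S : Finset G, Subgroup.closure (S : Set G) = ⊤ ∧ ∃ c : ℝ, 0 < c ∧
    ∀ (K : Type) [NormedAddCommGroup K] [InnerProductSpace ℂ K] [CompleteSpace K]
      (σ : G → K →L[ℂ] K), IsURep σ → ∀ v : K, ∃ w : K, Invt σ w ∧ Moves σ S c v w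

/-! ### Comparison with the definitions of `Defs` -/

theorem spanLam_eq (G : Type) [Group G] (T : Op G) :
    T ∈ spanLam G ↔ T ∈ Submodule.span ℂ (Set.range (lam : G → Op G)) := by
  have key : ∀ (s : Finset G) (c : G → ℂ) (f : E2 G) (x : G),
      (∑ g ∈ s, c g • lam g : Op G) f x = ∑ g ∈ s, c g * f (g⁻¹ * x) := by
    intro s c f x
    rw [sum_apply]
    induction s using Finset.cons_induction with
    | empty => simp
    | cons a s ha ih =>
      rw [Finset.sum_cons, Finset.sum_cons, ← ih]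
      rfl
  constructor
  · rintro ⟨s, c, h⟩
    have h2 : T = ∑ g ∈ s, c g • lam g := by
      ext f x
      rw [key s c f x]
      exact h f x
    rw [h2]
    exact Submodule.sum_mem _ fun g _ =>
      Submodule.smul_mem _ _ (Submodule.subset_span ⟨g, rfl⟩)
  · intro h
    rw [Finsupp.mem_span_range_iff_exists_finsupp] at h
    obtain ⟨c, hc⟩ := h
    refine ⟨c.support, c, fun f x => ?_⟩
    rw [← hc]
    exact key c.support c f x

theorem coef_sub {G : Type} (ξ η : E2 G) (S T : Op G) :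
    coef ξ η T - coef ξ η S = ⟪ξ, (T - S) η⟫_ℂ := by
  unfold coef app
  rw [← inner_sub_right]
  rfl

theorem LG_eq (G : Type) [Group G] : LG G = GVN.LG G := by
  ext T
  constructor
  · intro h F ε hε
    obtain ⟨S, hS, h2⟩ := h F ε hε
    refine ⟨S, (spanLam_eq G S).1 hS, fun p hp => ?_⟩
    rw [← coef_sub]
    exact h2 p hp
  · intro h F ε hε
    obtain ⟨S, hS, h2⟩ := h F ε hε
    refine ⟨S, (spanLam_eq G S).2 hS, fun p hp => ?_⟩
    rw [coef_sub]
    exact h2 p hp

theorem BSeq_eq (G : Type) [Group G] : BSeq G = GVN.BSeq G := by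
  unfold BSeq GVN.BSeq
  rw [LG_eq]

theorem Eqv_iff {G : Type} [Group G] (U : Ultrafilter ℕ) (x y : ℕ → Op G) :
    Eqv U x y ↔ GVN.Eqv U x y := Iff.rfl

theorem isStar_star {G : Type} (x : ℕ → Op G) : IsStar x (star x) := by
  intro n f g
  unfold coef app
  rw [inner_conj_symm]
  exact ContinuousLinearMap.adjoint_inner_right (x n) f g

/-- The two notions of isomorphism agree. -/
noncomputable def UIso.old {G K : Type} [Group G] [Group K] {U V : Ultrafilter ℕ}
    (Φ : UIso G K U V) : GVN.UIso G K U V where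
  toFun := Φ.toFun
  mem x hx := by rw [← BSeq_eq] at hx ⊢; exact Φ.mem x hx
  inj x hx y hy := by rw [← BSeq_eq] at hx hy; exact Φ.inj x hx y hy
  surj y hy := by rw [← BSeq_eq] at hy; rw [← BSeq_eq]; exact Φ.surj y hy
  add x hx y hy := by
    rw [← BSeq_eq] at hx hy
    exact Φ.add x hx y hy (x + y) (Φ.toFun x + Φ.toFun y) (fun _ _ _ => rfl) (fun _ _ _ => rfl)
  smul c x hx := by
    rw [← BSeq_eq] at hx
    exact Φ.smul c x hx (c • x) (c • Φ.toFun x) (fun _ _ _ => rfl) (fun _ _ _ => rfl)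
  mul x hx y hy := by
    rw [← BSeq_eq] at hx hy
    exact Φ.mul x hx y hy (x * y) (Φ.toFun x * Φ.toFun y) (fun _ _ => rfl) (fun _ _ => rfl)
  star x hx := by
    rw [← BSeq_eq] at hx
    exact Φ.star x hx _ _ (isStar_star x) (isStar_star _)

theorem ElemEquiv.old {G K : Type} [Group G] [Group K] (h : ElemEquiv G K) :
    GVN.ElemEquiv G K := by
  obtain ⟨U, V, hU, hV, ⟨Φ⟩⟩ := h
  exact ⟨U, V, hU, hV, ⟨Φ.old⟩⟩

theorem Kazhdan_iff (G : Type) [Group G] : Kazhdan G ↔ GVN.Kazhdan G := by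
  constructor
  · rintro ⟨S, hS, c, hc, h⟩
    refine ⟨S, hS, c, hc, ?_⟩
    intro K _ _ _ σ hσ v
    refine h K (fun g => σ g) ⟨fun g h v => ?_, hσ⟩ v
    change σ (g * h) v = σ g (σ h v)
    rw [map_mul]; rfl
  · rintro ⟨S, hS, c, hc, h⟩
    refine ⟨S, hS, c, hc, ?_⟩
    intro K _ _ _ σ hσ v
    have h1 : σ 1 = 1 := by
      ext v
      have h2 : σ 1 (σ 1 v - v) = 0 := by
        rw [map_sub, ← hσ.1, one_mul, sub_self]
      have h3 : ‖σ 1 v - v‖ = 0 := by rw [← hσ.2 1, h2, norm_zero]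
      exact sub_eq_zero.1 (norm_eq_zero.1 h3)
    exact h K ⟨⟨σ, h1⟩, fun g h => ContinuousLinearMap.ext fun v => hσ.1 g h v⟩ hσ.2 v

end St

end GVN
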