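import Pool.Agent.Lib.MP_5185df_an.Stmts

/-!
M22: a concrete icc subgroup of `SL_3(F_5[t])`.
-/

open Filter Topology
open scoped InnerProductSpace ComplexConjugate

namespace GVN

namespace SG

open Matrix Polynomial

instance fact5 : Fact (Nat.Prime 5) := ⟨by norm_num⟩

/-- the ring -/
abbrev R : Type := Polynomial (ZMod 5)

/-- the group `SL_3(F_5[t])` -/
abbrev S3 : Type := Matrix.SpecialLinearGroup (Fin 3) R

theorem comm_rel {i j k : Fin 3} (hij : i ≠ j) (hjk : j ≠ k) (hik : i ≠ k) (p q : R) :
    Matrix.SpecialLinearGroup.transvection hij p * Matrix.SpecialLinearGroup.transvection hjk q =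
      Matrix.SpecialLinearGroup.transvection hik (p * q) * Matrix.SpecialLinearGroup.transvection hjk q * Matrix.SpecialLinearGroup.transvection hij p := by
  apply Subtype.ext
  simp only [Matrix.SpecialLinearGroup.coe_mul, Matrix.SpecialLinearGroup.transvection_coe]
  have h1 : single i j p * single j k q = single i k (p * q) := single_mul_single_same ..
  have h2 : single j k q * single i j p = 0 := single_mul_single_of_ne _ _ _ _ hik.symm _
  have h3 : single i k (p * q) * single j k q = 0 := single_mul_single_of_ne _ _ _ _ hjk.symm _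
  have h4 : single i k (p * q) * single i j p = 0 := single_mul_single_of_ne _ _ _ _ hik.symm _
  simp only [mul_add, add_mul, mul_one, one_mul, h1, h2, h3, h4, zero_mul, add_zero]
  abel

theorem comm_row {i j k : Fin 3} (hij : i ≠ j) (hik : i ≠ k) (p q : R) :
    Commute (Matrix.SpecialLinearGroup.transvection hik p) (Matrix.SpecialLinearGroup.transvection hij q) := by
  apply Subtype.ext
  simp only [Matrix.SpecialLinearGroup.coe_mul, Matrix.SpecialLinearGroup.transvection_coe]
  have h1 : single i k p * single i j q = 0 := single_mul_single_of_ne _ _ _ _ hik.symm _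
  have h2 : single i j q * single i k p = 0 := single_mul_single_of_ne _ _ _ _ hij.symm _
  simp only [mul_add, add_mul, mul_one, one_mul, h1, h2, add_zero]
  abel

theorem comm_col {i j k : Fin 3} (hjk : j ≠ k) (hik : i ≠ k) (p q : R) :
    Commute (Matrix.SpecialLinearGroup.transvection hik p) (Matrix.SpecialLinearGroup.transvection hjk q) := by
  apply Subtype.ext
  simp only [Matrix.SpecialLinearGroup.coe_mul, Matrix.SpecialLinearGroup.transvection_coe]
  have h1 : single i k p * single j k q = 0 := single_mul_single_of_ne _ _ _ _ hjk.symm _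
  have h2 : single j k q * single i k p = 0 := single_mul_single_of_ne _ _ _ _ hik.symm _
  simp only [mul_add, add_mul, mul_one, one_mul, h1, h2, add_zero]
  abel

/-- the commutator of two elementary matrices -/
theorem comm_eq {i j k : Fin 3} (hij : i ≠ j) (hjk : j ≠ k) (hik : i ≠ k) (p q : R) :
    Matrix.SpecialLinearGroup.transvection hij p * Matrix.SpecialLinearGroup.transvection hjk q * (Matrix.SpecialLinearGroup.transvection hij p)⁻¹ * (Matrix.SpecialLinearGroup.transvection hjk q)⁻¹ =
      Matrix.SpecialLinearGroup.transvection hik (p * q) := by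
  rw [comm_rel hij hjk hik]
  group

theorem comm_eq' {i j k : Fin 3} (hij : i ≠ j) (hjk : j ≠ k) (hik : i ≠ k) (p q : R) :
    Matrix.SpecialLinearGroup.transvection hjk q * Matrix.SpecialLinearGroup.transvection hij p * (Matrix.SpecialLinearGroup.transvection hjk q)⁻¹ * (Matrix.SpecialLinearGroup.transvection hij p)⁻¹ =
      Matrix.SpecialLinearGroup.transvection hik (-(p * q)) := by
  rw [← Matrix.SpecialLinearGroup.transvection_inv, ← comm_eq hij hjk hik p q]
  group

theorem pow_five {i j : Fin 3} (hij : i ≠ j) (p : R) : Matrix.SpecialLinearGroup.transvection hij p ^ 5 = 1 := by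
  have h : ∀ m : ℕ, Matrix.SpecialLinearGroup.transvection hij p ^ m = Matrix.SpecialLinearGroup.transvection hij ((m : R) * p) := by
    intro m
    induction m with
    | zero => simp
    | succ m ih =>
      rw [pow_succ, ih, ← Matrix.SpecialLinearGroup.transvection_add]
      congr 1
      push_cast
      ring
  rw [h 5]
  have h5 : ((5 : ℕ) : R) = 0 := by
    rw [← map_natCast (Polynomial.C : ZMod 5 →+* R)]
    have : ((5 : ℕ) : ZMod 5) = 0 := by decide
    rw [this, map_zero]
  rw [h5, zero_mul, Matrix.SpecialLinearGroup.transvection_coeff_zero]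

theorem h01 : (0 : Fin 3) ≠ 1 := by decide
theorem h12 : (1 : Fin 3) ≠ 2 := by decide
theorem h20 : (2 : Fin 3) ≠ 0 := by decide
theorem h02 : (0 : Fin 3) ≠ 2 := by decide
theorem h10 : (1 : Fin 3) ≠ 0 := by decide
theorem h21 : (2 : Fin 3) ≠ 1 := by decide

/-- the three generators -/
noncomputable def gen : Fin 3 → S3 :=
  ![Matrix.SpecialLinearGroup.transvection h01 1, Matrix.SpecialLinearGroup.transvection h12 1, Matrix.SpecialLinearGroup.transvection h20 X]

/-- the group -/
noncomputable def GG : Subgroup S3 := Subgroup.closure (Set.range gen)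

theorem gen_mem (i : Fin 3) : gen i ∈ GG := Subgroup.subset_closure (Set.mem_range_self i)

theorem mem_comm {i j k : Fin 3} (hij : i ≠ j) (hjk : j ≠ k) (hik : i ≠ k) (p q : R)
    (hp : Matrix.SpecialLinearGroup.transvection hij p ∈ GG) (hq : Matrix.SpecialLinearGroup.transvection hjk q ∈ GG) :
    Matrix.SpecialLinearGroup.transvection hik (p * q) ∈ GG := by
  rw [← comm_eq hij hjk hik]
  exact mul_mem (mul_mem (mul_mem hp hq) (inv_mem hp)) (inv_mem hq)

theorem m01 : (Matrix.SpecialLinearGroup.transvection h01 1 : S3) ∈ GG := gen_mem 0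
theorem m12 : (Matrix.SpecialLinearGroup.transvection h12 1 : S3) ∈ GG := gen_mem 1
theorem m20 : (Matrix.SpecialLinearGroup.transvection h20 (X : R) : S3) ∈ GG := gen_mem 2

theorem m10 : (Matrix.SpecialLinearGroup.transvection h10 (X : R) : S3) ∈ GG := by
  have := mem_comm h12 h20 h10 1 X m12 m20
  rwa [one_mul] at this

theorem m21 : (Matrix.SpecialLinearGroup.transvection h21 (X : R) : S3) ∈ GG := by
  have := mem_comm h20 h01 h21 X 1 m20 m01
  rwa [mul_one] at this

theorem p01 (k : ℕ) : (Matrix.SpecialLinearGroup.transvection h01 ((X : R) ^ k) : S3) ∈ GG := by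
  induction k with
  | zero =>
    rw [pow_zero]
    exact m01
  | succ k ih =>
    have h1 := mem_comm h01 h12 h02 _ _ ih m12
    rw [mul_one] at h1
    have h2 := mem_comm h02 h21 h01 _ _ h1 m21
    rw [pow_succ]
    exact h2

theorem p02 (k : ℕ) : (Matrix.SpecialLinearGroup.transvection h02 ((X : R) ^ k) : S3) ∈ GG := by
  have h1 := mem_comm h01 h12 h02 _ _ (p01 k) m12
  rwa [mul_one] at h1

theorem p12 (k : ℕ) : (Matrix.SpecialLinearGroup.transvection h12 ((X : R) ^ (k + 1)) : S3) ∈ GG := by
  have h1 := mem_comm h10 h02 h12 _ _ m10 (p02 k)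
  rwa [← pow_succ'] at h1

theorem p10 (k : ℕ) : (Matrix.SpecialLinearGroup.transvection h10 ((X : R) ^ (k + 2)) : S3) ∈ GG := by
  have h1 := mem_comm h12 h20 h10 _ _ (p12 k) m20
  rwa [← pow_succ] at h1

theorem p20 (k : ℕ) : (Matrix.SpecialLinearGroup.transvection h20 ((X : R) ^ (k + 3)) : S3) ∈ GG := by
  have h1 := mem_comm h21 h10 h20 _ _ m21 (p10 k)
  rwa [← pow_succ'] at h1

theorem p21 (k : ℕ) : (Matrix.SpecialLinearGroup.transvection h21 ((X : R) ^ (k + 4)) : S3) ∈ GG := by
  have h1 := mem_comm h20 h01 h21 _ _ (p20 k) (p01 1)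
  rwa [← pow_add] at h1

theorem p_all {i j : Fin 3} (hij : i ≠ j) (k : ℕ) :
    (Matrix.SpecialLinearGroup.transvection hij ((X : R) ^ (k + 4)) : S3) ∈ GG := by
  fin_cases i <;> fin_cases j
  · exact absurd rfl hij
  · exact p01 (k + 4)
  · exact p02 (k + 4)
  · exact p10 (k + 2)
  · exact absurd rfl hij
  · exact p12 (k + 3)
  · exact p20 (k + 1)
  · exact p21 k
  · exact absurd rfl hij

/-- an element commuting with all elementary matrices is trivial -/
theorem eq_one_of_commute (g : S3)
    (h : ∀ (i j : Fin 3) (hij : i ≠ j), ∃ p : R, p ≠ 0 ∧ Commute (Matrix.SpecialLinearGroup.transvection hij p) g) :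
    g = 1 := by
  have h1 : (g : Matrix (Fin 3) (Fin 3) R) ∈ Set.range (Matrix.scalar (Fin 3)) := by
    apply mem_range_scalar_of_commute_single
    intro i j hij
    obtain ⟨p, hp, hc⟩ := h i j hij
    have h2 : ((Matrix.SpecialLinearGroup.transvection hij p : S3) : Matrix (Fin 3) (Fin 3) R) * g =
        g * (Matrix.SpecialLinearGroup.transvection hij p : S3) := congrArg Subtype.val hc.eq
    rw [Matrix.SpecialLinearGroup.transvection_coe, add_mul, mul_add, one_mul, mul_one, add_right_inj] at h2
    have h3 : single i j p = p • single i j (1 : R) := by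
      rw [smul_single, smul_eq_mul, mul_one]
    rw [h3, smul_mul_assoc, mul_smul_comm] at h2
    have h4 : p • (single i j (1 : R) * (g : Matrix (Fin 3) (Fin 3) R) -
        g * single i j (1 : R)) = 0 := by
      rw [smul_sub, h2, sub_self]
    have h5 := (smul_eq_zero.1 h4).resolve_left hp
    exact sub_eq_zero.1 h5
  obtain ⟨r, hr⟩ := h1
  have hdet : r ^ 3 = 1 := by
    have h2 := g.2
    rw [← hr] at h2
    simpa [Matrix.det_diagonal, Matrix.scalar_apply] using h2
  have hunit : IsUnit r := IsUnit.of_mul_eq_one (r ^ 2) (by rw [← hdet]; ring)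
  obtain ⟨a, _, rfl⟩ := Polynomial.isUnit_iff.1 hunit
  have ha : a ^ 3 = 1 := by
    rw [← map_pow, ← map_one (Polynomial.C : ZMod 5 →+* R)] at hdet
    exact Polynomial.C_injective hdet
  have ha1 : a = 1 := by
    have key : ∀ a : ZMod 5, a ^ 3 = 1 → a = 1 := by decide
    exact key a ha
  apply Subtype.ext
  rw [← hr, ha1, map_one, map_one]
  rfl

theorem icc : ICC GG := by
  intro g hg
  by_contra hfin
  rw [Set.not_infinite] at hfin
  apply hg
  apply Subtype.ext
  apply eq_one_of_commute
  intro i j hij
  set f : ℕ → GG := fun k => (⟨Matrix.SpecialLinearGroup.transvection hij (X ^ (k + 4)), p_all hij k⟩ : GG) * g *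
    (⟨Matrix.SpecialLinearGroup.transvection hij (X ^ (k + 4)), p_all hij k⟩ : GG)⁻¹ with hf
  have h1 : ¬ Function.Injective f := by
    intro hinj
    have h2 : Set.range f ⊆ {x : GG | ∃ h : GG, x = h * g * h⁻¹} := by
      rintro x ⟨k, rfl⟩
      exact ⟨_, rfl⟩
    exact (Set.infinite_range_of_injective hinj) (hfin.subset h2)
  unfold Function.Injective at h1
  push Not at h1
  obtain ⟨k, l, hkl, hne⟩ := h1
  refine ⟨X ^ (k + 4) - X ^ (l + 4), ?_, ?_⟩
  · intro h2
    rw [sub_eq_zero] at h2
    have h3 := congrArg Polynomial.natDegree h2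
    rw [natDegree_X_pow, natDegree_X_pow] at h3
    omega
  · have h2 := congrArg (Subtype.val : GG → S3) hkl
    simp only [hf, Subgroup.coe_mul, Subgroup.coe_inv] at h2
    have h3 : (Matrix.SpecialLinearGroup.transvection hij ((X : R) ^ (k + 4) - X ^ (l + 4)) : S3) =
        (Matrix.SpecialLinearGroup.transvection hij (X ^ (l + 4)))⁻¹ * Matrix.SpecialLinearGroup.transvection hij (X ^ (k + 4)) := by
      rw [Matrix.SpecialLinearGroup.transvection_inv, ← Matrix.SpecialLinearGroup.transvection_add]
      congr 1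
      ring
    rw [h3]
    set a : S3 := Matrix.SpecialLinearGroup.transvection hij (X ^ (k + 4))
    set b : S3 := Matrix.SpecialLinearGroup.transvection hij (X ^ (l + 4))
    show b⁻¹ * a * (g : S3) = g * (b⁻¹ * a)
    calc b⁻¹ * a * (g : S3) = b⁻¹ * (a * g * a⁻¹) * a := by group
      _ = b⁻¹ * (b * g * b⁻¹) * a := by rw [h2]
      _ = _ := by group

theorem rel (i j : Fin 3) :
    Commute (gen i * gen j * (gen i)⁻¹ * (gen j)⁻¹) (gen i) ∧
    Commute (gen i * gen j * (gen i)⁻¹ * (gen j)⁻¹) (gen j) := by
  have key : ∀ (i j k : Fin 3) (hij : i ≠ j) (hjk : j ≠ k) (hik : i ≠ k) (p q : R),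
      (Commute ((Matrix.SpecialLinearGroup.transvection hij p : S3) * Matrix.SpecialLinearGroup.transvection hjk q * (Matrix.SpecialLinearGroup.transvection hij p)⁻¹ *
        (Matrix.SpecialLinearGroup.transvection hjk q)⁻¹) (Matrix.SpecialLinearGroup.transvection hij p) ∧
       Commute ((Matrix.SpecialLinearGroup.transvection hij p : S3) * Matrix.SpecialLinearGroup.transvection hjk q * (Matrix.SpecialLinearGroup.transvection hij p)⁻¹ *
        (Matrix.SpecialLinearGroup.transvection hjk q)⁻¹) (Matrix.SpecialLinearGroup.transvection hjk q)) ∧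
      (Commute ((Matrix.SpecialLinearGroup.transvection hjk q : S3) * Matrix.SpecialLinearGroup.transvection hij p * (Matrix.SpecialLinearGroup.transvection hjk q)⁻¹ *
        (Matrix.SpecialLinearGroup.transvection hij p)⁻¹) (Matrix.SpecialLinearGroup.transvection hjk q) ∧
       Commute ((Matrix.SpecialLinearGroup.transvection hjk q : S3) * Matrix.SpecialLinearGroup.transvection hij p * (Matrix.SpecialLinearGroup.transvection hjk q)⁻¹ *
        (Matrix.SpecialLinearGroup.transvection hij p)⁻¹) (Matrix.SpecialLinearGroup.transvection hij p)) := by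
    intro i j k hij hjk hik p q
    rw [comm_eq hij hjk hik, comm_eq' hij hjk hik]
    exact ⟨⟨comm_row hij hik _ _, comm_col hjk hik _ _⟩,
      ⟨comm_col hjk hik _ _, comm_row hij hik _ _⟩⟩
  have self : ∀ a : S3, Commute (a * a * a⁻¹ * a⁻¹) a := by
    intro a
    have : a * a * a⁻¹ * a⁻¹ = 1 := by group
    rw [this]
    exact Commute.one_left a
  fin_cases i <;> fin_cases j
  · exact ⟨self _, self _⟩
  · exact (key 0 1 2 h01 h12 h02 1 1).1
  · exact (key 2 0 1 h20 h01 h21 X 1).2
  · exact (key 0 1 2 h01 h12 h02 1 1).2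
  · exact ⟨self _, self _⟩
  · exact (key 1 2 0 h12 h20 h10 1 X).1
  · exact (key 2 0 1 h20 h01 h21 X 1).1
  · exact (key 1 2 0 h12 h20 h10 1 X).2
  · exact ⟨self _, self _⟩

end SG

open SG in
theorem specialGStmt : SpecialGStmt := by
  refine ⟨GG, inferInstance, fun i => ⟨gen i, gen_mem i⟩, ?_, icc, ?_, ?_, ?_, ?_⟩
  · have h1 : Countable R := by
      rw [← Cardinal.mk_le_aleph0_iff]
      refine Polynomial.cardinalMk_le_max.trans (max_le ?_ le_rfl)
      exact Cardinal.mk_le_aleph0_iff.2 inferInstance
    have h2 : Countable (Matrix (Fin 3) (Fin 3) R) := inferInstanceAs (Countable (Fin 3 → Fin 3 → R))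
    have h3 : Countable S3 := Subtype.countable
    exact Subtype.countable
  · have h1 := Subgroup.closure_closure_coe_preimage (k := Set.range gen)
    refine Eq.trans ?_ h1
    congr 1
    ext x
    constructor
    · rintro ⟨i, rfl⟩
      exact ⟨i, rfl⟩
    · rintro ⟨i, hi⟩
      exact ⟨i, Subtype.ext hi⟩
  · intro i
    apply Subtype.ext
    rw [SubmonoidClass.coe_pow]
    show gen i ^ 5 = 1
    fin_cases i
    · exact pow_five h01 _
    · exact pow_five h12 _
    · exact pow_five h20 _
  · intro i j
    exact Subtype.ext (rel i j).1.eq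
  · intro i j
    exact Subtype.ext (rel i j).2.eq

end GVN
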