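import Pool.Agent.Lib.MP_5185df_an.SpecialG

/-!
# The concrete group is infinite (problem MP_5185df_an)
-/

open Matrix Polynomial

namespace GVN

open SG in
theorem special_infinite : ∃ (G : Type) (_ : Group G) (x : Fin 3 → G), Countable G ∧ Infinite G ∧
    ICC G ∧ Subgroup.closure (Set.range x) = ⊤ ∧
    (∀ i, x i ^ 5 = 1) ∧ (∀ i j, Commute (x i * x j * (x i)⁻¹ * (x j)⁻¹) (x i)) ∧
    (∀ i j, Commute (x i * x j * (x i)⁻¹ * (x j)⁻¹) (x j)) := by
  have hne : (⟨gen 0, gen_mem 0⟩ : GG) ≠ 1 := by
    intro h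
    have h1 : ((gen 0 : S3) : Matrix (Fin 3) (Fin 3) R) 0 1 = (1 : Matrix (Fin 3) (Fin 3) R) 0 1 := by
      have := congrArg (fun g : GG => ((g : S3) : Matrix (Fin 3) (Fin 3) R) 0 1) h
      simpa using this
    simp [gen, Matrix.SpecialLinearGroup.transvection, Matrix.transvection] at h1
  have hinf : Infinite GG := by
    exact Set.infinite_univ_iff.1 ((icc _ hne).mono (Set.subset_univ _))
  refine ⟨GG, inferInstance, fun i => ⟨gen i, gen_mem i⟩, ?_, hinf, icc, ?_, ?_, ?_, ?_⟩
  · have h1 : Countable R := by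
      rw [← Cardinal.mk_le_aleph0_iff]
      refine Polynomial.cardinalMk_le_max.trans (max_le ?_ le_rfl)
      exact Cardinal.mk_le_aleph0_iff.2 inferInstance
    have h2 : Countable (Matrix (Fin 3) (Fin 3) R) := inferInstanceAs (Countable (Fin 3 → Fin 3 → R))
    have h3 : Countable S3 := Subtype.countable
    exact Subtype.countable
  · have h1 := Subgroup.closure_closure_coe_preimage (k := Set.range gen)
    refine Eq.trans ?_ h1
    congr 1
    ext x
    constructor
    · rintro ⟨i, rfl⟩
      exact ⟨i, rfl⟩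
    · rintro ⟨i, hi⟩
      exact ⟨i, Subtype.ext hi⟩
  · intro i
    apply Subtype.ext
    rw [SubmonoidClass.coe_pow]
    show gen i ^ 5 = 1
    fin_cases i
    · exact pow_five h01 _
    · exact pow_five h12 _
    · exact pow_five h20 _
  · intro i j
    exact Subtype.ext (rel i j).1.eq
  · intro i j
    exact Subtype.ext (rel i j).2.eq

end GVN
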