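import Pool.Agent.Lib.MP_5185df_an.Stmts

/-!
M21: property (T) for the special group.
-/

open Filter Topology
open scoped InnerProductSpace ComplexConjugate

namespace GVN

namespace SpT

variable {H : Type} [NormedAddCommGroup H] [InnerProductSpace ℂ H]
variable {Γ : Type} [Group Γ] (σ : Γ →* (H →L[ℂ] H))

/-- average over the powers of `x` -/
noncomputable def Pr (x : Γ) : H →L[ℂ] H := (5 : ℂ)⁻¹ • ∑ k ∈ Finset.range 5, σ (x ^ k)

theorem Pr_apply (x : Γ) (v : H) :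
    Pr σ x v = (5 : ℂ)⁻¹ • ∑ k ∈ Finset.range 5, σ (x ^ k) v := by
  unfold Pr
  rw [ContinuousLinearMap.smul_apply, ContinuousLinearMap.sum_apply]

theorem sig_Pr {x : Γ} (hx : x ^ 5 = 1) (v : H) : σ x (Pr σ x v) = Pr σ x v := by
  rw [Pr_apply, map_smul, map_sum]
  congr 1
  have h : ∀ k, σ x (σ (x ^ k) v) = σ (x ^ (k + 1)) v := by
    intro k
    rw [pow_succ', map_mul]
    rfl
  simp only [h]
  rw [Finset.sum_range_succ' (fun k => σ (x ^ k) v) 4,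
    Finset.sum_range_succ (fun k => σ (x ^ (k + 1)) v) 4, hx, pow_zero]

theorem sig_pow_Pr {x : Γ} (hx : x ^ 5 = 1) (v : H) (k : ℕ) :
    σ (x ^ k) (Pr σ x v) = Pr σ x v := by
  induction k with
  | zero => rw [pow_zero, map_one]; rfl
  | succ k ih =>
    rw [pow_succ, map_mul]
    change σ (x ^ k) (σ x (Pr σ x v)) = _
    rw [sig_Pr σ hx, ih]

theorem sig_inner (hσ : ∀ g v, ‖σ g v‖ = ‖v‖) (g : Γ) (v w : H) :
    ⟪σ g v, σ g w⟫_ℂ = ⟪v, w⟫_ℂ :=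
  (LinearIsometry.mk (σ g : H →ₗ[ℂ] H) (hσ g)).inner_map_map v w

theorem inner_Pr (hσ : ∀ g v, ‖σ g v‖ = ‖v‖) {x : Γ} (hx : x ^ 5 = 1) (v w : H) :
    ⟪Pr σ x v, Pr σ x w⟫_ℂ = ⟪Pr σ x v, w⟫_ℂ := by
  have h : ∀ k, ⟪Pr σ x v, σ (x ^ k) w⟫_ℂ = ⟪Pr σ x v, w⟫_ℂ := by
    intro k
    rw [← sig_inner σ hσ (x ^ k) (Pr σ x v) w, sig_pow_Pr σ hx]
  rw [Pr_apply σ x w, inner_smul_right, inner_sum, Finset.sum_congr rfl fun k _ => h k,
    Finset.sum_const, Finset.card_range, nsmul_eq_mul]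
  push_cast
  ring

theorem Pr_symm (hσ : ∀ g v, ‖σ g v‖ = ‖v‖) {x : Γ} (hx : x ^ 5 = 1) (v w : H) :
    ⟪Pr σ x v, w⟫_ℂ = ⟪v, Pr σ x w⟫_ℂ := by
  rw [← inner_Pr σ hσ hx, ← inner_conj_symm v (Pr σ x w), ← inner_Pr σ hσ hx w v,
    inner_conj_symm]

/-- complementary projection -/
noncomputable def Qr (x : Γ) : H →L[ℂ] H := 1 - Pr σ x

theorem Qr_apply (x : Γ) (v : H) : Qr σ x v = v - Pr σ x v := rfl

theorem Qr_eq (x : Γ) (v : H) :
    v - (5 : ℂ)⁻¹ • ∑ k ∈ Finset.range 5, σ (x ^ k) v = Qr σ x v := by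
  rw [Qr_apply, Pr_apply]

theorem Qr_symm (hσ : ∀ g v, ‖σ g v‖ = ‖v‖) {x : Γ} (hx : x ^ 5 = 1) (v w : H) :
    ⟪Qr σ x v, w⟫_ℂ = ⟪v, Qr σ x w⟫_ℂ := by
  rw [Qr_apply, Qr_apply, inner_sub_left, inner_sub_right, Pr_symm σ hσ hx]

theorem Qr_sq (hσ : ∀ g v, ‖σ g v‖ = ‖v‖) {x : Γ} (hx : x ^ 5 = 1) (v : H) :
    (⟪Qr σ x v, v⟫_ℂ).re = ‖Qr σ x v‖ ^ 2 := by
  have h1 : ⟪Qr σ x v, Pr σ x v⟫_ℂ = 0 := by
    rw [Qr_apply, inner_sub_left, inner_Pr σ hσ hx, Pr_symm σ hσ hx, sub_self]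
  have h2 : ⟪Qr σ x v, v⟫_ℂ = ⟪Qr σ x v, Qr σ x v⟫_ℂ := by
    conv_rhs => rw [Qr_apply σ x v, inner_sub_right, ← Qr_apply, h1, sub_zero]
  rw [h2, ← @inner_self_eq_norm_sq ℂ]
  rfl

theorem Qr_zero {x : Γ} (hx : x ^ 5 = 1) {w : H} (h : Qr σ x w = 0) : σ x w = w := by
  rw [Qr_apply, sub_eq_zero] at h
  rw [h, sig_Pr σ hx]

theorem pow_sub_le (hσ : ∀ g v, ‖σ g v‖ = ‖v‖) (x : Γ) (v : H) (k : ℕ) :
    ‖v - σ (x ^ k) v‖ ≤ k * ‖σ x v - v‖ := by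
  induction k with
  | zero => simp
  | succ k ih =>
    have e : v - σ (x ^ (k + 1)) v = (v - σ (x ^ k) v) - σ (x ^ k) (σ x v - v) := by
      rw [pow_succ, map_mul, map_sub]
      change v - σ (x ^ k) (σ x v) = _
      abel
    rw [e]
    refine (norm_sub_le _ _).trans ?_
    rw [hσ]
    push_cast
    linarith

theorem Qr_le (hσ : ∀ g v, ‖σ g v‖ = ‖v‖) (x : Γ) (v : H) :
    ‖Qr σ x v‖ ≤ 2 * ‖σ x v - v‖ := by
  have e : Qr σ x v = (5 : ℂ)⁻¹ • ∑ k ∈ Finset.range 5, (v - σ (x ^ k) v) := by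
    rw [Finset.sum_sub_distrib, Finset.sum_const, Finset.card_range, smul_sub, Qr_apply, Pr_apply]
    congr 1
    rw [← Nat.cast_smul_eq_nsmul ℂ, smul_smul]
    norm_num
  rw [e, norm_smul]
  have h1 : ‖∑ k ∈ Finset.range 5, (v - σ (x ^ k) v)‖ ≤
      ∑ k ∈ Finset.range 5, (k : ℝ) * ‖σ x v - v‖ :=
    (norm_sum_le _ _).trans (Finset.sum_le_sum fun k _ => pow_sub_le σ hσ x v k)
  have h2 : ∑ k ∈ Finset.range 5, (k : ℝ) * ‖σ x v - v‖ = 10 * ‖σ x v - v‖ := by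
    rw [← Finset.sum_mul]
    congr 1
    norm_num [Finset.sum_range_succ]
  have h3 : ‖(5 : ℂ)⁻¹‖ = 5⁻¹ := by simp
  rw [h3]
  linarith

end SpT

open SpT in
/-- M21. -/
theorem specialTStmt (h1 : PairStmt) (h2 : IterStmt) : SpecialTStmt := by
  classical
  intro G _ x hgen hx hc1 hc2
  have h5 : (2 : ℝ) < √5 := by
    rw [Real.lt_sqrt (by norm_num)]
    norm_num
  have hκ : (0 : ℝ) < 1 - 2 * (1 / √5) := by
    have : 2 * (1 / √5) < 1 := by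
      rw [mul_one_div, div_lt_one (by linarith)]
      exact h5
    linarith
  obtain ⟨C, hC, hI⟩ := h2 _ hκ
  refine ⟨Finset.univ.image x, by simpa using hgen, 1 / √(12 * C), by positivity, ?_⟩
  intro K _ _ _ σ hσ v
  set B : K →L[ℂ] K := Qr σ (x 0) + Qr σ (x 1) + Qr σ (x 2) with hB
  have hBv : ∀ v, B v = Qr σ (x 0) v + Qr σ (x 1) v + Qr σ (x 2) v := fun v => rfl
  have hE : ∀ v, (⟪B v, v⟫_ℂ).re =
      ‖Qr σ (x 0) v‖ ^ 2 + ‖Qr σ (x 1) v‖ ^ 2 + ‖Qr σ (x 2) v‖ ^ 2 := by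
    intro v
    rw [hBv, inner_add_left, inner_add_left, Complex.add_re, Complex.add_re,
      Qr_sq σ hσ (hx 0), Qr_sq σ hσ (hx 1), Qr_sq σ hσ (hx 2)]
  have hpair : ∀ i j v, -(1 / √5) * (‖Qr σ (x i) v‖ ^ 2 + ‖Qr σ (x j) v‖ ^ 2) ≤
      2 * (⟪Qr σ (x i) v, Qr σ (x j) v⟫_ℂ).re := by
    intro i j v
    have h := h1 K G σ hσ (x i) (x j) (hx i) (hx j) (hc1 i j) (hc2 i j) v
    rw [Qr_eq, Qr_eq] at h
    exact h
  have hBsq : ∀ v, ‖B v‖ ^ 2 = ‖Qr σ (x 0) v‖ ^ 2 + ‖Qr σ (x 1) v‖ ^ 2 + ‖Qr σ (x 2) v‖ ^ 2 +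
      2 * (⟪Qr σ (x 0) v, Qr σ (x 1) v⟫_ℂ).re + 2 * (⟪Qr σ (x 0) v, Qr σ (x 2) v⟫_ℂ).re +
      2 * (⟪Qr σ (x 1) v, Qr σ (x 2) v⟫_ℂ).re := by
    intro v
    rw [hBv, @norm_add_sq ℂ, @norm_add_sq ℂ, inner_add_left]
    simp only [map_add, RCLike.re_to_complex]
    ring
  obtain ⟨w, hw, hvw⟩ := hI K B (by
      intro v w
      rw [hBv, hBv, inner_add_left, inner_add_left, inner_add_right, inner_add_right,
        Qr_symm σ hσ (hx 0), Qr_symm σ hσ (hx 1), Qr_symm σ hσ (hx 2)])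
    (by
      intro v
      rw [hE, hBv]
      have t1 := norm_add_le (Qr σ (x 0) v + Qr σ (x 1) v) (Qr σ (x 2) v)
      have t2 := norm_add_le (Qr σ (x 0) v) (Qr σ (x 1) v)
      have t3 := norm_nonneg (Qr σ (x 0) v + Qr σ (x 1) v + Qr σ (x 2) v)
      have t4 : ‖Qr σ (x 0) v + Qr σ (x 1) v + Qr σ (x 2) v‖ ≤
        ‖Qr σ (x 0) v‖ + ‖Qr σ (x 1) v‖ + ‖Qr σ (x 2) v‖ := by linarith
      have t5 := pow_le_pow_left₀ t3 t4 2
      refine t5.trans ?_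
      nlinarith [sq_nonneg (‖Qr σ (x 0) v‖ - ‖Qr σ (x 1) v‖),
        sq_nonneg (‖Qr σ (x 0) v‖ - ‖Qr σ (x 2) v‖), sq_nonneg (‖Qr σ (x 1) v‖ - ‖Qr σ (x 2) v‖)])
    (by
      intro v
      rw [hE, hBsq]
      have t1 := hpair 0 1 v
      have t2 := hpair 0 2 v
      have t3 := hpair 1 2 v
      linarith) v
  have hQw : ∀ i, Qr σ (x i) w = 0 := by
    have h0 := hE w
    rw [hw, inner_zero_left, Complex.zero_re] at h0
    have a0 := sq_nonneg ‖Qr σ (x 0) w‖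
    have a1 := sq_nonneg ‖Qr σ (x 1) w‖
    have a2 := sq_nonneg ‖Qr σ (x 2) w‖
    intro i
    rw [← norm_eq_zero, ← sq_eq_zero_iff]
    fin_cases i
    · simp only [Fin.zero_eta]; linarith
    · simp only [Fin.mk_one]; linarith
    · simp only [Fin.reduceFinMk]; linarith
  have hfix : ∀ g, σ g w = w := by
    let St : Subgroup G :=
      { carrier := {g | σ g w = w}
        one_mem' := by
          change σ 1 w = w
          rw [map_one]; rfl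
        mul_mem' := by
          intro a b ha hb
          change σ (a * b) w = w
          rw [map_mul]
          change σ a (σ b w) = w
          rw [show σ b w = w from hb, show σ a w = w from ha]
        inv_mem' := by
          intro a ha
          change σ a⁻¹ w = w
          have h : σ a⁻¹ (σ a w) = w := by
            rw [← ContinuousLinearMap.mul_apply, ← map_mul, inv_mul_cancel, map_one]
            rfl
          rwa [show σ a w = w from ha] at h }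
    have hSt : St = ⊤ := by
      rw [eq_top_iff, ← hgen, Subgroup.closure_le]
      rintro _ ⟨i, rfl⟩
      exact Qr_zero σ (hx i) (hQw i)
    intro g
    have : g ∈ St := by rw [hSt]; exact Subgroup.mem_top g
    exact this
  refine ⟨w, hfix, ?_⟩
  obtain ⟨i, hi⟩ := Finite.exists_max fun i => ‖σ (x i) v - v‖
  refine ⟨x i, Finset.mem_image_of_mem _ (Finset.mem_univ _), ?_⟩
  rw [hE] at hvw
  have hq : ∀ j, ‖Qr σ (x j) v‖ ^ 2 ≤ 4 * ‖σ (x i) v - v‖ ^ 2 := by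
    intro j
    have t1 := Qr_le σ hσ (x j) v
    have t2 := hi j
    have t3 := norm_nonneg (Qr σ (x j) v)
    have t4 := pow_le_pow_left₀ t3 (t1.trans (by linarith : _ ≤ 2 * ‖σ (x i) v - v‖)) 2
    linarith [t4, mul_pow 2 ‖σ (x i) v - v‖ 2]
  have hfin : ‖v - w‖ ^ 2 ≤ (12 * C) * ‖σ (x i) v - v‖ ^ 2 := by
    have := hq 0
    have := hq 1
    have := hq 2
    calc ‖v - w‖ ^ 2 ≤ _ := hvw
      _ ≤ C * (12 * ‖σ (x i) v - v‖ ^ 2) := by
        apply mul_le_mul_of_nonneg_left _ hC.le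
        linarith
      _ = _ := by ring
  have h12 : 0 < √(12 * C) := by positivity
  rw [one_div, inv_mul_le_iff₀ h12]
  rw [← Real.sqrt_sq (norm_nonneg (v - w)), ← Real.sqrt_sq (norm_nonneg (σ (x i) v - v)),
    ← Real.sqrt_mul (by positivity)]
  exact Real.sqrt_le_sqrt hfin

end GVN
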