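import Pool.Agent.Lib.MP_5185df_an.Basic

/-!
# Statements of the modules (problem MP_5185df_an)

Every `...Stmt` is the statement of an independent module; the paper proofs are in
`/team-store/MP_5185df_plan.md`.
-/

open Filter Topology
open scoped InnerProductSpace ComplexConjugate

namespace GVN

/-! ### Cutting down to contractions -/

/-- `cut T = 2 T (1 + T* T)⁻¹`, a contraction which is `≈ T` if `T` is `≈` isometric. -/
noncomputable def cut {G : Type} (T : Op G) : Op G :=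
  (2 : ℂ) • (T * Ring.inverse (1 + star T * T))

/-- M1. -/
def CutStmt : Prop :=
  ∀ (G : Type) [Group G] (T : Op G),
    ‖cut T‖ ≤ 1 ∧ (∀ X : Set (Op G), T ∈ Cen X → cut T ∈ Cen X) ∧
      n2 (cut T - T) ≤ ‖T‖ * n2 (1 - star T * T)

/-- M2. -/
def ResolvStmt : Prop :=
  (∀ (G : Type) [Group G] (X Y : Op G), X ∈ Conv G → Y ∈ Conv G → star X = X → star Y = Y →
    n2 (cut X - cut Y) ≤ 5 * n2 (X - Y)) ∧
  (∀ (G : Type) [Group G] (v a : Op G), v ∈ Conv G → a ∈ Conv G → star v = v → ∀ l : ℝ, 0 < l →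
    n2 (cut ((l : ℂ) • v) * a - a * cut ((l : ℂ) • v)) ≤ 5 * l * n2 (v * a - a * v)) ∧
  (∀ (G : Type) [Group G] (v : Op G), v ∈ Conv G → star v = v → ∀ l : ℝ, 0 < l →
    n2 (v - ((1 / (2 * l) : ℝ) : ℂ) • cut ((l : ℂ) • v)) ≤ l / 2 * n2 (v * v))

/-- M3. A weak form of Kaplansky's density theorem. -/
def KapStmt : Prop :=
  ∀ (G : Type) [Group G] (T : Op G), T ∈ Conv G → ‖T‖ ≤ 1 → ∀ ε : ℝ, 0 < ε →
    ∃ p : MonoidAlgebra ℂ G, ‖Lr p‖ ≤ 3 ∧ n2 (T - Lr p) ≤ ε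

/-! ### Trace preserving homomorphisms -/

/-- Trace preserving unitary representations of `F` in `Conv K`. -/
structure TPH (F K : Type) [Group F] [Group K] where
  u : F →* Op K
  mem : ∀ g, u g ∈ Conv K
  adj : ∀ g, star (u g) = u g⁻¹
  tr0 : ∀ g, g ≠ 1 → tr (u g) = 0

/-- Extension to the group algebra. -/
noncomputable def TPH.ext {F K : Type} [Group F] [Group K] (α : TPH F K) :
    MonoidAlgebra ℂ F →ₐ[ℂ] Op K := MonoidAlgebra.lift ℂ (Op K) F α.u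

/-- M4. -/
def MomStmt : Prop :=
  ∀ (F K : Type) [Group F] [Group K] (α : TPH F K) (p : MonoidAlgebra ℂ F),
    α.ext p ∈ Conv K ∧ α.ext (adj p) = star (α.ext p) ∧ n2 (α.ext p) = n2 (Lr p) ∧
      ‖α.ext p‖ ≤ ‖Lr p‖

/-! ### Free groups -/

/-- The free group on `a, b`. -/
abbrev F2 : Type := FreeGroup (Fin 2)

/-- The free group on `a, b, z`. -/
abbrev F3 : Type := FreeGroup (Option (Fin 2))

/-- The inclusion `F2 → F3`. -/
def incl : F2 →* F3 := FreeGroup.map some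

/-- The third generator. -/
def zz : F3 := FreeGroup.of none

/-- The sign character of `F3` with `a, b ↦ 1`, `z ↦ -1`. -/
def sgn : F3 →* ℤˣ := FreeGroup.lift fun o => o.elim (-1) fun _ => 1

/-- The operator of multiplication by a function bounded by `1`. -/
noncomputable def mop {G : Type} (φ : G → ℂ) (hφ : ∀ g, ‖φ g‖ ≤ 1) : Op G :=
  LinearMap.mkContinuous
    { toFun := fun f => ⟨fun x => φ x * f x, by
        have h := lp.memℓp f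
        refine h.mono' ?_
        intro x
        rw [norm_mul]
        exact mul_le_of_le_one_left (norm_nonneg _) (hφ x)⟩
      map_add' := fun f g => by
        apply E2_ext; intro x
        exact mul_add (φ x) (f x) (g x)
      map_smul' := fun c f => by
        apply E2_ext; intro x
        exact mul_left_comm (φ x) c (f x) } 1 (by
    intro f
    rw [one_mul]
    refine lp.norm_mono (by norm_num) ?_
    intro x
    change ‖φ x * f x‖ ≤ ‖f x‖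
    rw [norm_mul]
    exact mul_le_of_le_one_left (norm_nonneg _) (hφ x))

theorem sgn_le (g : F3) : ‖(((sgn g : ℤˣ) : ℤ) : ℂ)‖ ≤ 1 := by
  rcases Int.units_eq_one_or (sgn g) with h | h <;> simp [h]

/-- The diagonal unitary given by `sgn`. -/
noncomputable def Dg : Op F3 := mop (fun g => (((sgn g : ℤˣ) : ℤ) : ℂ)) sgn_le

/-- The right translations and `Dg`. -/
def XEv : Set (Op F3) := insert Dg (Set.range (rt : F3 → Op F3))

/-- The even part of `Conv F3`. -/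
noncomputable def Ev : StarSubalgebra ℂ (Op F3) := Cen XEv

theorem incl_injective : Function.Injective incl := FreeGroup.map_injective (Option.some_injective _)

/-- The inclusion as a trace preserving homomorphism. -/
noncomputable def iT : TPH F2 F3 where
  u := (lamHom F3).comp incl
  mem g := lam_mem_Conv _
  adj g := by
    change star (lam (incl g)) = lam (incl g⁻¹)
    rw [star_lam, map_inv]
  tr0 g hg := by
    change tr (lam (incl g)) = 0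
    apply tr_lam_ne
    intro h
    apply hg
    apply incl_injective
    rw [h, map_one]

/-- M5. `F3` is residually `F2` relative to `F2`. -/
def FreeResStmt : Prop :=
  ∀ E : Finset F3, ∃ θ : F3 →* F2, (∀ g, θ (incl g) = g) ∧ Set.InjOn θ (E : Set F3)

/-- M6a. Möbius transforms `(c + r)(1 + r c)⁻¹` of a Haar unitary `c`. -/
def MobStmt : Prop :=
  ∀ (K : Type) [Group K] (c : K), (∀ k : ℕ, 0 < k → c ^ k ≠ 1) → ∃ u : ℝ → Op K,
    (∀ r, star (u r) * u r = 1 ∧ u r * star (u r) = 1) ∧ u 1 = 1 ∧ u 0 = lam c ∧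
    (∀ (r : ℝ) (T : Op K), T * lam c = lam c * T → T * lam c⁻¹ = lam c⁻¹ * T →
      T * u r = u r * T) ∧
    ContinuousOn (fun r => u r (del 1)) (Set.Icc (0 : ℝ) 1)

/-- M6b. The path. -/
def PathStmt : Prop :=
  ∃ α : ℝ → TPH F2 F3,
    (∀ r g, (α r).u g ∈ Ev) ∧
    (∀ g, (α 1).u g = lam (incl g)) ∧
    (∀ g, (α 0).u g = lam zz * lam (incl g) * star (lam zz)) ∧
    ∀ g, ContinuousOn (fun r => (α r).u g (del 1)) (Set.Icc (0 : ℝ) 1)

/-- M6c. The path, with uniform continuity on the group algebra. -/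
def PathStmt' : Prop :=
  ∃ α : ℝ → TPH F2 F3,
    (∀ r g, (α r).u g ∈ Ev) ∧
    (∀ g, (α 1).u g = lam (incl g)) ∧
    (∀ g, (α 0).u g = lam zz * lam (incl g) * star (lam zz)) ∧
    ∀ (S : Finset (MonoidAlgebra ℂ F2)) (ε : ℝ), 0 < ε → ∃ N : ℕ, 0 < N ∧
      ∀ r s : ℝ, r ∈ Set.Icc (0 : ℝ) 1 → s ∈ Set.Icc (0 : ℝ) 1 → |r - s| ≤ 1 / N →
        ∀ p ∈ S, n2 ((α r).ext p - (α s).ext p) ≤ ε

/-! ### Asymptotic representations -/

/-- A norm bounded asymptotic unitary representation in `Conv K` along `V`. -/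
structure IsApp {Γ K : Type} [Group Γ] [Group K] (V : Ultrafilter ℕ) (a : ℕ → Γ → Op K) :
    Prop where
  mem : ∀ n g, a n g ∈ Conv K
  bdd : ∀ n g, ‖a n g‖ ≤ 3
  one : Tendsto (fun n => n2 (a n 1 - 1)) V (𝓝 0)
  mul : ∀ g h, Tendsto (fun n => n2 (a n g * a n h - a n (g * h))) V (𝓝 0)
  adj : ∀ g, Tendsto (fun n => n2 (star (a n g) - a n g⁻¹)) V (𝓝 0)

/-- The asymptotic commutant of `a n s`, `s ∈ S` in the ultrapower of `Conv K` is trivial. -/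
def IrrS {Γ K : Type} [Group K] (V : Ultrafilter ℕ) (S : Finset Γ) (a : ℕ → Γ → Op K) : Prop :=
  ∀ y : ℕ → Op K, (∀ n, y n ∈ Conv K) → (∃ C : ℝ, ∀ n, ‖y n‖ ≤ C) →
    (∀ s ∈ S, Tendsto (fun n => n2 (y n * a n s - a n s * y n)) V (𝓝 0)) →
    Tendsto (fun n => n2 (y n - tr (y n) • (1 : Op K))) V (𝓝 0)

/-- M7a. Pushing an element of `ℂ[F3]` down to `ℂ[F2]`. -/
def TransStmt : Prop :=
  ∀ (p : MonoidAlgebra ℂ F3) (Q : Finset (MonoidAlgebra ℂ F2)),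
    ∃ p' : MonoidAlgebra ℂ F2, n2 (Lr p') = n2 (Lr p) ∧ tr (Lr p') = tr (Lr p) ∧
      n2 (Lr p' * Lr p') = n2 (Lr p * Lr p) ∧
      n2 (Lr p' - tr (Lr p') • (1 : Op F2)) = n2 (Lr p - tr (Lr p) • (1 : Op F3)) ∧
      (star (Lr p) = Lr p → star (Lr p') = Lr p') ∧
      ∀ q ∈ Q, n2 (Lr p' * Lr q - Lr q * Lr p') = n2 (Lr p * iT.ext q - iT.ext q * Lr p)

/-- M7b. Irreducibility passes from `L(F_2)^V` to `L(F_3)^V`. -/
def IrrHatStmt : Prop :=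
  ∀ (Γ : Type) [Group Γ] (V : Ultrafilter ℕ), (V : Filter ℕ) ≤ cofinite → ∀ (S : Finset Γ)
    (a : ℕ → Γ → MonoidAlgebra ℂ F2), IsApp V (fun n g => Lr (a n g)) →
    IrrS V S (fun n g => Lr (a n g)) → IrrS V S (fun n g => iT.ext (a n g))

/-! ### Property (T) -/

/-- `(S, c)` is a Kazhdan pair (in the strong form of `Kazhdan`). -/
def KPair {Γ : Type} [Group Γ] (S : Finset Γ) (c : ℝ) : Prop :=
  0 < c ∧ ∀ (K : Type) [NormedAddCommGroup K] [InnerProductSpace ℂ K] [CompleteSpace K]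
      (σ : Γ →* (K →L[ℂ] K)), (∀ g v, ‖σ g v‖ = ‖v‖) →
      ∀ v : K, ∃ w : K, (∀ g, σ g w = w) ∧ ∃ s ∈ S, c * ‖v - w‖ ≤ ‖σ s v - v‖

/-- M8. Almost invariant vectors can be averaged to almost exactly invariant ones. -/
def HullStmt : Prop :=
  ∀ (Γ : Type) [Group Γ] (S : Finset Γ) (c : ℝ), KPair S c →
    ∀ (H : Type) [NormedAddCommGroup H] [InnerProductSpace ℂ H] [CompleteSpace H]
      (σ : Γ →* (H →L[ℂ] H)), (∀ g v, ‖σ g v‖ = ‖v‖) →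
    ∀ (v : H) (δ : ℝ), (∀ s ∈ S, ‖σ s v - v‖ ≤ δ) → ∀ ε : ℝ, 0 < ε →
      ∃ (T : Finset Γ) (t : Γ → ℝ), (∀ g, 0 ≤ t g) ∧ ∑ g ∈ T, t g = 1 ∧
        ‖(∑ g ∈ T, (t g : ℂ) • σ g v) - v‖ ≤ 2 * δ / c + ε ∧
        ∀ s ∈ S, ‖σ s (∑ g ∈ T, (t g : ℂ) • σ g v) - ∑ g ∈ T, (t g : ℂ) • σ g v‖ ≤ ε

/-- M9. An almost action on a semi-inner product space gives a unitary representation. -/
def HilbStmt : Prop :=
  ∀ (E : Type) [AddCommGroup E] [Module ℂ E] (core : PreInnerProductSpace.Core ℂ E)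
    (Γ : Type) [Group Γ] (T : Γ → E →ₗ[ℂ] E),
    (∀ g x, (core.inner (T g x) (T g x)).re = (core.inner x x).re) →
    (∀ g h x, (core.inner (T g (T h x) - T (g * h) x) (T g (T h x) - T (g * h) x)).re = 0) →
    (∀ x, (core.inner (T 1 x - x) (T 1 x - x)).re = 0) →
    ∃ (H : Type) (_ : NormedAddCommGroup H) (_ : InnerProductSpace ℂ H) (_ : CompleteSpace H)
      (ι : E →ₗ[ℂ] H) (σ : Γ →* (H →L[ℂ] H)),
      (∀ x, ‖ι x‖ ^ 2 = (core.inner x x).re) ∧ (∀ g v, ‖σ g v‖ = ‖v‖) ∧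
      ∀ g x, σ g (ι x) = ι (T g x)

/-- Norm bounded sequences in `Conv K`. -/
noncomputable def BC (K : Type) [Group K] : Submodule ℂ (ℕ → Op K) where
  carrier := {x | (∀ n, x n ∈ Conv K) ∧ ∃ C : ℝ, ∀ n, ‖x n‖ ≤ C}
  zero_mem' := ⟨fun _ => zero_mem _, 0, fun _ => by simp⟩
  add_mem' := by
    rintro x y ⟨hx, C, hC⟩ ⟨hy, D, hD⟩
    exact ⟨fun n => add_mem (hx n) (hy n), C + D, fun n =>
      (norm_add_le (x n) (y n)).trans (add_le_add (hC n) (hD n))⟩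
  smul_mem' := by
    rintro c x ⟨hx, C, hC⟩
    refine ⟨fun n => (Conv K).smul_mem (hx n) c, ‖c‖ * C, fun n => ?_⟩
    have h1 : ‖(c • x) n‖ = ‖c‖ * ‖x n‖ := norm_smul c (x n)
    rw [h1]
    exact mul_le_mul_of_nonneg_left (hC n) (norm_nonneg _)

/-- M10a. The semi-inner product on bounded sequences. -/
def UCoreStmt : Prop :=
  ∀ (K : Type) [Group K] (V : Ultrafilter ℕ), ∃ core : PreInnerProductSpace.Core ℂ (BC K),
    ∀ x : BC K, Tendsto (fun n => n2 (x.1 n) ^ 2) V (𝓝 (core.inner x x).re)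

/-- M10b. The averaging for asymptotic representations. -/
def KSeqStmt : Prop :=
  ∀ (Γ K : Type) [Group Γ] [Group K] (S : Finset Γ) (c : ℝ), KPair S c →
    ∀ (V : Ultrafilter ℕ) (a b : ℕ → Γ → Op K), IsApp V a → IsApp V b →
    ∀ x : ℕ → Op K, (∀ n, x n ∈ Conv K) → (∀ n, ‖x n‖ ≤ 1) →
    ∀ δ : ℝ, (∀ s ∈ S, ∀ᶠ n in V, n2 (b n s * x n * star (a n s) - x n) ≤ δ) →
    ∀ ε : ℝ, 0 < ε → ∃ (T : Finset Γ) (t : Γ → ℝ), (∀ g, 0 ≤ t g) ∧ ∑ g ∈ T, t g = 1 ∧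
      (∀ᶠ n in V, n2 ((∑ g ∈ T, (t g : ℂ) • (b n g * x n * star (a n g))) - x n)
        ≤ 2 * δ / c + ε) ∧
      ∀ s ∈ S, ∀ᶠ n in V,
        n2 (b n s * (∑ g ∈ T, (t g : ℂ) • (b n g * x n * star (a n g))) * star (a n s)
          - ∑ g ∈ T, (t g : ℂ) • (b n g * x n * star (a n g))) ≤ ε

/-- M11. Diagonal sequences. -/
def DiagStmt : Prop :=
  ∀ V : Ultrafilter ℕ, (V : Filter ℕ) ≤ cofinite → ∀ P : ℕ → ℝ → Prop,
    (∀ n η η', η ≤ η' → P n η → P n η') → (∀ η : ℝ, 0 < η → ∀ᶠ n in V, P n η) →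
    ∃ η : ℕ → ℝ, (∀ n, 0 < η n) ∧ Tendsto η V (𝓝 0) ∧ ∀ᶠ n in V, P n (η n)

/-- M12. Property (T) repairs intertwiners (sequence form). -/
def RepairStmt : Prop :=
  ∀ (Γ K : Type) [Group Γ] [Group K] (S : Finset Γ) (c : ℝ), KPair S c →
    ∀ (V : Ultrafilter ℕ), (V : Filter ℕ) ≤ cofinite →
    ∀ (X : Set (Op K)), Set.range rt ⊆ X → ∀ (a b : ℕ → Γ → Op K), IsApp V a → IsApp V b →
    (∀ n g, a n g ∈ Cen X) → (∀ n g, b n g ∈ Cen X) → IrrS V S a →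
    ∀ x : ℕ → Op K, (∀ n, x n ∈ Cen X) → (∀ n, ‖x n‖ ≤ 1) → (∀ n, 1 / 2 ≤ n2 (x n)) →
    (∀ n, ∀ s ∈ S, n2 (b n s * x n - x n * a n s) ≤ c / 100) →
    ∀ η : ℝ, 0 < η → ∀ᶠ n in V, ∃ x' ∈ Cen X, ‖x'‖ ≤ 1 ∧ 1 - η ≤ n2 x' ∧
      ∀ s ∈ S, n2 (b n s * x' - x' * a n s) ≤ η

/-- M13. Property (T) repairs intertwiners (uniform form). -/
def UnifStmt : Prop :=
  ∀ (Γ : Type) [Group Γ] (S : Finset Γ) (c : ℝ), KPair S c →
    ∀ (V : Ultrafilter ℕ), (V : Filter ℕ) ≤ cofinite →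
    ∀ a : ℕ → Γ → MonoidAlgebra ℂ F2, IsApp V (fun n g => Lr (a n g)) →
    IrrS V S (fun n g => iT.ext (a n g)) →
    ∀ η : ℝ, 0 < η → ∀ᶠ n in V, ∀ α : TPH F2 F3, (∀ g, α.u g ∈ Ev) → ∀ x ∈ Ev, ‖x‖ ≤ 1 →
      1 / 2 ≤ n2 x → (∀ s ∈ S, n2 (α.ext (a n s) * x - x * iT.ext (a n s)) ≤ c / 100) →
      ∃ x' ∈ Ev, ‖x'‖ ≤ 1 ∧ 1 - η ≤ n2 x' ∧
        ∀ s ∈ S, n2 (α.ext (a n s) * x' - x' * iT.ext (a n s)) ≤ η

/-- M14. Kazhdan groups have no irreducible asymptotic representations in `L(F_2)`. -/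
def NoIrrStmt : Prop :=
  ∀ (Γ : Type) [Group Γ] (S : Finset Γ) (c : ℝ), KPair S c →
    ∀ (V : Ultrafilter ℕ), (V : Filter ℕ) ≤ cofinite →
    ∀ a : ℕ → Γ → MonoidAlgebra ℂ F2, IsApp V (fun n g => Lr (a n g)) →
    IrrS V S (fun n g => Lr (a n g)) → False

/-! ### Isomorphisms of ultrapowers -/

/-- M15. Spectral gap. -/
def GapStmt : Prop :=
  ∀ (G : Type) [Group G], ICC G → ∀ (S : Finset G) (c : ℝ), KPair S c → ∀ T ∈ Conv G,
    ∃ s ∈ S, c * n2 (T - tr T • (1 : Op G)) ≤ n2 (lam s * T - T * lam s)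

/-- M16. An isomorphism gives an irreducible asymptotic representation. -/
def FromUStmt : Prop :=
  ∀ (G : Type) [Group G], ICC G → ∀ (S : Finset G) (c : ℝ),
    Subgroup.closure (S : Set G) = ⊤ → KPair S c → ∀ (U V : Ultrafilter ℕ),
    (U : Filter ℕ) ≤ cofinite → (V : Filter ℕ) ≤ cofinite → UIso G F2 U V →
    ∃ a : ℕ → G → MonoidAlgebra ℂ F2, IsApp V (fun n g => Lr (a n g)) ∧
      IrrS V S (fun n g => Lr (a n g))

/-! ### Inner amenability -/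

/-- M17. Expansion of the conjugation action. -/
def ExpStmt : Prop :=
  ∀ (G : Type) [Group G], ICC G → Kazhdan G → ∃ T : Finset G, ∀ A : Finset G, (1 : G) ∉ A →
    ∃ B : Finset G, (∀ x, x ∈ B ↔ ∃ t ∈ T, ∃ a ∈ A, x = t * a * t⁻¹) ∧ 2 * A.card ≤ B.card

/-- M18. -/
def NotInnerStmt : Prop :=
  ∀ (G : Type) [Group G], ICC G → Kazhdan G → ¬ InnerAmenable G

/-! ### A special group -/

/-- M19. Two unitaries of order 5 with central commutator. -/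
def PairStmt : Prop :=
  ∀ (H : Type) [NormedAddCommGroup H] [InnerProductSpace ℂ H] [CompleteSpace H]
    (Γ : Type) [Group Γ] (σ : Γ →* (H →L[ℂ] H)), (∀ g v, ‖σ g v‖ = ‖v‖) →
    ∀ x y : Γ, x ^ 5 = 1 → y ^ 5 = 1 → Commute (x * y * x⁻¹ * y⁻¹) x →
      Commute (x * y * x⁻¹ * y⁻¹) y → ∀ v : H,
      -(1 / Real.sqrt 5) * (‖v - (5 : ℂ)⁻¹ • ∑ k ∈ Finset.range 5, σ (x ^ k) v‖ ^ 2
        + ‖v - (5 : ℂ)⁻¹ • ∑ k ∈ Finset.range 5, σ (y ^ k) v‖ ^ 2) ≤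
      2 * (⟪v - (5 : ℂ)⁻¹ • ∑ k ∈ Finset.range 5, σ (x ^ k) v,
        v - (5 : ℂ)⁻¹ • ∑ k ∈ Finset.range 5, σ (y ^ k) v⟫_ℂ).re

/-- M20. Iteration. -/
def IterStmt : Prop :=
  ∀ κ : ℝ, 0 < κ → ∃ C : ℝ, 0 < C ∧ ∀ (H : Type) [NormedAddCommGroup H] [InnerProductSpace ℂ H]
    [CompleteSpace H] (B : H →L[ℂ] H), (∀ v w, ⟪B v, w⟫_ℂ = ⟪v, B w⟫_ℂ) →
    (∀ v, ‖B v‖ ^ 2 ≤ 3 * (⟪B v, v⟫_ℂ).re) → (∀ v, κ * (⟪B v, v⟫_ℂ).re ≤ ‖B v‖ ^ 2) →
    ∀ v, ∃ w, B w = 0 ∧ ‖v - w‖ ^ 2 ≤ C * (⟪B v, v⟫_ℂ).re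

/-- M21. -/
def SpecialTStmt : Prop :=
  ∀ (G : Type) [Group G] (x : Fin 3 → G), Subgroup.closure (Set.range x) = ⊤ →
    (∀ i, x i ^ 5 = 1) → (∀ i j, Commute (x i * x j * (x i)⁻¹ * (x j)⁻¹) (x i)) →
    (∀ i j, Commute (x i * x j * (x i)⁻¹ * (x j)⁻¹) (x j)) → Kazhdan G

/-- M22. A concrete icc group satisfying the hypotheses of `SpecialTStmt`. -/
def SpecialGStmt : Prop :=
  ∃ (G : Type) (_ : Group G) (x : Fin 3 → G), Countable G ∧ ICC G ∧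
    Subgroup.closure (Set.range x) = ⊤ ∧
    (∀ i, x i ^ 5 = 1) ∧ (∀ i j, Commute (x i * x j * (x i)⁻¹ * (x j)⁻¹) (x i)) ∧
    (∀ i j, Commute (x i * x j * (x i)⁻¹ * (x j)⁻¹) (x j))

end GVN
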