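import Pool.Agent.Lib.MP_5185df_an.Stmts

/-!
# M7a: pushing an element of `ℂ[F3]` down to `ℂ[F2]` (problem MP_5185df_an)
-/

open Filter Topology
open scoped InnerProductSpace ComplexConjugate

namespace GVN

namespace TransAux

theorem n2_Lr_sq {G : Type} [Group G] (p : MonoidAlgebra ℂ G) :
    n2 (Lr p) ^ 2 = ∑ g ∈ p.coeff.support, ‖p.coeff g‖ ^ 2 := by
  rw [n2, norm_sq_eq_tsum]
  simp_rw [Lr_del]
  refine tsum_eq_sum fun g hg => ?_
  rw [Finsupp.notMem_support_iff.1 hg]
  simp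

theorem tr_Lr {G : Type} [Group G] (p : MonoidAlgebra ℂ G) : tr (Lr p) = p.coeff 1 := Lr_del p 1

theorem n2_eq_of_sq {G K : Type} [Group G] [Group K] {S : Op G} {T : Op K}
    (h : n2 S ^ 2 = n2 T ^ 2) : n2 S = n2 T := by
  have := (sq_eq_sq₀ (n2_nonneg S) (n2_nonneg T)).1 h
  exact this

theorem n2_push (θ : F3 →* F2) (E : Finset F3) (hE : Set.InjOn θ (E : Set F3))
    (x : MonoidAlgebra ℂ F3) (hx : x.coeff.support ⊆ E) :
    n2 (Lr (MonoidAlgebra.mapDomain θ x)) = n2 (Lr x) := by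
  classical
  apply n2_eq_of_sq
  rw [n2_Lr_sq, n2_Lr_sq]
  have hx' : ((x.coeff.support : Finset F3) : Set F3) ⊆ (E : Set F3) := by exact_mod_cast hx
  have h1 : (MonoidAlgebra.mapDomain θ x).coeff = Finsupp.mapDomain θ x.coeff := rfl
  rw [h1, Finsupp.mapDomain_support_of_injOn _ (hE.mono hx'), Finset.sum_image]
  · refine Finset.sum_congr rfl fun g hg => ?_
    rw [Finsupp.mapDomain_apply' (E : Set F3) x.coeff hx' hE (hx' hg)]
  · exact hE.mono hx'

theorem tr_push (θ : F3 →* F2) (E : Finset F3) (hE : Set.InjOn θ (E : Set F3)) (h1 : 1 ∈ E)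
    (x : MonoidAlgebra ℂ F3) (hx : x.coeff.support ⊆ E) :
    tr (Lr (MonoidAlgebra.mapDomain θ x)) = tr (Lr x) := by
  rw [tr_Lr, tr_Lr]
  have hx' : ((x.coeff.support : Finset F3) : Set F3) ⊆ (E : Set F3) := by exact_mod_cast hx
  have h2 : (MonoidAlgebra.mapDomain θ x).coeff = Finsupp.mapDomain θ x.coeff := rfl
  rw [h2, ← map_one θ, Finsupp.mapDomain_apply' (E : Set F3) x.coeff hx' hE h1]

theorem iT_ext (q : MonoidAlgebra ℂ F2) : iT.ext q = Lr (MonoidAlgebra.mapDomain incl q) := by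
  induction q using MonoidAlgebra.induction_linear with
  | zero => rw [MonoidAlgebra.mapDomain_zero, map_zero, map_zero]
  | add p q hp hq => rw [MonoidAlgebra.mapDomain_add, map_add, map_add, hp, hq]
  | single g c =>
    rw [MonoidAlgebra.mapDomain_single, Lr_single]
    unfold TPH.ext
    rw [MonoidAlgebra.lift_single]
    rfl

theorem push_incl (θ : F3 →* F2) (h : ∀ g, θ (incl g) = g) (q : MonoidAlgebra ℂ F2) :
    MonoidAlgebra.mapDomain θ (MonoidAlgebra.mapDomain incl q) = q := by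
  have h1 : (MonoidAlgebra.mapDomain θ (MonoidAlgebra.mapDomain incl q)).coeff =
      Finsupp.mapDomain θ (Finsupp.mapDomain incl q.coeff) := rfl
  ext x
  rw [h1, ← Finsupp.mapDomain_comp]
  have : (θ ∘ incl : F2 → F2) = id := funext h
  rw [this, Finsupp.mapDomain_id]

theorem push_adj (θ : F3 →* F2) (p : MonoidAlgebra ℂ F3) :
    MonoidAlgebra.mapDomain θ (adj p) = adj (MonoidAlgebra.mapDomain θ p) := by
  unfold adj
  rw [MonoidAlgebra.mapDomain_sum]
  have h1 : (MonoidAlgebra.mapDomain θ p).coeff = Finsupp.mapDomain θ p.coeff := rfl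
  rw [h1, Finsupp.sum_mapDomain_index]
  · refine Finsupp.sum_congr fun g _ => ?_
    rw [MonoidAlgebra.mapDomain_single, map_inv]
  · intro b; simp
  · intro b c d; simp

end TransAux

open TransAux in
theorem transStmt (h : FreeResStmt) : TransStmt := by
  classical
  intro p Q
  let E : Finset F3 := {1} ∪ p.coeff.support ∪ (p * p).coeff.support ∪
    Q.biUnion fun q => (p * MonoidAlgebra.mapDomain incl q -
      MonoidAlgebra.mapDomain incl q * p).coeff.support
  obtain ⟨θ, hθ, hE⟩ := h E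
  have e1 : (1 : F3) ∈ E := by simp [E]
  have e2 : p.coeff.support ⊆ E := by
    intro g hg
    simp only [E, Finset.mem_union]
    exact Or.inl (Or.inl (Or.inr hg))
  have e3 : (p * p).coeff.support ⊆ E := by
    intro g hg
    simp only [E, Finset.mem_union]
    exact Or.inl (Or.inr hg)
  have e4 : ∀ q ∈ Q, (p * MonoidAlgebra.mapDomain incl q -
      MonoidAlgebra.mapDomain incl q * p).coeff.support ⊆ E := by
    intro q hq g hg
    simp only [E, Finset.mem_union]
    exact Or.inr (Finset.mem_biUnion.2 ⟨q, hq, hg⟩)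
  refine ⟨MonoidAlgebra.mapDomain θ p, n2_push θ E hE p e2, tr_push θ E hE e1 p e2, ?_, ?_, ?_, ?_⟩
  · rw [← map_mul, ← map_mul, ← MonoidAlgebra.mapDomain_mul]
    exact n2_push θ E hE _ e3
  · apply n2_eq_of_sq
    rw [n2_sub_tr_sq, n2_sub_tr_sq, n2_push θ E hE p e2, tr_push θ E hE e1 p e2]
  · intro hp
    rw [← Lr_adj] at hp ⊢
    rw [← push_adj, Lr_injective hp]
  · intro q hq
    rw [iT_ext, ← map_mul, ← map_mul, ← map_mul, ← map_mul, ← map_sub, ← map_sub]
    rw [← n2_push θ E hE _ (e4 q hq)]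
    congr 2
    have hs : MonoidAlgebra.mapDomain θ (p * MonoidAlgebra.mapDomain incl q -
      MonoidAlgebra.mapDomain incl q * p) = MonoidAlgebra.mapDomain θ (p * MonoidAlgebra.mapDomain incl q) -
      MonoidAlgebra.mapDomain θ (MonoidAlgebra.mapDomain incl q * p) :=
      map_sub (MonoidAlgebra.mapDomainRingHom ℂ θ) _ _
    rw [hs, MonoidAlgebra.mapDomain_mul, MonoidAlgebra.mapDomain_mul, push_incl θ hθ]

end GVN
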