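import Pool.Agent.Lib.MP_5185df_an.Stmts

/-!
# The semi-inner product on bounded sequences
-/

open Filter Topology
open scoped InnerProductSpace ComplexConjugate

namespace GVN

/-- Bounded sequences converge along ultrafilters. -/
theorem exists_ulim (V : Ultrafilter ℕ) (f : ℕ → ℂ) (C : ℝ) (hf : ∀ n, ‖f n‖ ≤ C) :
    ∃ l, Tendsto f V (𝓝 l) := by
  have hc : IsCompact (Metric.closedBall (0 : ℂ) C) := isCompact_closedBall _ _
  have h := hc.ultrafilter_le_nhds (V.map f) (by
    rw [le_principal_iff]
    change (V.map f : Filter ℂ).sets (Metric.closedBall 0 C)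
    change _ ∈ V.map f
    rw [Ultrafilter.mem_map]
    refine Filter.univ_mem' fun n => ?_
    simpa using hf n)
  obtain ⟨l, -, hl⟩ := h
  exact ⟨l, hl⟩

/-- M10a. -/
theorem uCoreStmt : UCoreStmt := by
  intro K _ V
  have hb : ∀ x y : BC K, ∃ C : ℝ, ∀ n, ‖tr (star (x.1 n) * y.1 n)‖ ≤ C := by
    intro x y
    obtain ⟨-, C, hC⟩ := x.2
    obtain ⟨-, D, hD⟩ := y.2
    refine ⟨C * D, fun n => ?_⟩
    calc ‖tr (star (x.1 n) * y.1 n)‖ ≤ n2 (star (x.1 n) * y.1 n) := norm_tr_le _
      _ ≤ ‖star (x.1 n) * y.1 n‖ := n2_le_norm _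
      _ ≤ ‖star (x.1 n)‖ * ‖y.1 n‖ := norm_mul_le _ _
      _ ≤ C * D := by
        rw [norm_star_op]
        exact mul_le_mul (hC n) (hD n) (norm_nonneg _) ((norm_nonneg _).trans (hC n))
  have hl : ∀ x y : BC K, ∃ l, Tendsto (fun n => tr (star (x.1 n) * y.1 n)) V (𝓝 l) := by
    intro x y
    obtain ⟨C, hC⟩ := hb x y
    exact exists_ulim V _ C hC
  choose L hL using hl
  have hre : ∀ x : BC K, Tendsto (fun n => n2 (x.1 n) ^ 2) V (𝓝 (L x x).re) := by
    intro x
    have h1 := (Complex.continuous_re.tendsto (L x x)).comp (hL x x)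
    refine h1.congr fun n => ?_
    simp only [Function.comp]
    rw [tr_star_mul_self, Complex.ofReal_re]
  refine ⟨{ inner := L
            conj_inner_symm := ?_
            re_inner_nonneg := ?_
            add_left := ?_
            smul_left := ?_ }, hre⟩
  · intro x y
    refine tendsto_nhds_unique ((Complex.continuous_conj.tendsto _).comp (hL y x)) ?_
    refine (hL x y).congr fun n => ?_
    simp only [Function.comp]
    rw [← tr_star (mul_mem (star_mem (y.2.1 n)) (x.2.1 n)), star_mul, star_star]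
  · intro x
    exact ge_of_tendsto (hre x) (Eventually.of_forall fun n => by positivity)
  · intro x y z
    refine tendsto_nhds_unique (hL (x + y) z) ?_
    refine ((hL x z).add (hL y z)).congr fun n => ?_
    change _ = tr (star (x.1 n + y.1 n) * z.1 n)
    rw [star_add, add_mul, tr_add]
  · intro x y c
    refine tendsto_nhds_unique (hL (c • x) y) ?_
    refine ((hL x y).const_mul (conj c)).congr fun n => ?_
    change _ = tr (star (c • x.1 n) * y.1 n)
    rw [star_smul, smul_mul_assoc, tr_smul]
    rfl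

end GVN
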