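import Pool.Agent.Lib.MP_5185df_an.Stmts

/-!
# M13: property (T) repairs intertwiners, uniform form
-/

open Filter Topology
open scoped InnerProductSpace ComplexConjugate

namespace GVN

namespace Unif

theorem Dg_apply (f : E2 F3) (x : F3) : Dg f x = (((sgn x : ℤˣ) : ℤ) : ℂ) * f x := rfl

theorem Dg_del (x : F3) : Dg (del x) = (((sgn x : ℤˣ) : ℤ) : ℂ) • del x := by
  apply E2_ext
  intro y
  rw [Dg_apply, E2_smul_apply]
  by_cases h : y = x
  · subst h; rfl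
  · rw [del_ne h, mul_zero, mul_zero]

theorem sgn_incl (g : F2) : sgn (incl g) = 1 := by
  have h : sgn.comp incl = 1 := by
    ext i
    simp [sgn, incl]
  exact DFunLike.congr_fun h g

theorem Dg_lam (g : F2) : Dg * lam (incl g) = lam (incl g) * Dg := by
  apply op_ext
  intro x
  change Dg (lam (incl g) (del x)) = lam (incl g) (Dg (del x))
  rw [lam_del, Dg_del, Dg_del, map_smul, lam_del, map_mul, sgn_incl, one_mul]

theorem lam_incl_mem (g : F2) : lam (incl g) ∈ Ev := by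
  unfold Ev Cen
  rw [StarSubalgebra.mem_centralizer_iff]
  intro x hx
  rcases hx with rfl | ⟨h, rfl⟩
  · refine ⟨Dg_lam g, ?_⟩
    have h1 := congrArg star (Dg_lam g⁻¹)
    rw [star_mul, star_mul, star_lam, map_inv, inv_inv] at h1
    exact h1.symm
  · refine ⟨(lam_rt_comm _ _).symm, ?_⟩
    rw [star_rt]
    exact (lam_rt_comm _ _).symm

theorem ext_mem {α : TPH F2 F3} (h : ∀ g, α.u g ∈ Ev) (p : MonoidAlgebra ℂ F2) :
    α.ext p ∈ Ev := by
  unfold TPH.ext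
  rw [MonoidAlgebra.lift_apply]
  exact sum_mem fun g _ => Ev.smul_mem (h g) _

theorem isApp_ext (h1 : MomStmt) {Γ : Type} [Group Γ] {V : Ultrafilter ℕ}
    {a : ℕ → Γ → MonoidAlgebra ℂ F2} (ha : IsApp V (fun n g => Lr (a n g)))
    (α : ℕ → TPH F2 F3) : IsApp V (fun n g => (α n).ext (a n g)) where
  mem n g := (h1 F2 F3 (α n) (a n g)).1
  bdd n g := (h1 F2 F3 (α n) (a n g)).2.2.2.trans (ha.bdd n g)
  one := by
    refine ha.one.congr fun n => ?_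
    have h := (h1 F2 F3 (α n) (a n 1 - 1)).2.2.1
    rw [map_sub, map_sub, map_one, map_one] at h
    exact h.symm
  mul g h := by
    refine (ha.mul g h).congr fun n => ?_
    have h := (h1 F2 F3 (α n) (a n g * a n h - a n (g * h))).2.2.1
    rw [map_sub, map_sub, map_mul, map_mul] at h
    exact h.symm
  adj g := by
    refine (ha.adj g).congr fun n => ?_
    have h := (h1 F2 F3 (α n) (GVN.adj (a n g) - a n g⁻¹)).2.2.1
    rw [map_sub, map_sub, Lr_adj, (h1 F2 F3 (α n) (a n g)).2.1] at h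
    exact h.symm

end Unif

open Unif in
theorem unifStmt (h1 : MomStmt) (h2 : RepairStmt) : UnifStmt := by
  intro Γ _ S c hS V hV a ha hirr η hη
  by_contra hcon
  rw [← Ultrafilter.eventually_not] at hcon
  -- the goal of the uniform statement at `n`
  have key : ∀ n, ∃ (α : TPH F2 F3) (x : Op F3), (∀ g, α.u g ∈ Ev) ∧ x ∈ Ev ∧ ‖x‖ ≤ 1 ∧
      1 / 2 ≤ n2 x ∧ (∀ s ∈ S, n2 (α.ext (a n s) * x - x * iT.ext (a n s)) ≤ c / 100) ∧
      ((∃ x' ∈ Ev, ‖x'‖ ≤ 1 ∧ 1 - η ≤ n2 x' ∧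
        ∀ s ∈ S, n2 (α.ext (a n s) * x' - x' * iT.ext (a n s)) ≤ η) →
      ∀ α : TPH F2 F3, (∀ g, α.u g ∈ Ev) → ∀ x ∈ Ev, ‖x‖ ≤ 1 →
      1 / 2 ≤ n2 x → (∀ s ∈ S, n2 (α.ext (a n s) * x - x * iT.ext (a n s)) ≤ c / 100) →
      ∃ x' ∈ Ev, ‖x'‖ ≤ 1 ∧ 1 - η ≤ n2 x' ∧
        ∀ s ∈ S, n2 (α.ext (a n s) * x' - x' * iT.ext (a n s)) ≤ η) := by
    intro n
    by_cases hn : ∀ α : TPH F2 F3, (∀ g, α.u g ∈ Ev) → ∀ x ∈ Ev, ‖x‖ ≤ 1 →
      1 / 2 ≤ n2 x → (∀ s ∈ S, n2 (α.ext (a n s) * x - x * iT.ext (a n s)) ≤ c / 100) →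
      ∃ x' ∈ Ev, ‖x'‖ ≤ 1 ∧ 1 - η ≤ n2 x' ∧
        ∀ s ∈ S, n2 (α.ext (a n s) * x' - x' * iT.ext (a n s)) ≤ η
    · refine ⟨iT, 1, lam_incl_mem, one_mem _, ?_, ?_, ?_, fun _ => hn⟩
      · exact ContinuousLinearMap.norm_id_le
      · rw [n2_one]; norm_num
      · intro s _
        rw [mul_one, one_mul, sub_self, n2_zero]
        have := hS.1
        positivity
    · push Not at hn
      obtain ⟨α, hα, x, hx, hx1, hx2, hx3, hbad⟩ := hn
      refine ⟨α, x, hα, hx, hx1, hx2, hx3, ?_⟩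
      rintro ⟨x', hx', h3, h4, h5⟩
      obtain ⟨s, hs, h6⟩ := hbad x' hx' h3 h4
      exact absurd (h5 s hs) (not_le.2 h6)
  choose α x hα hx hx1 hx2 hx3 hkey using key
  have hrep := h2 Γ F3 S c hS V hV XEv (Set.subset_insert _ _)
    (fun n g => iT.ext (a n g)) (fun n g => (α n).ext (a n g))
    (isApp_ext h1 ha fun _ => iT) (isApp_ext h1 ha α)
    (fun n g => ext_mem lam_incl_mem _) (fun n g => ext_mem (hα n) _) hirr x hx hx1 hx2 hx3 η hη
  obtain ⟨n, hn1, hn2⟩ := (hrep.and hcon).exists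
  exact hn2 (hkey n hn1)

end GVN
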